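import Pool.Agent.P.MP_cb43af_nt.Defs
import Pool.Agent.P.MP_78d079_nt.PNT

-- part Pool.Agent.P.MP_cb43af_nt.Fz0
section

open Finset Filter Polynomial
namespace Pool.Agent.FMZ

abbrev Nd := Bool × ℤ
def yy (x : Nd) : ℤ := 12 * x.2 + (if x.1 then 3 else 2)
def zz (x : Nd) : ℤ := yy x ^ 2 - 4
noncomputable def nodes (n : ℕ) : Finset Nd := univ ×ˢ Ico (-(n : ℤ)) n

/-- partial sums of inverse cubes along the two chains -/
structure Ch (a b : ℤ) (f : Nd → ℚ) : Prop where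
  zA : f (false, 0) = 0
  zB : f (true, 0) = a
  step : ∀ e i, f (e, i + 1) = f (e, i) + b / ((yy (e, i) : ℚ) + 6) ^ 3

abbrev Col (m : ℕ) := Fin m ⊕ Fin m

def rowv {R : Type} [CommRing R] (m : ℕ) (z s t : R) : Col m → R :=
  Sum.elim (fun k => s * z ^ (k : ℕ)) (fun k => t * z ^ (k : ℕ))

def DG {R : Type} [CommRing R] (m : ℕ) (z g : Col m → R) : R :=
  Matrix.det (Matrix.of fun r => rowv m (z r) 1 (g r))

def DS {R : Type} [CommRing R] (m : ℕ) (z φ : Col m → R) (S : Finset (Col m)) : R :=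
  Matrix.det (Matrix.of fun r => if r ∈ S then rowv m (z r) 0 1 else rowv m (z r) 1 (φ r))

def DD (m : ℕ) (f : Nd → ℚ) (x : Col m → Nd) : ℚ :=
  DG m (fun r => (zz (x r) : ℚ)) (fun r => f (x r))

def WW {ι R : Type} [DecidableEq ι] [CommRing R] (u : ι → R) (S : Finset ι) : R :=
  ∏ i ∈ S, ∏ j ∈ S.erase i, (u i - u j)

def WG {ι γ R : Type} [Fintype ι] [DecidableEq ι] [DecidableEq γ] [CommRing R] (u : ι → R)
    (g : ι → γ) : R :=
  ∏ i, ∏ j ∈ (univ.erase i).filter (fun j => g j = g i), (u i - u j)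

/-- ordered pairs of distinct points of `S` with equal label -/
def cg {ι γ : Type} [DecidableEq ι] [DecidableEq γ] (g : ι → γ) (S : Finset ι) : ℕ :=
  ∑ i ∈ S, ((S.erase i).filter fun j => g j = g i).card

/-- points that share their label with another point -/
def mult {ι γ : Type} [Fintype ι] [DecidableEq ι] [DecidableEq γ] (g : ι → γ) : ℕ :=
  (univ.filter fun i => ∃ j, j ≠ i ∧ g j = g i).card

/-- a matching of points with equal label -/
def Mat {ι γ : Type} (g : ι → γ) (T : Finset ι) (σ : ι → ι) : Prop :=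
  (∀ i ∈ T, g (σ i) = g i ∧ σ i ∉ T) ∧ Set.InjOn σ T

structure Sel (n m : ℕ) (x : Col m → Nd) : Prop where
  inj : Function.Injective x
  mem : ∀ r, x r ∈ nodes n
  hm : m + 1 = 2 * n

def qq (m : ℕ) (f : Nd → ℚ) (x : Col m → Nd) : ℚ :=
  DD m f x ^ 4 / (WW (fun r => zz (x r)) univ : ℤ)

def Phi (p : ℕ) (t : ZMod p) : ZMod p := ∑ j ∈ Icc 1 t.val, ((j : ZMod p)⁻¹) ^ 3
def FF (p : ℕ) (y : ZMod p) : ZMod p := ((12 : ZMod p)⁻¹) ^ 3 * Phi p ((y - 6) * (12 : ZMod p)⁻¹)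
def Hp (a b : ℤ) (p : ℕ) : Prop := (b : ZMod p) * (FF p 3 - FF p 2) = a
def lift0 (b : ℤ) (p : ℕ) (x : Nd) : ℤ := ((b : ZMod p) * (FF p (yy x) - FF p 2)).val
def Pole (p : ℕ) (x : Nd) : Prop :=
  ∃ j : ℤ, (0 ≤ j ∧ j < x.2 ∨ x.2 ≤ j ∧ j < 0) ∧ (p : ℤ) ∣ yy (x.1, j) + 6

def NN (k : ℕ) (u : ℚ) : ℚ := ∏ i ∈ range k, (u - (12 * i + 6) ^ 2)
def gam (k : ℕ) : ℚ := (-1) ^ (k + 1) * 144 ^ k * (k.factorial : ℚ) ^ 2 / (24 * (k + 1))
def TK (K : ℕ) (y : ℚ) : ℚ := ∑ k ∈ range K, gam k / NN (k + 1) (y ^ 2)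

def PR (M : ℕ) : Finset ℕ := (range M).filter Nat.Prime
noncomputable def th (M : ℕ) : ℝ := ∑ p ∈ PR M, Real.log p
noncomputable def JJ (M : ℕ) : ℝ := ∑ p ∈ PR M, ((M : ℝ) - p) * Real.log p
noncomputable def II (s ν : ℕ) : ℝ :=
  ∑ p ∈ (PR (s * ν)).filter (fun p => 3 * ν ≤ p), ((s * ν : ℝ) - p) * Real.log p

def VV : Submodule ℚ (ℕ → ℚ) := Submodule.span ℚ (Set.range zeta)
def UU : Submodule ℚ (ℕ → ℚ) :=
  Submodule.span ℚ (Set.range fun t : List ℕ+ × ℕ => fun n : ℕ => zeta t.1 n / (n : ℚ) ^ t.2)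
def SS (φ : ℕ → ℚ) (M : ℕ) : ℚ := ∑ n ∈ Ioo 0 M, φ n / n
def TT (φ : ℕ → ℚ) (M : ℕ) : ℚ := ∑ n ∈ Icc 1 M, (-1) ^ (n + 1) * (M.choose n : ℚ) * φ n
/-- lies in `p` times the completed algebra -/
def Lf (x : ℕ → ℚ) : Prop := ∃ d, ∀ N, Cong N x fun p => p * trunc d N p

end Pool.Agent.FMZ
end

-- part Pool.Agent.P.MP_cb43af_nt.Fv0
section

open Finset Filter Polynomial
namespace Pool.Agent.FMZ

def inc (b c : ℤ) (l : ℚ) : ℚ := b / l ^ 3 + c / l ^ 5

/-- sums of inverse cubes and inverse fifth powers along the two chains -/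
structure Ch5 (a b c : ℤ) (f : Nd → ℚ) : Prop where
  zA : f (false, 0) = 0
  zB : f (true, 0) = a
  step : ∀ e i, f (e, i + 1) = f (e, i) + inc b c ((yy (e, i) : ℚ) + 6)

def Phi5 (p : ℕ) (t : ZMod p) : ZMod p := ∑ j ∈ Icc 1 t.val, ((j : ZMod p)⁻¹) ^ 5
def FF5 (p : ℕ) (y : ZMod p) : ZMod p := ((12 : ZMod p)⁻¹) ^ 5 * Phi5 p ((y - 6) * (12 : ZMod p)⁻¹)
def GG (b c : ℤ) (p : ℕ) (y : ZMod p) : ZMod p := b * FF p y + c * FF5 p y
def Hp5 (a b c : ℤ) (p : ℕ) : Prop := GG b c p 3 - GG b c p 2 = a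
def lift5 (b c : ℤ) (p : ℕ) (x : Nd) : ℤ := (GG b c p (yy x) - GG b c p 2).val

/-- prime, its analytic chain, rate, twice the mean valuation on that chain -/
def Gd (p : ℕ) (e : Bool) (ρ σ : ℕ) : Prop :=
  p = 2 ∧ e = true ∧ ρ = 6 ∧ σ = 8 ∨ p = 3 ∧ e = false ∧ ρ = 3 ∧ σ = 3

def TW (w : ℕ → ℚ) (K : ℕ) (y : ℚ) : ℚ := ∑ i ∈ range K, w i / (y ^ 2 - (12 * i + 6) ^ 2)
def bet (K j : ℕ) : ℚ := 2 * (-1) ^ (j + 1) * ((2 * K).choose (K + j + 1) : ℚ) / ((2 * K).choose K : ℚ)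
def aa (j : ℕ) : ℚ := 144 * (j + 1) ^ 2
/-- the rows on one chain -/
def chn {m : ℕ} (x : Col m → Nd) (e : Bool) : Finset (Col m) := univ.filter fun r => (x r).1 = e

noncomputable def I6 (s ν : ℕ) : ℝ :=
  ∑ p ∈ (PR (s * ν)).filter (fun p => 6 * ν ≤ p), ((s * ν : ℝ) - p) * Real.log p

end Pool.Agent.FMZ
end

-- part Pool.Agent.P.MP_cb43af_nt.FzRat
section

open Finset Filter Polynomial
namespace Pool.Agent.FMZ

theorem fzrat_cop {b : ℂ} (hb : b ≠ 0) (P Q : ℂ[X]) (hQ : Q ≠ 0)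
    (h : ∀ y : ℂ, y ^ 3 * (P.eval (y - 6) * Q.eval (y + 6) - P.eval (y + 6) * Q.eval (y - 6))
      = b * (Q.eval (y + 6) * Q.eval (y - 6))) : ∃ r, P.eval r = 0 ∧ Q.eval r = 0 := by
  classical
  by_contra hn
  have hP : ∀ r, Q.eval r = 0 → P.eval r ≠ 0 := fun r h1 h2 => hn ⟨r, h2, h1⟩
  have hm : ∀ r, r ∈ Q.roots.toFinset ↔ Q.eval r = 0 := fun r => by
    rw [Multiset.mem_toFinset, mem_roots hQ, IsRoot.def]
  have hne : Q.roots.toFinset.Nonempty := by
    have h0 := h 0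
    rw [zero_pow (by norm_num), zero_mul] at h0
    rcases mul_eq_zero.1 ((mul_eq_zero.1 h0.symm).resolve_left hb) with h1 | h1
    exacts [⟨_, (hm _).2 h1⟩, ⟨_, (hm _).2 h1⟩]
  obtain ⟨y0, hy0, h0⟩ := exists_max_image _ Complex.re hne
  obtain ⟨y1, hy1, h1⟩ := exists_min_image _ Complex.re hne
  have a0 := (hm _).1 hy0
  have a1 := (hm _).1 hy1
  have b0 : Q.eval (y0 + 6 + 6) ≠ 0 := fun e => by
    have := h0 _ ((hm _).2 e)
    simp only [Complex.add_re, Complex.re_ofNat] at this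
    linarith
  have b1 : Q.eval (y1 - 6 - 6) ≠ 0 := fun e => by
    have := h1 _ ((hm _).2 e)
    simp only [Complex.sub_re, Complex.re_ofNat] at this
    linarith
  have c0 := h (y0 + 6)
  have c1 := h (y1 - 6)
  rw [add_sub_cancel_right, a0, mul_zero, mul_zero, mul_zero, sub_zero] at c0
  rw [sub_add_cancel, a1, mul_zero, zero_mul, mul_zero, zero_sub] at c1
  have d0 : y0 + 6 = 0 :=
    pow_eq_zero_iff (by norm_num) |>.1
      ((mul_eq_zero.1 c0).resolve_right (mul_ne_zero (hP _ a0) b0))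
  have d1 : y1 - 6 = 0 :=
    pow_eq_zero_iff (by norm_num) |>.1
      ((mul_eq_zero.1 c1).resolve_right (neg_ne_zero.2 (mul_ne_zero (hP _ a1) b1)))
  have e0 := congrArg Complex.re d0
  have e1 := congrArg Complex.re d1
  have e2 := h0 _ hy1
  simp only [Complex.add_re, Complex.sub_re, Complex.re_ofNat, Complex.zero_re] at e0 e1
  linarith

theorem fzrat_ind {b : ℂ} (hb : b ≠ 0) (n : ℕ) : ∀ P Q : ℂ[X], Q.natDegree < n →
    X ^ 3 * (P.comp (X - C 6) * Q.comp (X + C 6) - P.comp (X + C 6) * Q.comp (X - C 6))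
      = C b * (Q.comp (X + C 6) * Q.comp (X - C 6)) → Q = 0 := by
  induction n with
  | zero => exact fun _ _ h => absurd h (Nat.not_lt_zero _)
  | succ n ih =>
    intro P Q hd h
    by_contra hQ
    obtain ⟨r, hP, hr⟩ := fzrat_cop hb P Q hQ fun y => by
      simpa only [eval_mul, eval_sub, eval_add, eval_pow, eval_X, eval_C, eval_comp] using
        congrArg (eval y) h
    obtain ⟨P1, rfl⟩ := dvd_iff_isRoot.2 hP
    obtain ⟨Q1, rfl⟩ := dvd_iff_isRoot.2 hr
    have hQ1 : Q1 ≠ 0 := right_ne_zero_of_mul hQ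
    rw [natDegree_mul (X_sub_C_ne_zero r) hQ1, natDegree_X_sub_C] at hd
    refine hQ1 (ih P1 Q1 (by omega) ?_)
    have n1 : (X - C 6 - C r : ℂ[X]) ≠ 0 := by
      rw [sub_sub, ← C_add]
      exact X_sub_C_ne_zero _
    have n2 : (X + C 6 - C r : ℂ[X]) ≠ 0 := by
      rw [add_sub_assoc, ← C_sub]
      exact X_add_C_ne_zero _
    refine mul_left_cancel₀ (mul_ne_zero n1 n2) ?_
    simp only [mul_comp, sub_comp, X_comp, C_comp] at h
    linear_combination h

/-- no rational function solves the difference equation -/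
theorem no_rat {b : ℂ} (hb : b ≠ 0) (P Q : ℂ[X])
    (h : X ^ 3 * (P.comp (X - C 6) * Q.comp (X + C 6) - P.comp (X + C 6) * Q.comp (X - C 6))
      = C b * (Q.comp (X + C 6) * Q.comp (X - C 6))) : Q = 0 :=
  fzrat_ind hb _ P Q (Nat.lt_succ_self _) h

end Pool.Agent.FMZ
end

-- part Pool.Agent.P.MP_cb43af_nt.FzRank
section

open Finset Filter Polynomial
namespace Pool.Agent.FMZ

theorem exists_minor {α κ : Type} [Fintype κ] [DecidableEq κ] (A : Finset α) (v : α → κ → ℚ)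
    (h : ∀ c : κ → ℚ, (∀ x ∈ A, ∑ k, v x k * c k = 0) → c = 0) :
    ∃ x : κ → α, Function.Injective x ∧ (∀ r, x r ∈ A) ∧
      Matrix.det (Matrix.of fun r => v (x r)) ≠ 0 := by
  have hs : Submodule.span ℚ (v '' A) = ⊤ := by
    by_contra hne
    obtain ⟨f, hf, hle⟩ := Submodule.exists_le_ker_of_lt_top _ (lt_top_iff_ne_top.2 hne)
    have h0 := h (fun k => f fun j => if k = j then 1 else 0) fun x hx => by
      have h1 : f (v x) = 0 := hle (Submodule.subset_span ⟨x, hx, rfl⟩)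
      rw [LinearMap.pi_apply_eq_sum_univ] at h1
      exact h1
    refine hf (LinearMap.ext fun y => ?_)
    rw [LinearMap.pi_apply_eq_sum_univ]
    exact sum_eq_zero fun k _ => by rw [show f _ = 0 from congrFun h0 k, smul_zero]
  obtain ⟨b, hb, hsp, hli⟩ := exists_linearIndependent ℚ (v '' A)
  let B : Module.Basis b ℚ (κ → ℚ) := Module.Basis.mk hli (by simp [hsp, hs])
  let e : κ ≃ b := (Pi.basisFun ℚ κ).indexEquiv B
  choose x hx hx' using fun r => hb (e r).2
  have hl : LinearIndependent ℚ fun r => v (x r) := by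
    simp only [hx']
    exact hli.comp e e.injective
  refine ⟨x, fun r r' hr => hl.injective (congrArg v hr), hx, ?_⟩
  exact ((Matrix.isUnit_iff_isUnit_det _).1
    (Matrix.linearIndependent_rows_iff_isUnit.1 hl)).ne_zero

end Pool.Agent.FMZ
end

-- part Pool.Agent.P.MP_cb43af_nt.FzVal
section

open Finset Filter Polynomial
namespace Pool.Agent.FMZ

theorem val_of_norm (p : ℕ) [Fact p.Prime] {q : ℚ} (hq : q ≠ 0) (k : ℤ) :
    padicNorm p q ≤ (p : ℚ) ^ (-k) ↔ k ≤ padicValRat p q := by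
  have h1 : (1 : ℚ) < p := by exact_mod_cast (Fact.out : p.Prime).one_lt
  rw [padicNorm.eq_zpow_of_nonzero hq, zpow_le_zpow_iff_right₀ h1, neg_le_neg_iff]

theorem val_term {α : Type} (p : ℕ) [Fact p.Prime] (s : Finset α) (t : α → ℚ)
    (h : ∑ i ∈ s, t i ≠ 0) :
    ∃ i ∈ s, t i ≠ 0 ∧ padicValRat p (t i) ≤ padicValRat p (∑ i ∈ s, t i) := by
  classical
  obtain ⟨i0, hi0, h0⟩ := exists_ne_zero_of_sum_ne_zero h
  obtain ⟨i, hi, hm⟩ := exists_min_image (s.filter fun i => t i ≠ 0) (fun i => padicValRat p (t i))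
    ⟨i0, mem_filter.2 ⟨hi0, h0⟩⟩
  refine ⟨i, (mem_filter.1 hi).1, (mem_filter.1 hi).2, (val_of_norm p h _).1 ?_⟩
  refine padicNorm.sum_le' (fun j hj => ?_) (by positivity)
  by_cases hj0 : t j = 0
  · rw [hj0, padicNorm.zero]; positivity
  · exact (val_of_norm p hj0 _).2 (hm j (mem_filter.2 ⟨hj, hj0⟩))

theorem val_prod {α : Type} (p : ℕ) [Fact p.Prime] (s : Finset α) (t : α → ℚ)
    (h : ∀ i ∈ s, t i ≠ 0) :
    padicValRat p (∏ i ∈ s, t i) = ∑ i ∈ s, padicValRat p (t i) := by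
  classical
  induction s using Finset.induction_on with
  | empty => simp
  | insert a s ha ih =>
    have h' : ∀ i ∈ s, t i ≠ 0 := fun i hi => h i (mem_insert_of_mem hi)
    rw [prod_insert ha, sum_insert ha,
      padicValRat.mul (h a (mem_insert_self _ _)) (prod_ne_zero_iff.2 h'), ih h']

theorem valInt_prod {α : Type} (p : ℕ) [Fact p.Prime] (s : Finset α) (t : α → ℤ)
    (h : ∀ i ∈ s, t i ≠ 0) :
    padicValInt p (∏ i ∈ s, t i) = ∑ i ∈ s, padicValInt p (t i) := by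
  classical
  induction s using Finset.induction_on with
  | empty => simp
  | insert a s ha ih =>
    have h' : ∀ i ∈ s, t i ≠ 0 := fun i hi => h i (mem_insert_of_mem hi)
    rw [prod_insert ha, sum_insert ha,
      padicValInt.mul (h a (mem_insert_self _ _)) (prod_ne_zero_iff.2 h'), ih h']

theorem WW_ne_zero {ι : Type} [DecidableEq ι] {u : ι → ℤ} (hu : Function.Injective u)
    (S : Finset ι) : WW u S ≠ 0 :=
  prod_ne_zero_iff.2 fun _ _ => prod_ne_zero_iff.2 fun _ hj h =>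
    ne_of_mem_erase hj (hu (sub_eq_zero.1 h)).symm

theorem fzval_count (p : ℕ) [Fact p.Prime] {z : ℤ} {K : ℕ} (h : ¬ (p : ℤ) ^ (K + 1) ∣ z) :
    padicValInt p z = ∑ k ∈ Icc 1 K, if (p : ℤ) ^ k ∣ z then 1 else 0 := by
  have z0 : z ≠ 0 := fun e => h (e ▸ dvd_zero _)
  have hv : ∀ k, (p : ℤ) ^ k ∣ z ↔ k ≤ padicValInt p z := fun k => by
    rw [padicValInt_dvd_iff]; simp [z0]
  have hK : padicValInt p z ≤ K := by
    rw [hv] at h; omega
  rw [← card_filter]
  have : (Icc 1 K).filter (fun k => (p : ℤ) ^ k ∣ z) = Icc 1 (padicValInt p z) := by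
    ext k; simp only [mem_filter, mem_Icc, hv]; omega
  rw [this]; simp

theorem val_WW {ι : Type} [DecidableEq ι] (p : ℕ) [Fact p.Prime] {u : ι → ℤ} {K : ℕ}
    (hK : ∀ i j, i ≠ j → ¬ (p : ℤ) ^ (K + 1) ∣ u i - u j) (S : Finset ι) :
    padicValInt p (WW u S) = ∑ k ∈ Icc 1 K, cg (fun i => u i % (p : ℤ) ^ k) S := by
  have d0 : ∀ i, ∀ j ∈ S.erase i, u i - u j ≠ 0 := fun i j hj e =>
    hK i j (ne_of_mem_erase hj).symm (e ▸ dvd_zero _)
  rw [WW, valInt_prod p _ _ fun i _ => prod_ne_zero_iff.2 (d0 i)]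
  simp only [cg]
  rw [sum_comm]
  refine sum_congr rfl fun i _ => ?_
  rw [valInt_prod p _ _ (d0 i),
    sum_congr rfl fun j hj => fzval_count p (hK i j (ne_of_mem_erase hj).symm), sum_comm]
  refine sum_congr rfl fun k _ => ?_
  rw [card_filter]
  refine sum_congr rfl fun j _ => if_congr ?_ rfl rfl
  exact (Int.modEq_iff_dvd (a := u j) (b := u i)).symm

theorem fzval_log (n : ℕ) (T : Finset ℕ) (hT : ∀ p ∈ T, p.Prime) (h : n.primeFactors ⊆ T) :
    Real.log n = ∑ p ∈ T, (padicValNat p n : ℝ) * Real.log p := by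
  rw [Real.log_nat_eq_sum_factorization, Finsupp.sum_of_support_subset _ h _ (by simp)]
  exact sum_congr rfl fun p hp => by rw [Nat.factorization_def _ (hT p hp)]

/-- half of the product formula -/
theorem log_abs_ge {q : ℚ} (hq : q ≠ 0) (P : Finset ℕ) (hP : ∀ p ∈ P, p.Prime)
    (h : ∀ p, p.Prime → p ∉ P → 0 ≤ padicValRat p q) :
    ∑ p ∈ P, (padicValRat p q : ℝ) * Real.log p ≤ Real.log |(q : ℝ)| := by
  set T := P ∪ (q.num.natAbs.primeFactors ∪ q.den.primeFactors) with hT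
  have hTp : ∀ p ∈ T, p.Prime := fun p hp => by
    simp only [hT, mem_union] at hp
    rcases hp with hp | hp | hp
    · exact hP p hp
    · exact Nat.prime_of_mem_primeFactors hp
    · exact Nat.prime_of_mem_primeFactors hp
  have n0 : ((q.num.natAbs : ℕ) : ℝ) ≠ 0 := by
    exact_mod_cast Int.natAbs_ne_zero.2 (Rat.num_ne_zero.2 hq)
  have d0 : ((q.den : ℕ) : ℝ) ≠ 0 := by exact_mod_cast q.den_nz
  have e : |(q : ℝ)| = (q.num.natAbs : ℝ) / q.den := by
    rw [Rat.cast_def, abs_div, Nat.abs_cast, Nat.cast_natAbs, Int.cast_abs]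
  rw [e, Real.log_div n0 d0,
    fzval_log _ T hTp (subset_union_left.trans subset_union_right),
    fzval_log _ T hTp (subset_union_right.trans subset_union_right), ← sum_sub_distrib]
  have e2 : ∀ p ∈ T, (padicValNat p q.num.natAbs : ℝ) * Real.log p
      - (padicValNat p q.den : ℝ) * Real.log p = (padicValRat p q : ℝ) * Real.log p := fun p _ => by
    rw [padicValRat, padicValInt, Int.cast_sub, Int.cast_natCast, Int.cast_natCast]; ring
  rw [sum_congr rfl e2]
  refine sum_le_sum_of_subset_of_nonneg subset_union_left fun p hp hn => mul_nonneg ?_ ?_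
  · exact_mod_cast h p (hTp p hp) hn
  · exact Real.log_natCast_nonneg p

end Pool.Agent.FMZ
end

-- part Pool.Agent.P.MP_cb43af_nt.FzNode
section

open Finset Filter Polynomial
namespace Pool.Agent.FMZ

theorem mem_nodes {n : ℕ} {x : Nd} : x ∈ nodes n ↔ -(n : ℤ) ≤ x.2 ∧ x.2 < n := by
  simp [nodes, mem_product]
theorem card_nodes (n : ℕ) : (nodes n).card = 4 * n := by
  rw [nodes, card_product, card_univ, Fintype.card_bool, Int.card_Ico]
  omega
theorem yy_lt {n : ℕ} {x : Nd} (h : x ∈ nodes n) : |yy x| < 12 * n := by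
  obtain ⟨h1, h2⟩ := mem_nodes.1 h
  rw [abs_lt, yy]
  split_ifs <;> omega
theorem yy_inj : Function.Injective yy := by
  rintro ⟨e, i⟩ ⟨e', i'⟩ h
  cases e <;> cases e' <;> simp [yy] at h ⊢ <;> omega
theorem yy_add_ne (x x' : Nd) : yy x + yy x' ≠ 0 := by
  rw [yy, yy]
  split_ifs <;> omega
theorem yy_link_ne (x : Nd) : yy x + 6 ≠ 0 := by
  rw [yy]
  split_ifs <;> omega
theorem zz_sub (x x' : Nd) : zz x - zz x' = (yy x - yy x') * (yy x + yy x') := by
  rw [zz, zz]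
  ring
theorem zz_inj : Function.Injective zz := by
  intro x x' h
  have h1 := zz_sub x x'
  rw [h, sub_self] at h1
  exact yy_inj (sub_eq_zero.1 ((mul_eq_zero.1 h1.symm).resolve_right (yy_add_ne x x')))
theorem Sel.zinj {n m : ℕ} {x : Col m → Nd} (h : Sel n m x) :
    Function.Injective fun r => zz (x r) := zz_inj.comp h.inj
theorem exists_ch (a b : ℤ) : ∃ f, Ch a b f := by
  let g : Bool → ℤ → ℚ := fun e i => b / ((yy (e, i) : ℚ) + 6) ^ 3
  refine ⟨fun x => (if x.1 then (a : ℚ) else 0) + ∑ j ∈ range x.2.toNat, g x.1 j -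
    ∑ j ∈ range (-x.2).toNat, g x.1 (-1 - j), by simp, by simp, fun e i => ?_⟩
  show _ = _ + g e i
  rcases le_or_gt 0 i with hi | hi
  · obtain ⟨k, rfl⟩ := Int.eq_ofNat_of_zero_le hi
    have e1 : ((k : ℤ) + 1).toNat = k + 1 := by omega
    have e2 : (-((k : ℤ) + 1)).toNat = 0 := by omega
    have e3 : (-(k : ℤ)).toNat = 0 := by omega
    simp only [e1, e2, e3, Int.toNat_natCast, sum_range_succ, range_zero, sum_empty]
    ring
  · obtain ⟨k, rfl⟩ : ∃ k : ℕ, i = -1 - k := ⟨(-1 - i).toNat, by omega⟩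
    have e1 : (-1 - (k : ℤ) + 1).toNat = 0 := by omega
    have e2 : (-(-1 - (k : ℤ) + 1)).toNat = k := by omega
    have e3 : (-(-1 - (k : ℤ))).toNat = k + 1 := by omega
    have e4 : (-1 - (k : ℤ)).toNat = 0 := by omega
    simp only [e1, e2, e3, e4, sum_range_succ, range_zero, sum_empty]
    ring
theorem fznode_cast (x : Nd) : (yy x : ℚ) + 6 = ((yy x + 6 : ℤ) : ℚ) := by push_cast; rfl
theorem fznode_abs (b : ℤ) (x : Nd) : |(b : ℚ) / ((yy x : ℚ) + 6) ^ 3| ≤ |(b : ℚ)| := by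
  have h1 : (1 : ℚ) ≤ |(yy x : ℚ) + 6| := by
    rw [fznode_cast]
    exact_mod_cast Int.one_le_abs (yy_link_ne x)
  rw [abs_div, abs_pow]
  exact div_le_self (abs_nonneg _) (one_le_pow₀ h1)
theorem fznode_down {a b : ℤ} {f : Nd → ℚ} (h : Ch a b f) (e : Bool) (i : ℤ) :
    f (e, i - 1) = f (e, i) - b / ((yy (e, i - 1) : ℚ) + 6) ^ 3 := by
  have := h.step e (i - 1)
  rw [sub_add_cancel] at this
  rw [this, add_sub_cancel_right]
theorem ch_abs {a b : ℤ} {f : Nd → ℚ} (h : Ch a b f) {n : ℕ} {x : Nd} (hx : x ∈ nodes n) :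
    |f x| ≤ |(a : ℚ)| + |(b : ℚ)| * n := by
  obtain ⟨e, i⟩ := x
  have key : ∀ i : ℤ, |f (e, i)| ≤ |(a : ℚ)| + |(b : ℚ)| * |(i : ℚ)| := by
    intro i
    induction i using Int.induction_on with
    | zero => cases e <;> simp [h.zA, h.zB]
    | succ k ih =>
      have h1 := fznode_abs b (e, k)
      have h2 := abs_add_le (f (e, k)) ((b : ℚ) / ((yy (e, k) : ℚ) + 6) ^ 3)
      rw [h.step]
      push_cast at ih ⊢
      rw [abs_of_nonneg (by positivity : (0 : ℚ) ≤ k)] at ih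
      rw [abs_of_nonneg (by positivity : (0 : ℚ) ≤ k + 1)]
      linarith
    | pred k ih =>
      have h1 := fznode_abs b (e, -(k : ℤ) - 1)
      have h2 := abs_sub (f (e, -(k : ℤ))) ((b : ℚ) / ((yy (e, -(k : ℤ) - 1) : ℚ) + 6) ^ 3)
      have h3 : (0 : ℚ) ≤ k := by positivity
      rw [fznode_down h]
      push_cast at ih ⊢
      rw [abs_neg, abs_of_nonneg h3] at ih
      rw [abs_of_nonpos (by linarith : -(k : ℚ) - 1 ≤ 0)]
      linarith
  obtain ⟨h1, h2⟩ := mem_nodes.1 hx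
  have h3 : |(i : ℚ)| ≤ n := by
    have : |i| ≤ (n : ℤ) := abs_le.2 ⟨h1, h2.le⟩
    exact_mod_cast this
  exact (key i).trans (add_le_add le_rfl (mul_le_mul_of_nonneg_left h3 (abs_nonneg _)))
theorem fznode_norm (p : ℕ) [hp : Fact p.Prime] (b : ℤ) {l : ℤ} {L : ℕ} (h0 : l ≠ 0)
    (h1 : |l| < (p : ℤ) ^ (L + 1)) : padicNorm p ((b : ℚ) / (l : ℚ) ^ 3) ≤ (p : ℚ) ^ (3 * L) := by
  have hp1 : (1 : ℚ) ≤ p := by exact_mod_cast hp.out.one_le
  have h2 : padicValInt p l ≤ L := by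
    by_contra h3
    have h4 : (p : ℤ) ^ (L + 1) ∣ l := (padicValInt_dvd_iff _ _).2 (Or.inr (by omega))
    exact absurd (Int.le_of_dvd (abs_pos.2 h0) ((dvd_abs _ _).2 h4)) (not_le.2 h1)
  have h3 : padicNorm p ((l : ℚ) ^ 3) = ((p : ℚ) ^ (3 * padicValInt p l))⁻¹ := by
    have h4 : (l : ℚ) ≠ 0 := by exact_mod_cast h0
    rw [padicNorm.eq_zpow_of_nonzero (pow_ne_zero 3 h4), padicValRat.pow, padicValRat.of_int,
      zpow_neg, ← zpow_natCast]
    push_cast
    rfl
  rw [padicNorm.div, h3, div_inv_eq_mul]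
  calc padicNorm p (b : ℚ) * (p : ℚ) ^ (3 * padicValInt p l)
      ≤ 1 * (p : ℚ) ^ (3 * L) := by
        refine mul_le_mul (padicNorm.of_int b) (pow_le_pow_right₀ hp1 (by omega)) (by positivity)
          zero_le_one
    _ = _ := one_mul _
theorem ch_norm {a b : ℤ} {f : Nd → ℚ} (h : Ch a b f) (p : ℕ) [Fact p.Prime] {n L : ℕ}
    (hL : 12 * n ≤ p ^ (L + 1)) {x : Nd} (hx : x ∈ nodes n) :
    padicNorm p (f x) ≤ (p : ℚ) ^ (3 * L) := by
  obtain ⟨e, i⟩ := x
  have hp1 : (1 : ℚ) ≤ p := by exact_mod_cast (Fact.out : p.Prime).one_le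
  have hL' : (12 * n : ℤ) ≤ (p : ℤ) ^ (L + 1) := by exact_mod_cast hL
  have hs : ∀ j : ℤ, -(n : ℤ) ≤ j → j + 1 < n ∨ j < 0 →
      padicNorm p ((b : ℚ) / ((yy (e, j) : ℚ) + 6) ^ 3) ≤ (p : ℚ) ^ (3 * L) := by
    intro j h1 h2
    rw [fznode_cast]
    refine fznode_norm p b (yy_link_ne _) (lt_of_lt_of_le ?_ hL')
    rw [abs_lt, yy]
    split_ifs <;> omega
  have key : ∀ i : ℤ, -(n : ℤ) ≤ i → i < n → padicNorm p (f (e, i)) ≤ (p : ℚ) ^ (3 * L) := by
    intro i
    induction i using Int.induction_on with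
    | zero =>
      intro _ _
      cases e
      · rw [h.zA, padicNorm.zero]; positivity
      · rw [h.zB]; exact (padicNorm.of_int a).trans (one_le_pow₀ hp1)
    | succ k ih =>
      intro h1 h2
      rw [h.step]
      exact padicNorm.nonarchimedean.trans
        (max_le (ih (by omega) (by omega)) (hs k (by omega) (Or.inl h2)))
    | pred k ih =>
      intro h1 h2
      rw [fznode_down h]
      exact padicNorm.sub.trans
        (max_le (ih (by omega) (by omega)) (hs _ h1 (Or.inr (by omega))))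
  exact key i (mem_nodes.1 hx).1 (mem_nodes.1 hx).2
theorem fznode_cop {p : ℕ} (hp : p.Prime) (h5 : 5 ≤ p) {z : ℤ} (h : (p : ℤ) ∣ 12 * z) :
    (p : ℤ) ∣ z := by
  refine ((Nat.prime_iff_prime_int.1 hp).dvd_or_dvd h).resolve_left fun h1 => ?_
  have h2 : p ∣ 2 * 2 * 3 := by exact_mod_cast h1
  rcases (Nat.Prime.dvd_mul hp).1 h2 with h3 | h3
  · have := Nat.le_of_dvd (by norm_num) h3
    omega
  · have := Nat.le_of_dvd (by norm_num) h3
    omega
theorem card_dvd {n m : ℕ} {x : Col m → Nd} (h : Sel n m x) {p : ℕ} (hp : p.Prime) (h5 : 5 ≤ p) :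
    (((univ.filter fun r => (p : ℤ) ∣ yy (x r)).card : ℕ) : ℝ) ≤ 4 * n / p + 2 := by
  have h1 : (univ.filter fun r => (p : ℤ) ∣ yy (x r)).card ≤
      ((univ : Finset Bool) ×ˢ range (2 * n / p + 1)).card := by
    refine card_le_card_of_injOn (fun r => ((x r).1, ((x r).2 + n).toNat / p)) (fun r _ => ?_)
      fun r hr s hs hrs => ?_
    · obtain ⟨h2, h3⟩ := mem_nodes.1 (h.mem r)
      refine mem_coe.2 (mem_product.2 ⟨mem_univ _, mem_range.2 (Nat.lt_succ_of_le ?_)⟩)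
      exact Nat.div_le_div_right (by omega)
    · obtain ⟨h2, -⟩ := mem_nodes.1 (h.mem r)
      obtain ⟨h3, -⟩ := mem_nodes.1 (h.mem s)
      obtain ⟨e1, e2⟩ := Prod.mk.inj hrs
      have h4 := dvd_sub (mem_filter.1 hr).2 (mem_filter.1 hs).2
      have h5' : yy (x r) - yy (x s) = 12 * ((x r).2 - (x s).2) := by
        rw [yy, yy, e1]; ring
      rw [h5'] at h4
      have h6 := fznode_cop hp h5 h4
      have h7 : ((x s).2 + n).toNat ≡ ((x r).2 + n).toNat [MOD p] := by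
        rw [Nat.modEq_iff_dvd, Int.toNat_of_nonneg (by omega), Int.toNat_of_nonneg (by omega),
          add_sub_add_right_eq_sub]
        exact h6
      have h8 : ((x r).2 + n).toNat = ((x s).2 + n).toNat := by
        rw [← Nat.div_add_mod ((x r).2 + n).toNat p, ← Nat.div_add_mod ((x s).2 + n).toNat p, e2,
          show ((x s).2 + n).toNat % p = ((x r).2 + n).toNat % p from h7]
      exact h.inj (Prod.ext e1 (by omega))
  rw [card_product, card_univ, Fintype.card_bool, card_range] at h1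
  have h2 : ((2 * n / p : ℕ) : ℝ) ≤ ((2 * n : ℕ) : ℝ) / p := Nat.cast_div_le
  have h3 : (((univ.filter fun r => (p : ℤ) ∣ yy (x r)).card : ℕ) : ℝ) ≤
      2 * (((2 * n / p : ℕ) : ℝ) + 1) := by exact_mod_cast h1
  have h4 : ((2 * n : ℕ) : ℝ) / p * 2 = 4 * n / p := by push_cast; ring
  linarith
theorem fznode_sq {n m : ℕ} {x : Col m → Nd} (h : Sel n m x) {p : ℕ} (h2 : 24 * n ≤ p ^ 2)
    {r s : Col m} (hrs : r ≠ s) :
    ¬ (p : ℤ) ^ 2 ∣ yy (x r) - yy (x s) ∧ ¬ (p : ℤ) ^ 2 ∣ yy (x r) + yy (x s) := by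
  have h1 := abs_lt.1 (yy_lt (h.mem r))
  have h3 := abs_lt.1 (yy_lt (h.mem s))
  have h4 : (24 * n : ℤ) ≤ (p : ℤ) ^ 2 := by exact_mod_cast h2
  have h5 : yy (x r) - yy (x s) ≠ 0 := sub_ne_zero.2 fun e => hrs (h.inj (yy_inj e))
  constructor
  · intro h6
    exact h5 (Int.eq_zero_of_abs_lt_dvd h6 (abs_lt.2 ⟨by omega, by omega⟩))
  · intro h6
    exact yy_add_ne _ _ (Int.eq_zero_of_abs_lt_dvd h6 (abs_lt.2 ⟨by omega, by omega⟩))
theorem not_cube {n m : ℕ} {x : Col m → Nd} (h : Sel n m x) {p : ℕ} (hp : p.Prime)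
    (h2 : 24 * n ≤ p ^ 2) (r s : Col m) (hrs : r ≠ s) :
    ¬ (p : ℤ) ^ 3 ∣ zz (x r) - zz (x s) := by
  obtain ⟨h3, h4⟩ := fznode_sq h h2 hrs
  have hq := Nat.prime_iff_prime_int.1 hp
  rw [zz_sub]
  intro h5
  by_cases h6 : (p : ℤ) ∣ yy (x r) - yy (x s)
  · obtain ⟨c, hc⟩ := h6
    rw [hc] at h3 h5
    rw [pow_succ', mul_assoc, mul_dvd_mul_iff_left hq.ne_zero] at h5
    exact h4 (hq.pow_dvd_of_dvd_mul_left 2
      (fun h7 => h3 (by rw [sq]; exact mul_dvd_mul_left _ h7)) h5)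
  · exact h4 ((pow_dvd_pow _ (by norm_num)).trans (hq.pow_dvd_of_dvd_mul_left 3 h6 h5))
theorem mult_sq {n m : ℕ} {x : Col m → Nd} (h : Sel n m x) {p : ℕ} (hp : p.Prime) (h5 : 5 ≤ p)
    (h2 : 24 * n ≤ p ^ 2) :
    ((mult fun r => zz (x r) % (p : ℤ) ^ 2 : ℕ) : ℝ) ≤ 4 * n / p + 2 := by
  refine le_trans ?_ (card_dvd h hp h5)
  refine Nat.cast_le.2 (card_le_card fun r hr => mem_filter.2 ⟨mem_univ _, ?_⟩)
  obtain ⟨s, hs, he⟩ := (mem_filter.1 hr).2
  obtain ⟨h3, h4⟩ := fznode_sq h h2 hs.symm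
  have hq := Nat.prime_iff_prime_int.1 hp
  have h6 : (p : ℤ) ^ 2 ∣ (yy (x r) - yy (x s)) * (yy (x r) + yy (x s)) := by
    rw [← zz_sub]
    exact Int.ModEq.dvd he
  have h7 : (p : ℤ) ∣ yy (x r) - yy (x s) := by
    by_contra h7
    exact h4 (hq.pow_dvd_of_dvd_mul_left 2 h7 h6)
  have h8 : (p : ℤ) ∣ yy (x r) + yy (x s) := by
    by_contra h8
    exact h3 (hq.pow_dvd_of_dvd_mul_right 2 h8 h6)
  refine fznode_cop hp h5 ?_
  have e : 12 * yy (x r) = 6 * (yy (x r) - yy (x s) + (yy (x r) + yy (x s))) := by ring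
  rw [e]
  exact (dvd_add h7 h8).mul_left 6

end Pool.Agent.FMZ
end

-- part Pool.Agent.P.MP_cb43af_nt.FzZero
section

open Finset Filter Polynomial
namespace Pool.Agent.FMZ

theorem fzzero_deg {P : ℚ[X]} {m : ℕ} (hm : 1 ≤ m) (hP : P.degree < m) :
    P.natDegree ≤ m - 1 := by
  by_cases h0 : P = 0
  · simp [h0]
  · have := (natDegree_lt_iff_degree_lt h0).2 hP
    omega

theorem fzzero_comp {P : ℚ[X]} {k : ℕ} (hP : P.natDegree ≤ k) (c : ℚ) :
    ((P.comp (X ^ 2 - C 4)).comp (X + C c)).natDegree ≤ 2 * k := by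
  rw [natDegree_comp, natDegree_comp, natDegree_X_add_C, natDegree_X_pow_sub_C]
  omega

theorem fzzero_comp' {P : ℚ[X]} {k : ℕ} (hP : P.natDegree ≤ k) (c : ℚ) :
    ((P.comp (X ^ 2 - C 4)).comp (X - C c)).natDegree ≤ 2 * k := by
  rw [natDegree_comp, natDegree_comp, natDegree_X_sub_C, natDegree_X_pow_sub_C]
  omega

/-- the links with both signs -/
def fzzero_lk (t : Bool × Nd) : ℤ := if t.1 then yy t.2 + 6 else -(yy t.2 + 6)

theorem fzzero_inj : Function.Injective fzzero_lk := by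
  rintro ⟨s, e, i⟩ ⟨s', e', i'⟩ h
  cases s <;> cases s' <;> cases e <;> cases e' <;>
    simp only [fzzero_lk, yy, if_true, if_false, Bool.false_eq_true] at h <;>
    first
      | (exfalso; omega)
      | (have : i = i' := by omega
         rw [this])

theorem fzzero_coeff {m : ℕ} (c : Fin m → ℚ)
    (h : (∑ k : Fin m, C (c k) * X ^ (k : ℕ) : ℚ[X]) = 0) (j : Fin m) : c j = 0 := by
  have e := congrArg (fun p : ℚ[X] => p.coeff (j : ℕ)) h
  simp only [finsetSum_coeff, coeff_C_mul_X_pow, coeff_zero, Fin.val_inj] at e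
  simpa using e

theorem zero_poly {a b : ℤ} (hb : b ≠ 0) {f : Nd → ℚ} (h : Ch a b f) {n m : ℕ}
    (hm : m + 1 = 2 * n) (P Q : ℚ[X]) (hP : P.degree < m) (hQ : Q.degree < m)
    (h0 : ∀ x ∈ nodes n, P.eval (zz x : ℚ) + f x * Q.eval (zz x : ℚ) = 0) : P = 0 ∧ Q = 0 := by
  classical
  have m1 : 1 ≤ m := by omega
  have dP := fzzero_deg m1 hP
  have dQ := fzzero_deg m1 hQ
  set P1 : ℚ[X] := P.comp (X ^ 2 - C 4) with hP1
  set Q1 : ℚ[X] := Q.comp (X ^ 2 - C 4) with hQ1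
  have hN : X ^ 3 * (P1.comp (X - C 6) * Q1.comp (X + C 6) - P1.comp (X + C 6) * Q1.comp (X - C 6))
      - C (b : ℚ) * (Q1.comp (X + C 6) * Q1.comp (X - C 6)) = 0 := by
    refine eq_zero_of_natDegree_lt_card_of_eval_eq_zero' _
      (((univ : Finset Bool) ×ˢ ((univ : Finset Bool) ×ˢ Ico (-(n : ℤ)) ((n : ℤ) - 1))).image
        fun t => ((fzzero_lk t : ℤ) : ℚ)) ?_ ?_
    · intro l hl
      obtain ⟨⟨s, e, i⟩, ht, rfl⟩ := mem_image.1 hl
      have hi : -(n : ℤ) ≤ i ∧ i < (n : ℤ) - 1 := by simpa using ht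
      have e1 := h0 (e, i) (mem_nodes.2 ⟨hi.1, by simp only; omega⟩)
      have e2 := h0 (e, i + 1) (mem_nodes.2 ⟨by simp only; omega, by simp only; omega⟩)
      have e3 := h.step e i
      have l0 : (yy (e, i) : ℚ) + 6 ≠ 0 := by exact_mod_cast yy_link_ne (e, i)
      have z1 : (zz (e, i) : ℚ) = (yy (e, i) : ℚ) ^ 2 - 4 := by simp [zz]
      have z2 : (zz (e, i + 1) : ℚ) = ((yy (e, i) : ℚ) + 12) ^ 2 - 4 := by
        have : yy (e, i + 1) = yy (e, i) + 12 := by
          simp only [yy]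
          ring
        simp [zz, this]
      rw [z1] at e1
      rw [z2, e3] at e2
      have e4 : ((yy (e, i) : ℚ) + 6) ^ 3 * ((b : ℚ) / ((yy (e, i) : ℚ) + 6) ^ 3) = b := by
        field_simp
      generalize (b : ℚ) / ((yy (e, i) : ℚ) + 6) ^ 3 = d at e2 e4
      cases s
      · have a1 : (-((yy (e, i) : ℚ) + 6) - 6) ^ 2 - 4 = ((yy (e, i) : ℚ) + 12) ^ 2 - 4 := by ring
        have a2 : (-((yy (e, i) : ℚ) + 6) + 6) ^ 2 - 4 = (yy (e, i) : ℚ) ^ 2 - 4 := by ring
        simp only [fzzero_lk, Bool.false_eq_true, if_false, hP1, hQ1, eval_sub, eval_mul, eval_pow,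
          eval_X, eval_C, eval_comp, eval_add, Int.cast_neg, Int.cast_add, Int.cast_ofNat, a1, a2]
        linear_combination
          (-((yy (e, i) : ℚ) + 6) ^ 3 * Q.eval ((yy (e, i) : ℚ) ^ 2 - 4)) * e2 +
          (((yy (e, i) : ℚ) + 6) ^ 3 * Q.eval (((yy (e, i) : ℚ) + 12) ^ 2 - 4)) * e1 +
          (Q.eval ((yy (e, i) : ℚ) ^ 2 - 4) * Q.eval (((yy (e, i) : ℚ) + 12) ^ 2 - 4)) * e4
      · have a1 : ((yy (e, i) : ℚ) + 6 - 6) ^ 2 - 4 = (yy (e, i) : ℚ) ^ 2 - 4 := by ring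
        have a2 : ((yy (e, i) : ℚ) + 6 + 6) ^ 2 - 4 = ((yy (e, i) : ℚ) + 12) ^ 2 - 4 := by ring
        simp only [fzzero_lk, if_true, hP1, hQ1, eval_sub, eval_mul, eval_pow,
          eval_X, eval_C, eval_comp, eval_add, Int.cast_add, Int.cast_ofNat, a1, a2]
        linear_combination
          (-((yy (e, i) : ℚ) + 6) ^ 3 * Q.eval ((yy (e, i) : ℚ) ^ 2 - 4)) * e2 +
          (((yy (e, i) : ℚ) + 6) ^ 3 * Q.eval (((yy (e, i) : ℚ) + 12) ^ 2 - 4)) * e1 +
          (Q.eval ((yy (e, i) : ℚ) ^ 2 - 4) * Q.eval (((yy (e, i) : ℚ) + 12) ^ 2 - 4)) * e4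
    · have inj1 : Function.Injective (fun t : Bool × Nd => ((fzzero_lk t : ℤ) : ℚ)) :=
        Int.cast_injective.comp fzzero_inj
      rw [card_image_of_injective _ inj1, card_product,
        card_product, Int.card_Ico, card_univ, Fintype.card_bool]
      have p1 := fzzero_comp dP 6
      have p2 := fzzero_comp' dP 6
      have q1 := fzzero_comp dQ 6
      have q2 := fzzero_comp' dQ 6
      rw [← hP1] at p1 p2
      rw [← hQ1] at q1 q2
      have b1 := natDegree_mul_le (p := P1.comp (X - C 6)) (q := Q1.comp (X + C 6))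
      have b2 := natDegree_mul_le (p := P1.comp (X + C 6)) (q := Q1.comp (X - C 6))
      have b3 := natDegree_mul_le (p := Q1.comp (X + C 6)) (q := Q1.comp (X - C 6))
      have b4 := natDegree_sub_le (P1.comp (X - C 6) * Q1.comp (X + C 6))
        (P1.comp (X + C 6) * Q1.comp (X - C 6))
      have b5 := natDegree_mul_le (p := (X ^ 3 : ℚ[X]))
        (q := P1.comp (X - C 6) * Q1.comp (X + C 6) - P1.comp (X + C 6) * Q1.comp (X - C 6))
      have b6 := natDegree_C_mul_le (b : ℚ) (Q1.comp (X + C 6) * Q1.comp (X - C 6))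
      rw [natDegree_X_pow] at b5
      refine lt_of_le_of_lt (natDegree_sub_le _ _) ?_
      omega
  have hC := congrArg (Polynomial.map (algebraMap ℚ ℂ)) (sub_eq_zero.1 hN)
  simp only [Polynomial.map_mul, Polynomial.map_sub, Polynomial.map_pow, map_X, map_comp,
    Polynomial.map_add, map_ofNat, map_intCast, Polynomial.map_ofNat,
    Polynomial.map_intCast] at hC
  have hQ1' : Q1.map (algebraMap ℚ ℂ) = 0 := by
    refine no_rat (b := (b : ℂ)) (by exact_mod_cast hb) (P1.map (algebraMap ℚ ℂ)) _ ?_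
    simpa only [map_ofNat, map_intCast] using hC
  have hQ0 : Q = 0 := by
    rcases comp_eq_zero_iff.1 ((Polynomial.map_eq_zero _).1 hQ1') with e | ⟨_, e⟩
    · exact e
    · have := congrArg natDegree e
      rw [natDegree_X_pow_sub_C, natDegree_C] at this
      omega
  refine ⟨?_, hQ0⟩
  refine eq_zero_of_natDegree_lt_card_of_eval_eq_zero' _
    ((nodes n).image fun x => ((zz x : ℤ) : ℚ)) ?_ ?_
  · intro l hl
    obtain ⟨x, hx, rfl⟩ := mem_image.1 hl
    simpa [hQ0] using h0 x hx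
  · have inj2 : Function.Injective (fun x : Nd => ((zz x : ℤ) : ℚ)) :=
      Int.cast_injective.comp zz_inj
    rw [card_image_of_injective _ inj2, card_nodes]
    omega

theorem exists_sel {a b : ℤ} (hb : b ≠ 0) {f : Nd → ℚ} (h : Ch a b f) {n m : ℕ}
    (hm : m + 1 = 2 * n) : ∃ x, Sel n m x ∧ DD m f x ≠ 0 := by
  obtain ⟨x, h1, h2, h3⟩ := exists_minor (nodes n) (fun x => rowv m (zz x : ℚ) 1 (f x)) fun c hc => by
    obtain ⟨e1, e2⟩ := zero_poly hb h hm (∑ k : Fin m, C (c (Sum.inl k)) * X ^ (k : ℕ))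
      (∑ k : Fin m, C (c (Sum.inr k)) * X ^ (k : ℕ)) (degree_sum_fin_lt _) (degree_sum_fin_lt _)
      fun x hx => by
        have e := hc x hx
        rw [Fintype.sum_sum_type] at e
        simp only [rowv, Sum.elim_inl, Sum.elim_inr] at e
        simp only [eval_finsetSum, eval_mul, eval_C, eval_pow, eval_X, mul_sum]
        rw [← e]
        congr 1
        · exact sum_congr rfl fun k _ => by ring
        · exact sum_congr rfl fun k _ => by ring
    funext k
    rcases k with k | k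
    · exact fzzero_coeff _ e1 k
    · exact fzzero_coeff _ e2 k
  exact ⟨x, ⟨h1, h2, hm⟩, h3⟩

end Pool.Agent.FMZ
end

-- part Pool.Agent.P.MP_cb43af_nt.FvZero
section

open Finset Filter Polynomial Topology
namespace Pool.Agent.FMZ

theorem fvzero_cop {G : ℂ[X]} (hG : G.eval 0 ≠ 0) (P Q : ℂ[X]) (hQ : Q ≠ 0)
    (h : ∀ y : ℂ, y ^ 5 * (P.eval (y - 6) * Q.eval (y + 6) - P.eval (y + 6) * Q.eval (y - 6))
      = G.eval y * (Q.eval (y + 6) * Q.eval (y - 6))) : ∃ r, P.eval r = 0 ∧ Q.eval r = 0 := by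
  classical
  by_contra hn
  have hP : ∀ r, Q.eval r = 0 → P.eval r ≠ 0 := fun r h1 h2 => hn ⟨r, h2, h1⟩
  have hm : ∀ r, r ∈ Q.roots.toFinset ↔ Q.eval r = 0 := fun r => by
    rw [Multiset.mem_toFinset, mem_roots hQ, IsRoot.def]
  have hne : Q.roots.toFinset.Nonempty := by
    have h0 := h 0
    rw [zero_pow (by norm_num), zero_mul] at h0
    rcases mul_eq_zero.1 ((mul_eq_zero.1 h0.symm).resolve_left hG) with h1 | h1
    exacts [⟨_, (hm _).2 h1⟩, ⟨_, (hm _).2 h1⟩]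
  obtain ⟨y0, hy0, h0⟩ := exists_max_image _ Complex.re hne
  obtain ⟨y1, hy1, h1⟩ := exists_min_image _ Complex.re hne
  have a0 := (hm _).1 hy0
  have a1 := (hm _).1 hy1
  have b0 : Q.eval (y0 + 6 + 6) ≠ 0 := fun e => by
    have := h0 _ ((hm _).2 e)
    simp only [Complex.add_re, Complex.re_ofNat] at this
    linarith
  have b1 : Q.eval (y1 - 6 - 6) ≠ 0 := fun e => by
    have := h1 _ ((hm _).2 e)
    simp only [Complex.sub_re, Complex.re_ofNat] at this
    linarith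
  have c0 := h (y0 + 6)
  have c1 := h (y1 - 6)
  rw [add_sub_cancel_right, a0, mul_zero, mul_zero, mul_zero, sub_zero] at c0
  rw [sub_add_cancel, a1, mul_zero, zero_mul, mul_zero, zero_sub] at c1
  have d0 : y0 + 6 = 0 :=
    pow_eq_zero_iff (by norm_num) |>.1
      ((mul_eq_zero.1 c0).resolve_right (mul_ne_zero (hP _ a0) b0))
  have d1 : y1 - 6 = 0 :=
    pow_eq_zero_iff (by norm_num) |>.1
      ((mul_eq_zero.1 c1).resolve_right (neg_ne_zero.2 (mul_ne_zero (hP _ a1) b1)))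
  have e0 := congrArg Complex.re d0
  have e1 := congrArg Complex.re d1
  have e2 := h0 _ hy1
  simp only [Complex.add_re, Complex.sub_re, Complex.re_ofNat, Complex.zero_re] at e0 e1
  linarith

theorem fvzero_ind {G : ℂ[X]} (hG : G.eval 0 ≠ 0) (n : ℕ) : ∀ P Q : ℂ[X], Q.natDegree < n →
    X ^ 5 * (P.comp (X - C 6) * Q.comp (X + C 6) - P.comp (X + C 6) * Q.comp (X - C 6))
      = G * (Q.comp (X + C 6) * Q.comp (X - C 6)) → Q = 0 := by
  induction n with
  | zero => exact fun _ _ h => absurd h (Nat.not_lt_zero _)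
  | succ n ih =>
    intro P Q hd h
    by_contra hQ
    obtain ⟨r, hP, hr⟩ := fvzero_cop hG P Q hQ fun y => by
      simpa only [eval_mul, eval_sub, eval_add, eval_pow, eval_X, eval_C, eval_comp] using
        congrArg (eval y) h
    obtain ⟨P1, rfl⟩ := dvd_iff_isRoot.2 hP
    obtain ⟨Q1, rfl⟩ := dvd_iff_isRoot.2 hr
    have hQ1 : Q1 ≠ 0 := right_ne_zero_of_mul hQ
    rw [natDegree_mul (X_sub_C_ne_zero r) hQ1, natDegree_X_sub_C] at hd
    refine hQ1 (ih P1 Q1 (by omega) ?_)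
    have n1 : (X - C 6 - C r : ℂ[X]) ≠ 0 := by
      rw [sub_sub, ← C_add]
      exact X_sub_C_ne_zero _
    have n2 : (X + C 6 - C r : ℂ[X]) ≠ 0 := by
      rw [add_sub_assoc, ← C_sub]
      exact X_add_C_ne_zero _
    refine mul_left_cancel₀ (mul_ne_zero n1 n2) ?_
    simp only [mul_comp, sub_comp, X_comp, C_comp] at h
    linear_combination h

theorem no_rat5 {b c : ℂ} (hb : b ≠ 0 ∨ c ≠ 0) (P Q : ℂ[X])
    (h : X ^ 5 * (P.comp (X - C 6) * Q.comp (X + C 6) - P.comp (X + C 6) * Q.comp (X - C 6))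
      = (C b * X ^ 2 + C c) * (Q.comp (X + C 6) * Q.comp (X - C 6))) : Q = 0 := by
  by_cases hc : c = 0
  · have hb' : b ≠ 0 := hb.resolve_right (not_not.2 hc)
    refine no_rat hb' P Q (mul_left_cancel₀ (pow_ne_zero 2 (X_ne_zero (R := ℂ))) ?_)
    rw [hc, C_0, add_zero] at h
    linear_combination h
  · exact fvzero_ind (G := C b * X ^ 2 + C c) (by simpa using hc) _ P Q (Nat.lt_succ_self _) h

theorem fvzero_aux {b c : ℤ} (hb : b ≠ 0 ∨ c ≠ 0) {f : Nd → ℚ}
    (h : ∀ e i, f (e, i + 1) = f (e, i) + inc b c ((yy (e, i) : ℚ) + 6)) {n m : ℕ}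
    (hm : m + 1 = 2 * n) (P Q : ℚ[X]) {k l : ℕ} (dP : P.natDegree ≤ k) (dQ : Q.natDegree ≤ l)
    (hkl : k + l + 3 ≤ 2 * m) (hl : l + 1 ≤ m)
    (h0 : ∀ x ∈ nodes n, P.eval (zz x : ℚ) + f x * Q.eval (zz x : ℚ) = 0) : Q = 0 := by
  classical
  set P1 : ℚ[X] := P.comp (X ^ 2 - C 4) with hP1
  set Q1 : ℚ[X] := Q.comp (X ^ 2 - C 4) with hQ1
  have hN : X ^ 5 * (P1.comp (X - C 6) * Q1.comp (X + C 6) - P1.comp (X + C 6) * Q1.comp (X - C 6))
      - (C (b : ℚ) * X ^ 2 + C (c : ℚ)) * (Q1.comp (X + C 6) * Q1.comp (X - C 6)) = 0 := by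
    refine eq_zero_of_natDegree_lt_card_of_eval_eq_zero' _
      (((univ : Finset Bool) ×ˢ ((univ : Finset Bool) ×ˢ Ico (-(n : ℤ)) ((n : ℤ) - 1))).image
        fun t => ((fzzero_lk t : ℤ) : ℚ)) ?_ ?_
    · intro l hl
      obtain ⟨⟨s, e, i⟩, ht, rfl⟩ := mem_image.1 hl
      have hi : -(n : ℤ) ≤ i ∧ i < (n : ℤ) - 1 := by simpa using ht
      have e1 := h0 (e, i) (mem_nodes.2 ⟨hi.1, by simp only; omega⟩)
      have e2 := h0 (e, i + 1) (mem_nodes.2 ⟨by simp only; omega, by simp only; omega⟩)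
      have e3 := h e i
      have l0 : (yy (e, i) : ℚ) + 6 ≠ 0 := by exact_mod_cast yy_link_ne (e, i)
      have z1 : (zz (e, i) : ℚ) = (yy (e, i) : ℚ) ^ 2 - 4 := by simp [zz]
      have z2 : (zz (e, i + 1) : ℚ) = ((yy (e, i) : ℚ) + 12) ^ 2 - 4 := by
        have : yy (e, i + 1) = yy (e, i) + 12 := by
          simp only [yy]
          ring
        simp [zz, this]
      rw [z1] at e1
      rw [z2, e3] at e2
      have e4 : ((yy (e, i) : ℚ) + 6) ^ 5 * inc b c ((yy (e, i) : ℚ) + 6)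
          = b * ((yy (e, i) : ℚ) + 6) ^ 2 + c := by
        unfold inc
        field_simp
      generalize inc b c ((yy (e, i) : ℚ) + 6) = d at e2 e4
      cases s
      · have a1 : (-((yy (e, i) : ℚ) + 6) - 6) ^ 2 - 4 = ((yy (e, i) : ℚ) + 12) ^ 2 - 4 := by ring
        have a2 : (-((yy (e, i) : ℚ) + 6) + 6) ^ 2 - 4 = (yy (e, i) : ℚ) ^ 2 - 4 := by ring
        simp only [fzzero_lk, Bool.false_eq_true, if_false, hP1, hQ1, eval_sub, eval_mul, eval_pow,
          eval_X, eval_C, eval_comp, eval_add, Int.cast_neg, Int.cast_add, Int.cast_ofNat, a1, a2]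
        linear_combination
          (-((yy (e, i) : ℚ) + 6) ^ 5 * Q.eval ((yy (e, i) : ℚ) ^ 2 - 4)) * e2 +
          (((yy (e, i) : ℚ) + 6) ^ 5 * Q.eval (((yy (e, i) : ℚ) + 12) ^ 2 - 4)) * e1 +
          (Q.eval ((yy (e, i) : ℚ) ^ 2 - 4) * Q.eval (((yy (e, i) : ℚ) + 12) ^ 2 - 4)) * e4
      · have a1 : ((yy (e, i) : ℚ) + 6 - 6) ^ 2 - 4 = (yy (e, i) : ℚ) ^ 2 - 4 := by ring
        have a2 : ((yy (e, i) : ℚ) + 6 + 6) ^ 2 - 4 = ((yy (e, i) : ℚ) + 12) ^ 2 - 4 := by ring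
        simp only [fzzero_lk, if_true, hP1, hQ1, eval_sub, eval_mul, eval_pow,
          eval_X, eval_C, eval_comp, eval_add, Int.cast_add, Int.cast_ofNat, a1, a2]
        linear_combination
          (-((yy (e, i) : ℚ) + 6) ^ 5 * Q.eval ((yy (e, i) : ℚ) ^ 2 - 4)) * e2 +
          (((yy (e, i) : ℚ) + 6) ^ 5 * Q.eval (((yy (e, i) : ℚ) + 12) ^ 2 - 4)) * e1 +
          (Q.eval ((yy (e, i) : ℚ) ^ 2 - 4) * Q.eval (((yy (e, i) : ℚ) + 12) ^ 2 - 4)) * e4
    · have inj1 : Function.Injective (fun t : Bool × Nd => ((fzzero_lk t : ℤ) : ℚ)) :=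
        Int.cast_injective.comp fzzero_inj
      rw [card_image_of_injective _ inj1, card_product,
        card_product, Int.card_Ico, card_univ, Fintype.card_bool]
      have p1 := fzzero_comp dP 6
      have p2 := fzzero_comp' dP 6
      have q1 := fzzero_comp dQ 6
      have q2 := fzzero_comp' dQ 6
      rw [← hP1] at p1 p2
      rw [← hQ1] at q1 q2
      have b1 := natDegree_mul_le (p := P1.comp (X - C 6)) (q := Q1.comp (X + C 6))
      have b2 := natDegree_mul_le (p := P1.comp (X + C 6)) (q := Q1.comp (X - C 6))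
      have b3 := natDegree_mul_le (p := Q1.comp (X + C 6)) (q := Q1.comp (X - C 6))
      have b4 := natDegree_sub_le (P1.comp (X - C 6) * Q1.comp (X + C 6))
        (P1.comp (X + C 6) * Q1.comp (X - C 6))
      have b5 := natDegree_mul_le (p := (X ^ 5 : ℚ[X]))
        (q := P1.comp (X - C 6) * Q1.comp (X + C 6) - P1.comp (X + C 6) * Q1.comp (X - C 6))
      have b6 := natDegree_mul_le (p := (C (b : ℚ) * X ^ 2 + C (c : ℚ) : ℚ[X]))
        (q := Q1.comp (X + C 6) * Q1.comp (X - C 6))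
      have b7 : (C (b : ℚ) * X ^ 2 + C (c : ℚ) : ℚ[X]).natDegree ≤ 2 := by
        rw [natDegree_add_C]
        exact natDegree_C_mul_X_pow_le _ _
      rw [natDegree_X_pow] at b5
      refine lt_of_le_of_lt (natDegree_sub_le _ _) ?_
      omega
  have hC := congrArg (Polynomial.map (algebraMap ℚ ℂ)) (sub_eq_zero.1 hN)
  simp only [Polynomial.map_mul, Polynomial.map_sub, Polynomial.map_pow, map_X, map_comp,
    Polynomial.map_add, map_ofNat, map_intCast, Polynomial.map_ofNat,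
    Polynomial.map_intCast] at hC
  have hQ1' : Q1.map (algebraMap ℚ ℂ) = 0 := by
    refine no_rat5 (b := (b : ℂ)) (c := (c : ℂ)) (by exact_mod_cast hb)
      (P1.map (algebraMap ℚ ℂ)) _ ?_
    simpa only [map_ofNat, map_intCast] using hC
  rcases comp_eq_zero_iff.1 ((Polynomial.map_eq_zero _).1 hQ1') with e | ⟨_, e⟩
  · exact e
  · have := congrArg natDegree e
    rw [natDegree_X_pow_sub_C, natDegree_C] at this
    omega

theorem fvzero_drop {P : ℚ[X]} {k : ℕ} (hP : P.natDegree ≤ k + 1) (h : P.coeff (k + 1) = 0) :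
    P.natDegree ≤ k := by
  rw [natDegree_le_iff_coeff_eq_zero] at hP ⊢
  intro N hN
  rcases (Nat.succ_le_of_lt hN).eq_or_lt with e | e
  · rw [← e]
    exact h
  · exact hP N e

theorem zero_poly5 {a b c : ℤ} (hb : b ≠ 0 ∨ c ≠ 0) {f : Nd → ℚ} (h : Ch5 a b c f) {n m : ℕ}
    (hn : 2 ≤ n) (hm : m + 1 = 2 * n) (P Q : ℚ[X]) (hP : P.degree < m) (hQ : Q.degree < m)
    (h0 : ∀ x ∈ nodes n, P.eval (zz x : ℚ) + f x * Q.eval (zz x : ℚ) = 0) : P = 0 ∧ Q = 0 := by
  classical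
  have m1 : 1 ≤ m := by omega
  have dP := fzzero_deg m1 hP
  have dQ := fzzero_deg m1 hQ
  obtain ⟨k, hk⟩ : ∃ k, m - 1 = k + 1 := ⟨m - 2, by omega⟩
  rw [hk] at dP dQ
  have hQ0 : Q = 0 := by
    by_cases hq : Q.coeff (k + 1) = 0
    · exact fvzero_aux hb h.step hm P Q dP (fvzero_drop dQ hq) (by omega) (by omega) h0
    · set t : ℚ := P.coeff (k + 1) / Q.coeff (k + 1) with ht
      have d1 : (P - C t * Q).natDegree ≤ k + 1 :=
        (natDegree_sub_le _ _).trans (max_le dP ((natDegree_C_mul_le _ _).trans dQ))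
      have d2 : (P - C t * Q).coeff (k + 1) = 0 := by
        rw [coeff_sub, coeff_C_mul, ht, div_mul_cancel₀ _ hq, sub_self]
      refine fvzero_aux hb (f := fun x => f x + t) (fun e i => ?_) hm (P - C t * Q) Q
        (fvzero_drop d1 d2) dQ (by omega) (by omega) fun x hx => ?_
      · rw [h.step e i]
        ring
      · have := h0 x hx
        rw [eval_sub, eval_mul, eval_C]
        linear_combination this
  refine ⟨?_, hQ0⟩
  refine eq_zero_of_natDegree_lt_card_of_eval_eq_zero' _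
    ((nodes n).image fun x => ((zz x : ℤ) : ℚ)) ?_ ?_
  · intro l hl
    obtain ⟨x, hx, rfl⟩ := mem_image.1 hl
    simpa [hQ0] using h0 x hx
  · have inj2 : Function.Injective (fun x : Nd => ((zz x : ℤ) : ℚ)) :=
      Int.cast_injective.comp zz_inj
    rw [card_image_of_injective _ inj2, card_nodes]
    omega

theorem exists_sel5 {a b c : ℤ} (hb : b ≠ 0 ∨ c ≠ 0) {f : Nd → ℚ} (h : Ch5 a b c f) {n m : ℕ}
    (hn : 2 ≤ n) (hm : m + 1 = 2 * n) : ∃ x, Sel n m x ∧ DD m f x ≠ 0 := by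
  obtain ⟨x, h1, h2, h3⟩ := exists_minor (nodes n) (fun x => rowv m (zz x : ℚ) 1 (f x)) fun c hc => by
    obtain ⟨e1, e2⟩ := zero_poly5 hb h hn hm (∑ k : Fin m, C (c (Sum.inl k)) * X ^ (k : ℕ))
      (∑ k : Fin m, C (c (Sum.inr k)) * X ^ (k : ℕ)) (degree_sum_fin_lt _) (degree_sum_fin_lt _)
      fun x hx => by
        have e := hc x hx
        rw [Fintype.sum_sum_type] at e
        simp only [rowv, Sum.elim_inl, Sum.elim_inr] at e
        simp only [eval_finsetSum, eval_mul, eval_C, eval_pow, eval_X, mul_sum]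
        rw [← e]
        congr 1
        · exact sum_congr rfl fun k _ => by ring
        · exact sum_congr rfl fun k _ => by ring
    funext k
    rcases k with k | k
    · exact fzzero_coeff _ e1 k
    · exact fzzero_coeff _ e2 k
  exact ⟨x, ⟨h1, h2, hm⟩, h3⟩

end Pool.Agent.FMZ
end

-- part Pool.Agent.P.MP_cb43af_nt.FzExp
section

open Finset Filter Polynomial
namespace Pool.Agent.FMZ

variable {R : Type} [CommRing R] {m : ℕ}

lemma fzexp_zero {ι : Type} [Fintype ι] [DecidableEq ι] (M : Matrix ι ι R) (S C : Finset ι)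
    (h : Fintype.card ι < S.card + C.card) (h0 : ∀ r ∈ S, ∀ c ∈ C, M r c = 0) : M.det = 0 := by
  rw [Matrix.det_apply]
  refine sum_eq_zero fun σ _ => ?_
  obtain ⟨r, hr⟩ := inter_nonempty_of_card_lt_card_add_card (s := univ) (subset_univ S)
    (subset_univ (C.map σ.toEmbedding)) (by simpa using h)
  obtain ⟨r1, r2⟩ := mem_inter.1 hr
  obtain ⟨c, c1, rfl⟩ := mem_map.1 r2
  rw [prod_eq_zero (f := fun i => M (σ i) i) (mem_univ c) (h0 _ r1 c c1), smul_zero]

lemma fzexp_ww {ι : Type} [DecidableEq ι] (z : ι → ℤ) (e : Fin m ↪ ι) :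
    |WW z (univ.map e)| = (Matrix.vandermonde fun i => z (e i)).det ^ 2 := by
  have h1 : WW z (univ.map e) = ∏ i, ∏ j ∈ ({i} : Finset (Fin m))ᶜ, (z (e i) - z (e j)) := by
    unfold WW
    rw [prod_map]
    refine prod_congr rfl fun i _ => ?_
    rw [← map_erase, prod_map, compl_singleton]
  rw [h1, ← prod_prod_Ioi_mul_eq_prod_prod_off_diag (fun j i => z (e i) - z (e j)),
    Matrix.det_vandermonde, abs_prod, ← prod_pow]
  refine prod_congr rfl fun i _ => ?_
  rw [abs_prod, ← prod_pow]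
  refine prod_congr rfl fun j _ => ?_
  rw [abs_mul, abs_sub_comm, ← sq, sq_abs]

theorem det_expand (z g φ : Col m → R) :
    DG m z g = ∑ S : Finset (Col m), (∏ r ∈ S, (g r - φ r)) * DS m z φ S := by
  have h1 : (Matrix.of fun r => rowv m (z r) 1 (g r)) =
      (fun r => (g r - φ r) • rowv m (z r) 0 1) + fun r => rowv m (z r) 1 (φ r) := by
    ext r c
    rcases c with k | k
    · simp [rowv]
    · simp [rowv]; ring
  have h2 : DG m z g = Matrix.detRowAlternating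
      ((fun r => (g r - φ r) • rowv m (z r) 0 1) + fun r => rowv m (z r) 1 (φ r)) := by
    rw [DG, h1]; rfl
  rw [h2, AlternatingMap.map_add_univ]
  refine sum_congr rfl fun S _ => ?_
  have h3 : ∏ r ∈ S, (g r - φ r) = ∏ r, if r ∈ S then g r - φ r else 1 := by
    rw [prod_ite_mem, univ_inter]
  rw [h3, DS, ← Matrix.det_mul_column]
  change Matrix.det _ = _
  congr 1
  ext r c
  by_cases hr : r ∈ S <;> simp [Finset.piecewise, hr]

theorem DS_empty (z φ : Col m → R) : DS m z φ ∅ = DG m z φ := by simp [DS, DG]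

theorem DS_map {R' : Type} [CommRing R'] (h : R →+* R') (z φ : Col m → R) (S : Finset (Col m)) :
    h (DS m z φ S) = DS m (fun r => h (z r)) (fun r => h (φ r)) S := by
  rw [DS, DS, RingHom.map_det]
  congr 1
  ext r c
  by_cases hr : r ∈ S <;> rcases c with k | k <;> simp [rowv, hr]

theorem DS_eq_zero (z φ : Col m → R) {S : Finset (Col m)} (h : m < S.card) : DS m z φ S = 0 := by
  refine fzexp_zero _ S (univ.map Function.Embedding.inl) (by simp; omega) fun r hr c hc => ?_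
  obtain ⟨k, -, rfl⟩ := mem_map.1 hc
  simp [rowv, hr]

theorem DS_zero_card (z : Col m → R) {S : Finset (Col m)} (h : S.card ≠ m) :
    DS m z (fun _ => 0) S = 0 := by
  rcases lt_or_gt_of_ne h with h | h
  · refine fzexp_zero _ Sᶜ (univ.map Function.Embedding.inr) (by simp [card_compl]; omega)
      fun r hr c hc => ?_
    obtain ⟨k, -, rfl⟩ := mem_map.1 hc
    simp [rowv, mem_compl.1 hr]
  · exact DS_eq_zero _ _ h

theorem DS_zero_sq (z : Col m → ℤ) {S : Finset (Col m)} (h : S.card = m) :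
    DS m z (fun _ => 0) S ^ 2 = |WW z S * WW z Sᶜ| := by
  have emb : ∀ T : Finset (Col m), T.card = m → ∃ e : Fin m ↪ Col m, univ.map e = T := by
    intro T hT
    refine ⟨(equivFinOfCardEq hT).symm.toEmbedding.trans (Function.Embedding.subtype _), ?_⟩
    ext r
    simp only [Finset.mem_map, mem_univ, true_and, Function.Embedding.trans_apply,
      Equiv.coe_toEmbedding, Function.Embedding.subtype_apply]
    exact ⟨fun ⟨i, hi⟩ => hi ▸ Subtype.prop _, fun hr => ⟨equivFinOfCardEq hT ⟨r, hr⟩, by simp⟩⟩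
  obtain ⟨v, hv⟩ := emb S h
  obtain ⟨w, hw⟩ := emb Sᶜ (by simp [card_compl, h])
  have v1 : ∀ i, v i ∈ S := fun i => hv ▸ mem_map_of_mem v (mem_univ i)
  have w1 : ∀ i, w i ∉ S := fun i => mem_compl.1 (hw ▸ mem_map_of_mem w (mem_univ i))
  have inj : Function.Injective (Sum.elim w v : Col m → Col m) := by
    refine w.injective.sumElim v.injective fun a b e => w1 a (e ▸ v1 b)
  let e : Equiv.Perm (Col m) := Equiv.ofBijective _ (Finite.injective_iff_bijective.1 inj)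
  have h1 : (Matrix.of fun r => if r ∈ S then rowv m (z r) 0 1 else rowv m (z r) 1 0).submatrix
      e id = Matrix.fromBlocks (Matrix.vandermonde fun i => z (w i)) 0 0
        (Matrix.vandermonde fun i => z (v i)) := by
    ext r c
    rcases r with i | i <;> rcases c with k | k <;> simp [e, rowv, v1, w1]
  have h2 := congrArg (fun M => Matrix.det M ^ 2) h1
  simp only [Matrix.det_permute, Matrix.det_fromBlocks_zero₂₁, mul_pow] at h2
  have h3 : ((Equiv.Perm.sign e : ℤˣ) : ℤ) ^ 2 = 1 := by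
    rw [← Units.val_pow_eq_pow_val, Int.units_sq, Units.val_one]
  rw [abs_mul, ← hw, fzexp_ww z w]
  conv_rhs => rw [← hv, fzexp_ww z v]
  rw [mul_comm, ← h2, DS]
  simp [h3]

end Pool.Agent.FMZ
end

-- part Pool.Agent.P.MP_cb43af_nt.FzCau
section

open Finset Filter Polynomial
namespace Pool.Agent.FMZ

theorem fzcau_sq {m : ℕ} (v : Fin m → ℤ) :
    |∏ i, ∏ j ∈ univ.erase i, (v i - v j)| = |(Matrix.vandermonde v).det| ^ 2 := by
  have h := Finset.prod_prod_Ioi_mul_eq_prod_prod_off_diag (fun j i : Fin m => |v i - v j|)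
  have e1 : |∏ i, ∏ j ∈ univ.erase i, (v i - v j)| = ∏ i, ∏ j ∈ ({i}ᶜ : Finset (Fin m)), |v i - v j| := by
    rw [Finset.abs_prod]
    refine prod_congr rfl fun i _ => ?_
    rw [Finset.abs_prod, compl_singleton]
  rw [e1, ← h, Matrix.det_vandermonde, Finset.abs_prod, ← prod_pow]
  refine prod_congr rfl fun i _ => ?_
  rw [Finset.abs_prod, ← prod_pow]
  refine prod_congr rfl fun j _ => ?_
  rw [abs_sub_comm (v i), sq]

theorem fzcau_enum {ι : Type} [DecidableEq ι] {S : Finset ι} {m : ℕ} (h : S.card = m) :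
    ∃ e : Fin m → ι, Function.Injective e ∧ univ.image e = S := by
  refine ⟨fun i => ((S.equivFinOfCardEq h).symm i).1,
    Subtype.val_injective.comp (Equiv.injective _), ?_⟩
  ext x
  simp only [mem_image, mem_univ, true_and]
  exact ⟨fun ⟨i, hi⟩ => hi ▸ Subtype.prop _,
    fun hx => ⟨S.equivFinOfCardEq h ⟨x, hx⟩, by rw [Equiv.symm_apply_apply]⟩⟩

theorem fzcau_WW {ι : Type} [DecidableEq ι] (u : ι → ℤ) {m : ℕ} {e : Fin m → ι}
    (he : Function.Injective e) :
    |WW u (univ.image e)| = |(Matrix.vandermonde fun i => u (e i)).det| ^ 2 := by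
  rw [← fzcau_sq, WW, prod_image fun _ _ _ _ h => he h]
  congr 1
  refine prod_congr rfl fun i _ => ?_
  rw [← image_erase he, prod_image fun _ _ _ _ h => he h]

theorem fzcau_det {m : ℕ} (v w : Fin m → ℤ) (hw : Function.Injective w) (hvw : ∀ i k, v i ≠ w k) :
    |(Matrix.vandermonde v).det| * |(Matrix.vandermonde w).det| ≤
      (m.factorial : ℤ) * ∏ i, ∏ k, |v i - w k| := by
  set L : Fin m → ℤ[X] := fun j => ∏ k ∈ univ.erase j, (X - C (w k)) with hL
  have hd : ∀ j, (L j).degree < m := fun j => by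
    have h1 : (L j).natDegree = m - 1 := by
      rw [hL]
      simp only
      rw [natDegree_prod_of_monic _ _ fun k _ => monic_X_sub_C _]
      simp only [natDegree_X_sub_C, sum_const, smul_eq_mul, mul_one]
      rw [card_erase_of_mem (mem_univ _), card_univ, Fintype.card_fin]
    have h2 : m - 1 < m := Nat.sub_lt j.pos one_pos
    exact degree_le_natDegree.trans_lt (by rw [h1]; exact_mod_cast h2)
  have hev : ∀ x j, (L j).eval x = ∏ k ∈ univ.erase j, (x - w k) := fun x j => by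
    rw [hL]
    simp only [eval_prod, eval_sub, eval_X, eval_C]
  have key : ∀ z : Fin m → ℤ, (Matrix.of fun i j => (L j).eval (z i)) =
      Matrix.vandermonde z * Matrix.of fun (i j : Fin m) => (L j).coeff i := fun z => by
    ext i j
    rw [Matrix.mul_apply, Matrix.of_apply, eval_eq_sum_range' (n := m)
      ((natDegree_lt_iff_degree_lt (by
        rintro h0
        exact (monic_prod_of_monic _ _ fun k _ => monic_X_sub_C (w k)).ne_zero h0)).2 (hd j)),
      ← Fin.sum_univ_eq_sum_range (fun k => (L j).coeff k * z i ^ k)]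
    exact sum_congr rfl fun k _ => by rw [Matrix.vandermonde_apply, Matrix.of_apply, mul_comm]
  have hdiag : (Matrix.of fun i j => (L j).eval (w i)) =
      Matrix.diagonal fun i => ∏ k ∈ univ.erase i, (w i - w k) := by
    ext i j
    rw [Matrix.of_apply, hev, Matrix.diagonal_apply]
    split_ifs with h
    · rw [h]
    · exact prod_eq_zero (mem_erase.2 ⟨h, mem_univ _⟩) (sub_self _)
  have h1 := congrArg (fun M => |Matrix.det M|) (key w)
  have h2 := congrArg (fun M => |Matrix.det M|) (key v)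
  simp only [hdiag, Matrix.det_diagonal, fzcau_sq, Matrix.det_mul, abs_mul] at h1 h2
  have h3 : |(Matrix.vandermonde w).det| ≠ 0 :=
    abs_ne_zero.2 (Matrix.det_vandermonde_ne_zero_iff.2 hw)
  rw [sq] at h1
  rw [mul_left_cancel₀ h3 h1, ← h2, Matrix.det_apply]
  refine (abs_sum_le_sum_abs _ _).trans ?_
  refine (sum_le_card_nsmul _ _ (∏ i, ∏ k, |v i - w k|) fun σ _ => ?_).trans_eq ?_
  · rw [Units.smul_def, smul_eq_mul, abs_mul, Int.abs_eq_natAbs, Int.units_natAbs, Nat.cast_one,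
      one_mul, Finset.abs_prod, ← Equiv.prod_comp σ fun i => ∏ k, |v i - w k|]
    refine prod_le_prod (fun _ _ => abs_nonneg _) fun j _ => ?_
    rw [Matrix.of_apply, hev, Finset.abs_prod, ← mul_prod_erase univ _ (mem_univ j)]
    exact le_mul_of_one_le_left (prod_nonneg fun _ _ => abs_nonneg _)
      (Int.one_le_abs (sub_ne_zero.2 (hvw _ _)))
  · rw [card_univ, Fintype.card_perm, Fintype.card_fin, nsmul_eq_mul]

theorem fzcau_split {ι : Type} [Fintype ι] [DecidableEq ι] (u : ι → ℤ) (S : Finset ι) :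
    |WW u univ| = |WW u S| * |WW u Sᶜ| * (∏ i ∈ S, ∏ k ∈ Sᶜ, |u i - u k|) ^ 2 := by
  have h : ∀ T : Finset ι, ∏ i ∈ T, ∏ j ∈ univ.erase i, |u i - u j| =
      |WW u T| * ∏ i ∈ T, ∏ k ∈ Tᶜ, |u i - u k| := fun T => by
    rw [WW, Finset.abs_prod, ← prod_mul_distrib]
    refine prod_congr rfl fun i hi => ?_
    rw [Finset.abs_prod, ← prod_union (disjoint_of_subset_left (erase_subset _ _) disjoint_compl_right)]
    congr 1
    ext j
    simp only [mem_erase, mem_univ, and_true, mem_union, mem_compl]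
    constructor
    · intro h
      by_cases hj : j ∈ T
      exacts [Or.inl ⟨h, hj⟩, Or.inr hj]
    · rintro (h | h)
      exacts [h.1, fun e => h (e ▸ hi)]
  have e : |WW u univ| = ∏ i, ∏ j ∈ univ.erase i, |u i - u j| := by
    rw [WW, Finset.abs_prod]
    exact prod_congr rfl fun i _ => Finset.abs_prod _ _
  have e2 : ∏ i ∈ Sᶜ, ∏ k ∈ S, |u i - u k| = ∏ i ∈ S, ∏ k ∈ Sᶜ, |u i - u k| := by
    rw [Finset.prod_comm]
    exact prod_congr rfl fun i _ => prod_congr rfl fun k _ => abs_sub_comm _ _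
  rw [e, ← prod_mul_prod_compl S, h, h, compl_compl, e2]
  ring

/-- the Cauchy determinant bound -/
theorem cauchy {ι : Type} [Fintype ι] [DecidableEq ι] {u : ι → ℤ} (hu : Function.Injective u)
    {S : Finset ι} {m : ℕ} (h1 : S.card = m) (h2 : Sᶜ.card = m) :
    |WW u S * WW u Sᶜ| ^ 2 ≤ (m.factorial : ℤ) ^ 2 * |WW u univ| := by
  obtain ⟨e, he, hS⟩ := fzcau_enum h1
  obtain ⟨e', he', hS'⟩ := fzcau_enum h2
  have h3 := fzcau_det (fun i => u (e i)) (fun i => u (e' i)) (hu.comp he') fun i k h => by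
    have a : e i ∈ S := hS ▸ mem_image_of_mem _ (mem_univ _)
    have b : e' k ∈ Sᶜ := hS' ▸ mem_image_of_mem _ (mem_univ _)
    exact mem_compl.1 b (hu h ▸ a)
  have h4 : ∏ i ∈ S, ∏ k ∈ Sᶜ, |u i - u k| = ∏ i, ∏ k, |u (e i) - u (e' k)| := by
    rw [← hS', ← hS, prod_image fun _ _ _ _ h => he h]
    exact prod_congr rfl fun i _ => prod_image fun _ _ _ _ h => he' h
  have h5 := fzcau_WW u he
  have h6 := fzcau_WW u he'
  rw [hS] at h5
  rw [hS'] at h6
  rw [fzcau_split u S, h4, abs_mul, h5, h6]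
  have h7 := pow_le_pow_left₀ (by positivity) h3 2
  generalize |(Matrix.vandermonde fun i => u (e i)).det| = A at *
  generalize |(Matrix.vandermonde fun i => u (e' i)).det| = B at *
  generalize ∏ i, ∏ k, |u (e i) - u (e' k)| = R at *
  have h8 := mul_le_mul_of_nonneg_left h7 (by positivity : 0 ≤ A ^ 2 * B ^ 2)
  nlinarith [h8]

end Pool.Agent.FMZ
end

-- part Pool.Agent.P.MP_cb43af_nt.FzReal
section

open Finset Filter Polynomial
namespace Pool.Agent.FMZ

theorem fzreal_cast {m : ℕ} (z : Col m → ℤ) (S : Finset (Col m)) :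
    DS m (fun r => (z r : ℚ)) (fun _ => 0) S = ((DS m z (fun _ => 0) S : ℤ) : ℚ) := by
  have := DS_map (Int.castRingHom ℚ) z (fun _ => 0) S
  simp only [eq_intCast, Int.cast_zero] at this
  exact this.symm

theorem fzreal_ds {m : ℕ} {z : Col m → ℤ} (hz : Function.Injective z) {S : Finset (Col m)}
    (h : S.card = m) :
    |DS m (fun r => (z r : ℚ)) (fun _ => 0) S| ^ 4 ≤
      (m.factorial : ℚ) ^ 2 * |((WW z univ : ℤ) : ℚ)| := by
  have h2 : Sᶜ.card = m := by
    rw [Finset.card_compl, h]; simp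
  have h3 := cauchy hz h h2
  rw [← DS_zero_sq z h] at h3
  have h4 : |DS m z (fun _ => 0) S| ^ 4 ≤ (m.factorial : ℤ) ^ 2 * |WW z univ| := by
    have : |DS m z (fun _ => 0) S| ^ 4 = (DS m z (fun _ => 0) S ^ 2) ^ 2 := by
      rw [← sq_abs (DS m z (fun _ => 0) S)]; ring
    rw [this]; exact h3
  rw [fzreal_cast]
  exact_mod_cast h4

theorem fzreal_term {m : ℕ} {z : Col m → ℤ} (hz : Function.Injective z) {g : Col m → ℚ} {B : ℚ}
    (hB : 0 ≤ B) (hg : ∀ r, |g r| ≤ B) (S : Finset (Col m)) :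
    |(∏ r ∈ S, (g r - 0)) * DS m (fun r => (z r : ℚ)) (fun _ => 0) S| ^ 4 ≤
      (B ^ m) ^ 4 * ((m.factorial : ℚ) ^ 2 * |((WW z univ : ℤ) : ℚ)|) := by
  by_cases h : S.card = m
  · rw [abs_mul, mul_pow]
    apply mul_le_mul _ (fzreal_ds hz h) (by positivity) (by positivity)
    apply pow_le_pow_left₀ (abs_nonneg _)
    have hc : B ^ m = ∏ _r ∈ S, B := by rw [Finset.prod_const, h]
    rw [Finset.abs_prod, hc]
    apply Finset.prod_le_prod (fun _ _ => abs_nonneg _)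
    intro r _
    rw [sub_zero]; exact hg r
  · rw [DS_zero_card _ h]
    simp only [mul_zero, abs_zero]
    rw [zero_pow (by norm_num)]
    positivity

theorem real_explicit {a b : ℤ} {f : Nd → ℚ} (h : Ch a b f) {n m : ℕ} {x : Col m → Nd}
    (hx : Sel n m x) :
    |qq m f x| ≤ (4 ^ m * (|(a : ℚ)| + |(b : ℚ)| * n) ^ m) ^ 4 * (m.factorial : ℚ) ^ 2 := by
  have hB : (0 : ℚ) ≤ |(a : ℚ)| + |(b : ℚ)| * n := by positivity
  set B := |(a : ℚ)| + |(b : ℚ)| * n with hBdef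
  set W : ℚ := ((WW (fun r => zz (x r)) univ : ℤ) : ℚ) with hW
  let t : Finset (Col m) → ℚ := fun S =>
    (∏ r ∈ S, (f (x r) - 0)) * DS m (fun r => (zz (x r) : ℚ)) (fun _ => 0) S
  have hD : DD m f x = ∑ S, t S := det_expand _ _ (fun _ => 0)
  obtain ⟨S0, -, hS0⟩ := Finset.exists_max_image (univ : Finset (Finset (Col m)))
    (fun S => |t S|) univ_nonempty
  have h1 : |DD m f x| ≤ 4 ^ m * |t S0| := by
    rw [hD]
    refine (Finset.abs_sum_le_sum_abs _ _).trans ?_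
    refine (Finset.sum_le_card_nsmul _ _ _ hS0).trans (le_of_eq ?_)
    rw [nsmul_eq_mul, Finset.card_univ, Fintype.card_finset]
    simp only [Fintype.card_sum, Fintype.card_fin]
    push_cast
    rw [pow_add, ← mul_pow]; norm_num
  have h2 : |t S0| ^ 4 ≤ (B ^ m) ^ 4 * ((m.factorial : ℚ) ^ 2 * |W|) :=
    fzreal_term hx.zinj hB (fun r => ch_abs h (hx.mem r)) S0
  have h3 : |DD m f x| ^ 4 ≤ (4 ^ m * B ^ m) ^ 4 * (m.factorial : ℚ) ^ 2 * |W| := by
    calc |DD m f x| ^ 4 ≤ (4 ^ m * |t S0|) ^ 4 := pow_le_pow_left₀ (abs_nonneg _) h1 4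
      _ = (4 ^ m) ^ 4 * |t S0| ^ 4 := mul_pow _ _ _
      _ ≤ (4 ^ m) ^ 4 * ((B ^ m) ^ 4 * ((m.factorial : ℚ) ^ 2 * |W|)) :=
        mul_le_mul_of_nonneg_left h2 (by positivity)
      _ = _ := by ring
  have hq : qq m f x = DD m f x ^ 4 / W := rfl
  rw [hq, abs_div, abs_pow]
  exact div_le_of_le_mul₀ (abs_nonneg _) (by positivity) h3

theorem fzreal_pow {C : ℝ} (hC : 1 ≤ C) {n m : ℕ} (hn : 1 ≤ n) (hm : m ≤ 2 * n) {B : ℝ}
    (hB0 : 0 ≤ B) (hB : B ≤ C * n) :
    (4 ^ m * B ^ m) ^ 4 * (m.factorial : ℝ) ^ 2 ≤ (4 * C * n) ^ (12 * n) := by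
  have hn' : (1 : ℝ) ≤ n := by exact_mod_cast hn
  have hm' : (m : ℝ) ≤ 2 * n := by exact_mod_cast hm
  have hCn : (n : ℝ) ≤ C * n := by nlinarith
  have h1 : (1 : ℝ) ≤ 4 * C * n := by nlinarith
  have h2 : (4 : ℝ) ^ m * B ^ m ≤ (4 * C * n) ^ m := by
    rw [← mul_pow]
    exact pow_le_pow_left₀ (by positivity) (by nlinarith) m
  have h3 : (m.factorial : ℝ) ≤ (4 * C * n) ^ m := by
    have : (m.factorial : ℝ) ≤ (m : ℝ) ^ m := by exact_mod_cast Nat.factorial_le_pow m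
    exact this.trans (pow_le_pow_left₀ (by positivity) (by nlinarith) m)
  calc (4 ^ m * B ^ m) ^ 4 * (m.factorial : ℝ) ^ 2
      ≤ ((4 * C * n) ^ m) ^ 4 * ((4 * C * n) ^ m) ^ 2 :=
        mul_le_mul (pow_le_pow_left₀ (by positivity) h2 4)
          (pow_le_pow_left₀ (by positivity) h3 2) (by positivity) (by positivity)
    _ = (4 * C * n) ^ (6 * m) := by ring
    _ ≤ _ := pow_le_pow_right₀ h1 (by omega)

theorem real_bound {a b : ℤ} {f : Nd → ℚ} (h : Ch a b f) {ε : ℝ} (hε : 0 < ε) :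
    ∀ᶠ n : ℕ in atTop, ∀ m x, Sel n m x → DD m f x ≠ 0 →
      Real.log |(qq m f x : ℝ)| ≤ ε * n ^ 2 := by
  set C : ℝ := |(a : ℝ)| + |(b : ℝ)| + 1 with hC
  have ha : 0 ≤ |(a : ℝ)| := abs_nonneg _
  have hb : 0 ≤ |(b : ℝ)| := abs_nonneg _
  have hC1 : 1 ≤ C := by linarith
  have hC0 : 0 < C := by linarith
  have ht : Tendsto (fun n : ℕ => 4 * C * (n : ℝ)) atTop atTop :=
    tendsto_natCast_atTop_atTop.const_mul_atTop (by positivity)
  have hl := ht.eventually (Real.isLittleO_log_id_atTop.bound (c := ε / (48 * C)) (by positivity))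
  filter_upwards [hl, eventually_ge_atTop 1] with n hn hn1 m x hx _
  have hn' : (1 : ℝ) ≤ n := by exact_mod_cast hn1
  have hpos : 0 < 4 * C * (n : ℝ) := by positivity
  simp only [id, Real.norm_eq_abs] at hn
  rw [abs_of_pos hpos] at hn
  have hlog : Real.log (4 * C * n) ≤ ε / (48 * C) * (4 * C * n) := (le_abs_self _).trans hn
  have he : |(qq m f x : ℝ)| ≤
      (4 ^ m * (|(a : ℝ)| + |(b : ℝ)| * n) ^ m) ^ 4 * (m.factorial : ℝ) ^ 2 := by
    have := (Rat.cast_le (K := ℝ)).2 (real_explicit h hx)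
    push_cast at this
    exact this
  have hm : m ≤ 2 * n := by have := hx.hm; omega
  have he2 := he.trans (fzreal_pow hC1 hn1 hm (by positivity) (by rw [hC]; nlinarith))
  rcases (abs_nonneg (qq m f x : ℝ)).eq_or_lt with h0 | h0
  · rw [← h0, Real.log_zero]; positivity
  · calc Real.log |(qq m f x : ℝ)| ≤ Real.log ((4 * C * n) ^ (12 * n)) := Real.log_le_log h0 he2
      _ = 12 * n * Real.log (4 * C * n) := by rw [Real.log_pow]; push_cast; ring
      _ ≤ 12 * n * (ε / (48 * C) * (4 * C * n)) := mul_le_mul_of_nonneg_left hlog (by positivity)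
      _ = ε * n ^ 2 := by field_simp; ring

end Pool.Agent.FMZ
end

-- part Pool.Agent.P.MP_cb43af_nt.FvNode
section

open Finset Filter Polynomial Topology
namespace Pool.Agent.FMZ

variable {a b c : ℤ} {f : Nd → ℚ}

theorem exists_ch5 (a b c : ℤ) : ∃ f, Ch5 a b c f := by
  let g : Bool → ℤ → ℚ := fun e i => inc b c ((yy (e, i) : ℚ) + 6)
  refine ⟨fun x => (if x.1 then (a : ℚ) else 0) + ∑ j ∈ range x.2.toNat, g x.1 j -
    ∑ j ∈ range (-x.2).toNat, g x.1 (-1 - j), by simp, by simp, fun e i => ?_⟩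
  show _ = _ + g e i
  rcases le_or_gt 0 i with hi | hi
  · obtain ⟨k, rfl⟩ := Int.eq_ofNat_of_zero_le hi
    have e1 : ((k : ℤ) + 1).toNat = k + 1 := by omega
    have e2 : (-((k : ℤ) + 1)).toNat = 0 := by omega
    have e3 : (-(k : ℤ)).toNat = 0 := by omega
    simp only [e1, e2, e3, Int.toNat_natCast, sum_range_succ, range_zero, sum_empty]
    ring
  · obtain ⟨k, rfl⟩ : ∃ k : ℕ, i = -1 - k := ⟨(-1 - i).toNat, by omega⟩
    have e1 : (-1 - (k : ℤ) + 1).toNat = 0 := by omega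
    have e2 : (-(-1 - (k : ℤ) + 1)).toNat = k := by omega
    have e3 : (-(-1 - (k : ℤ))).toNat = k + 1 := by omega
    have e4 : (-1 - (k : ℤ)).toNat = 0 := by omega
    simp only [e1, e2, e3, e4, sum_range_succ, range_zero, sum_empty]
    ring

theorem fvnode_abs (b c : ℤ) (x : Nd) :
    |inc b c ((yy x : ℚ) + 6)| ≤ |(b : ℚ)| + |(c : ℚ)| := by
  have h1 : (1 : ℚ) ≤ |(yy x : ℚ) + 6| := by
    rw [fznode_cast]
    exact_mod_cast Int.one_le_abs (yy_link_ne x)
  refine (abs_add_le _ _).trans (add_le_add (fznode_abs b x) ?_)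
  rw [abs_div, abs_pow]
  exact div_le_self (abs_nonneg _) (one_le_pow₀ h1)

theorem fvnode_down (h : Ch5 a b c f) (e : Bool) (i : ℤ) :
    f (e, i - 1) = f (e, i) - inc b c ((yy (e, i - 1) : ℚ) + 6) := by
  have := h.step e (i - 1)
  rw [sub_add_cancel] at this
  rw [this, add_sub_cancel_right]

theorem ch_abs5 (h : Ch5 a b c f) {n : ℕ} {x : Nd} (hx : x ∈ nodes n) :
    |f x| ≤ |(a : ℚ)| + (|(b : ℚ)| + |(c : ℚ)|) * n := by
  obtain ⟨e, i⟩ := x
  have key : ∀ i : ℤ, |f (e, i)| ≤ |(a : ℚ)| + (|(b : ℚ)| + |(c : ℚ)|) * |(i : ℚ)| := by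
    intro i
    induction i using Int.induction_on with
    | zero => cases e <;> simp [h.zA, h.zB]
    | succ k ih =>
      have h1 := fvnode_abs b c (e, k)
      have h2 := abs_add_le (f (e, k)) (inc b c ((yy (e, k) : ℚ) + 6))
      rw [h.step]
      push_cast at ih ⊢
      rw [abs_of_nonneg (by positivity : (0 : ℚ) ≤ k)] at ih
      rw [abs_of_nonneg (by positivity : (0 : ℚ) ≤ k + 1)]
      linarith
    | pred k ih =>
      have h1 := fvnode_abs b c (e, -(k : ℤ) - 1)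
      have h2 := abs_sub (f (e, -(k : ℤ))) (inc b c ((yy (e, -(k : ℤ) - 1) : ℚ) + 6))
      have h3 : (0 : ℚ) ≤ k := by positivity
      rw [fvnode_down h]
      push_cast at ih ⊢
      rw [abs_neg, abs_of_nonneg h3] at ih
      rw [abs_of_nonpos (by linarith : -(k : ℚ) - 1 ≤ 0)]
      linarith
  obtain ⟨h1, h2⟩ := mem_nodes.1 hx
  have h3 : |(i : ℚ)| ≤ n := by
    have : |i| ≤ (n : ℤ) := abs_le.2 ⟨h1, h2.le⟩
    exact_mod_cast this
  exact (key i).trans (add_le_add le_rfl (mul_le_mul_of_nonneg_left h3 (by positivity)))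

theorem fvnode_five (p : ℕ) [hp : Fact p.Prime] (c : ℤ) {l : ℤ} {L : ℕ} (h0 : l ≠ 0)
    (h1 : |l| < (p : ℤ) ^ (L + 1)) : padicNorm p ((c : ℚ) / (l : ℚ) ^ 5) ≤ (p : ℚ) ^ (5 * L) := by
  have hp1 : (1 : ℚ) ≤ p := by exact_mod_cast hp.out.one_le
  have h2 : padicValInt p l ≤ L := by
    by_contra h3
    have h4 : (p : ℤ) ^ (L + 1) ∣ l := (padicValInt_dvd_iff _ _).2 (Or.inr (by omega))
    exact absurd (Int.le_of_dvd (abs_pos.2 h0) ((dvd_abs _ _).2 h4)) (not_le.2 h1)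
  have h3 : padicNorm p ((l : ℚ) ^ 5) = ((p : ℚ) ^ (5 * padicValInt p l))⁻¹ := by
    have h4 : (l : ℚ) ≠ 0 := by exact_mod_cast h0
    rw [padicNorm.eq_zpow_of_nonzero (pow_ne_zero 5 h4), padicValRat.pow, padicValRat.of_int,
      zpow_neg, ← zpow_natCast]
    push_cast
    rfl
  rw [padicNorm.div, h3, div_inv_eq_mul]
  calc padicNorm p (c : ℚ) * (p : ℚ) ^ (5 * padicValInt p l)
      ≤ 1 * (p : ℚ) ^ (5 * L) := by
        refine mul_le_mul (padicNorm.of_int c) (pow_le_pow_right₀ hp1 (by omega)) (by positivity)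
          zero_le_one
    _ = _ := one_mul _

theorem fvnode_norm (p : ℕ) [hp : Fact p.Prime] (b c : ℤ) {l : ℤ} {L : ℕ} (h0 : l ≠ 0)
    (h1 : |l| < (p : ℤ) ^ (L + 1)) : padicNorm p (inc b c (l : ℚ)) ≤ (p : ℚ) ^ (5 * L) := by
  have hp1 : (1 : ℚ) ≤ p := by exact_mod_cast hp.out.one_le
  exact padicNorm.nonarchimedean.trans (max_le
    ((fznode_norm p b h0 h1).trans (pow_le_pow_right₀ hp1 (by omega))) (fvnode_five p c h0 h1))

theorem ch_norm5 (h : Ch5 a b c f) (p : ℕ) [Fact p.Prime] {n L : ℕ}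
    (hL : 12 * n ≤ p ^ (L + 1)) {x : Nd} (hx : x ∈ nodes n) :
    padicNorm p (f x) ≤ (p : ℚ) ^ (5 * L) := by
  obtain ⟨e, i⟩ := x
  have hp1 : (1 : ℚ) ≤ p := by exact_mod_cast (Fact.out : p.Prime).one_le
  have hL' : (12 * n : ℤ) ≤ (p : ℤ) ^ (L + 1) := by exact_mod_cast hL
  have hs : ∀ j : ℤ, -(n : ℤ) ≤ j → j + 1 < n ∨ j < 0 →
      padicNorm p (inc b c ((yy (e, j) : ℚ) + 6)) ≤ (p : ℚ) ^ (5 * L) := by
    intro j h1 h2
    rw [fznode_cast]
    refine fvnode_norm p b c (yy_link_ne _) (lt_of_lt_of_le ?_ hL')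
    rw [abs_lt, yy]
    split_ifs <;> omega
  have key : ∀ i : ℤ, -(n : ℤ) ≤ i → i < n → padicNorm p (f (e, i)) ≤ (p : ℚ) ^ (5 * L) := by
    intro i
    induction i using Int.induction_on with
    | zero =>
      intro _ _
      cases e
      · rw [h.zA, padicNorm.zero]; positivity
      · rw [h.zB]; exact (padicNorm.of_int a).trans (one_le_pow₀ hp1)
    | succ k ih =>
      intro h1 h2
      rw [h.step]
      exact padicNorm.nonarchimedean.trans
        (max_le (ih (by omega) (by omega)) (hs k (by omega) (Or.inl h2)))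
    | pred k ih =>
      intro h1 h2
      rw [fvnode_down h]
      exact padicNorm.sub.trans
        (max_le (ih (by omega) (by omega)) (hs _ h1 (Or.inr (by omega))))
  exact key i (mem_nodes.1 hx).1 (mem_nodes.1 hx).2

theorem fvnode_explicit {f : Nd → ℚ} {B : ℚ} (hB : 0 ≤ B) {n m : ℕ} {x : Col m → Nd}
    (hx : Sel n m x) (hf : ∀ r, |f (x r)| ≤ B) :
    |qq m f x| ≤ (4 ^ m * B ^ m) ^ 4 * (m.factorial : ℚ) ^ 2 := by
  set W : ℚ := ((WW (fun r => zz (x r)) univ : ℤ) : ℚ) with hW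
  let t : Finset (Col m) → ℚ := fun S =>
    (∏ r ∈ S, (f (x r) - 0)) * DS m (fun r => (zz (x r) : ℚ)) (fun _ => 0) S
  have hD : DD m f x = ∑ S, t S := det_expand _ _ (fun _ => 0)
  obtain ⟨S0, -, hS0⟩ := Finset.exists_max_image (univ : Finset (Finset (Col m)))
    (fun S => |t S|) univ_nonempty
  have h1 : |DD m f x| ≤ 4 ^ m * |t S0| := by
    rw [hD]
    refine (Finset.abs_sum_le_sum_abs _ _).trans ?_
    refine (Finset.sum_le_card_nsmul _ _ _ hS0).trans (le_of_eq ?_)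
    rw [nsmul_eq_mul, Finset.card_univ, Fintype.card_finset]
    simp only [Fintype.card_sum, Fintype.card_fin]
    push_cast
    rw [pow_add, ← mul_pow]; norm_num
  have h2 : |t S0| ^ 4 ≤ (B ^ m) ^ 4 * ((m.factorial : ℚ) ^ 2 * |W|) :=
    fzreal_term hx.zinj hB hf S0
  have h3 : |DD m f x| ^ 4 ≤ (4 ^ m * B ^ m) ^ 4 * (m.factorial : ℚ) ^ 2 * |W| := by
    calc |DD m f x| ^ 4 ≤ (4 ^ m * |t S0|) ^ 4 := pow_le_pow_left₀ (abs_nonneg _) h1 4
      _ = (4 ^ m) ^ 4 * |t S0| ^ 4 := mul_pow _ _ _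
      _ ≤ (4 ^ m) ^ 4 * ((B ^ m) ^ 4 * ((m.factorial : ℚ) ^ 2 * |W|)) :=
        mul_le_mul_of_nonneg_left h2 (by positivity)
      _ = _ := by ring
  have hq : qq m f x = DD m f x ^ 4 / W := rfl
  rw [hq, abs_div, abs_pow]
  exact div_le_of_le_mul₀ (abs_nonneg _) (by positivity) h3

theorem real_bound5 (h : Ch5 a b c f) {ε : ℝ} (hε : 0 < ε) :
    ∀ᶠ n : ℕ in atTop, ∀ m x, Sel n m x → Real.log |(qq m f x : ℝ)| ≤ ε * n ^ 2 := by
  set C : ℝ := |(a : ℝ)| + (|(b : ℝ)| + |(c : ℝ)|) + 1 with hC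
  have ha : 0 ≤ |(a : ℝ)| := abs_nonneg _
  have hb : 0 ≤ |(b : ℝ)| + |(c : ℝ)| := by positivity
  have hC1 : 1 ≤ C := by linarith
  have hC0 : 0 < C := by linarith
  have ht : Tendsto (fun n : ℕ => 4 * C * (n : ℝ)) atTop atTop :=
    tendsto_natCast_atTop_atTop.const_mul_atTop (by positivity)
  have hl := ht.eventually (Real.isLittleO_log_id_atTop.bound (c := ε / (48 * C)) (by positivity))
  filter_upwards [hl, eventually_ge_atTop 1] with n hn hn1 m x hx
  have hn' : (1 : ℝ) ≤ n := by exact_mod_cast hn1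
  have hpos : 0 < 4 * C * (n : ℝ) := by positivity
  simp only [id, Real.norm_eq_abs] at hn
  rw [abs_of_pos hpos] at hn
  have hlog : Real.log (4 * C * n) ≤ ε / (48 * C) * (4 * C * n) := (le_abs_self _).trans hn
  have he : |(qq m f x : ℝ)| ≤
      (4 ^ m * (|(a : ℝ)| + (|(b : ℝ)| + |(c : ℝ)|) * n) ^ m) ^ 4 * (m.factorial : ℝ) ^ 2 := by
    have := (Rat.cast_le (K := ℝ)).2
      (fvnode_explicit (by positivity) hx fun r => ch_abs5 h (hx.mem r))
    push_cast at this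
    exact this
  have hm : m ≤ 2 * n := by have := hx.hm; omega
  have he2 := he.trans (fzreal_pow hC1 hn1 hm (by positivity) (by rw [hC]; nlinarith))
  rcases (abs_nonneg (qq m f x : ℝ)).eq_or_lt with h0 | h0
  · rw [← h0, Real.log_zero]; positivity
  · calc Real.log |(qq m f x : ℝ)| ≤ Real.log ((4 * C * n) ^ (12 * n)) := Real.log_le_log h0 he2
      _ = 12 * n * Real.log (4 * C * n) := by rw [Real.log_pow]; push_cast; ring
      _ ≤ 12 * n * (ε / (48 * C) * (4 * C * n)) := mul_le_mul_of_nonneg_left hlog (by positivity)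
      _ = ε * n ^ 2 := by field_simp; ring

end Pool.Agent.FMZ
end

-- part Pool.Agent.P.MP_cb43af_nt.FzNew
section

open Finset Filter Polynomial
namespace Pool.Agent.FMZ

theorem fznew_newton {ι R : Type} [LinearOrder ι] [CommRing R] (u : ι → R) (s : Finset ι) :
    ∀ P : R[X], ∃ a : ι → R, ∀ i ∈ s,
      P.eval (u i) = ∑ j ∈ s, (∏ l ∈ s.filter (· < j), (u i - u l)) * a j := by
  induction s using Finset.induction_on_min with
  | empty => exact fun P => ⟨0, by simp⟩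
  | insert a0 s h0 ih =>
    intro P
    have hn : a0 ∉ s := fun h => lt_irrefl _ (h0 a0 h)
    obtain ⟨Q, hQ⟩ := X_sub_C_dvd_sub_C_eval (p := P) (a := u a0)
    obtain ⟨a, ha⟩ := ih Q
    refine ⟨Function.update a a0 (P.eval (u a0)), fun i hi => ?_⟩
    have e0 : (insert a0 s).filter (· < a0) = ∅ := filter_eq_empty_iff.2 fun l hl => by
      rcases mem_insert.1 hl with rfl | hl
      · exact lt_irrefl _
      · exact (h0 l hl).not_gt
    have e1 : ∑ j ∈ s, (∏ l ∈ (insert a0 s).filter (· < j), (u i - u l))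
        * Function.update a a0 (P.eval (u a0)) j
        = (u i - u a0) * ∑ j ∈ s, (∏ l ∈ s.filter (· < j), (u i - u l)) * a j := by
      rw [mul_sum]
      refine sum_congr rfl fun j hj => ?_
      rw [filter_insert, if_pos (h0 j hj), prod_insert fun h => hn (mem_filter.1 h).1,
        Function.update_of_ne (ne_of_mem_of_not_mem hj hn), mul_assoc]
    rw [sum_insert hn, e0, prod_empty, one_mul, Function.update_self, e1]
    rcases mem_insert.1 hi with rfl | hi
    · simp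
    · have := congrArg (eval (u i)) hQ
      simp only [eval_sub, eval_C, eval_mul, eval_X] at this
      rw [← ha i hi, ← this]; ring

theorem fznew_dvd {ι γ R : Type} [Fintype ι] [LinearOrder ι] [DecidableEq γ] [CommRing R]
    (g : ι → γ) (P : γ → ι → R[X]) (u : ι → R) :
    (∏ i, ∏ l ∈ (univ.filter fun l => g l = g i).filter (· < i), (u i - u l))
      ∣ Matrix.det (Matrix.of fun i c => (P (g i) c).eval (u i)) := by
  choose a ha using fun (t : γ) (c : ι) => fznew_newton u (univ.filter fun l => g l = t) (P t c)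
  let N : Matrix ι ι R := Matrix.of fun i j => if g j = g i then
    ∏ l ∈ (univ.filter fun l => g l = g i).filter (· < j), (u i - u l) else 0
  have e : (Matrix.of fun i c => (P (g i) c).eval (u i)) = N * Matrix.of fun j c => a (g j) c j := by
    ext i c
    rw [Matrix.of_apply, ha (g i) c i (by simp), Matrix.mul_apply, sum_filter]
    refine sum_congr rfl fun j _ => ?_
    by_cases h : g j = g i
    · simp only [N, Matrix.of_apply, h, if_true]
    · simp only [N, Matrix.of_apply, h, if_false, zero_mul]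
  have tri : N.BlockTriangular OrderDual.toDual := fun i j hij => by
    have hij' : i < j := hij
    simp only [N, Matrix.of_apply]
    split_ifs with h
    · exact prod_eq_zero (i := i) (by simp [hij']) (sub_self _)
    · rfl
  rw [e, Matrix.det_mul, Matrix.det_of_lowerTriangular N tri]
  refine Dvd.dvd.mul_right (dvd_of_eq ?_) _
  exact prod_congr rfl fun i _ => by simp only [N, Matrix.of_apply, if_true]

theorem fznew_ord {ι γ R : Type} [Fintype ι] [LinearOrder ι] [DecidableEq γ] [CommRing R]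
    (g : ι → γ) (P : γ → ι → R[X]) (u : ι → R) :
    WG u g ∣ Matrix.det (Matrix.of fun i c => (P (g i) c).eval (u i)) ^ 2 := by
  have h := fznew_dvd g P u
  have e1 : WG u g = (∏ i, ∏ l ∈ (univ.filter fun l => g l = g i).filter (· < i), (u i - u l))
      * ∏ i, ∏ l ∈ (univ.filter fun l => g l = g i).filter (i < ·), (u i - u l) := by
    rw [WG, ← prod_mul_distrib]
    refine prod_congr rfl fun i _ => ?_
    rw [← prod_union (disjoint_filter.2 fun l _ h1 h2 => lt_asymm h1 h2)]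
    refine prod_congr ?_ fun _ _ => rfl
    ext l
    simp only [mem_filter, mem_erase, mem_univ, and_true, true_and, mem_union, ne_eq]
    constructor
    · rintro ⟨h1, h2⟩
      rcases lt_or_gt_of_ne h1 with h3 | h3
      · exact Or.inl ⟨h2, h3⟩
      · exact Or.inr ⟨h2, h3⟩
    · rintro (⟨h2, h3⟩ | ⟨h2, h3⟩)
      · exact ⟨h3.ne, h2⟩
      · exact ⟨h3.ne', h2⟩
  have e2 : ∏ i, ∏ l ∈ (univ.filter fun l => g l = g i).filter (i < ·), (u i - u l)
      = ∏ i, ∏ l ∈ (univ.filter fun l => g l = g i).filter (· < i), (u l - u i) :=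
    prod_comm' fun i l => by
      simp only [mem_filter, mem_univ, true_and, and_true]
      exact ⟨fun h => ⟨h.1.symm, h.2⟩, fun h => ⟨h.1.symm, h.2⟩⟩
  rw [e1, e2, sq]
  refine mul_dvd_mul h (Dvd.dvd.trans ?_ h)
  exact prod_dvd_prod_of_dvd _ _ fun i _ => prod_dvd_prod_of_dvd _ _ fun l _ =>
    ⟨-1, by ring⟩

theorem newton_dvd {ι γ R : Type} [Fintype ι] [DecidableEq ι] [DecidableEq γ] [CommRing R]
    (g : ι → γ) (P : γ → ι → R[X]) (u : ι → R) :
    WG u g ∣ Matrix.det (Matrix.of fun i c => (P (g i) c).eval (u i)) ^ 2 := by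
  letI : LinearOrder ι := LinearOrder.lift' (Fintype.equivFin ι) (Fintype.equivFin ι).injective
  have h := fznew_ord g P u
  have e : (LinearOrder.toDecidableEq : DecidableEq ι) = ‹DecidableEq ι› := Subsingleton.elim _ _
  exact e ▸ h

end Pool.Agent.FMZ
end

-- part Pool.Agent.P.MP_cb43af_nt.FzCls
section

open Finset Filter Polynomial
namespace Pool.Agent.FMZ

variable {ι γ : Type} [Fintype ι] [DecidableEq ι] [DecidableEq γ]

theorem fzcls_card (g : ι → γ) (S : Finset ι) :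
    (S.card : ℤ) = ∑ c ∈ univ.image g, ((S.filter fun j => g j = c).card : ℤ) := by
  exact_mod_cast card_eq_sum_card_fiberwise (f := g) (s := S) (t := univ.image g)
    fun i _ => mem_coe.2 (mem_image_of_mem g (mem_univ i))

theorem fzcls_cg (g : ι → γ) (S : Finset ι) :
    (cg g S : ℤ) = ∑ c ∈ univ.image g, ((S.filter fun j => g j = c).card : ℤ) *
      (((S.filter fun j => g j = c).card : ℤ) - 1) := by
  rw [cg, Nat.cast_sum, ← sum_fiberwise_of_maps_to (g := g) (t := univ.image g)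
    fun i _ => mem_image_of_mem g (mem_univ i)]
  refine sum_congr rfl fun c _ => ?_
  rw [← nsmul_eq_mul, ← sum_const]
  refine sum_congr rfl fun i hi => ?_
  rw [filter_erase, (mem_filter.1 hi).2, cast_card_erase_of_mem hi]

theorem fzcls_split (g : ι → γ) (S : Finset ι) (c : γ) :
    (univ.filter fun j => g j = c).card =
      (S.filter fun j => g j = c).card + (Sᶜ.filter fun j => g j = c).card := by
  rw [← card_union_of_disjoint (disjoint_filter_filter disjoint_compl_right), ← filter_union,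
    union_compl]

theorem cls_one (g : ι → γ) (S : Finset ι) :
    cg g univ ≤ 2 * cg g S + 2 * cg g Sᶜ + mult g := by
  zify
  rw [mult, fzcls_cg, fzcls_cg, fzcls_cg, fzcls_card g, mul_sum, mul_sum, ← sum_add_distrib,
    ← sum_add_distrib]
  refine sum_le_sum fun c _ => ?_
  have hm : 1 < (univ.filter fun j => g j = c).card → (univ.filter fun j => g j = c).card ≤
      ((univ.filter fun i => ∃ j, j ≠ i ∧ g j = g i).filter fun j => g j = c).card := by
    intro h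
    refine card_le_card fun i hi => mem_filter.2 ⟨mem_filter.2 ⟨mem_univ i, ?_⟩, (mem_filter.1 hi).2⟩
    obtain ⟨j, hj, hji⟩ := exists_mem_ne h i
    exact ⟨j, hji, (mem_filter.1 hj).2.trans (mem_filter.1 hi).2.symm⟩
  rw [fzcls_split g S c] at hm ⊢
  generalize (S.filter fun j => g j = c).card = s at hm ⊢
  generalize (Sᶜ.filter fun j => g j = c).card = t at hm ⊢
  generalize ((univ.filter fun i => ∃ j, j ≠ i ∧ g j = g i).filter fun j => g j = c).card = m at hm ⊢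
  push_cast
  by_cases h : 1 < s + t
  · have h1 : (s : ℤ) + t ≤ m := by exact_mod_cast hm h
    nlinarith [sq_nonneg ((s : ℤ) - t)]
  · have h0 : (0 : ℤ) ≤ m := Int.natCast_nonneg m
    have h1 : s ≤ 1 := by omega
    have h2 : t ≤ 1 := by omega
    interval_cases s <;> interval_cases t <;> simp at h ⊢
theorem cls_two (g : ι → γ) (S : Finset ι) {T : Finset ι} {σ : ι → ι} (h : Mat g T σ) :
    cg g univ + 2 * T.card ≤ 2 * cg g S + 2 * cg g Sᶜ + 4 * S.card := by
  zify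
  rw [fzcls_cg, fzcls_cg, fzcls_cg, fzcls_card g T, fzcls_card g S, mul_sum, mul_sum, mul_sum,
    mul_sum, ← sum_add_distrib, ← sum_add_distrib, ← sum_add_distrib]
  refine sum_le_sum fun c _ => ?_
  have hm : (T.filter fun j => g j = c).card + (T.filter fun j => g j = c).card ≤
      (univ.filter fun j => g j = c).card := by
    have h1 : ((T.filter fun j => g j = c).image σ).card = (T.filter fun j => g j = c).card :=
      card_image_of_injOn (h.2.mono (coe_subset.2 (filter_subset _ _)))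
    have h2 : Disjoint (T.filter fun j => g j = c) ((T.filter fun j => g j = c).image σ) := by
      refine disjoint_left.2 fun i hi hi' => ?_
      obtain ⟨j, hj, rfl⟩ := mem_image.1 hi'
      exact (h.1 j (mem_filter.1 hj).1).2 (mem_filter.1 hi).1
    conv_lhs => rhs; rw [← h1]
    rw [← card_union_of_disjoint h2]
    refine card_le_card (union_subset (filter_subset_filter _ (subset_univ T)) fun i hi => ?_)
    obtain ⟨j, hj, rfl⟩ := mem_image.1 hi
    exact mem_filter.2 ⟨mem_univ _, (h.1 j (mem_filter.1 hj).1).1.trans (mem_filter.1 hj).2⟩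
  rw [fzcls_split g S c] at hm ⊢
  generalize (S.filter fun j => g j = c).card = s at hm ⊢
  generalize (Sᶜ.filter fun j => g j = c).card = t at hm ⊢
  generalize (T.filter fun j => g j = c).card = m at hm ⊢
  push_cast
  by_cases h1 : (s : ℤ) - t + 1 = 0
  · have h2 : (m : ℤ) + m + 1 ≤ s + t := by omega
    nlinarith [sq_nonneg ((s : ℤ) - t + 1)]
  · have h2 : (m : ℤ) + m ≤ s + t := by omega
    have h3 : 0 < ((s : ℤ) - t + 1) ^ 2 := by positivity
    nlinarith
theorem mult_le (g : ι → γ) : mult g ≤ Fintype.card ι := by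
  exact card_le_univ _

end Pool.Agent.FMZ
end

-- part Pool.Agent.P.MP_cb43af_nt.FzLev
section

open Finset Filter Polynomial
namespace Pool.Agent.FMZ

theorem ds_val (p : ℕ) [Fact p.Prime] {m : ℕ} {z φ : Col m → ℤ} (hz : Function.Injective z)
    (hφ : ∀ r s, z r % p = z s % p → φ r = φ s) {S : Finset (Col m)} (h : DS m z φ S ≠ 0) :
    padicValInt p (WW z S) + padicValInt p (WW z Sᶜ) ≤ 2 * padicValInt p (DS m z φ S) := by
  classical
  let ψ : ℤ → ℤ := fun c => if h : ∃ r, z r % p = c then φ h.choose else 0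
  have hψ : ∀ r, ψ (z r % p) = φ r := by
    intro r
    have e : ∃ s, z s % p = z r % p := ⟨r, rfl⟩
    simp only [ψ, dif_pos e]
    exact hφ _ _ e.choose_spec
  let g : Col m → Option ℤ := fun r => if r ∈ S then none else some (z r % p)
  let P : Option ℤ → Col m → ℤ[X] := fun o =>
    o.elim (rowv m X 0 1) (fun c => rowv m X 1 (C (ψ c)))
  have hd := newton_dvd g P z
  have e : (Matrix.of fun i c => (P (g i) c).eval (z i)) =
      Matrix.of fun r => if r ∈ S then rowv m (z r) 0 1 else rowv m (z r) 1 (φ r) := by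
    ext i c
    by_cases hi : i ∈ S
    · rcases c with c | c <;> simp [P, g, hi, rowv]
    · rcases c with c | c <;> simp [P, g, hi, rowv, hψ]
  rw [e] at hd
  change WG z g ∣ DS m z φ S ^ 2 at hd
  obtain ⟨k, hk⟩ := hd
  have h2 : WG z g * k ≠ 0 := hk ▸ pow_ne_zero 2 h
  have h3 : 2 * padicValInt p (DS m z φ S) = padicValInt p (WG z g) + padicValInt p k := by
    rw [← padicValInt.mul (left_ne_zero_of_mul h2) (right_ne_zero_of_mul h2), ← hk, sq,
      padicValInt.mul h h, two_mul]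
  have ne : ∀ i j : Col m, j ≠ i → z i - z j ≠ 0 := fun i j hij =>
    sub_ne_zero.2 fun e => hij (hz e).symm
  have vW : ∀ A : Finset (Col m), padicValInt p (WW z A) =
      ∑ i ∈ A, ∑ j ∈ A.erase i, padicValInt p (z i - z j) := by
    intro A
    unfold WW
    rw [valInt_prod p _ _ fun i _ => prod_ne_zero_iff.2 fun j hj => ne i j (ne_of_mem_erase hj)]
    exact sum_congr rfl fun i _ => valInt_prod p _ _ fun j hj => ne i j (ne_of_mem_erase hj)
  have vG : padicValInt p (WG z g) =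
      ∑ i, ∑ j ∈ (univ.erase i).filter (fun j => g j = g i), padicValInt p (z i - z j) := by
    unfold WG
    rw [valInt_prod p _ _ fun i _ => prod_ne_zero_iff.2 fun j hj =>
      ne i j (ne_of_mem_erase (mem_filter.1 hj).1)]
    exact sum_congr rfl fun i _ => valInt_prod p _ _ fun j hj =>
      ne i j (ne_of_mem_erase (mem_filter.1 hj).1)
  rw [h3, vW, vW, vG, ← sum_add_sum_compl S]
  refine le_trans (add_le_add (sum_le_sum fun i hi => ?_) (sum_le_sum fun i hi => ?_))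
    (Nat.le_add_right _ _)
  · apply sum_le_sum_of_subset
    intro j hj
    rw [mem_erase] at hj
    exact mem_filter.2 ⟨mem_erase.2 ⟨hj.1, mem_univ _⟩, by simp [g, hi, hj.2]⟩
  · apply sum_le_sum_of_ne_zero
    intro j hj h0
    rw [mem_erase, mem_compl] at hj
    rw [mem_compl] at hi
    have hdv : (p : ℤ) ∣ z i - z j := by
      by_contra hn
      exact h0 (padicValInt.eq_zero_of_not_dvd hn)
    have hm : z j % p = z i % p := Int.modEq_iff_dvd.2 hdv
    exact mem_filter.2 ⟨mem_erase.2 ⟨hj.1, mem_univ _⟩, by simp [g, hi, hj.2, hm]⟩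

variable {ι : Type} [Fintype ι] [DecidableEq ι]

theorem lev_one (p : ℕ) [Fact p.Prime] {u : ι → ℤ} {K : ℕ}
    (hK : ∀ i j, i ≠ j → ¬ (p : ℤ) ^ (K + 1) ∣ u i - u j) (S : Finset ι) :
    padicValInt p (WW u univ) ≤ 2 * padicValInt p (WW u S) + 2 * padicValInt p (WW u Sᶜ)
      + ∑ k ∈ Icc 1 K, mult fun i => u i % (p : ℤ) ^ k := by
  rw [val_WW p hK, val_WW p hK, val_WW p hK, mul_sum, mul_sum, ← sum_add_distrib,
    ← sum_add_distrib]
  exact sum_le_sum fun k _ => cls_one _ S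
theorem lev_two (p : ℕ) [Fact p.Prime] {u : ι → ℤ}
    (hK : ∀ i j, i ≠ j → ¬ (p : ℤ) ^ 3 ∣ u i - u j) (S : Finset ι) {T : Finset ι} {σ : ι → ι}
    (h : Mat (fun i => u i % (p : ℤ)) T σ) :
    padicValInt p (WW u univ) + 2 * T.card ≤ 2 * padicValInt p (WW u S)
      + 2 * padicValInt p (WW u Sᶜ) + 4 * S.card + mult fun i => u i % (p : ℤ) ^ 2 := by
  have e : Icc 1 2 = ({1, 2} : Finset ℕ) := by decide
  rw [val_WW p (K := 2) hK, val_WW p (K := 2) hK, val_WW p (K := 2) hK, e]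
  simp only [sum_pair (show (1 : ℕ) ≠ 2 by decide), pow_one]
  have h1 := cls_two _ S h
  have h2 := cls_one (fun i => u i % (p : ℤ) ^ 2) S
  omega

end Pool.Agent.FMZ
end

-- part Pool.Agent.P.MP_cb43af_nt.FzTriv
section

open Finset Filter Polynomial
namespace Pool.Agent.FMZ

variable {a b : ℤ} {f : Nd → ℚ} {n m : ℕ} {x : Col m → Nd}

theorem qq_ne_zero (hx : Sel n m x) (hD : DD m f x ≠ 0) : qq m f x ≠ 0 := by
  exact div_ne_zero (pow_ne_zero 4 hD) (Int.cast_ne_zero.2 (WW_ne_zero hx.zinj univ))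

theorem val_qq (p : ℕ) [Fact p.Prime] (hx : Sel n m x) (hD : DD m f x ≠ 0) :
    padicValRat p (qq m f x)
      = 4 * padicValRat p (DD m f x) - padicValInt p (WW (fun r => zz (x r)) univ) := by
  unfold qq
  rw [padicValRat.div (pow_ne_zero 4 hD) (Int.cast_ne_zero.2 (WW_ne_zero hx.zinj univ)),
    padicValRat.pow, padicValRat.of_int]
  norm_num

theorem triv_gen (h : Ch a b f) (hx : Sel n m x) (hD : DD m f x ≠ 0) (p : ℕ) [Fact p.Prime]
    {L K : ℕ} (hL : 12 * n ≤ p ^ (L + 1))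
    (hK : ∀ r s, r ≠ s → ¬ (p : ℤ) ^ (K + 1) ∣ zz (x r) - zz (x s)) :
    -(12 * m * L : ℤ) - (∑ k ∈ Icc 1 K, mult fun r => zz (x r) % (p : ℤ) ^ k : ℕ)
      ≤ padicValRat p (qq m f x) := by
  have e : DD m f x = ∑ S : Finset (Col m), (∏ r ∈ S, (f (x r) - 0)) *
      DS m (fun r => (zz (x r) : ℚ)) (fun _ => 0) S := det_expand _ _ (fun _ => 0)
  obtain ⟨S, -, hne, hle⟩ := val_term p univ _ (e ▸ hD)
  rw [← e] at hle
  have hc : ((DS m (fun r => zz (x r)) (fun _ => 0) S : ℤ) : ℚ) =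
      DS m (fun r => (zz (x r) : ℚ)) (fun _ => 0) S := by
    simpa using DS_map (Int.castRingHom ℚ) (fun r => zz (x r)) (fun _ => 0) S
  have h1 := left_ne_zero_of_mul hne
  have h2 := right_ne_zero_of_mul hne
  have hS : S.card ≤ m := by
    by_contra hlt
    exact h2 (DS_eq_zero _ _ (not_le.1 hlt))
  have h3 : DS m (fun r => zz (x r)) (fun _ => 0) S ≠ 0 := by
    intro h0
    rw [← hc, h0] at h2
    exact h2 Int.cast_zero
  have h4 : ∀ r ∈ S, f (x r) - 0 ≠ 0 := prod_ne_zero_iff.1 h1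
  rw [padicValRat.mul h1 h2, val_prod p S _ h4, ← hc, padicValRat.of_int] at hle
  have h5 : ∀ r ∈ S, -(3 * L : ℤ) ≤ padicValRat p (f (x r) - 0) := fun r hr => by
    refine (val_of_norm p (h4 r hr) _).1 ?_
    have := ch_norm h p hL (hx.mem r)
    rw [neg_neg, sub_zero]
    exact_mod_cast this
  have h6 := card_nsmul_le_sum S _ _ h5
  rw [nsmul_eq_mul] at h6
  have h7 := ds_val p hx.zinj (φ := fun _ => 0) (fun _ _ _ => rfl) h3
  have h8 := lev_one p (u := fun r => zz (x r)) hK S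
  have h9 : (S.card : ℤ) * L ≤ m * L := by gcongr
  rw [val_qq p hx hD]
  zify at h7 h8
  push_cast at h8 ⊢
  linarith

theorem triv_a (h : Ch a b f) (hx : Sel n m x) (hD : DD m f x ≠ 0) {p : ℕ} (hp : p.Prime)
    (h1 : 24 * n ≤ p) : 0 ≤ padicValRat p (qq m f x) := by
  have := Fact.mk hp
  have := triv_gen h hx hD p (L := 0) (K := 0) (by rw [zero_add, pow_one]; omega) fun r s hrs hd => by
    rw [zero_add, pow_one, zz_sub] at hd
    have a1 := abs_lt.1 (yy_lt (hx.mem r))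
    have a2 := abs_lt.1 (yy_lt (hx.mem s))
    have hp' : (24 * n : ℤ) ≤ p := by exact_mod_cast h1
    rcases (Nat.prime_iff_prime_int.1 hp).dvd_or_dvd hd with hd | hd
    · have := Int.eq_zero_of_abs_lt_dvd hd (abs_lt.2 ⟨by omega, by omega⟩)
      exact hrs (hx.inj (yy_inj (sub_eq_zero.1 this)))
    · exact yy_add_ne _ _ (Int.eq_zero_of_abs_lt_dvd hd (abs_lt.2 ⟨by omega, by omega⟩))
  simpa using this

theorem triv_b (h : Ch a b f) (hx : Sel n m x) (hD : DD m f x ≠ 0) {p : ℕ} (hp : p.Prime) :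
    -(32 * n * Real.log (24 * n)) ≤ (padicValRat p (qq m f x) : ℝ) * Real.log p := by
  have := Fact.mk hp
  have hm := hx.hm
  have hn : 0 < n := by omega
  have hL := (Nat.lt_pow_succ_log_self hp.one_lt (12 * n)).le
  have hK := Nat.lt_pow_succ_log_self hp.one_lt ((12 * n) ^ 2)
  have hL' := Nat.pow_log_le_self p (show 12 * n ≠ 0 by omega)
  have hK' := Nat.pow_log_le_self p (show (12 * n) ^ 2 ≠ 0 by positivity)
  generalize Nat.log p (12 * n) = L at hL hL'
  generalize Nat.log p ((12 * n) ^ 2) = K at hK hK'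
  have key := triv_gen h hx hD p (L := L) (K := K) hL fun r s hrs hd => by
    have a1 := sq_lt_sq.2 ((yy_lt (hx.mem r)).trans_le (le_abs_self _))
    have a2 := sq_lt_sq.2 ((yy_lt (hx.mem s)).trans_le (le_abs_self _))
    have hK2 : ((12 * n : ℤ)) ^ 2 < (p : ℤ) ^ (K + 1) := by exact_mod_cast hK
    have b1 := sq_nonneg (yy (x r))
    have b2 := sq_nonneg (yy (x s))
    have aux : ∀ A B N P : ℤ, A < N → B < N → N < P → 0 ≤ A → 0 ≤ B →
        |A - 4 - (B - 4)| < P := fun A B N P _ _ _ _ _ => abs_lt.2 ⟨by omega, by omega⟩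
    have := Int.eq_zero_of_abs_lt_dvd hd (aux _ _ _ _ a1 a2 hK2 b1 b2)
    exact hrs (hx.zinj (sub_eq_zero.1 this))
  have hs : (∑ k ∈ Icc 1 K, mult fun r => zz (x r) % (p : ℤ) ^ k) ≤ K * (2 * m) := by
    refine (sum_le_card_nsmul _ _ (2 * m) fun k _ => (mult_le _).trans_eq ?_).trans_eq (by simp)
    simp [two_mul]
  generalize (∑ k ∈ Icc 1 K, mult fun r => zz (x r) % (p : ℤ) ^ k) = M at key hs
  have k1 : -(12 * m * L : ℝ) - M ≤ padicValRat p (qq m f x) := by exact_mod_cast key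
  have k2 : (M : ℝ) ≤ K * (2 * m) := by exact_mod_cast hs
  have hp0 : (0 : ℝ) < p := by exact_mod_cast hp.pos
  have hn0 : (1 : ℝ) ≤ n := by exact_mod_cast hn
  have hlp : 0 ≤ Real.log p := Real.log_natCast_nonneg p
  have l0 : Real.log (12 * n) ≤ Real.log (24 * n) := Real.log_le_log (by linarith) (by linarith)
  have l00 : 0 ≤ Real.log (12 * n) := Real.log_nonneg (by linarith)
  have l1 : L * Real.log p ≤ Real.log (12 * n) := by
    rw [← Real.log_pow]
    exact Real.log_le_log (by positivity) (by exact_mod_cast hL')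
  have l2 : K * Real.log p ≤ 2 * Real.log (12 * n) := by
    have : Real.log ((p : ℝ) ^ K) ≤ Real.log ((12 * n) ^ 2) :=
      Real.log_le_log (by positivity) (by exact_mod_cast hK')
    rw [Real.log_pow, Real.log_pow] at this
    exact_mod_cast this
  have m1 : (m : ℝ) ≤ 2 * n := by exact_mod_cast (show m ≤ 2 * n by omega)
  have m0 : (0 : ℝ) ≤ m := Nat.cast_nonneg m
  have k3 : -(12 * m * L : ℝ) - K * (2 * m) ≤ padicValRat p (qq m f x) := by linarith
  have k4 := mul_le_mul_of_nonneg_right k3 hlp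
  have k5 := mul_le_mul_of_nonneg_left l1 m0
  have k6 := mul_le_mul_of_nonneg_left l2 m0
  have k7 := mul_le_mul m1 l0 l00 (by linarith)
  nlinarith

theorem triv_c (h : Ch a b f) (hx : Sel n m x) (hD : DD m f x ≠ 0) {p : ℕ} (hp : p.Prime)
    (h5 : 5 ≤ p) (h2 : 24 * n ≤ p ^ 2) :
    -(28 * n + 4 * n / p + 2 : ℝ) ≤ padicValRat p (qq m f x) := by
  have := Fact.mk hp
  have hm := hx.hm
  have key := triv_gen h hx hD p (L := 1) (K := 2) (by norm_num; omega) (not_cube hx hp h2)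
  have e : Icc 1 2 = ({1, 2} : Finset ℕ) := by decide
  rw [e, sum_pair (by decide)] at key
  have a1 : (mult fun r => zz (x r) % (p : ℤ) ^ 1) ≤ 2 * m := (mult_le _).trans_eq (by simp [two_mul])
  have a2 := mult_sq hx hp h5 h2
  generalize (mult fun r => zz (x r) % (p : ℤ) ^ 1) = M1 at key a1
  generalize (mult fun r => zz (x r) % (p : ℤ) ^ 2) = M2 at key a2
  have k1 : -(12 * m * (1 : ℕ) : ℝ) - (M1 + M2 : ℕ) ≤ padicValRat p (qq m f x) := by
    exact_mod_cast key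
  have k2 : (M1 : ℝ) ≤ 2 * m := by exact_mod_cast a1
  have m1 : (m : ℝ) ≤ 2 * n := by exact_mod_cast (show m ≤ 2 * n by omega)
  push_cast at k1
  linarith


end Pool.Agent.FMZ
end

-- part Pool.Agent.P.MP_cb43af_nt.FvTriv
section

open Finset Filter Polynomial Topology
namespace Pool.Agent.FMZ

variable {a b c : ℤ} {f : Nd → ℚ} {n m : ℕ} {x : Col m → Nd}

theorem triv5_gen (h : Ch5 a b c f) (hx : Sel n m x) (hD : DD m f x ≠ 0) (p : ℕ) [Fact p.Prime]
    {L K : ℕ} (hL : 12 * n ≤ p ^ (L + 1))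
    (hK : ∀ r s, r ≠ s → ¬ (p : ℤ) ^ (K + 1) ∣ zz (x r) - zz (x s)) :
    -(20 * m * L : ℤ) - (∑ k ∈ Icc 1 K, mult fun r => zz (x r) % (p : ℤ) ^ k : ℕ)
      ≤ padicValRat p (qq m f x) := by
  have e : DD m f x = ∑ S : Finset (Col m), (∏ r ∈ S, (f (x r) - 0)) *
      DS m (fun r => (zz (x r) : ℚ)) (fun _ => 0) S := det_expand _ _ (fun _ => 0)
  obtain ⟨S, -, hne, hle⟩ := val_term p univ _ (e ▸ hD)
  rw [← e] at hle
  have hc : ((DS m (fun r => zz (x r)) (fun _ => 0) S : ℤ) : ℚ) =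
      DS m (fun r => (zz (x r) : ℚ)) (fun _ => 0) S := by
    simpa using DS_map (Int.castRingHom ℚ) (fun r => zz (x r)) (fun _ => 0) S
  have h1 := left_ne_zero_of_mul hne
  have h2 := right_ne_zero_of_mul hne
  have hS : S.card ≤ m := by
    by_contra hlt
    exact h2 (DS_eq_zero _ _ (not_le.1 hlt))
  have h3 : DS m (fun r => zz (x r)) (fun _ => 0) S ≠ 0 := by
    intro h0
    rw [← hc, h0] at h2
    exact h2 Int.cast_zero
  have h4 : ∀ r ∈ S, f (x r) - 0 ≠ 0 := prod_ne_zero_iff.1 h1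
  rw [padicValRat.mul h1 h2, val_prod p S _ h4, ← hc, padicValRat.of_int] at hle
  have h5 : ∀ r ∈ S, -(5 * L : ℤ) ≤ padicValRat p (f (x r) - 0) := fun r hr => by
    refine (val_of_norm p (h4 r hr) _).1 ?_
    have := ch_norm5 h p hL (hx.mem r)
    rw [neg_neg, sub_zero]
    exact_mod_cast this
  have h6 := card_nsmul_le_sum S _ _ h5
  rw [nsmul_eq_mul] at h6
  have h7 := ds_val p hx.zinj (φ := fun _ => 0) (fun _ _ _ => rfl) h3
  have h8 := lev_one p (u := fun r => zz (x r)) hK S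
  have h9 : (S.card : ℤ) * L ≤ m * L := by gcongr
  rw [val_qq p hx hD]
  zify at h7 h8
  push_cast at h8 ⊢
  linarith

theorem triv5_a (h : Ch5 a b c f) (hx : Sel n m x) (hD : DD m f x ≠ 0) {p : ℕ} (hp : p.Prime)
    (h1 : 24 * n ≤ p) : 0 ≤ padicValRat p (qq m f x) := by
  have := Fact.mk hp
  have := triv5_gen h hx hD p (L := 0) (K := 0) (by rw [zero_add, pow_one]; omega) fun r s hrs hd => by
    rw [zero_add, pow_one, zz_sub] at hd
    have a1 := abs_lt.1 (yy_lt (hx.mem r))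
    have a2 := abs_lt.1 (yy_lt (hx.mem s))
    have hp' : (24 * n : ℤ) ≤ p := by exact_mod_cast h1
    rcases (Nat.prime_iff_prime_int.1 hp).dvd_or_dvd hd with hd | hd
    · have := Int.eq_zero_of_abs_lt_dvd hd (abs_lt.2 ⟨by omega, by omega⟩)
      exact hrs (hx.inj (yy_inj (sub_eq_zero.1 this)))
    · exact yy_add_ne _ _ (Int.eq_zero_of_abs_lt_dvd hd (abs_lt.2 ⟨by omega, by omega⟩))
  simpa using this

theorem triv5_b (h : Ch5 a b c f) (hx : Sel n m x) (hD : DD m f x ≠ 0) {p : ℕ} (hp : p.Prime) :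
    -(48 * n * Real.log (24 * n)) ≤ (padicValRat p (qq m f x) : ℝ) * Real.log p := by
  have := Fact.mk hp
  have hm := hx.hm
  have hn : 0 < n := by omega
  have hL := (Nat.lt_pow_succ_log_self hp.one_lt (12 * n)).le
  have hK := Nat.lt_pow_succ_log_self hp.one_lt ((12 * n) ^ 2)
  have hL' := Nat.pow_log_le_self p (show 12 * n ≠ 0 by omega)
  have hK' := Nat.pow_log_le_self p (show (12 * n) ^ 2 ≠ 0 by positivity)
  generalize Nat.log p (12 * n) = L at hL hL'
  generalize Nat.log p ((12 * n) ^ 2) = K at hK hK'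
  have key := triv5_gen h hx hD p (L := L) (K := K) hL fun r s hrs hd => by
    have a1 := sq_lt_sq.2 ((yy_lt (hx.mem r)).trans_le (le_abs_self _))
    have a2 := sq_lt_sq.2 ((yy_lt (hx.mem s)).trans_le (le_abs_self _))
    have hK2 : ((12 * n : ℤ)) ^ 2 < (p : ℤ) ^ (K + 1) := by exact_mod_cast hK
    have b1 := sq_nonneg (yy (x r))
    have b2 := sq_nonneg (yy (x s))
    have aux : ∀ A B N P : ℤ, A < N → B < N → N < P → 0 ≤ A → 0 ≤ B →
        |A - 4 - (B - 4)| < P := fun A B N P _ _ _ _ _ => abs_lt.2 ⟨by omega, by omega⟩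
    have := Int.eq_zero_of_abs_lt_dvd hd (aux _ _ _ _ a1 a2 hK2 b1 b2)
    exact hrs (hx.zinj (sub_eq_zero.1 this))
  have hs : (∑ k ∈ Icc 1 K, mult fun r => zz (x r) % (p : ℤ) ^ k) ≤ K * (2 * m) := by
    refine (sum_le_card_nsmul _ _ (2 * m) fun k _ => (mult_le _).trans_eq ?_).trans_eq (by simp)
    simp [two_mul]
  generalize (∑ k ∈ Icc 1 K, mult fun r => zz (x r) % (p : ℤ) ^ k) = M at key hs
  have k1 : -(20 * m * L : ℝ) - M ≤ padicValRat p (qq m f x) := by exact_mod_cast key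
  have k2 : (M : ℝ) ≤ K * (2 * m) := by exact_mod_cast hs
  have hp0 : (0 : ℝ) < p := by exact_mod_cast hp.pos
  have hn0 : (1 : ℝ) ≤ n := by exact_mod_cast hn
  have hlp : 0 ≤ Real.log p := Real.log_natCast_nonneg p
  have l0 : Real.log (12 * n) ≤ Real.log (24 * n) := Real.log_le_log (by linarith) (by linarith)
  have l00 : 0 ≤ Real.log (12 * n) := Real.log_nonneg (by linarith)
  have l1 : L * Real.log p ≤ Real.log (12 * n) := by
    rw [← Real.log_pow]
    exact Real.log_le_log (by positivity) (by exact_mod_cast hL')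
  have l2 : K * Real.log p ≤ 2 * Real.log (12 * n) := by
    have : Real.log ((p : ℝ) ^ K) ≤ Real.log ((12 * n) ^ 2) :=
      Real.log_le_log (by positivity) (by exact_mod_cast hK')
    rw [Real.log_pow, Real.log_pow] at this
    exact_mod_cast this
  have m1 : (m : ℝ) ≤ 2 * n := by exact_mod_cast (show m ≤ 2 * n by omega)
  have m0 : (0 : ℝ) ≤ m := Nat.cast_nonneg m
  have k3 : -(20 * m * L : ℝ) - K * (2 * m) ≤ padicValRat p (qq m f x) := by linarith
  have k4 := mul_le_mul_of_nonneg_right k3 hlp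
  have k5 := mul_le_mul_of_nonneg_left l1 m0
  have k6 := mul_le_mul_of_nonneg_left l2 m0
  have k7 := mul_le_mul m1 l0 l00 (by linarith)
  nlinarith

theorem triv5_c (h : Ch5 a b c f) (hx : Sel n m x) (hD : DD m f x ≠ 0) {p : ℕ} (hp : p.Prime)
    (h5 : 5 ≤ p) (h2 : 24 * n ≤ p ^ 2) :
    -(44 * n + 4 * n / p + 2 : ℝ) ≤ padicValRat p (qq m f x) := by
  have := Fact.mk hp
  have hm := hx.hm
  have key := triv5_gen h hx hD p (L := 1) (K := 2) (by norm_num; omega) (not_cube hx hp h2)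
  have e : Icc 1 2 = ({1, 2} : Finset ℕ) := by decide
  rw [e, sum_pair (by decide)] at key
  have a1 : (mult fun r => zz (x r) % (p : ℤ) ^ 1) ≤ 2 * m := (mult_le _).trans_eq (by simp [two_mul])
  have a2 := mult_sq hx hp h5 h2
  generalize (mult fun r => zz (x r) % (p : ℤ) ^ 1) = M1 at key a1
  generalize (mult fun r => zz (x r) % (p : ℤ) ^ 2) = M2 at key a2
  have k1 : -(20 * m * (1 : ℕ) : ℝ) - (M1 + M2 : ℕ) ≤ padicValRat p (qq m f x) := by
    exact_mod_cast key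
  have k2 : (M1 : ℝ) ≤ 2 * m := by exact_mod_cast a1
  have m1 : (m : ℝ) ≤ 2 * n := by exact_mod_cast (show m ≤ 2 * n by omega)
  push_cast at k1
  linarith

end Pool.Agent.FMZ
end

-- part Pool.Agent.P.MP_cb43af_nt.FzRed
section

open Finset Filter Polynomial
namespace Pool.Agent.FMZ

variable {p : ℕ} [Fact p.Prime]

theorem red_den {q : ℚ} : padicNorm p q ≤ 1 ↔ ((q.den : ℕ) : ZMod p) ≠ 0 := by
  have hq : padicNorm p q = padicNorm p (q.num : ℚ) / padicNorm p ((q.den : ℕ) : ℚ) := by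
    rw [← padicNorm.div, Rat.num_div_den]
  rw [Ne, ZMod.natCast_eq_zero_iff]
  constructor
  · intro h hd
    have h1 : padicNorm p ((q.den : ℕ) : ℚ) < 1 := (padicNorm.nat_lt_one_iff _).2 hd
    have h2 : padicNorm p (q.num : ℚ) = 1 := (padicNorm.int_eq_one_iff _).2 fun hn => by
      have h3 : p ∣ q.num.natAbs := Int.natCast_dvd.1 hn
      exact (Fact.out : p.Prime).one_lt.ne' (Nat.eq_one_of_dvd_coprimes q.reduced h3 hd)
    have h0 : 0 < padicNorm p ((q.den : ℕ) : ℚ) :=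
      lt_of_le_of_ne (padicNorm.nonneg _) (padicNorm.nonzero (by exact_mod_cast q.den_nz)).symm
    rw [hq, h2, div_le_one h0] at h
    linarith
  · intro hd
    rw [hq, (padicNorm.nat_eq_one_iff _).2 hd, div_one]
    exact padicNorm.of_int _
theorem red_add {q r : ℚ} (hq : padicNorm p q ≤ 1) (hr : padicNorm p r ≤ 1) :
    ((q + r : ℚ) : ZMod p) = q + r :=
  Rat.cast_add_of_ne_zero (red_den.1 hq) (red_den.1 hr)
theorem red_sub {q r : ℚ} (hq : padicNorm p q ≤ 1) (hr : padicNorm p r ≤ 1) :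
    ((q - r : ℚ) : ZMod p) = q - r :=
  Rat.cast_sub_of_ne_zero (red_den.1 hq) (red_den.1 hr)
theorem red_mul {q r : ℚ} (hq : padicNorm p q ≤ 1) (hr : padicNorm p r ≤ 1) :
    ((q * r : ℚ) : ZMod p) = q * r :=
  Rat.cast_mul_of_ne_zero (red_den.1 hq) (red_den.1 hr)
theorem red_sum {α : Type} (s : Finset α) (t : α → ℚ) (h : ∀ i ∈ s, padicNorm p (t i) ≤ 1) :
    ((∑ i ∈ s, t i : ℚ) : ZMod p) = ∑ i ∈ s, (t i : ZMod p) := by
  classical
  induction s using Finset.induction_on with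
  | empty => simp
  | insert a s ha ih =>
    have h' : ∀ i ∈ s, padicNorm p (t i) ≤ 1 := fun i hi => h i (mem_insert_of_mem hi)
    rw [sum_insert ha, sum_insert ha,
      red_add (h a (mem_insert_self a s)) (padicNorm.sum_le' h' zero_le_one), ih h']
theorem red_zero {q : ℚ} (hq : padicNorm p q ≤ 1) :
    (q : ZMod p) = 0 ↔ padicNorm p q ≤ 1 / p := by
  have hd := red_den.1 hq
  have hd' : ¬ p ∣ q.den := by rwa [Ne, ZMod.natCast_eq_zero_iff] at hd
  have e : padicNorm p q = padicNorm p (q.num : ℚ) := by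
    conv_lhs => rw [← Rat.num_div_den q]
    rw [padicNorm.div, (padicNorm.nat_eq_one_iff _).2 hd', div_one]
  have h1 := padicNorm.dvd_iff_norm_le (p := p) (n := 1) (z := q.num)
  rw [pow_one, Nat.cast_one, zpow_neg, zpow_one] at h1
  rw [Rat.cast_def, div_eq_zero_iff, or_iff_left hd, ZMod.intCast_zmod_eq_zero_iff_dvd, e, one_div,
    h1]
theorem red_div (s l : ℤ) (k : ℕ) (hl : ¬ (p : ℤ) ∣ l) :
    padicNorm p ((s : ℚ) / (l : ℚ) ^ k) ≤ 1 ∧
      (((s : ℚ) / (l : ℚ) ^ k : ℚ) : ZMod p) = s * ((l : ZMod p)⁻¹) ^ k := by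
  have hp : Prime (p : ℤ) := Nat.prime_iff_prime_int.1 Fact.out
  have hk : ¬ (p : ℤ) ∣ l ^ k := fun h => hl (hp.dvd_of_dvd_pow h)
  have e : (s : ℚ) / (l : ℚ) ^ k = (s : ℚ) / ((l ^ k : ℤ) : ℚ) := by push_cast; rfl
  have hz : ((l ^ k : ℤ) : ZMod p) ≠ 0 := by rwa [Ne, ZMod.intCast_zmod_eq_zero_iff_dvd]
  rw [e]
  constructor
  · rw [padicNorm.div, (padicNorm.int_eq_one_iff _).2 hk, div_one]
    exact padicNorm.of_int _
  · rw [← Rat.divInt_eq_div, Rat.cast_divInt_of_ne_zero _ hz, div_eq_mul_inv, Int.cast_pow, inv_pow]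
theorem phi_step (h5 : 5 ≤ p) (t : ZMod p) : Phi p t = Phi p (t - 1) + (t⁻¹) ^ 3 := by
  have hp : 1 < p := by omega
  by_cases ht : t = 0
  · subst ht
    have hv : (0 - 1 : ZMod p).val = p - 1 := by
      have : (0 - 1 : ZMod p) = ((p - 1 : ℕ) : ZMod p) := by
        rw [Nat.cast_sub hp.le, ZMod.natCast_self, Nat.cast_one]
      rw [this, ZMod.val_cast_of_lt (by omega)]
    have h0 : ∑ x : ZMod p, x ^ 3 = 0 :=
      FiniteField.sum_pow_lt_card_sub_one (ZMod p) 3 (by rw [ZMod.card]; omega)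
    have h1 : ∑ x : ZMod p, (x⁻¹) ^ 3 = 0 := by
      rw [← h0]
      exact Equiv.sum_comp (Equiv.inv (ZMod p)) fun x => x ^ 3
    have h2 : ∑ j ∈ range p, ((j : ZMod p)⁻¹) ^ 3 = ∑ x : ZMod p, (x⁻¹) ^ 3 := by
      refine sum_bij (fun j _ => (j : ZMod p)) (fun _ _ => mem_univ _) (fun a ha b hb h => ?_)
        (fun x _ => ⟨x.val, mem_range.2 (ZMod.val_lt x), ZMod.natCast_zmod_val x⟩) fun _ _ => rfl
      have := congrArg ZMod.val h
      rwa [ZMod.val_cast_of_lt (mem_range.1 ha), ZMod.val_cast_of_lt (mem_range.1 hb)] at this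
    have h3 : range p = insert 0 (Icc 1 (p - 1)) := by
      ext j
      simp only [mem_range, mem_insert, mem_Icc]
      omega
    rw [h3, sum_insert (by simp), h1] at h2
    unfold Phi
    rw [hv, ZMod.val_zero]
    simp only [Nat.cast_zero, inv_zero] at h2 ⊢
    rw [add_comm, h2]
    simp
  · obtain ⟨n, hn⟩ : ∃ n, t.val = n + 1 :=
      Nat.exists_eq_succ_of_ne_zero fun h => ht ((ZMod.val_eq_zero t).1 h)
    have ht' : t = ((n + 1 : ℕ) : ZMod p) := by rw [← hn, ZMod.natCast_zmod_val]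
    have hlt := ZMod.val_lt t
    have hv : (t - 1).val = n := by
      rw [ht', Nat.cast_succ, add_sub_cancel_right, ZMod.val_cast_of_lt (by omega)]
    unfold Phi
    rw [hv, hn, sum_Icc_succ_top (by omega), ← ht']
theorem phi_refl (h5 : 5 ≤ p) (t : ZMod p) : Phi p (-1 - t) = Phi p t := by
  have key : ∀ n : ℕ, Phi p (-1 - (n : ZMod p)) = Phi p n := by
    intro n
    induction n with
    | zero =>
      have h := phi_step h5 (0 : ZMod p)
      simp only [Nat.cast_zero, sub_zero]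
      rw [h]
      simp
    | succ n ih =>
      have h1 := phi_step h5 (-1 - (n : ZMod p))
      have h2 := phi_step h5 ((n : ZMod p) + 1)
      rw [add_sub_cancel_right] at h2
      rw [show (-1 - (n : ZMod p)) - 1 = -1 - ((n : ZMod p) + 1) by ring, ih,
        show (-1 - (n : ZMod p)) = -((n : ZMod p) + 1) by ring, inv_neg] at h1
      rw [Nat.cast_succ, h2, h1]
      ring
  rw [← ZMod.natCast_zmod_val t]
  exact key _

end Pool.Agent.FMZ
end

-- part Pool.Agent.P.MP_cb43af_nt.FzPhi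
section

open Finset Filter Polynomial
namespace Pool.Agent.FMZ

variable {p : ℕ} [Fact p.Prime]

theorem fzphi_twelve (h5 : 5 ≤ p) : (12 : ZMod p) ≠ 0 := by
  intro h
  have hp : p.Prime := Fact.out
  have h1 : ((12 : ℕ) : ZMod p) = 0 := by exact_mod_cast h
  rw [ZMod.natCast_eq_zero_iff] at h1
  have h2 : p ∣ 2 * (2 * 3) := h1
  rcases (Nat.Prime.dvd_mul hp).1 h2 with h3 | h3
  · have := Nat.le_of_dvd (by norm_num) h3; omega
  · rcases (Nat.Prime.dvd_mul hp).1 h3 with h4 | h4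
    · have := Nat.le_of_dvd (by norm_num) h4; omega
    · have := Nat.le_of_dvd (by norm_num) h4; omega

theorem FF_step (h5 : 5 ≤ p) (y : ZMod p) : FF p (y + 12) = FF p y + ((y + 6)⁻¹) ^ 3 := by
  have h := fzphi_twelve h5
  unfold FF
  have e1 : (y + 12 - 6) * (12 : ZMod p)⁻¹ - 1 = (y - 6) * (12 : ZMod p)⁻¹ := by
    field_simp; ring
  have e2 : y + 12 - 6 = y + 6 := by ring
  rw [phi_step h5 ((y + 12 - 6) * (12 : ZMod p)⁻¹), e1, e2, mul_inv, inv_inv, mul_add]
  congr 1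
  have : (12 : ZMod p)⁻¹ * 12 = 1 := inv_mul_cancel₀ h
  calc ((12 : ZMod p)⁻¹) ^ 3 * ((y + 6)⁻¹ * 12) ^ 3
      = ((12 : ZMod p)⁻¹ * 12) ^ 3 * ((y + 6)⁻¹) ^ 3 := by ring
    _ = ((y + 6)⁻¹) ^ 3 := by rw [this]; ring

theorem FF_neg (h5 : 5 ≤ p) (y : ZMod p) : FF p (-y) = FF p y := by
  have h := fzphi_twelve h5
  unfold FF
  have e1 : (-y - 6) * (12 : ZMod p)⁻¹ = -1 - (y - 6) * (12 : ZMod p)⁻¹ := by
    field_simp; ring
  rw [e1, phi_refl h5]

theorem lift0_congr (h5 : 5 ≤ p) (b : ℤ) {x x' : Nd} (h : zz x % p = zz x' % p) :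
    lift0 b p x = lift0 b p x' := by
  have h1 : ((zz x : ℤ) : ZMod p) = ((zz x' : ℤ) : ZMod p) :=
    (ZMod.intCast_eq_intCast_iff' _ _ _).2 h
  have h2 : (((yy x : ℤ) : ZMod p) - (yy x' : ℤ)) * (((yy x : ℤ) : ZMod p) + (yy x' : ℤ)) = 0 := by
    have := congrArg (Int.cast : ℤ → ZMod p) (zz_sub x x')
    push_cast at this
    rw [← this, h1, sub_self]
  have h3 : FF p (yy x) = FF p (yy x') := by
    rcases mul_eq_zero.1 h2 with h3 | h3
    · rw [sub_eq_zero.1 h3]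
    · rw [eq_neg_of_add_eq_zero_left h3, FF_neg h5]
  unfold lift0
  rw [h3]

theorem fzphi_yy (e : Bool) (i : ℤ) : yy (e, i + 1) = yy (e, i) + 12 := by
  unfold yy; ring

theorem fzphi_link (h5 : 5 ≤ p) (b : ℤ) (e : Bool) (i : ℤ) (hl : ¬ (p : ℤ) ∣ yy (e, i) + 6) :
    padicNorm p ((b : ℚ) / ((yy (e, i) : ℚ) + 6) ^ 3) ≤ 1 ∧
      (((b : ℚ) / ((yy (e, i) : ℚ) + 6) ^ 3 : ℚ) : ZMod p) =
        b * (FF p (yy (e, i + 1)) - FF p (yy (e, i))) := by
  have h := red_div (p := p) b (yy (e, i) + 6) 3 hl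
  have e1 : (((yy (e, i) + 6 : ℤ)) : ℚ) = (yy (e, i) : ℚ) + 6 := by push_cast; ring
  rw [e1] at h
  refine ⟨h.1, ?_⟩
  rw [h.2, fzphi_yy]
  push_cast
  rw [FF_step h5]
  ring

theorem fzphi_main (h5 : 5 ≤ p) {a b : ℤ} {f : Nd → ℚ} (h : Ch a b f) (hH : Hp a b p) (e : Bool)
    (i : ℤ) : ¬ Pole p (e, i) → padicNorm p (f (e, i)) ≤ 1 ∧
      ((f (e, i) : ℚ) : ZMod p) = b * (FF p (yy (e, i)) - FF p 2) := by
  induction i using Int.induction_on with
  | zero =>
    intro _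
    cases e with
    | false =>
      rw [h.zA]
      refine ⟨by simp, ?_⟩
      have : yy (false, 0) = 2 := by simp [yy]
      rw [this]
      simp
    | true =>
      rw [h.zB]
      refine ⟨padicNorm.of_int a, ?_⟩
      have : yy (true, 0) = 3 := by simp [yy]
      rw [this, Rat.cast_intCast, ← hH]
      simp
  | succ i ih =>
    intro hx
    have h1 : ¬ Pole p (e, (i : ℤ)) := by
      rintro ⟨j, hj, hd⟩
      exact hx ⟨j, by simp only at hj ⊢; omega, hd⟩
    have h2 : ¬ (p : ℤ) ∣ yy (e, (i : ℤ)) + 6 := fun hd =>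
      hx ⟨i, by simp only; omega, hd⟩
    obtain ⟨n1, c1⟩ := ih h1
    obtain ⟨n2, c2⟩ := fzphi_link h5 b e i h2
    rw [h.step]
    refine ⟨padicNorm.nonarchimedean.trans (max_le n1 n2), ?_⟩
    rw [red_add n1 n2, c1, c2]
    ring
  | pred i ih =>
    intro hx
    have h1 : ¬ Pole p (e, -(i : ℤ)) := by
      rintro ⟨j, hj, hd⟩
      exact hx ⟨j, by simp only at hj ⊢; omega, hd⟩
    have h2 : ¬ (p : ℤ) ∣ yy (e, -(i : ℤ) - 1) + 6 := fun hd =>
      hx ⟨-(i : ℤ) - 1, by simp only; omega, hd⟩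
    obtain ⟨n1, c1⟩ := ih h1
    obtain ⟨n2, c2⟩ := fzphi_link h5 b e (-(i : ℤ) - 1) h2
    have hs := h.step e (-(i : ℤ) - 1)
    have e0 : -(i : ℤ) - 1 + 1 = -(i : ℤ) := by ring
    rw [e0] at hs c2
    have hs' : f (e, -(i : ℤ) - 1) =
        f (e, -(i : ℤ)) - b / ((yy (e, -(i : ℤ) - 1) : ℚ) + 6) ^ 3 := by rw [hs]; ring
    rw [hs']
    refine ⟨padicNorm.sub.trans (max_le n1 n2), ?_⟩
    rw [red_sub n1 n2, c1, c2]
    ring

theorem ch_cong (h5 : 5 ≤ p) {a b : ℤ} {f : Nd → ℚ} (h : Ch a b f) (hH : Hp a b p) {x : Nd}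
    (hx : ¬ Pole p x) : padicNorm p (f x - lift0 b p x) ≤ 1 / p := by
  obtain ⟨e, i⟩ := x
  obtain ⟨n1, c1⟩ := fzphi_main h5 h hH e i hx
  have n2 : padicNorm p ((lift0 b p (e, i) : ℤ) : ℚ) ≤ 1 := padicNorm.of_int _
  rw [← red_zero (padicNorm.sub.trans (max_le n1 n2)), red_sub n1 n2, c1, Rat.cast_intCast]
  unfold lift0
  rw [Int.cast_natCast, ZMod.natCast_zmod_val, sub_self]

end Pool.Agent.FMZ
end

-- part Pool.Agent.P.MP_cb43af_nt.FvPhi
section

open Finset Filter Polynomial Topology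
namespace Pool.Agent.FMZ

variable {p : ℕ} [Fact p.Prime]

theorem phi5_step (h7 : 7 ≤ p) (t : ZMod p) : Phi5 p t = Phi5 p (t - 1) + (t⁻¹) ^ 5 := by
  have hp : 1 < p := by omega
  by_cases ht : t = 0
  · subst ht
    have hv : (0 - 1 : ZMod p).val = p - 1 := by
      have : (0 - 1 : ZMod p) = ((p - 1 : ℕ) : ZMod p) := by
        rw [Nat.cast_sub hp.le, ZMod.natCast_self, Nat.cast_one]
      rw [this, ZMod.val_cast_of_lt (by omega)]
    have h0 : ∑ x : ZMod p, x ^ 5 = 0 :=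
      FiniteField.sum_pow_lt_card_sub_one (ZMod p) 5 (by rw [ZMod.card]; omega)
    have h1 : ∑ x : ZMod p, (x⁻¹) ^ 5 = 0 := by
      rw [← h0]
      exact Equiv.sum_comp (Equiv.inv (ZMod p)) fun x => x ^ 5
    have h2 : ∑ j ∈ range p, ((j : ZMod p)⁻¹) ^ 5 = ∑ x : ZMod p, (x⁻¹) ^ 5 := by
      refine sum_bij (fun j _ => (j : ZMod p)) (fun _ _ => mem_univ _) (fun a ha b hb h => ?_)
        (fun x _ => ⟨x.val, mem_range.2 (ZMod.val_lt x), ZMod.natCast_zmod_val x⟩) fun _ _ => rfl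
      have := congrArg ZMod.val h
      rwa [ZMod.val_cast_of_lt (mem_range.1 ha), ZMod.val_cast_of_lt (mem_range.1 hb)] at this
    have h3 : range p = insert 0 (Icc 1 (p - 1)) := by
      ext j
      simp only [mem_range, mem_insert, mem_Icc]
      omega
    rw [h3, sum_insert (by simp), h1] at h2
    unfold Phi5
    rw [hv, ZMod.val_zero]
    simp only [Nat.cast_zero, inv_zero] at h2 ⊢
    rw [add_comm, h2]
    simp
  · obtain ⟨n, hn⟩ : ∃ n, t.val = n + 1 :=
      Nat.exists_eq_succ_of_ne_zero fun h => ht ((ZMod.val_eq_zero t).1 h)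
    have ht' : t = ((n + 1 : ℕ) : ZMod p) := by rw [← hn, ZMod.natCast_zmod_val]
    have hlt := ZMod.val_lt t
    have hv : (t - 1).val = n := by
      rw [ht', Nat.cast_succ, add_sub_cancel_right, ZMod.val_cast_of_lt (by omega)]
    unfold Phi5
    rw [hv, hn, sum_Icc_succ_top (by omega), ← ht']

theorem phi5_refl (h7 : 7 ≤ p) (t : ZMod p) : Phi5 p (-1 - t) = Phi5 p t := by
  have key : ∀ n : ℕ, Phi5 p (-1 - (n : ZMod p)) = Phi5 p n := by
    intro n
    induction n with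
    | zero =>
      have h := phi5_step h7 (0 : ZMod p)
      simp only [Nat.cast_zero, sub_zero]
      rw [h]
      simp
    | succ n ih =>
      have h1 := phi5_step h7 (-1 - (n : ZMod p))
      have h2 := phi5_step h7 ((n : ZMod p) + 1)
      rw [add_sub_cancel_right] at h2
      rw [show (-1 - (n : ZMod p)) - 1 = -1 - ((n : ZMod p) + 1) by ring, ih,
        show (-1 - (n : ZMod p)) = -((n : ZMod p) + 1) by ring, inv_neg] at h1
      rw [Nat.cast_succ, h2, h1]
      ring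
  rw [← ZMod.natCast_zmod_val t]
  exact key _

theorem fvphi_step5 (h7 : 7 ≤ p) (y : ZMod p) :
    FF5 p (y + 12) = FF5 p y + ((y + 6)⁻¹) ^ 5 := by
  have h := fzphi_twelve (p := p) (by omega)
  unfold FF5
  have e1 : (y + 12 - 6) * (12 : ZMod p)⁻¹ - 1 = (y - 6) * (12 : ZMod p)⁻¹ := by
    field_simp; ring
  have e2 : y + 12 - 6 = y + 6 := by ring
  rw [phi5_step h7 ((y + 12 - 6) * (12 : ZMod p)⁻¹), e1, e2, mul_inv, inv_inv, mul_add]
  congr 1
  have : (12 : ZMod p)⁻¹ * 12 = 1 := inv_mul_cancel₀ h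
  calc ((12 : ZMod p)⁻¹) ^ 5 * ((y + 6)⁻¹ * 12) ^ 5
      = ((12 : ZMod p)⁻¹ * 12) ^ 5 * ((y + 6)⁻¹) ^ 5 := by ring
    _ = ((y + 6)⁻¹) ^ 5 := by rw [this]; ring

theorem fvphi_neg (h7 : 7 ≤ p) (b c : ℤ) (y : ZMod p) : GG b c p (-y) = GG b c p y := by
  have h := fzphi_twelve (p := p) (by omega)
  unfold GG
  rw [FF_neg (by omega)]
  unfold FF5
  have e1 : (-y - 6) * (12 : ZMod p)⁻¹ = -1 - (y - 6) * (12 : ZMod p)⁻¹ := by
    field_simp; ring
  rw [e1, phi5_refl h7]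

theorem lift5_congr (h7 : 7 ≤ p) (b c : ℤ) {x x' : Nd} (h : zz x % p = zz x' % p) :
    lift5 b c p x = lift5 b c p x' := by
  have h1 : ((zz x : ℤ) : ZMod p) = ((zz x' : ℤ) : ZMod p) :=
    (ZMod.intCast_eq_intCast_iff' _ _ _).2 h
  have h2 : (((yy x : ℤ) : ZMod p) - (yy x' : ℤ)) * (((yy x : ℤ) : ZMod p) + (yy x' : ℤ)) = 0 := by
    have := congrArg (Int.cast : ℤ → ZMod p) (zz_sub x x')
    push_cast at this
    rw [← this, h1, sub_self]
  have h3 : GG b c p (yy x) = GG b c p (yy x') := by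
    rcases mul_eq_zero.1 h2 with h3 | h3
    · rw [sub_eq_zero.1 h3]
    · rw [eq_neg_of_add_eq_zero_left h3, fvphi_neg h7]
  unfold lift5
  rw [h3]

theorem fvphi_link (h7 : 7 ≤ p) (b c : ℤ) (e : Bool) (i : ℤ) (hl : ¬ (p : ℤ) ∣ yy (e, i) + 6) :
    padicNorm p (inc b c ((yy (e, i) : ℚ) + 6)) ≤ 1 ∧
      ((inc b c ((yy (e, i) : ℚ) + 6) : ℚ) : ZMod p) =
        GG b c p (yy (e, i + 1)) - GG b c p (yy (e, i)) := by
  have h := red_div (p := p) b (yy (e, i) + 6) 3 hl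
  have h' := red_div (p := p) c (yy (e, i) + 6) 5 hl
  have e1 : (((yy (e, i) + 6 : ℤ)) : ℚ) = (yy (e, i) : ℚ) + 6 := by push_cast; ring
  rw [e1] at h h'
  unfold inc
  refine ⟨padicNorm.nonarchimedean.trans (max_le h.1 h'.1), ?_⟩
  rw [red_add h.1 h'.1, h.2, h'.2, fzphi_yy]
  push_cast
  unfold GG
  rw [FF_step (by omega), fvphi_step5 h7]
  ring

theorem fvphi_main (h7 : 7 ≤ p) {a b c : ℤ} {f : Nd → ℚ} (h : Ch5 a b c f) (hH : Hp5 a b c p)
    (e : Bool) (i : ℤ) : ¬ Pole p (e, i) → padicNorm p (f (e, i)) ≤ 1 ∧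
      ((f (e, i) : ℚ) : ZMod p) = GG b c p (yy (e, i)) - GG b c p 2 := by
  induction i using Int.induction_on with
  | zero =>
    intro _
    cases e with
    | false =>
      rw [h.zA]
      refine ⟨by simp, ?_⟩
      have : yy (false, 0) = 2 := by simp [yy]
      rw [this]
      simp
    | true =>
      rw [h.zB]
      refine ⟨padicNorm.of_int a, ?_⟩
      have : yy (true, 0) = 3 := by simp [yy]
      rw [this, Rat.cast_intCast, ← hH]
      simp
  | succ i ih =>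
    intro hx
    have h1 : ¬ Pole p (e, (i : ℤ)) := by
      rintro ⟨j, hj, hd⟩
      exact hx ⟨j, by simp only at hj ⊢; omega, hd⟩
    have h2 : ¬ (p : ℤ) ∣ yy (e, (i : ℤ)) + 6 := fun hd =>
      hx ⟨i, by simp only; omega, hd⟩
    obtain ⟨n1, c1⟩ := ih h1
    obtain ⟨n2, c2⟩ := fvphi_link h7 b c e i h2
    rw [h.step]
    refine ⟨padicNorm.nonarchimedean.trans (max_le n1 n2), ?_⟩
    rw [red_add n1 n2, c1, c2]
    ring
  | pred i ih =>
    intro hx
    have h1 : ¬ Pole p (e, -(i : ℤ)) := by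
      rintro ⟨j, hj, hd⟩
      exact hx ⟨j, by simp only at hj ⊢; omega, hd⟩
    have h2 : ¬ (p : ℤ) ∣ yy (e, -(i : ℤ) - 1) + 6 := fun hd =>
      hx ⟨-(i : ℤ) - 1, by simp only; omega, hd⟩
    obtain ⟨n1, c1⟩ := ih h1
    obtain ⟨n2, c2⟩ := fvphi_link h7 b c e (-(i : ℤ) - 1) h2
    have hs := h.step e (-(i : ℤ) - 1)
    have e0 : -(i : ℤ) - 1 + 1 = -(i : ℤ) := by ring
    rw [e0] at hs c2
    have hs' : f (e, -(i : ℤ) - 1) =
        f (e, -(i : ℤ)) - inc b c ((yy (e, -(i : ℤ) - 1) : ℚ) + 6) := by rw [hs]; ring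
    rw [hs']
    refine ⟨padicNorm.sub.trans (max_le n1 n2), ?_⟩
    rw [red_sub n1 n2, c1, c2]
    ring

theorem ch_cong5 (h7 : 7 ≤ p) {a b c : ℤ} {f : Nd → ℚ} (h : Ch5 a b c f) (hH : Hp5 a b c p)
    {x : Nd} (hx : ¬ Pole p x) : padicNorm p (f x - lift5 b c p x) ≤ 1 / p := by
  obtain ⟨e, i⟩ := x
  obtain ⟨n1, c1⟩ := fvphi_main h7 h hH e i hx
  have n2 : padicNorm p ((lift5 b c p (e, i) : ℤ) : ℚ) ≤ 1 := padicNorm.of_int _
  rw [← red_zero (padicNorm.sub.trans (max_le n1 n2)), red_sub n1 n2, c1, Rat.cast_intCast]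
  unfold lift5
  rw [Int.cast_natCast, ZMod.natCast_zmod_val, sub_self]

end Pool.Agent.FMZ
end

-- part Pool.Agent.P.MP_cb43af_nt.FzPole
section

open Finset Filter Polynomial
namespace Pool.Agent.FMZ

theorem fzpole_cop {p : ℕ} (hp : p.Prime) (h5 : 5 ≤ p) {k : ℕ} (hk0 : 0 < k) (hk : k < 5) {t : ℤ}
    (hd : (p : ℤ) ∣ (k : ℤ) * t) : (p : ℤ) ∣ t := by
  have hp' : Prime (p : ℤ) := Nat.prime_iff_prime_int.mp hp
  rcases hp'.dvd_or_dvd hd with h | h
  · have h1 : p ∣ k := Int.natCast_dvd_natCast.mp h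
    have h2 := Nat.le_of_dvd hk0 h1
    omega
  · exact h

theorem fzpole_false {n p : ℕ} (hp : p.Prime) (h5 : 5 ≤ p) (h3 : 3 * n < 2 * p) {i : ℤ}
    (h1 : -(n : ℤ) ≤ i) (h2 : i < n) (hP : Pole p (false, i)) :
    ((p : ℤ) % 3 = 2 ∧ (p : ℤ) - 2 < 3 * i) ∨ ((p : ℤ) % 3 = 1 ∧ 3 * i ≤ -(p : ℤ) - 2) := by
  obtain ⟨j, hj, hd⟩ := hP
  have e : yy (false, j) + 6 = ((4 : ℕ) : ℤ) * (3 * j + 2) := by
    simp only [yy]; push_cast; ring
  simp only at hj hd
  rw [e] at hd
  obtain ⟨c, hc⟩ := fzpole_cop hp h5 (by norm_num) (by norm_num) hd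
  have hp5 : (5 : ℤ) ≤ p := by exact_mod_cast h5
  have h3' : 3 * (n : ℤ) < 2 * p := by exact_mod_cast h3
  rcases hj with hj | hj
  · have c1 : 0 < c := by nlinarith
    have c2 : c < 2 := by nlinarith
    have c3 : c = 1 := by omega
    subst c3
    left
    omega
  · have c1 : c < 0 := by nlinarith
    have c2 : -2 < c := by nlinarith
    have c3 : c = -1 := by omega
    subst c3
    right
    omega

theorem fzpole_true {n p : ℕ} (hp : p.Prime) (h5 : 5 ≤ p) (h3 : 3 * n < 2 * p) {i : ℤ}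
    (h1 : -(n : ℤ) ≤ i) (h2 : i < n) (hP : Pole p (true, i)) :
    ((p : ℤ) % 4 = 3 ∧ (p : ℤ) - 3 < 4 * i) ∨ ((p : ℤ) % 4 = 1 ∧ 4 * i ≤ -(p : ℤ) - 3) := by
  obtain ⟨j, hj, hd⟩ := hP
  have e : yy (true, j) + 6 = ((3 : ℕ) : ℤ) * (4 * j + 3) := by
    simp only [yy]; push_cast; ring
  simp only at hj hd
  rw [e] at hd
  obtain ⟨c, hc⟩ := fzpole_cop hp h5 (by norm_num) (by norm_num) hd
  have hp5 : (5 : ℤ) ≤ p := by exact_mod_cast h5
  have h3' : 3 * (n : ℤ) < 2 * p := by exact_mod_cast h3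
  rcases hj with hj | hj
  · have c1 : 0 < c := by nlinarith
    have c2 : c < 3 := by nlinarith
    have c3 : c = 1 ∨ c = 2 := by omega
    rcases c3 with c3 | c3
    · subst c3
      left
      omega
    · subst c3
      omega
  · have c1 : c < 0 := by nlinarith
    have c2 : -3 < c := by nlinarith
    have c3 : c = -1 ∨ c = -2 := by omega
    rcases c3 with c3 | c3
    · subst c3
      right
      omega
    · subst c3
      omega

open Classical in
theorem fzpole_cardF {n p : ℕ} (hp : p.Prime) (h5 : 5 ≤ p) (h3 : 3 * n < 2 * p) :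
    3 * ((((Ico (-(n : ℤ)) n).filter fun i => Pole p (false, i)).card : ℕ) : ℤ)
      ≤ max (3 * n - p : ℤ) 0 + 3 := by
  by_cases h : (p : ℤ) % 3 = 2
  · have hs : ((Ico (-(n : ℤ)) n).filter fun i => Pole p (false, i))
        ⊆ Ioo (((p : ℤ) - 2) / 3) n := by
      intro i hi
      rw [mem_filter, mem_Ico] at hi
      have := fzpole_false hp h5 h3 hi.1.1 hi.1.2 hi.2
      rw [mem_Ioo]
      omega
    have hc := card_le_card hs
    rw [Int.card_Ioo] at hc
    omega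
  · have hs : ((Ico (-(n : ℤ)) n).filter fun i => Pole p (false, i))
        ⊆ Icc (-(n : ℤ)) ((-(p : ℤ) - 2) / 3) := by
      intro i hi
      rw [mem_filter, mem_Ico] at hi
      have := fzpole_false hp h5 h3 hi.1.1 hi.1.2 hi.2
      rw [mem_Icc]
      omega
    have hc := card_le_card hs
    rw [Int.card_Icc] at hc
    omega

open Classical in
theorem fzpole_cardT {n p : ℕ} (hp : p.Prime) (h5 : 5 ≤ p) (h3 : 3 * n < 2 * p) :
    4 * ((((Ico (-(n : ℤ)) n).filter fun i => Pole p (true, i)).card : ℕ) : ℤ)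
      ≤ max (4 * n - p : ℤ) 0 + 4 := by
  by_cases h : (p : ℤ) % 4 = 3
  · have hs : ((Ico (-(n : ℤ)) n).filter fun i => Pole p (true, i))
        ⊆ Ioo (((p : ℤ) - 3) / 4) n := by
      intro i hi
      rw [mem_filter, mem_Ico] at hi
      have := fzpole_true hp h5 h3 hi.1.1 hi.1.2 hi.2
      rw [mem_Ioo]
      omega
    have hc := card_le_card hs
    rw [Int.card_Ioo] at hc
    omega
  · have hs : ((Ico (-(n : ℤ)) n).filter fun i => Pole p (true, i))
        ⊆ Icc (-(n : ℤ)) ((-(p : ℤ) - 3) / 4) := by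
      intro i hi
      rw [mem_filter, mem_Ico] at hi
      have := fzpole_true hp h5 h3 hi.1.1 hi.1.2 hi.2
      rw [mem_Icc]
      omega
    have hc := card_le_card hs
    rw [Int.card_Icc] at hc
    omega

open Classical in
theorem fzpole_chain {n m : ℕ} {x : Col m → Nd} (h : Sel n m x) (p : ℕ) (e : Bool) :
    ((univ.filter fun r => Pole p (x r)).filter fun r => (x r).1 = e).card
      ≤ ((Ico (-(n : ℤ)) n).filter fun i => Pole p (e, i)).card := by
  refine card_le_card_of_injOn (fun r => (x r).2) ?_ ?_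
  · intro r hr
    have hr' := mem_coe.mp hr
    rw [mem_filter, mem_filter] at hr'
    have hm := mem_nodes.mp (h.mem r)
    refine mem_coe.mpr ?_
    rw [mem_filter, mem_Ico]
    refine ⟨hm, ?_⟩
    have e1 : x r = (e, (x r).2) := Prod.ext hr'.2 rfl
    have hP := hr'.1.2
    rw [e1] at hP
    exact hP
  · intro r hr s hs hrs
    have hr' := mem_coe.mp hr
    have hs' := mem_coe.mp hs
    rw [mem_filter] at hr' hs'
    exact h.inj (Prod.ext (hr'.2.trans hs'.2.symm) hrs)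

open Classical in
theorem card_pole {n m : ℕ} {x : Col m → Nd} (h : Sel n m x) {p : ℕ} (hp : p.Prime) (h5 : 5 ≤ p)
    (h3 : 3 * n < 2 * p) : (((univ.filter fun r => Pole p (x r)).card : ℕ) : ℝ)
      ≤ max (3 * n - p : ℝ) 0 / 3 + max (4 * n - p : ℝ) 0 / 4 + 2 := by
  have hF := fzpole_cardF hp h5 h3
  have hT := fzpole_cardT hp h5 h3
  have cF := fzpole_chain h p false
  have cT := fzpole_chain h p true
  have hsplit : (univ.filter fun r => Pole p (x r)).card
      ≤ ((univ.filter fun r => Pole p (x r)).filter fun r => (x r).1 = false).card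
        + ((univ.filter fun r => Pole p (x r)).filter fun r => (x r).1 = true).card := by
    refine le_trans (card_le_card ?_) (card_union_le _ _)
    intro r hr
    rw [mem_union, mem_filter (s := univ.filter fun r => Pole p (x r)),
      mem_filter (s := univ.filter fun r => Pole p (x r))]
    cases hb : (x r).1
    · exact Or.inl ⟨hr, rfl⟩
    · exact Or.inr ⟨hr, rfl⟩
  have hsum := le_trans hsplit (Nat.add_le_add cF cT)
  generalize ((Ico (-(n : ℤ)) n).filter fun i => Pole p (false, i)).card = A at hF hsum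
  generalize ((Ico (-(n : ℤ)) n).filter fun i => Pole p (true, i)).card = B at hT hsum
  have hF' : 3 * (A : ℝ) ≤ max (3 * n - p : ℝ) 0 + 3 := by exact_mod_cast hF
  have hT' : 4 * (B : ℝ) ≤ max (4 * n - p : ℝ) 0 + 4 := by exact_mod_cast hT
  have hsum' : (((univ.filter fun r => Pole p (x r)).card : ℕ) : ℝ) ≤ (A : ℝ) + B := by
    exact_mod_cast hsum
  linarith

end Pool.Agent.FMZ
end

-- part Pool.Agent.P.MP_cb43af_nt.FvPole
section

open Finset Filter Polynomial Topology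
namespace Pool.Agent.FMZ

theorem fvpole_false {p : ℕ} (hp : p.Prime) (h5 : 5 ≤ p) {i : ℤ} (hP : Pole p (false, i)) :
    ((p : ℤ) % 3 = 2 → (p : ℤ) - 2 < 3 * i ∨ 3 * i ≤ -2 * (p : ℤ) - 2) ∧
    (¬ (p : ℤ) % 3 = 2 → 2 * (p : ℤ) - 2 < 3 * i ∨ 3 * i ≤ -(p : ℤ) - 2) := by
  obtain ⟨j, hj, hd⟩ := hP
  have e : yy (false, j) + 6 = ((4 : ℕ) : ℤ) * (3 * j + 2) := by
    simp only [yy]; push_cast; ring
  simp only at hj hd
  rw [e] at hd
  obtain ⟨c, hc⟩ := fzpole_cop hp h5 (by norm_num) (by norm_num) hd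
  have hp5 : (5 : ℤ) ≤ p := by exact_mod_cast h5
  rcases hj with hj | hj
  · have c1 : 0 < c := by nlinarith
    refine ⟨fun _ => Or.inl (by nlinarith), fun h => Or.inl ?_⟩
    have c2 : c ≠ 1 := by
      rintro rfl
      omega
    have c3 : 2 ≤ c := by omega
    nlinarith
  · have c1 : c < 0 := by nlinarith
    refine ⟨fun h => Or.inr ?_, fun _ => Or.inr (by nlinarith)⟩
    have c2 : c ≠ -1 := by
      rintro rfl
      omega
    have c3 : c ≤ -2 := by omega
    nlinarith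

theorem fvpole_true {p : ℕ} (hp : p.Prime) (h5 : 5 ≤ p) {i : ℤ} (hP : Pole p (true, i)) :
    ((p : ℤ) % 4 = 3 → (p : ℤ) - 3 < 4 * i ∨ 4 * i ≤ -3 * (p : ℤ) - 3) ∧
    (¬ (p : ℤ) % 4 = 3 → 3 * (p : ℤ) - 3 < 4 * i ∨ 4 * i ≤ -(p : ℤ) - 3) := by
  obtain ⟨j, hj, hd⟩ := hP
  have e : yy (true, j) + 6 = ((3 : ℕ) : ℤ) * (4 * j + 3) := by
    simp only [yy]; push_cast; ring
  simp only at hj hd
  rw [e] at hd
  obtain ⟨c, hc⟩ := fzpole_cop hp h5 (by norm_num) (by norm_num) hd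
  have hp5 : (5 : ℤ) ≤ p := by exact_mod_cast h5
  rcases hj with hj | hj
  · have c1 : 0 < c := by nlinarith
    refine ⟨fun _ => Or.inl (by nlinarith), fun h => Or.inl ?_⟩
    have c2 : c ≠ 1 := by
      rintro rfl
      omega
    have c2' : c ≠ 2 := by
      rintro rfl
      omega
    have c3 : 3 ≤ c := by omega
    nlinarith
  · have c1 : c < 0 := by nlinarith
    refine ⟨fun h => Or.inr ?_, fun _ => Or.inr (by nlinarith)⟩
    have c2 : c ≠ -1 := by
      rintro rfl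
      omega
    have c2' : c ≠ -2 := by
      rintro rfl
      omega
    have c3 : c ≤ -3 := by omega
    nlinarith

open Classical in
theorem fvpole_cardF {n p : ℕ} (hp : p.Prime) (h5 : 5 ≤ p) :
    3 * ((((Ico (-(n : ℤ)) n).filter fun i => Pole p (false, i)).card : ℕ) : ℤ)
      ≤ max (3 * n - p : ℤ) 0 + max (3 * n - 2 * p : ℤ) 0 + 6 := by
  by_cases h : (p : ℤ) % 3 = 2
  · have hs : ((Ico (-(n : ℤ)) n).filter fun i => Pole p (false, i))
        ⊆ Ioo (((p : ℤ) - 2) / 3) n ∪ Icc (-(n : ℤ)) ((-2 * (p : ℤ) - 2) / 3) := by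
      intro i hi
      rw [mem_filter, mem_Ico] at hi
      have := (fvpole_false hp h5 hi.2).1 h
      rw [mem_union, mem_Ioo, mem_Icc]
      omega
    have hc := le_trans (card_le_card hs) (card_union_le _ _)
    rw [Int.card_Ioo, Int.card_Icc] at hc
    omega
  · have hs : ((Ico (-(n : ℤ)) n).filter fun i => Pole p (false, i))
        ⊆ Ioo ((2 * (p : ℤ) - 2) / 3) n ∪ Icc (-(n : ℤ)) ((-(p : ℤ) - 2) / 3) := by
      intro i hi
      rw [mem_filter, mem_Ico] at hi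
      have := (fvpole_false hp h5 hi.2).2 h
      rw [mem_union, mem_Ioo, mem_Icc]
      omega
    have hc := le_trans (card_le_card hs) (card_union_le _ _)
    rw [Int.card_Ioo, Int.card_Icc] at hc
    omega

open Classical in
theorem fvpole_cardT {n p : ℕ} (hp : p.Prime) (h5 : 5 ≤ p) :
    4 * ((((Ico (-(n : ℤ)) n).filter fun i => Pole p (true, i)).card : ℕ) : ℤ)
      ≤ max (4 * n - p : ℤ) 0 + max (4 * n - 3 * p : ℤ) 0 + 8 := by
  by_cases h : (p : ℤ) % 4 = 3
  · have hs : ((Ico (-(n : ℤ)) n).filter fun i => Pole p (true, i))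
        ⊆ Ioo (((p : ℤ) - 3) / 4) n ∪ Icc (-(n : ℤ)) ((-3 * (p : ℤ) - 3) / 4) := by
      intro i hi
      rw [mem_filter, mem_Ico] at hi
      have := (fvpole_true hp h5 hi.2).1 h
      rw [mem_union, mem_Ioo, mem_Icc]
      omega
    have hc := le_trans (card_le_card hs) (card_union_le _ _)
    rw [Int.card_Ioo, Int.card_Icc] at hc
    omega
  · have hs : ((Ico (-(n : ℤ)) n).filter fun i => Pole p (true, i))
        ⊆ Ioo ((3 * (p : ℤ) - 3) / 4) n ∪ Icc (-(n : ℤ)) ((-(p : ℤ) - 3) / 4) := by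
      intro i hi
      rw [mem_filter, mem_Ico] at hi
      have := (fvpole_true hp h5 hi.2).2 h
      rw [mem_union, mem_Ioo, mem_Icc]
      omega
    have hc := le_trans (card_le_card hs) (card_union_le _ _)
    rw [Int.card_Ioo, Int.card_Icc] at hc
    omega

open Classical in
theorem card_pole5 {n m : ℕ} {x : Col m → Nd} (h : Sel n m x) {p : ℕ} (hp : p.Prime)
    (h5 : 5 ≤ p) : (((univ.filter fun r => Pole p (x r)).card : ℕ) : ℝ)
      ≤ max (3 * n - p : ℝ) 0 / 3 + max (3 * n - 2 * p : ℝ) 0 / 3 + max (4 * n - p : ℝ) 0 / 4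
        + max (4 * n - 3 * p : ℝ) 0 / 4 + 4 := by
  have hF := fvpole_cardF (n := n) hp h5
  have hT := fvpole_cardT (n := n) hp h5
  have cF := fzpole_chain h p false
  have cT := fzpole_chain h p true
  have hsplit : (univ.filter fun r => Pole p (x r)).card
      ≤ ((univ.filter fun r => Pole p (x r)).filter fun r => (x r).1 = false).card
        + ((univ.filter fun r => Pole p (x r)).filter fun r => (x r).1 = true).card := by
    refine le_trans (card_le_card ?_) (card_union_le _ _)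
    intro r hr
    rw [mem_union, mem_filter (s := univ.filter fun r => Pole p (x r)),
      mem_filter (s := univ.filter fun r => Pole p (x r))]
    cases hb : (x r).1
    · exact Or.inl ⟨hr, rfl⟩
    · exact Or.inr ⟨hr, rfl⟩
  have hsum := le_trans hsplit (Nat.add_le_add cF cT)
  generalize ((Ico (-(n : ℤ)) n).filter fun i => Pole p (false, i)).card = A at hF hsum
  generalize ((Ico (-(n : ℤ)) n).filter fun i => Pole p (true, i)).card = B at hT hsum
  have hF' : 3 * (A : ℝ) ≤ max (3 * n - p : ℝ) 0 + max (3 * n - 2 * p : ℝ) 0 + 6 := by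
    exact_mod_cast hF
  have hT' : 4 * (B : ℝ) ≤ max (4 * n - p : ℝ) 0 + max (4 * n - 3 * p : ℝ) 0 + 8 := by
    exact_mod_cast hT
  have hsum' : (((univ.filter fun r => Pole p (x r)).card : ℕ) : ℝ) ≤ (A : ℝ) + B := by
    exact_mod_cast hsum
  linarith

end Pool.Agent.FMZ
end

-- part Pool.Agent.P.MP_cb43af_nt.FzMat
section

open Finset Filter Polynomial
namespace Pool.Agent.FMZ

theorem fzmat_gen {n m : ℕ} {x : Col m → Nd} (h : Sel n m x) {p : ℤ} {s : ℤ → ℤ}
    (hs : Function.Injective s) (I : Finset ℤ)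
    (hI : ∀ i ∈ I, (-(n : ℤ) ≤ i ∧ i < n) ∧ (-(n : ℤ) ≤ s i ∧ s i < n))
    (hd : ∀ i, p ∣ zz (true, s i) - zz (false, i)) :
    ∃ T σ, Mat (fun r => zz (x r) % p) T σ ∧ I.card ≤ T.card + 2 := by
  classical
  set R : Finset Nd := univ.image x with hR
  have hsub : R ⊆ nodes n := fun z hz => by
    obtain ⟨r, -, rfl⟩ := mem_image.1 hz
    exact h.mem r
  have hD : (nodes n \ R).card = 2 := by
    rw [card_sdiff_of_subset hsub, card_nodes, card_image_of_injective _ h.inj, card_univ,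
      Fintype.card_sum, Fintype.card_fin]
    have := h.hm
    omega
  set I' := I.filter fun i => (false, i) ∈ R ∧ (true, s i) ∈ R with hI'
  set T : Finset (Col m) := univ.filter fun r => (x r).1 = false ∧ (x r).2 ∈ I' with hT
  have h1 : (I.filter fun i => ¬((false, i) ∈ R ∧ (true, s i) ∈ R)).card ≤ 2 := by
    rw [← hD]
    refine card_le_card_of_injOn
      (fun i => if (false, i) ∈ R then ((true, s i) : Nd) else (false, i)) (fun i hi => ?_) ?_
    · obtain ⟨h2, h3⟩ := mem_filter.1 (mem_coe.1 hi)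
      refine mem_coe.2 (mem_sdiff.2 ?_)
      by_cases h4 : (false, i) ∈ R
      · simp only [if_pos h4]
        exact ⟨mem_nodes.2 (hI i h2).2, fun h5 => h3 ⟨h4, h5⟩⟩
      · simp only [if_neg h4]
        exact ⟨mem_nodes.2 (hI i h2).1, h4⟩
    · intro i _ j _ hij
      dsimp only at hij
      split_ifs at hij
      · exact hs (congrArg Prod.snd hij)
      · exact absurd (congrArg Prod.fst hij) (by simp)
      · exact absurd (congrArg Prod.fst hij) (by simp)
      · exact congrArg Prod.snd hij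
  have h2 : I'.card ≤ T.card := by
    refine card_le_card_of_surjOn (fun r => (x r).2) fun i hi => ?_
    obtain ⟨r, -, hr⟩ := mem_image.1 (mem_filter.1 (mem_coe.1 hi)).2.1
    refine ⟨r, mem_coe.2 (mem_filter.2 ⟨mem_univ _, ?_⟩), ?_⟩
    · rw [hr]
      exact ⟨rfl, hi⟩
    · simp only [hr]
  have h3 : ∀ r, ∃ r', r ∈ T → x r' = (true, s (x r).2) := by
    intro r
    by_cases hr : r ∈ T
    · obtain ⟨r', -, h4⟩ := mem_image.1 (mem_filter.1 (mem_filter.1 hr).2.2).2.2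
      exact ⟨r', fun _ => h4⟩
    · exact ⟨r, fun h4 => absurd h4 hr⟩
  choose σ hσ using h3
  have h4 : ∀ r ∈ T, x r = (false, (x r).2) := fun r hr =>
    Prod.ext (mem_filter.1 hr).2.1 rfl
  refine ⟨T, σ, ⟨fun r hr => ⟨?_, fun h5 => ?_⟩, fun r hr r' hr' e => ?_⟩, ?_⟩
  · have h5 := hd (x r).2
    rw [← h4 r hr, ← hσ r hr] at h5
    exact (Int.modEq_iff_dvd.2 h5).symm
  · have h6 := (mem_filter.1 h5).2.1
    rw [hσ r hr] at h6
    exact absurd h6 (by simp)
  · have h5 := hσ r hr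
    rw [e, hσ r' hr'] at h5
    apply h.inj
    rw [h4 r hr, h4 r' hr', hs (congrArg Prod.snd h5)]
  · have h5 := card_filter_add_card_filter_not (s := I)
      (fun i => (false, i) ∈ R ∧ (true, s i) ∈ R)
    rw [← hI'] at h5
    omega

theorem fzmat_fin {n m : ℕ} {x : Col m → Nd} (h : Sel n m x) {p : ℕ} {s : ℤ → ℤ}
    (hs : Function.Injective s) (lo hi : ℤ)
    (hI : ∀ i, lo ≤ i → i < hi → (-(n : ℤ) ≤ i ∧ i < n) ∧ (-(n : ℤ) ≤ s i ∧ s i < n))
    (hd : ∀ i, (p : ℤ) ∣ zz (true, s i) - zz (false, i))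
    (hc : 24 * (n : ℤ) - p - 24 ≤ 12 * (hi - lo)) :
    ∃ T σ, Mat (fun r => zz (x r) % (p : ℤ)) T σ ∧ (2 * n - p / 12 - 4 : ℝ) ≤ T.card := by
  obtain ⟨T, σ, h1, h2⟩ := fzmat_gen h hs (Ico lo hi)
    (fun i hi => hI i (mem_Ico.1 hi).1 (mem_Ico.1 hi).2) hd
  refine ⟨T, σ, h1, ?_⟩
  rw [Int.card_Ico] at h2
  have h3 : 24 * (n : ℤ) - p - 48 ≤ 12 * (T.card : ℤ) := by omega
  have h4 : 24 * (n : ℝ) - p - 48 ≤ 12 * (T.card : ℝ) := by exact_mod_cast h3
  linarith

theorem exists_match {n m : ℕ} {x : Col m → Nd} (h : Sel n m x) {p : ℕ} (hp : p.Prime)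
    (h5 : 5 ≤ p) : ∃ T σ, Mat (fun r => zz (x r) % (p : ℤ)) T σ ∧
      (2 * n - p / 12 - 4 : ℝ) ≤ T.card := by
  have h2 : ¬ 2 ∣ p := fun hd => by
    have := (Nat.prime_dvd_prime_iff_eq Nat.prime_two hp).1 hd
    omega
  have h3 : ¬ 3 ∣ p := fun hd => by
    have := (Nat.prime_dvd_prime_iff_eq Nat.prime_three hp).1 hd
    omega
  have a1 : ∀ t i : ℤ, zz (true, i + t) - zz (false, i) = (12 * t + 1) * (24 * i + 12 * t + 5) := by
    intro t i
    simp only [zz, yy, if_true, Bool.false_eq_true, if_false]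
    ring
  have a2 : ∀ t i : ℤ, zz (true, t - i) - zz (false, i) = (12 * t + 5) * (12 * t - 24 * i + 1) := by
    intro t i
    simp only [zz, yy, if_true, Bool.false_eq_true, if_false]
    ring
  obtain ⟨t, ht⟩ : ∃ t : ℤ, 0 ≤ t ∧ ((p : ℤ) = 12 * t + 1 ∨ (p : ℤ) = 12 * t + 5 ∨
      (p : ℤ) = 12 * t + 7 ∨ (p : ℤ) = 12 * t + 11) := ⟨(p : ℤ) / 12, by omega⟩
  obtain ⟨t0, e | e | e | e⟩ := ht
  · refine fzmat_fin h (s := fun i => i + t) (add_left_injective t) (-n) (n - t)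
      (fun i _ _ => by omega) (fun i => ?_) (by omega)
    rw [a1, e]
    exact dvd_mul_right _ _
  · refine fzmat_fin h (s := fun i => t - i) sub_right_injective (t - n + 1) n
      (fun i _ _ => by omega) (fun i => ?_) (by omega)
    rw [a2, e]
    exact dvd_mul_right _ _
  · refine fzmat_fin h (s := fun i => (-t - 1) - i) sub_right_injective (-n) (n - t)
      (fun i _ _ => by omega) (fun i => ?_) (by omega)
    rw [a2, e]
    exact Dvd.dvd.mul_right ⟨-1, by ring⟩ _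
  · refine fzmat_fin h (s := fun i => i + (-t - 1)) (add_left_injective _) (t + 1 - n) n
      (fun i _ _ => by omega) (fun i => ?_) (by omega)
    rw [a1, e]
    exact Dvd.dvd.mul_right ⟨-1, by ring⟩ _

end Pool.Agent.FMZ
end

-- part Pool.Agent.P.MP_cb43af_nt.FvGood
section

open Finset Filter Polynomial Topology
namespace Pool.Agent.FMZ

open Classical in
theorem fvgood_row {a b c : ℤ} {f : Nd → ℚ} {n : ℕ} (h : Ch5 a b c f) {p : ℕ} [Fact p.Prime]
    (h7 : 7 ≤ p) (h2 : 24 * n ≤ p ^ 2) (hH : Hp5 a b c p) {y : Nd} (hy : y ∈ nodes n)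
    (hne : f y - lift5 b c p y ≠ 0) :
    (1 : ℤ) - 6 * (if Pole p y then 1 else 0) ≤ padicValRat p (f y - lift5 b c p y) := by
  have hp1 : (1 : ℚ) ≤ p := by exact_mod_cast (show 1 ≤ p by omega)
  by_cases hP : Pole p y
  · rw [if_pos hP]
    refine (val_of_norm p hne _).1 ?_
    have h1 : padicNorm p (f y) ≤ (p : ℚ) ^ (5 * 1) :=
      ch_norm5 h p (L := 1) (by show 12 * n ≤ p ^ 2; omega) hy
    have h3 : padicNorm p ((lift5 b c p y : ℤ) : ℚ) ≤ (p : ℚ) ^ (5 * 1) :=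
      (padicNorm.of_int _).trans (one_le_pow₀ hp1)
    have h4 : (p : ℚ) ^ (-((1 : ℤ) - 6 * 1)) = (p : ℚ) ^ (5 * 1) := by
      rw [show (-((1 : ℤ) - 6 * 1)) = ((5 * 1 : ℕ) : ℤ) by norm_num, zpow_natCast]
    rw [h4]
    exact padicNorm.sub.trans (max_le h1 h3)
  · rw [if_neg hP]
    refine (val_of_norm p hne _).1 ?_
    have h1 := ch_cong5 h7 h hH hP
    have h4 : (p : ℚ) ^ (-((1 : ℤ) - 6 * 0)) = 1 / p := by
      rw [show (-((1 : ℤ) - 6 * 0)) = -1 by norm_num, zpow_neg_one, one_div]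
    rw [h4]; exact h1

theorem good5 {a b c : ℤ} {f : Nd → ℚ} {n m : ℕ} {x : Col m → Nd} (h : Ch5 a b c f)
    (hx : Sel n m x) (hD : DD m f x ≠ 0) {p : ℕ} (hp : p.Prime) (h7 : 7 ≤ p)
    (h2 : 24 * n ≤ p ^ 2) (h3 : n ≤ p) (hH : Hp5 a b c p) :
    (24 * n - p : ℝ) / 6 - 8 * max (3 * n - p : ℝ) 0 - 8 * max (3 * n - 2 * p : ℝ) 0
      - 6 * max (4 * n - p : ℝ) 0 - 6 * max (4 * n - 3 * p : ℝ) 0 - 110
      ≤ padicValRat p (qq m f x) := by
  classical
  have : Fact p.Prime := ⟨hp⟩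
  have h5 : 5 ≤ p := by omega
  have hexp : DD m f x = ∑ S : Finset (Col m), (∏ r ∈ S, (f (x r) - (lift5 b c p (x r) : ℚ))) *
      DS m (fun r => (zz (x r) : ℚ)) (fun r => (lift5 b c p (x r) : ℚ)) S :=
    det_expand _ _ _
  obtain ⟨S, -, hne, hle⟩ := val_term p univ _ (hexp ▸ hD)
  rw [← hexp] at hle
  have hmap : DS m (fun r => (zz (x r) : ℚ)) (fun r => (lift5 b c p (x r) : ℚ)) S =
      ((DS m (fun r => zz (x r)) (fun r => lift5 b c p (x r)) S : ℤ) : ℚ) :=
    (DS_map (Int.castRingHom ℚ) (fun r => zz (x r)) (fun r => lift5 b c p (x r)) S).symm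
  rw [hmap] at hne hle
  obtain ⟨hn1, hn2⟩ := mul_ne_zero_iff.1 hne
  have hn3 : ∀ r ∈ S, f (x r) - (lift5 b c p (x r) : ℚ) ≠ 0 := prod_ne_zero_iff.1 hn1
  have hn4 : DS m (fun r => zz (x r)) (fun r => lift5 b c p (x r)) S ≠ 0 := by exact_mod_cast hn2
  rw [padicValRat.mul hn1 hn2, val_prod p S _ hn3, padicValRat.of_int] at hle
  have hsum : (S.card : ℤ) - 6 * ((univ.filter fun r => Pole p (x r)).card : ℕ) ≤
      ∑ r ∈ S, padicValRat p (f (x r) - (lift5 b c p (x r) : ℚ)) := by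
    refine le_trans ?_ (sum_le_sum fun r hr => fvgood_row h h7 h2 hH (hx.mem r) (hn3 r hr))
    rw [sum_sub_distrib, ← mul_sum, sum_boole, sum_const, nsmul_eq_mul, mul_one]
    have : (S.filter fun r => Pole p (x r)).card ≤ (univ.filter fun r => Pole p (x r)).card :=
      card_le_card (filter_subset_filter _ (subset_univ S))
    have : ((S.filter fun r => Pole p (x r)).card : ℤ) ≤
      ((univ.filter fun r => Pole p (x r)).card : ℕ) := by exact_mod_cast this
    linarith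
  have hds := ds_val p hx.zinj (fun r s hrs => lift5_congr h7 b c hrs) hn4
  obtain ⟨T, σ, hM, hT⟩ := exists_match hx hp h5
  have hlev := lev_two p (u := fun r => zz (x r)) (not_cube hx hp h2) S hM
  have hmult := mult_sq hx hp h5 h2
  have hpole := card_pole5 hx hp h5
  have hq := val_qq p hx hD
  have hp0 : (0 : ℝ) < p := by exact_mod_cast hp.pos
  have h83 : (4 * n / p : ℝ) ≤ 4 := by
    rw [div_le_iff₀ hp0]
    have : (n : ℝ) ≤ p := by exact_mod_cast h3
    linarith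
  have key : (2 * T.card : ℤ) - 24 * ((univ.filter fun r => Pole p (x r)).card : ℕ)
      - (mult fun r => zz (x r) % (p : ℤ) ^ 2 : ℕ) ≤ padicValRat p (qq m f x) := by
    rw [hq]
    zify at hds hlev
    linarith
  have key' : (2 * T.card : ℝ) - 24 * ((univ.filter fun r => Pole p (x r)).card : ℕ)
      - (mult fun r => zz (x r) % (p : ℤ) ^ 2 : ℕ) ≤ padicValRat p (qq m f x) := by
    exact_mod_cast key
  linarith

end Pool.Agent.FMZ
end

-- part Pool.Agent.P.MP_cb43af_nt.FvAp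
section

open Finset Filter Polynomial Topology
namespace Pool.Agent.FMZ

theorem fact_val (p : ℕ) [Fact p.Prime] {N L : ℕ} (h : N < p ^ (L + 1)) :
    N ≤ (p - 1) * (padicValNat p N.factorial + L + 1) := by
  have hp : 1 < p := (Fact.out : p.Prime).one_lt
  have h1 := sub_one_mul_padicValNat_factorial (p := p) N
  have h2 : (p.digits N).length ≤ L + 1 := (Nat.digits_length_le_iff hp N).2 h
  have h3 : (p.digits N).sum ≤ (p.digits N).length • (p - 1) :=
    List.sum_le_card_nsmul _ _ fun d hd => Nat.le_sub_one_of_lt (Nat.digits_lt_base hp hd)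
  have h4 : (p.digits N).sum ≤ (p - 1) * (L + 1) := by
    rw [smul_eq_mul, mul_comm] at h3
    exact h3.trans (Nat.mul_le_mul_left _ h2)
  rw [add_assoc, mul_add, h1]
  omega

theorem ap_dvd (p : ℕ) [Fact p.Prime] {s : ℤ} (hs : ¬ (p : ℤ) ∣ s) (t : ℤ) (N : ℕ) :
    (p : ℤ) ^ padicValNat p N.factorial ∣ ∏ j ∈ range N, (s * j + t) := by
  have hp : Prime (p : ℤ) := Nat.prime_iff_prime_int.1 Fact.out
  set v := padicValNat p N.factorial with hv
  have hc : IsCoprime ((p : ℤ) ^ v) s := (hp.irreducible.coprime_iff_not_dvd.2 hs).pow_left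
  obtain ⟨u, s', hu⟩ := hc
  have h1 : (p : ℤ) ^ v ∣ ∏ j ∈ range N, (s' * t + j) := by
    refine Dvd.dvd.trans ?_ (Nat.factorial_coe_dvd_prod N (s' * t))
    exact_mod_cast (pow_padicValNat_dvd : p ^ padicValNat p N.factorial ∣ N.factorial)
  have h2 : ∏ j ∈ range N, (s * j + t) ≡ ∏ j ∈ range N, (s * (s' * t + j)) [ZMOD (p : ℤ) ^ v] := by
    refine Int.ModEq.prod fun j _ => ?_
    rw [Int.modEq_iff_dvd]
    exact ⟨-u * t, by linear_combination t * hu⟩
  rw [prod_mul_distrib] at h2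
  exact h2.dvd_iff.2 (h1.mul_left _)

theorem NN_eq (k : ℕ) (y : ℚ) : NN k (y ^ 2) = ∏ j ∈ range (2 * k), (12 * j + (y + 6 - 12 * k)) := by
  induction k with
  | zero => simp [NN]
  | succ k ih =>
    rw [NN, prod_range_succ, ← NN, ih, show 2 * (k + 1) = 2 * k + 1 + 1 by ring, prod_range_succ,
      prod_range_succ', mul_assoc]
    congr 1
    · refine prod_congr rfl fun j _ => ?_
      push_cast; ring
    · push_cast; ring

theorem fvap_core (p : ℕ) [Fact p.Prime] {a k : ℕ} {s t y : ℤ} (hs : ¬ (p : ℤ) ∣ s)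
    (h12 : (12 : ℤ) = (p : ℤ) ^ a * s) (ht : y + 6 - 12 * k = (p : ℤ) ^ a * t) :
    padicNorm p (NN k ((y : ℚ) ^ 2)) ≤
      (p : ℚ) ^ (-((a * (2 * k) + padicValNat p (2 * k).factorial : ℕ) : ℤ)) := by
  have h1 : NN k ((y : ℚ) ^ 2) = ((∏ j ∈ range (2 * k), ((p : ℤ) ^ a * (s * j + t)) : ℤ) : ℚ) := by
    rw [NN_eq, Int.cast_prod]
    refine prod_congr rfl fun j _ => ?_
    have h2 : (p : ℤ) ^ a * (s * j + t) = 12 * j + (y + 6 - 12 * k) := by
      linear_combination -(j : ℤ) * h12 - ht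
    rw [h2]; push_cast; ring
  rw [h1, ← padicNorm.dvd_iff_norm_le, prod_mul_distrib, prod_const, card_range]
  push_cast
  rw [pow_add, pow_mul]
  exact mul_dvd_mul_left _ (ap_dvd p hs t (2 * k))

theorem NN_bad {p ρ σ : ℕ} {e : Bool} (h : Gd p e ρ σ) {y : ℤ}
    (hy : (∃ i : ℤ, y = yy (!e, i)) ∨ ∃ i : ℕ, y = 12 * i + 6) {k L : ℕ}
    (hL : 2 * k < p ^ (L + 1)) :
    padicNorm p (NN k ((y : ℚ) ^ 2)) ≤ (p : ℚ) ^ ((L : ℤ) + 1 - ρ * k) := by
  rcases h with ⟨rfl, rfl, rfl, rfl⟩ | ⟨rfl, rfl, rfl, rfl⟩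
  · obtain ⟨t, ht⟩ : ∃ t : ℤ, y + 6 - 12 * k = 2 ^ 2 * t := by
      rcases hy with ⟨i, rfl⟩ | ⟨i, rfl⟩
      · exact ⟨3 * i - 3 * k + 2, by simp [yy]; ring⟩
      · exact ⟨3 * i - 3 * k + 3, by ring⟩
    have h1 := fact_val 2 hL
    refine (fvap_core 2 (a := 2) (s := 3) (by norm_num) (by norm_num) ht).trans
      (zpow_le_zpow_right₀ (by norm_num) ?_)
    omega
  · obtain ⟨t, ht⟩ : ∃ t : ℤ, y + 6 - 12 * k = 3 ^ 1 * t := by
      rcases hy with ⟨i, rfl⟩ | ⟨i, rfl⟩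
      · exact ⟨4 * i - 4 * k + 3, by simp [yy]; ring⟩
      · exact ⟨4 * i - 4 * k + 4, by ring⟩
    have h1 := fact_val 3 hL
    refine (fvap_core 3 (a := 1) (s := 4) (by norm_num) (by norm_num) ht).trans
      (zpow_le_zpow_right₀ (by norm_num) ?_)
    omega

theorem good_unit {p ρ σ : ℕ} {e : Bool} (h : Gd p e ρ σ) (i j : ℤ) :
    ¬ (p : ℤ) ∣ yy (e, i) + 6 * j := by
  rcases h with ⟨rfl, rfl, rfl, rfl⟩ | ⟨rfl, rfl, rfl, rfl⟩ <;> simp [yy] <;> omega

theorem sq_unit {p : ℕ} (hp : p = 2 ∨ p = 3) {y : ℤ} (hy : ¬ (p : ℤ) ∣ y) (j : ℤ) :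
    padicNorm p ((y : ℚ) ^ 2 - (6 * j) ^ 2) = 1 := by
  have hpp : p.Prime := by rcases hp with rfl | rfl <;> norm_num
  have := Fact.mk hpp
  have h6 : (p : ℤ) ∣ 6 := by rcases hp with rfl | rfl <;> norm_num
  have h1 : (y : ℚ) ^ 2 - (6 * j) ^ 2 = ((y ^ 2 - (6 * j) ^ 2 : ℤ) : ℚ) := by push_cast; ring
  rw [h1, padicNorm.int_eq_one_iff]
  intro h2
  have h3 : (p : ℤ) ∣ y ^ 2 := by
    have h4 : (p : ℤ) ∣ (6 * j) ^ 2 := (h6.mul_right j).pow two_ne_zero
    simpa using h2.add h4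
  exact hy ((Nat.prime_iff_prime_int.1 hpp).dvd_of_dvd_pow h3)

theorem NN_good {p : ℕ} (hp : p = 2 ∨ p = 3) {y : ℤ} (hy : ¬ (p : ℤ) ∣ y) (k : ℕ) :
    padicNorm p (NN k ((y : ℚ) ^ 2)) = 1 := by
  have hpp : p.Prime := by rcases hp with rfl | rfl <;> norm_num
  have := Fact.mk hpp
  induction k with
  | zero => simp [NN]
  | succ k ih =>
    have h1 := sq_unit hp hy (2 * k + 1)
    have h2 : (6 * ((2 * k + 1 : ℤ) : ℚ)) ^ 2 = (12 * (k : ℚ) + 6) ^ 2 := by push_cast; ring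
    rw [h2] at h1
    rw [NN, prod_range_succ, ← NN, padicNorm.mul, ih, h1, mul_one]

theorem inv_norm (p : ℕ) [Fact p.Prime] {z : ℤ} {L : ℕ} (h : |z| < (p : ℤ) ^ (L + 1)) :
    padicNorm p (1 / (z : ℚ)) ≤ (p : ℚ) ^ L := by
  have hp1 : (1 : ℚ) ≤ p := by exact_mod_cast (Fact.out : p.Prime).one_le
  rcases eq_or_ne z 0 with rfl | h0
  · simp
  have h2 : padicValInt p z ≤ L := by
    by_contra h3
    have h4 : (p : ℤ) ^ (L + 1) ∣ z := (padicValInt_dvd_iff _ _).2 (Or.inr (by omega))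
    exact absurd (Int.le_of_dvd (abs_pos.2 h0) ((dvd_abs _ _).2 h4)) (not_le.2 h)
  have h4 : (z : ℚ) ≠ 0 := by exact_mod_cast h0
  rw [padicNorm.div, padicNorm.one, padicNorm.eq_zpow_of_nonzero h4, padicValRat.of_int, zpow_neg,
    one_div, inv_inv, zpow_natCast]
  exact pow_le_pow_right₀ hp1 h2

end Pool.Agent.FMZ
end

-- part Pool.Agent.P.MP_cb43af_nt.FvPf
section

open Finset Filter Polynomial Topology
namespace Pool.Agent.FMZ

theorem bet_norm (p : ℕ) [Fact p.Prime] {K L : ℕ} (h : 2 * K < p ^ (L + 1)) (j : ℕ) :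
    padicNorm p (bet K j) ≤ (p : ℚ) ^ L := by
  have hp : p.Prime := Fact.out
  have hc : (2 * K).choose K ≠ 0 := (Nat.choose_pos (by omega)).ne'
  have hlog : Nat.log p (2 * K) ≤ L := by
    rcases Nat.eq_zero_or_pos K with rfl | hK
    · simp
    · exact Nat.lt_succ_iff.1 (Nat.log_lt_of_lt_pow (by omega) h)
  have hv : padicValNat p ((2 * K).choose K) ≤ L := by
    rw [← Nat.factorization_def _ hp]
    exact Nat.factorization_choose_le_log.trans hlog
  have hnum : padicNorm p (2 * (-1) ^ (j + 1) * ((2 * K).choose (K + j + 1) : ℚ)) ≤ 1 := by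
    have := padicNorm.of_int (p := p) (2 * (-1) ^ (j + 1) * ((2 * K).choose (K + j + 1) : ℤ))
    push_cast at this
    exact this
  have hp1 : (1 : ℚ) ≤ p := by exact_mod_cast hp.one_le
  have hden : padicNorm p ((2 * K).choose K : ℚ) =
      ((p : ℚ) ^ padicValNat p ((2 * K).choose K))⁻¹ := by
    rw [padicNorm.eq_zpow_of_nonzero (by exact_mod_cast hc), padicValRat.of_nat, zpow_neg,
      zpow_natCast]
  unfold bet
  rw [padicNorm.div, hden, div_inv_eq_mul]
  calc _ ≤ 1 * (p : ℚ) ^ padicValNat p ((2 * K).choose K) :=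
        mul_le_mul_of_nonneg_right hnum (by positivity)
    _ ≤ (p : ℚ) ^ L := by rw [one_mul]; exact pow_le_pow_right₀ hp1 hv

theorem fvpf_A (j d : ℕ) :
    ∏ i ∈ (range (j + 1 + d)).erase j, ((j : ℚ) - i) =
      (j.factorial : ℚ) * (-1) ^ d * (d.factorial : ℚ) := by
  induction d with
  | zero =>
    have e : (range (j + 1 + 0)).erase j = range j := by
      ext i
      simp only [mem_erase, mem_range]
      omega
    rw [e, prod_range_natCast_sub, ← Nat.descFactorial_eq_prod_range, Nat.descFactorial_self]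
    simp
  | succ d ih =>
    have e : (range (j + 1 + (d + 1))).erase j =
        insert (j + 1 + d) ((range (j + 1 + d)).erase j) := by
      ext i
      simp only [mem_erase, mem_range, mem_insert]
      omega
    rw [e, prod_insert (by simp), ih, Nat.factorial_succ]
    push_cast
    ring

theorem fvpf_B (j K : ℕ) :
    (∏ i ∈ range K, ((j : ℚ) + i + 2)) * ((j + 1).factorial : ℚ) =
      ((K + j + 1).factorial : ℚ) := by
  induction K with
  | zero => simp
  | succ K ih =>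
    rw [prod_range_succ, show K + 1 + j + 1 = (K + j + 1) + 1 by ring, Nat.factorial_succ (K + j + 1)]
    push_cast
    rw [← ih]
    ring

theorem fvpf_C (K : ℕ) :
    ∏ i ∈ range K, -aa i = (-144) ^ K * (K.factorial : ℚ) ^ 2 := by
  induction K with
  | zero => simp
  | succ K ih =>
    rw [prod_range_succ, ih, Nat.factorial_succ]
    unfold aa
    push_cast
    ring

theorem bet_eq {K j : ℕ} (hj : j < K) :
    bet K j * (aa j * ∏ i ∈ (range K).erase j, (aa j - aa i)) = ∏ i ∈ range K, -aa i := by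
  obtain ⟨d, rfl⟩ : ∃ d, K = j + 1 + d := ⟨K - (j + 1), by omega⟩
  have h1 : ∏ i ∈ (range (j + 1 + d)).erase j, (aa j - aa i) =
      144 ^ (j + d) * (∏ i ∈ (range (j + 1 + d)).erase j, ((j : ℚ) - i)) *
        ∏ i ∈ (range (j + 1 + d)).erase j, ((j : ℚ) + i + 2) := by
    have hcard : ((range (j + 1 + d)).erase j).card = j + d := by
      rw [card_erase_of_mem (mem_range.2 hj), card_range]
      omega
    rw [← hcard, ← prod_const, ← prod_mul_distrib, ← prod_mul_distrib]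
    refine prod_congr rfl fun i _ => ?_
    unfold aa
    ring
  have h2 := fvpf_B j (j + 1 + d)
  rw [← prod_erase_mul _ _ (mem_range.2 hj)] at h2
  have hf : ∀ n : ℕ, (n.factorial : ℚ) ≠ 0 := fun n => by exact_mod_cast n.factorial_ne_zero
  have hj2 : (j : ℚ) + j + 2 ≠ 0 := by positivity
  have h3 : ∏ i ∈ (range (j + 1 + d)).erase j, ((j : ℚ) + i + 2) =
      ((j + 1 + d + j + 1).factorial : ℚ) / (((j : ℚ) + j + 2) * ((j + 1).factorial : ℚ)) := by
    rw [eq_div_iff (mul_ne_zero hj2 (hf _)), ← h2]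
    ring
  rw [h1, fvpf_A, h3, fvpf_C]
  unfold bet aa
  rw [Nat.cast_choose ℚ (show j + 1 + d + j + 1 ≤ 2 * (j + 1 + d) by omega),
    Nat.cast_choose ℚ (show j + 1 + d ≤ 2 * (j + 1 + d) by omega),
    show 2 * (j + 1 + d) - (j + 1 + d + j + 1) = d by omega,
    show 2 * (j + 1 + d) - (j + 1 + d) = j + 1 + d by omega, Nat.factorial_succ j]
  have a1 := hf (2 * (j + 1 + d))
  have a2 := hf (j + 1 + d + j + 1)
  have a3 := hf (j + 1 + d)
  have a4 := hf d
  have a5 := hf j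
  have a6 : (j : ℚ) + 1 ≠ 0 := by positivity
  have e144 : (-144 : ℚ) ^ (j + 1 + d) = (-1) ^ (j + 1) * (-1) ^ d * (144 * 144 ^ (j + d)) := by
    rw [show (-144 : ℚ) = (-1) * 144 by norm_num, mul_pow]
    ring
  rw [e144]
  generalize ((2 * (j + 1 + d)).factorial : ℚ) = x1 at *
  generalize ((j + 1 + d + j + 1).factorial : ℚ) = x2 at *
  generalize ((j + 1 + d).factorial : ℚ) = x3 at *
  generalize ((-1 : ℚ)) ^ (j + 1) = s1
  generalize ((-1 : ℚ)) ^ d = s2
  generalize (144 : ℚ) ^ (j + d) = s3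
  push_cast
  field_simp
  ring

theorem fvpf_pos (j : ℕ) : 0 < aa j := by
  unfold aa
  positivity

theorem fvpf_inj {i j : ℕ} (h : aa i = aa j) : i = j := by
  unfold aa at h
  have h1 : ((i : ℚ) + 1) ^ 2 = ((j : ℚ) + 1) ^ 2 := by linarith
  have h2 : (i : ℚ) + 1 = (j : ℚ) + 1 := (pow_left_inj₀ (by positivity) (by positivity) two_ne_zero).1 h1
  exact_mod_cast add_right_cancel h2

theorem pf_base (K : ℕ) {Z : ℚ} (h0 : Z ≠ 0) (h : ∀ j, Z ≠ aa j) :
    (∏ i ∈ range K, -aa i) / (Z * ∏ i ∈ range K, (Z - aa i))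
      = 1 / Z + ∑ j ∈ range K, bet K j / (Z - aa j) := by
  classical
  let v : Option ℕ → ℚ := fun o => o.elim 0 aa
  let s : Finset (Option ℕ) := insertNone (range K)
  have hinj : Set.InjOn v s := by
    rintro (_ | a) _ (_ | b) _ hab
    · rfl
    · exact absurd hab (fvpf_pos b).ne
    · exact absurd hab (fvpf_pos a).ne'
    · rw [fvpf_inj hab]
  have hne : s.Nonempty := ⟨none, by simp [s]⟩
  have hZ : ∀ o, Z ≠ v o := by
    rintro (_ | a)
    · exact h0
    · exact h a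
  have hs := congrArg (eval Z) (Lagrange.sum_basis hinj hne)
  rw [eval_finsetSum, eval_one,
    sum_congr rfl (fun o ho => Lagrange.eval_basis_not_at_node (s := s) (v := v) ho (hZ o)), ← mul_sum,
    Lagrange.eval_nodal] at hs
  have e1 : ∀ j, s.erase (some j) = insertNone ((range K).erase j) := by
    intro j
    ext (_ | a) <;> simp [s]
  have e0 : s.erase none = (range K).map Function.Embedding.some := by
    ext (_ | a) <;> simp [s]
  have hP : ∏ i ∈ range K, -aa i ≠ 0 := prod_ne_zero_iff.2 fun i _ => neg_ne_zero.2 (fvpf_pos i).ne'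
  have w0 : Lagrange.nodalWeight s v none = (∏ i ∈ range K, -aa i)⁻¹ := by
    rw [Lagrange.nodalWeight, e0, prod_map, ← prod_inv_distrib]
    refine prod_congr rfl fun i _ => ?_
    simp [v]
  have w1 : ∀ j ∈ range K, Lagrange.nodalWeight s v (some j) =
      bet K j * (∏ i ∈ range K, -aa i)⁻¹ := by
    intro j hj
    have hb := bet_eq (mem_range.1 hj)
    have hw : Lagrange.nodalWeight s v (some j) =
        (aa j * ∏ i ∈ (range K).erase j, (aa j - aa i))⁻¹ := by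
      rw [Lagrange.nodalWeight, e1, prod_insertNone, mul_inv, ← prod_inv_distrib]
      simp [v]
    have hq : aa j * ∏ i ∈ (range K).erase j, (aa j - aa i) ≠ 0 := by
      intro hq
      rw [hq, mul_zero] at hb
      exact hP hb.symm
    have hb0 : bet K j ≠ 0 := by
      intro hq
      rw [hq, zero_mul] at hb
      exact hP hb.symm
    rw [hw, ← hb]
    field_simp
  have hs1 : ∑ o ∈ s, Lagrange.nodalWeight s v o * (Z - v o)⁻¹ =
      (∏ i ∈ range K, -aa i)⁻¹ * (1 / Z + ∑ j ∈ range K, bet K j / (Z - aa j)) := by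
    rw [sum_insertNone, w0, mul_add, mul_sum]
    congr 1
    · simp [v]
    · refine sum_congr rfl fun j hj => ?_
      rw [w1 j hj]
      simp only [v, Option.elim_some, div_eq_mul_inv]
      ring
  have hs2 : ∏ o ∈ s, (Z - v o) = Z * ∏ i ∈ range K, (Z - aa i) := by
    rw [prod_insertNone]
    simp [v]
  rw [hs1, hs2] at hs
  have hQ : Z * ∏ i ∈ range K, (Z - aa i) ≠ 0 := by
    intro hq
    rw [hq, zero_mul] at hs
    exact zero_ne_one hs
  rw [div_eq_iff hQ]
  generalize (1 / Z + ∑ j ∈ range K, bet K j / (Z - aa j)) = S at *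
  generalize Z * ∏ i ∈ range K, (Z - aa i) = Q at *
  generalize ∏ i ∈ range K, -aa i = P at *
  field_simp at hs
  linarith

end Pool.Agent.FMZ
end

-- part Pool.Agent.P.MP_cb43af_nt.FvApp
section

open Finset Filter Polynomial Topology
namespace Pool.Agent.FMZ

theorem fvapp_tel (g κ : ℕ → ℚ) (K : ℕ) :
    ∑ i ∈ range K, (g (i + 1) - g i) * ∑ j ∈ Ico i K, κ j
      = ∑ j ∈ range K, κ j * (g (j + 1) - g 0) := by
  induction K with
  | zero => simp
  | succ K ih =>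
    have e : ∀ i ∈ range (K + 1), (g (i + 1) - g i) * ∑ j ∈ Ico i (K + 1), κ j =
        (g (i + 1) - g i) * ∑ j ∈ Ico i K, κ j + κ K * (g (i + 1) - g i) := fun i hi => by
      rw [sum_Ico_succ_top (Nat.lt_succ_iff.1 (mem_range.1 hi))]
      ring
    rw [sum_congr rfl e, sum_add_distrib, ← mul_sum, sum_range_sub, sum_range_succ, ih,
      sum_range_succ, Ico_self, sum_empty]
    ring

theorem fvapp_pt (l t S : ℚ) (h1 : l - 12 * t ≠ 0) (h2 : l + 12 * t ≠ 0)
    (h3 : l - 12 * (t + 1) ≠ 0) (h4 : l + 12 * (t + 1) ≠ 0) :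
    -(12 * t + 6) * S / ((l + 6) ^ 2 - (12 * t + 6) ^ 2)
      - -(12 * t + 6) * S / ((l - 6) ^ 2 - (12 * t + 6) ^ 2)
      = (l / (l ^ 2 - 144 * (t + 1) ^ 2) - l / (l ^ 2 - 144 * t ^ 2)) * S := by
  rw [show (l + 6) ^ 2 - (12 * t + 6) ^ 2 = (l - 12 * t) * (l + 12 * (t + 1)) by ring,
    show (l - 6) ^ 2 - (12 * t + 6) ^ 2 = (l - 12 * (t + 1)) * (l + 12 * t) by ring,
    show l ^ 2 - 144 * (t + 1) ^ 2 = (l - 12 * (t + 1)) * (l + 12 * (t + 1)) by ring,
    show l ^ 2 - 144 * t ^ 2 = (l - 12 * t) * (l + 12 * t) by ring]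
  generalize hA : l - 12 * t = A at *
  generalize hB : l + 12 * t = B at *
  generalize hC : l - 12 * (t + 1) = C at *
  generalize hD : l + 12 * (t + 1) = D at *
  field_simp
  subst hA hB hC hD
  ring

theorem fvapp_term (l β A b c s : ℚ) (h0 : l ≠ 0) (hA : A ≠ 0) (h : l ^ 2 - A ≠ 0) :
    (-b * (β / A) - c * (β / A / A + s * (β / A))) * (l / (l ^ 2 - A) - 1 / l)
      = -(b / l + c / l ^ 3 + c * s / l) * (β / (l ^ 2 - A)) - c / l ^ 3 * (β / A) := by
  generalize hW : l ^ 2 - A = W at *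
  field_simp
  subst hW
  ring

theorem fvapp_fin (l b c s P Q T : ℚ) (h0 : l ≠ 0) (hQ : Q ≠ 0)
    (h : P / (l ^ 2 * Q) = 1 / l ^ 2 + T) :
    -(b / l + c / l ^ 3 + c * s / l) * T - c / l ^ 3 * s - (b / l ^ 3 + c / l ^ 5)
      = -(P / Q * (b / l ^ 3 + c / l ^ 5 + c * s / l ^ 3)) := by
  rw [show T = P / (l ^ 2 * Q) - 1 / l ^ 2 by linear_combination -h]
  field_simp
  ring

theorem fvapp_mul {p : ℕ} [Fact p.Prime] {x y : ℚ} {m n : ℕ} (hx : padicNorm p x ≤ (p : ℚ) ^ m)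
    (hy : padicNorm p y ≤ (p : ℚ) ^ n) {k : ℕ} (hk : m + n ≤ k) :
    padicNorm p (x * y) ≤ (p : ℚ) ^ k := by
  have hp1 : (1 : ℚ) ≤ p := by exact_mod_cast (Fact.out : p.Prime).one_le
  rw [padicNorm.mul]
  refine (mul_le_mul hx hy (padicNorm.nonneg _) (by positivity)).trans ?_
  rw [← pow_add]
  exact pow_le_pow_right₀ hp1 hk

theorem fvapp_int {p : ℕ} [Fact p.Prime] (z : ℤ) : padicNorm p (z : ℚ) ≤ (p : ℚ) ^ 0 := by
  rw [pow_zero]
  exact padicNorm.of_int z

theorem fvapp_inv {p : ℕ} [Fact p.Prime] {K L j : ℕ} (hL : 2 * K < p ^ (L + 1)) (hj : j < K) :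
    padicNorm p (1 / aa j) ≤ (p : ℚ) ^ (2 * L + 4) := by
  have h2 : 2 ≤ p := (Fact.out : p.Prime).two_le
  have a6 : padicNorm p (1 / ((6 : ℤ) : ℚ)) ≤ (p : ℚ) ^ 2 := inv_norm p (by
    have : 2 ^ (2 + 1) ≤ p ^ (2 + 1) := Nat.pow_le_pow_left h2 _
    have h3 : 6 < p ^ (2 + 1) := by omega
    rw [abs_of_nonneg (by norm_num)]
    exact_mod_cast h3)
  have aj : padicNorm p (1 / ((2 * (j + 1) : ℤ) : ℚ)) ≤ (p : ℚ) ^ L := inv_norm p (by
    have h3 : 2 * (j + 1) < p ^ (L + 1) := by omega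
    rw [abs_of_nonneg (by positivity)]
    exact_mod_cast h3)
  have m := fvapp_mul a6 aj le_rfl
  have e : 1 / aa j = (1 / ((6 : ℤ) : ℚ) * (1 / ((2 * (j + 1) : ℤ) : ℚ))) *
      (1 / ((6 : ℤ) : ℚ) * (1 / ((2 * (j + 1) : ℤ) : ℚ))) := by
    rw [aa]
    push_cast
    field_simp
    norm_num
  rw [e]
  exact fvapp_mul m m (by omega)

theorem fvapp_aa {p : ℕ} [Fact p.Prime] (hp : p = 2 ∨ p = 3) (j : ℕ) :
    padicNorm p (-aa j) ≤ (p : ℚ) ^ (-2 : ℤ) := by
  have h : ((p ^ 2 : ℕ) : ℤ) ∣ 144 * ((j : ℤ) + 1) ^ 2 := by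
    refine Dvd.dvd.mul_right ?_ _
    rcases hp with rfl | rfl <;> norm_num
  have := padicNorm.dvd_iff_norm_le.1 h
  rw [padicNorm.neg, aa]
  push_cast at this
  exact this

theorem fvapp_eps {p : ℕ} [Fact p.Prime] (hp : p = 2 ∨ p = 3) (K : ℕ) :
    padicNorm p (∏ i ∈ range K, -aa i) ≤ (p : ℚ) ^ (-2 * (K : ℤ)) := by
  have hp0 : (p : ℚ) ≠ 0 := by exact_mod_cast (Fact.out : p.Prime).ne_zero
  induction K with
  | zero => simp
  | succ K ih =>
    rw [prod_range_succ, padicNorm.mul]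
    refine (mul_le_mul ih (fvapp_aa hp K) (padicNorm.nonneg _) (by positivity)).trans ?_
    rw [← zpow_add₀ hp0]
    push_cast
    exact le_of_eq (congrArg _ (by ring))

theorem fvapp_unit {p : ℕ} (hp : p = 2 ∨ p = 3) {l : ℤ} (hl : ¬ (p : ℤ) ∣ l) (j : ℕ) :
    padicNorm p ((l : ℚ) ^ 2 - aa j) = 1 := by
  have := sq_unit hp hl (2 * (j + 1))
  push_cast at this
  rw [aa, show (144 : ℚ) * (j + 1) ^ 2 = (6 * (2 * (j + 1))) ^ 2 by ring]
  exact this

theorem fvapp_units {p : ℕ} [Fact p.Prime] (hp : p = 2 ∨ p = 3) {l : ℤ} (hl : ¬ (p : ℤ) ∣ l)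
    (K : ℕ) : padicNorm p (∏ i ∈ range K, ((l : ℚ) ^ 2 - aa i)) = 1 := by
  induction K with
  | zero => simp
  | succ K ih => rw [prod_range_succ, padicNorm.mul, ih, fvapp_unit hp hl, mul_one]

theorem fvapp_ne {p : ℕ} {q : ℚ} (h : padicNorm p q = 1) : q ≠ 0 := by
  rintro rfl
  simp at h

theorem fvapp_TW {p : ℕ} [Fact p.Prime] (hp : p = 2 ∨ p = 3) {w : ℕ → ℚ} {E : ℕ}
    (hw : ∀ i, padicNorm p (w i) ≤ (p : ℚ) ^ E) (K : ℕ) {y : ℤ} (hy : ¬ (p : ℤ) ∣ y) :
    padicNorm p (TW w K y) ≤ (p : ℚ) ^ E := by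
  refine padicNorm.sum_le' (fun i _ => ?_) (by positivity)
  have := sq_unit hp hy (2 * i + 1)
  push_cast at this
  rw [padicNorm.div, show (12 : ℚ) * i + 6 = 6 * (2 * i + 1) by ring, this, div_one]
  exact hw i

/-- telescoping: weights on the poles in `y` from weights on the poles in `l` -/
theorem TW_step (κ : ℕ → ℚ) (K : ℕ) {l : ℚ} (h : ∀ j : ℤ, l ≠ 12 * j) :
    TW (fun i => -(12 * i + 6) * ∑ j ∈ Ico i K, κ j) K (l + 6)
      - TW (fun i => -(12 * i + 6) * ∑ j ∈ Ico i K, κ j) K (l - 6)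
      = ∑ j ∈ range K, κ j * (l / (l ^ 2 - aa j) - 1 / l) := by
  have h0 : l ≠ 0 := by simpa using h 0
  have key := fvapp_tel (fun i => l / (l ^ 2 - 144 * (i : ℚ) ^ 2)) κ K
  rw [TW, TW, ← sum_sub_distrib]
  refine (sum_congr rfl fun i _ => ?_).trans (key.trans (sum_congr rfl fun j _ => ?_))
  · have a1 := h i
    have a2 := h (-i)
    have a3 := h (i + 1)
    have a4 := h (-(i + 1))
    push_cast at a1 a2 a3 a4 ⊢
    exact fvapp_pt l i _ (sub_ne_zero.2 a1) (fun e => a2 (by linarith)) (sub_ne_zero.2 a3)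
      fun e => a4 (by linarith)
  · have e : l / (l ^ 2 - 144 * ((0 : ℕ) : ℚ) ^ 2) = 1 / l := by
      push_cast
      field_simp
      ring
    rw [e, aa]
    push_cast
    rfl

theorem pf_weights {p : ℕ} (hp : p = 2 ∨ p = 3) (b c : ℤ) {K L : ℕ} (hL : 2 * K < p ^ (L + 1)) :
    ∃ w : ℕ → ℚ, (∀ i, padicNorm p (w i) ≤ (p : ℚ) ^ (6 * L + 8)) ∧ ∀ l : ℤ, ¬ (p : ℤ) ∣ l →
      padicNorm p (TW w K (l + 6) - TW w K (l - 6) - inc b c l)
        ≤ (p : ℚ) ^ (6 * (L : ℤ) + 8 - 2 * K) := by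
  have : Fact p.Prime := by
    rcases hp with rfl | rfl
    · exact Nat.fact_prime_two
    · exact Nat.fact_prime_three
  have hp1 : (1 : ℚ) ≤ p := by exact_mod_cast (Fact.out : p.Prime).one_le
  have hp0 : (p : ℚ) ≠ 0 := by linarith
  have n1 : ∀ j < K, padicNorm p (bet K j / aa j) ≤ (p : ℚ) ^ (3 * L + 4) := fun j hj => by
    rw [div_eq_mul_one_div]
    exact fvapp_mul (bet_norm p hL j) (fvapp_inv hL hj) (by omega)
  obtain ⟨s, hs⟩ : ∃ s, s = ∑ j ∈ range K, bet K j / aa j := ⟨_, rfl⟩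
  have ns : padicNorm p s ≤ (p : ℚ) ^ (3 * L + 4) := by
    rw [hs]
    exact padicNorm.sum_le' (fun j hj => n1 j (mem_range.1 hj)) (by positivity)
  obtain ⟨κ, hκ⟩ : ∃ κ : ℕ → ℚ, κ = fun j => -(b : ℚ) * (bet K j / aa j) -
    c * (bet K j / aa j / aa j + s * (bet K j / aa j)) := ⟨_, rfl⟩
  have nκ : ∀ j < K, padicNorm p (κ j) ≤ (p : ℚ) ^ (6 * L + 8) := fun j hj => by
    rw [hκ]
    refine padicNorm.sub.trans (max_le ?_ ?_)
    · rw [neg_mul, padicNorm.neg]
      exact fvapp_mul (fvapp_int b) (n1 j hj) (by omega)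
    · refine fvapp_mul (n := 6 * L + 8) (fvapp_int c) ?_ (by omega)
      refine padicNorm.nonarchimedean.trans (max_le ?_ ?_)
      · rw [div_eq_mul_one_div]
        exact fvapp_mul (n1 j hj) (fvapp_inv hL hj) (by omega)
      · exact fvapp_mul ns (n1 j hj) (by omega)
  refine ⟨fun i => -(12 * i + 6) * ∑ j ∈ Ico i K, κ j, fun i => ?_, fun l hl => ?_⟩
  · have a := fvapp_int (p := p) (-(12 * i + 6))
    push_cast at a
    refine fvapp_mul (n := 6 * L + 8) a ?_ (by omega)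
    exact padicNorm.sum_le' (fun j hj => nκ j (mem_Ico.1 hj).2) (by positivity)
  · have nl : padicNorm p (l : ℚ) = 1 := (padicNorm.int_eq_one_iff l).2 hl
    have h0 : (l : ℚ) ≠ 0 := fvapp_ne nl
    have h12 : ∀ j : ℤ, (l : ℚ) ≠ 12 * j := fun j e => by
      have e' : l = 12 * j := by exact_mod_cast e
      refine hl (e' ▸ Dvd.dvd.mul_right ?_ j)
      rcases hp with rfl | rfl <;> norm_num
    have hz : ∀ j, (l : ℚ) ^ 2 - aa j ≠ 0 := fun j => fvapp_ne (fvapp_unit hp hl j)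
    have hA : ∀ j, aa j ≠ 0 := fun j => by
      rw [aa]
      positivity
    have base := pf_base K (pow_ne_zero 2 h0) fun j => sub_ne_zero.1 (hz j)
    have e : ∀ j ∈ range K, κ j * ((l : ℚ) / (l ^ 2 - aa j) - 1 / l) =
        -((b : ℚ) / l + c / l ^ 3 + c * s / l) * (bet K j / (l ^ 2 - aa j)) -
          c / l ^ 3 * (bet K j / aa j) := fun j _ => by
      rw [hκ]
      exact fvapp_term _ _ _ _ _ _ h0 (hA j) (hz j)
    rw [TW_step κ K h12, sum_congr rfl e, sum_sub_distrib, ← mul_sum, ← mul_sum, ← hs, inc,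
      fvapp_fin _ _ _ _ _ _ _ h0 (fvapp_ne (fvapp_units hp hl K)) base, padicNorm.neg,
      padicNorm.mul, padicNorm.div, fvapp_units hp hl K, div_one]
    have nk : ∀ k : ℕ, padicNorm p ((l : ℚ) ^ k) = 1 := fun k => by
      rw [IsAbsoluteValue.abv_pow (padicNorm p), nl, one_pow]
    have one : ∀ z : ℤ, padicNorm p (z : ℚ) ≤ (p : ℚ) ^ (6 * L + 8) := fun z =>
      (padicNorm.of_int z).trans (one_le_pow₀ hp1)
    have nr : padicNorm p ((b : ℚ) / l ^ 3 + c / l ^ 5 + c * s / l ^ 3) ≤ (p : ℚ) ^ (6 * L + 8) := by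
      refine padicNorm.nonarchimedean.trans (max_le (padicNorm.nonarchimedean.trans
        (max_le ?_ ?_)) ?_)
      · rw [padicNorm.div, nk, div_one]
        exact one b
      · rw [padicNorm.div, nk, div_one]
        exact one c
      · rw [padicNorm.div, nk, div_one]
        exact fvapp_mul (fvapp_int c) ns (by omega)
    refine (mul_le_mul (fvapp_eps hp K) nr (padicNorm.nonneg _) (by positivity)).trans ?_
    rw [← zpow_natCast, ← zpow_add₀ hp0]
    push_cast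
    exact le_of_eq (congrArg _ (by ring))

theorem ch_approx5 {a b c : ℤ} {f : Nd → ℚ} (h : Ch5 a b c f) {p ρ σ : ℕ} {e : Bool}
    (hG : Gd p e ρ σ) {K L : ℕ} (hL : 2 * K < p ^ (L + 1)) :
    ∃ (w : ℕ → ℚ) (c₀ : ℚ), (∀ i, padicNorm p (w i) ≤ (p : ℚ) ^ (6 * L + 8)) ∧
      padicNorm p c₀ ≤ (p : ℚ) ^ (6 * L + 8) ∧
      (∀ i, padicNorm p (c₀ + TW w K (yy (e, i))) ≤ (p : ℚ) ^ (6 * L + 8)) ∧
      ∀ i, padicNorm p (f (e, i) - (c₀ + TW w K (yy (e, i))))
        ≤ (p : ℚ) ^ (6 * (L : ℤ) + 8 - 2 * K) := by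
  have hp : p = 2 ∨ p = 3 := hG.imp (fun g => g.1) fun g => g.1
  have : Fact p.Prime := by
    rcases hp with rfl | rfl
    · exact Nat.fact_prime_two
    · exact Nat.fact_prime_three
  have hp1 : (1 : ℚ) ≤ p := by exact_mod_cast (Fact.out : p.Prime).one_le
  obtain ⟨w, hw, hs⟩ := pf_weights hp b c hL
  have nT : ∀ i, padicNorm p (TW w K (yy (e, i))) ≤ (p : ℚ) ^ (6 * L + 8) := fun i =>
    fvapp_TW hp hw K (by simpa using good_unit hG i 0)
  have n0 : padicNorm p (f (e, 0)) ≤ (p : ℚ) ^ (6 * L + 8) := by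
    cases e
    · rw [h.zA, padicNorm.zero]
      positivity
    · rw [h.zB]
      exact (padicNorm.of_int a).trans (one_le_pow₀ hp1)
  obtain ⟨c₀, hc⟩ : ∃ c₀, c₀ = f (e, 0) - TW w K (yy (e, 0)) := ⟨_, rfl⟩
  have nc : padicNorm p c₀ ≤ (p : ℚ) ^ (6 * L + 8) := by
    rw [hc]
    exact padicNorm.sub.trans (max_le n0 (nT 0))
  refine ⟨w, c₀, hw, nc, fun i => padicNorm.nonarchimedean.trans (max_le nc (nT i)), fun i => ?_⟩
  have step : ∀ i : ℤ, padicNorm p
      ((f (e, i + 1) - (c₀ + TW w K (yy (e, i + 1)))) - (f (e, i) - (c₀ + TW w K (yy (e, i)))))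
        ≤ (p : ℚ) ^ (6 * (L : ℤ) + 8 - 2 * K) := by
    intro i
    have h1 := hs (yy (e, i) + 6 * 1) (good_unit hG i 1)
    have e1 : ((yy (e, i + 1) : ℤ) : ℚ) = (yy (e, i) : ℚ) + 6 + 6 := by
      simp only [yy]
      push_cast
      ring
    push_cast at h1
    rw [add_sub_cancel_right] at h1
    rw [h.step, e1, ← padicNorm.neg]
    refine le_of_eq_of_le (congrArg _ ?_) h1
    ring
  induction i using Int.induction_on with
  | zero =>
    rw [hc, sub_add_cancel, sub_self, padicNorm.zero]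
    positivity
  | succ i ih =>
    have := (padicNorm.nonarchimedean (p := p)).trans (max_le (step i) ih)
    rwa [sub_add_cancel] at this
  | pred i ih =>
    have h1 := step (-(i : ℤ) - 1)
    rw [sub_add_cancel] at h1
    have := (padicNorm.sub (p := p)).trans (max_le ih h1)
    rwa [sub_sub_cancel] at this

end Pool.Agent.FMZ
end

-- part Pool.Agent.P.MP_cb43af_nt.FvRate
section

open Finset Filter Polynomial Topology
namespace Pool.Agent.FMZ

theorem fvrate_sum (s : Finset ℕ) : s.card * (s.card - 1) ≤ 2 * ∑ x ∈ s, x := by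
  induction s using Finset.induction_on_max with
  | empty => simp
  | insert a s h ih =>
    have hn : a ∉ s := fun e => lt_irrefl _ (h a e)
    have hc : s.card ≤ a := by
      simpa using card_le_card (show s ⊆ range a from fun x hx => mem_range.2 (h x hx))
    rw [card_insert_of_notMem hn, sum_insert hn, Nat.add_sub_cancel]
    rcases Nat.eq_zero_or_pos s.card with e | e
    · rw [e]; simp
    · obtain ⟨k, hk⟩ : ∃ k, s.card = k + 1 := ⟨s.card - 1, by omega⟩
      rw [hk] at ih hc ⊢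
      rw [Nat.add_sub_cancel] at ih
      nlinarith

theorem fvrate_prod (p : ℕ) [Fact p.Prime] {α : Type} (s : Finset α) (F t : α → ℚ)
    (h : ∀ i ∈ s, padicNorm p (F i) ≤ t i) : padicNorm p (∏ i ∈ s, F i) ≤ ∏ i ∈ s, t i := by
  classical
  induction s using Finset.induction_on with
  | empty => simp
  | insert a s ha ih =>
    rw [prod_insert ha, padicNorm.mul, prod_insert ha]
    exact mul_le_mul (h a (mem_insert_self _ _)) (ih fun i hi => h i (mem_insert_of_mem hi))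
      (padicNorm.nonneg _) ((padicNorm.nonneg _).trans (h a (mem_insert_self _ _)))

theorem fvrate_det (p : ℕ) [Fact p.Prime] {ι : Type} [Fintype ι] [DecidableEq ι]
    (M : Matrix ι ι ℚ) (t : ι → ℚ) (ht : ∀ i, 0 ≤ t i) (h : ∀ i j, padicNorm p (M i j) ≤ t i) :
    padicNorm p M.det ≤ ∏ i, t i := by
  rw [← Matrix.det_transpose, Matrix.det_apply']
  refine padicNorm.sum_le' (fun σ _ => ?_) (prod_nonneg fun i _ => ht i)
  rw [padicNorm.mul]
  exact (mul_le_of_le_one_left (padicNorm.nonneg _) (padicNorm.of_int _)).trans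
    (fvrate_prod p univ _ t fun i _ => h _ _)

theorem fvrate_norm (p : ℕ) [Fact p.Prime] {ι : Type} [Fintype ι] [DecidableEq ι] (G : Finset ι)
    (E ρ : ℕ) (al : ℕ → ι → ℤ) (a : ℕ → ι → ℚ) (M : Matrix ι ι ℚ)
    (ha : ∀ j < E, ∀ c, padicNorm p (a j c) ≤ 1 / (p : ℚ) ^ (ρ * j))
    (hG : ∀ r ∈ G, ∀ c, M r c = ∑ j ∈ range E, (al j r : ℚ) * a j c)
    (hN : ∀ r ∉ G, ∀ c, padicNorm p (M r c) ≤ 1) :
    padicNorm p M.det ^ 2 ≤ 1 / (p : ℚ) ^ (ρ * (G.card * (G.card - 1))) := by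
  have p1 : (1 : ℚ) ≤ p := by exact_mod_cast (Fact.out : p.Prime).one_lt.le
  have p0 : (0 : ℚ) < p := zero_lt_one.trans_le p1
  let A : ι → Finset ℕ := fun r => if r ∈ G then range E else {0}
  let co : ι → ℕ → ℤ := fun r j => if r ∈ G then al j r else 1
  let w : ι → ℕ → ι → ℚ := fun r j => if r ∈ G then a j else M r
  have e : M = fun r => ∑ j ∈ A r, fun c => (co r j : ℚ) * w r j c := by
    funext r c
    rw [Finset.sum_apply]
    by_cases hr : r ∈ G
    · simp only [A, co, w, if_pos hr, hG r hr c]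
    · simp [A, co, w, if_neg hr]
  have e2 : M.det = ∑ φ ∈ Fintype.piFinset A,
      Matrix.det (Matrix.of fun r c => (co r (φ r) : ℚ) * w r (φ r) c) := by
    have := (Matrix.detRowAlternating (n := ι) (R := ℚ)).toMultilinearMap.map_sum_finset
      (fun r j => fun c => (co r j : ℚ) * w r j c) A
    rw [← e] at this
    exact this
  obtain ⟨K, hK⟩ : ∃ K, G.card * (G.card - 1) = 2 * K := by
    have := Finset.sum_range_id_mul_two G.card
    exact ⟨_, by rw [← this, mul_comm]⟩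
  have key : padicNorm p M.det ≤ 1 / (p : ℚ) ^ (ρ * K) := by
    rw [e2]
    refine padicNorm.sum_le' (fun φ hφ => ?_) (by positivity)
    have e3 := Matrix.det_mul_column (fun r => (co r (φ r) : ℚ)) (Matrix.of fun r c => w r (φ r) c)
    simp only [Matrix.of_apply] at e3
    rw [e3, padicNorm.mul, ← Int.cast_prod]
    refine (mul_le_of_le_one_left (padicNorm.nonneg _) (padicNorm.of_int _)).trans ?_
    by_cases hi : Set.InjOn φ G
    · refine (fvrate_det p _ (fun r => if r ∈ G then 1 / (p : ℚ) ^ (ρ * φ r) else 1)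
        (fun r => by split_ifs <;> positivity) fun r c => ?_).trans ?_
      · have hr := Fintype.mem_piFinset.1 hφ r
        by_cases h : r ∈ G
        · simp only [A, if_pos h, mem_range] at hr
          simp only [Matrix.of_apply, w, if_pos h]
          exact ha _ hr c
        · simp only [Matrix.of_apply, w, if_neg h]
          exact hN r h c
      · rw [← prod_filter, filter_mem_eq_inter, univ_inter, prod_div_distrib, prod_const_one,
          prod_pow_eq_pow_sum, ← mul_sum]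
        have h1 := fvrate_sum (G.image φ)
        rw [card_image_of_injOn hi, sum_image hi, hK] at h1
        exact one_div_le_one_div_of_le (by positivity)
          (pow_le_pow_right₀ p1 (Nat.mul_le_mul_left _ (by omega)))
    · simp only [Set.InjOn, not_forall] at hi
      obtain ⟨r, hr, s, hs, h1, h2⟩ := hi
      rw [Matrix.det_zero_of_row_eq h2, padicNorm.zero]
      · positivity
      · funext c
        simp only [Matrix.of_apply, w, if_pos (mem_coe.1 hr), if_pos (mem_coe.1 hs), h1]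
  rw [hK, mul_left_comm, pow_mul' _ 2, ← one_div_pow]
  exact pow_le_pow_left₀ (padicNorm.nonneg _) key 2

theorem fvrate_sq {ι : Type} [LinearOrder ι] (u : ι → ℤ) (G : Finset ι) :
    |WW u G| = (∏ i ∈ G, ∏ l ∈ G.filter (· < i), (u i - u l)) ^ 2 := by
  have e1 : WW u G = (∏ i ∈ G, ∏ l ∈ G.filter (· < i), (u i - u l))
      * ∏ i ∈ G, ∏ l ∈ G.filter (i < ·), (u i - u l) := by
    rw [WW, ← prod_mul_distrib]
    refine prod_congr rfl fun i _ => ?_
    rw [← prod_union (disjoint_filter.2 fun l _ h1 h2 => lt_asymm h1 h2)]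
    refine prod_congr ?_ fun _ _ => rfl
    ext l
    simp only [mem_filter, mem_erase, mem_union, ne_eq]
    constructor
    · rintro ⟨h1, h2⟩
      rcases lt_or_gt_of_ne h1 with h3 | h3
      · exact Or.inl ⟨h2, h3⟩
      · exact Or.inr ⟨h2, h3⟩
    · rintro (⟨h2, h3⟩ | ⟨h2, h3⟩)
      · exact ⟨h3.ne, h2⟩
      · exact ⟨h3.ne', h2⟩
  have e2 : ∏ i ∈ G, ∏ l ∈ G.filter (i < ·), (u i - u l)
      = ∏ i ∈ G, ∏ l ∈ G.filter (· < i), (u l - u i) :=
    prod_comm' fun i l => by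
      simp only [mem_filter]
      tauto
  rw [e1, e2, ← sq_abs, sq, abs_mul]
  congr 1
  simp only [Finset.abs_prod]
  exact prod_congr rfl fun i _ => prod_congr rfl fun l _ => abs_sub_comm _ _

theorem fvrate_ord (p : ℕ) [Fact p.Prime] {ι : Type} [Fintype ι] [LinearOrder ι] (G : Finset ι)
    {u : ι → ℤ} (hu : Function.Injective u) (E ρ : ℕ) (P : ℕ → ℤ[X]) (a : ℕ → ι → ℚ)
    (M : Matrix ι ι ℚ) (ha : ∀ j < E, ∀ c, padicNorm p (a j c) ≤ 1 / (p : ℚ) ^ (ρ * j))
    (hG : ∀ r ∈ G, ∀ c, M r c = ∑ j ∈ range E, (((P j).eval (u r) : ℤ) : ℚ) * a j c)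
    (hN : ∀ r ∉ G, ∀ c, padicNorm p (M r c) ≤ 1) (hD : M.det ≠ 0) :
    (ρ : ℤ) * (G.card * (G.card - 1)) + padicValInt p (WW u G) ≤ 2 * padicValRat p M.det := by
  choose al hal using fun j => fznew_newton u G (P j)
  let N : Matrix ι ι ℚ := Matrix.of fun r s => if r ∈ G then (if s ∈ G then
    ((∏ l ∈ G.filter (· < s), (u r - u l) : ℤ) : ℚ) else 0) else if r = s then 1 else 0
  let M' : Matrix ι ι ℚ := Matrix.of fun r c =>
    if r ∈ G then ∑ j ∈ range E, (al j r : ℚ) * a j c else M r c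
  have e : M = N * M' := by
    ext r c
    rw [Matrix.mul_apply]
    by_cases hr : r ∈ G
    · simp only [N, M', Matrix.of_apply, if_pos hr, ite_mul, zero_mul]
      rw [← sum_filter, filter_mem_eq_inter, univ_inter, hG r hr c,
        sum_congr (s₁ := G) rfl fun s hs => by rw [if_pos hs, mul_sum], sum_comm (s := G)]
      refine sum_congr rfl fun j _ => ?_
      rw [hal j r hr, Int.cast_sum, sum_mul]
      exact sum_congr rfl fun s _ => by rw [Int.cast_mul, mul_assoc]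
    · simp only [N, M', Matrix.of_apply, if_neg hr, ite_mul, zero_mul, one_mul, sum_ite_eq,
        mem_univ, if_true]
  have tri : N.BlockTriangular OrderDual.toDual := fun i j hij => by
    have hij' : i < j := hij
    simp only [N, Matrix.of_apply]
    split_ifs with h1 h2 h3
    · rw [prod_eq_zero (i := i) (mem_filter.2 ⟨h1, hij'⟩) (sub_self _), Int.cast_zero]
    · rfl
    · exact absurd h3 hij'.ne
    · rfl
  set D : ℤ := ∏ i ∈ G, ∏ l ∈ G.filter (· < i), (u i - u l) with hDd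
  have dN : N.det = (D : ℚ) := by
    rw [Matrix.det_of_isLowerTriangular N tri, hDd, Int.cast_prod, ← univ_inter G,
      ← filter_mem_eq_inter, prod_filter]
    refine prod_congr rfl fun i _ => ?_
    simp only [N, Matrix.of_apply, if_true, filter_mem_eq_inter, univ_inter]
    split_ifs <;> rfl
  have hdet : M.det = D * M'.det := by rw [← dN, ← Matrix.det_mul, ← e]
  have D0 : (D : ℚ) ≠ 0 := fun h => hD (by rw [hdet, h, zero_mul])
  have M0 : M'.det ≠ 0 := fun h => hD (by rw [hdet, h, mul_zero])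
  have h1 := fvrate_norm p G E ρ al a M' ha
    (fun r hr c => by simp only [M', Matrix.of_apply, if_pos hr])
    (fun r hr c => by simpa only [M', Matrix.of_apply, if_neg hr] using hN r hr c)
  rw [sq, ← padicNorm.mul, one_div, ← zpow_natCast, ← zpow_neg,
    val_of_norm p (mul_ne_zero M0 M0), padicValRat.mul M0 M0] at h1
  have D0' : D ≠ 0 := by exact_mod_cast D0
  have h2 : padicValInt p (WW u G) = 2 * padicValInt p D := by
    have := fvrate_sq u G
    rw [← hDd] at this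
    rw [two_mul, ← padicValInt.mul D0' D0', ← sq, ← this, padicValInt, padicValInt,
      Int.natAbs_abs]
  rw [hdet, padicValRat.mul D0 M0, padicValRat.of_int, h2]
  have h3 : ((ρ * (G.card * (G.card - 1)) : ℕ) : ℤ) = (ρ : ℤ) * (G.card * (G.card - 1)) := by
    rcases Nat.eq_zero_or_pos G.card with h | h
    · rw [h]; simp
    · rw [Nat.cast_mul, Nat.cast_mul, Nat.cast_sub h, Nat.cast_one]
  rw [h3] at h1
  push_cast
  linarith

theorem rate_det (p : ℕ) [Fact p.Prime] {ι : Type} [Fintype ι] [DecidableEq ι] (G : Finset ι)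
    {u : ι → ℤ} (hu : Function.Injective u) (E ρ : ℕ) (P : ℕ → ℤ[X]) (a : ℕ → ι → ℚ)
    (M : Matrix ι ι ℚ) (ha : ∀ j < E, ∀ c, padicNorm p (a j c) ≤ 1 / (p : ℚ) ^ (ρ * j))
    (hG : ∀ r ∈ G, ∀ c, M r c = ∑ j ∈ range E, (((P j).eval (u r) : ℤ) : ℚ) * a j c)
    (hN : ∀ r ∉ G, ∀ c, padicNorm p (M r c) ≤ 1) (hD : M.det ≠ 0) :
    (ρ : ℤ) * (G.card * (G.card - 1)) + padicValInt p (WW u G) ≤ 2 * padicValRat p M.det := by
  let _ : LinearOrder ι := LinearOrder.lift' (Fintype.equivFin ι) (Fintype.equivFin ι).injective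
  have e : (LinearOrder.toDecidableEq : DecidableEq ι) = ‹DecidableEq ι› := Subsingleton.elim _ _
  have h := fvrate_ord p G hu E ρ P a M ha hG hN (e ▸ hD)
  exact e ▸ h

end Pool.Agent.FMZ
end

-- part Pool.Agent.P.MP_cb43af_nt.FvCol
section

open Finset Filter Polynomial Topology
namespace Pool.Agent.FMZ

theorem fvcol_eval {m : ℕ} (P : ℚ[X]) (h : P.degree < m) (x : ℚ) :
    ∑ i : Fin m, x ^ (i : ℕ) * P.coeff i = P.eval x := by
  conv_rhs => rw [← Polynomial.sum_C_mul_X_pow_eq P]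
  rw [← Polynomial.sum_fin _ (by simp) h, eval_finsetSum]
  exact sum_congr rfl fun i _ => by rw [eval_mul, eval_C, eval_pow, eval_X, mul_comm]

theorem fvcol_expand (K : ℕ) {u t : ℚ} (hu : NN K u ≠ 0) (ht : u - t ≠ 0) :
    1 / (u - t) = ∑ j ∈ range K, NN j t / NN (j + 1) u + NN K t / (NN K u * (u - t)) := by
  induction K with
  | zero => simp [NN]
  | succ K ih =>
    have e : ∀ v, NN (K + 1) v = NN K v * (v - (12 * K + 6) ^ 2) := fun v => prod_range_succ _ _
    rw [e] at hu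
    have h1 := left_ne_zero_of_mul hu
    have h2 := right_ne_zero_of_mul hu
    rw [sum_range_succ, ih h1, e, e, add_assoc]
    congr 1
    generalize ((12 * K + 6 : ℚ)) ^ 2 = s at h2
    field_simp
    ring

theorem col_ops {m : ℕ} (z g : Col m → ℚ) (A B : Fin m → ℚ[X]) (hA : ∀ k, (A k).Monic)
    (hd : ∀ k, (A k).natDegree = k) (hB : ∀ k, (B k).degree < m) :
    DG m z g = Matrix.det (Matrix.of fun r => Sum.elim (fun k => (A k).eval (z r))
      (fun k => g r * (A k).eval (z r) - (B k).eval (z r))) := by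
  have hU := Matrix.det_matrixOfPolynomials A hd hA
  have hdeg : ∀ k, (A k).degree < m := fun k => by
    rw [degree_eq_natDegree (hA k).ne_zero, hd]
    exact_mod_cast k.2
  have hM : (Matrix.of fun r => Sum.elim (fun k => (A k).eval (z r))
      (fun k => g r * (A k).eval (z r) - (B k).eval (z r)) : Matrix (Col m) (Col m) ℚ) =
      (Matrix.of fun r => rowv m (z r) 1 (g r)) * Matrix.fromBlocks
        (Matrix.of fun i j : Fin m => (A j).coeff i) (Matrix.of fun i j : Fin m => -(B j).coeff i) 0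
        (Matrix.of fun i j : Fin m => (A j).coeff i) := by
    ext r c
    rw [Matrix.mul_apply, Fintype.sum_sum_type]
    rcases c with k | k
    · simp [rowv, fvcol_eval _ (hdeg k)]
    · simp only [rowv, Matrix.of_apply, Sum.elim_inl, Sum.elim_inr, Matrix.fromBlocks_apply₁₂,
        Matrix.fromBlocks_apply₂₂, one_mul, mul_neg, sum_neg_distrib, mul_assoc, ← mul_sum,
        fvcol_eval _ (hdeg k), fvcol_eval _ (hB k)]
      ring
  rw [hM, Matrix.det_mul, Matrix.det_fromBlocks_zero₂₁, hU, DG]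
  ring

theorem inv_expand {K i : ℕ} (hi : i < K) {u : ℚ} (hu : NN K u ≠ 0) :
    1 / (u - (12 * i + 6) ^ 2) = ∑ j ∈ range K, NN j ((12 * i + 6) ^ 2) / NN (j + 1) u := by
  have h0 : NN K ((12 * i + 6) ^ 2) = 0 := prod_eq_zero (mem_range.2 hi) (sub_self _)
  have ht : u - (12 * i + 6) ^ 2 ≠ 0 := fun h => hu (prod_eq_zero (mem_range.2 hi) h)
  rw [fvcol_expand K hu ht, h0, zero_div, add_zero]

/-- the polynomial part of `NN k * TW` -/
theorem poly_part (w : ℕ → ℚ) (c₀ : ℚ) (K k : ℕ) : ∃ B : ℚ[X], B.degree < (k + 1 : ℕ) ∧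
    ∀ y : ℚ, (∀ i : ℕ, y ^ 2 ≠ (12 * i + 6) ^ 2) → B.eval (y ^ 2 - 4) = c₀ * NN k (y ^ 2)
      + ∑ i ∈ range K, w i * (NN k (y ^ 2) - NN k ((12 * i + 6) ^ 2)) / (y ^ 2 - (12 * i + 6) ^ 2) := by
  set A : ℚ[X] := ∏ i ∈ range k, (X - C ((12 * (i : ℚ) + 6) ^ 2 - 4)) with hA
  have hAe : ∀ v : ℚ, A.eval (v - 4) = NN k v := fun v => by
    rw [hA, eval_prod, NN]
    exact prod_congr rfl fun i _ => by simp
  have hAd : A.degree ≤ k := by
    rw [hA, degree_prod]
    simp only [degree_X_sub_C, sum_const, card_range, nsmul_eq_mul, mul_one, le_refl]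
  refine ⟨C c₀ * A + ∑ i ∈ range K, C (w i) * (A /ₘ (X - C ((12 * (i : ℚ) + 6) ^ 2 - 4))), ?_,
    fun y hy => ?_⟩
  · have hk : (k : WithBot ℕ) < (k + 1 : ℕ) := by exact_mod_cast Nat.lt_succ_self k
    refine lt_of_le_of_lt ((degree_add_le _ _).trans (max_le ?_ ?_)) hk
    · rw [C_mul']
      exact (degree_smul_le _ _).trans hAd
    · refine (degree_sum_le _ _).trans (Finset.sup_le fun i _ => ?_)
      rw [C_mul']
      exact (degree_smul_le _ _).trans ((degree_divByMonic_le _ _).trans hAd)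
  · rw [eval_add, eval_mul, eval_C, hAe, eval_finsetSum]
    congr 1
    refine sum_congr rfl fun i _ => ?_
    have h := congrArg (eval (y ^ 2 - 4))
      (X_sub_C_mul_divByMonic_eq_sub_modByMonic A ((12 * (i : ℚ) + 6) ^ 2 - 4))
    rw [modByMonic_X_sub_C_eq_C_eval, eval_mul, eval_sub, eval_sub, eval_X, eval_C, eval_C, hAe,
      hAe, sub_sub_sub_cancel_right] at h
    rw [eval_mul, eval_C, ← h, mul_div_assoc, mul_div_cancel_left₀ _ (sub_ne_zero.2 (hy i))]

end Pool.Agent.FMZ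
end

-- part Pool.Agent.P.MP_cb43af_nt.FvEx
section

open Finset Filter Polynomial Topology
namespace Pool.Agent.FMZ

/-- a bound on the norm -/
def fvexN (p : ℕ) (q : ℚ) (N : ℤ) : Prop := padicNorm p q ≤ (p : ℚ) ^ N

section

variable {p : ℕ} [hp : Fact p.Prime] {q q' : ℚ} {N N' : ℤ}

theorem fvex_pos (p : ℕ) [hp : Fact p.Prime] : (0 : ℚ) < p := by exact_mod_cast hp.out.pos

theorem fvex_mono (h : fvexN p q N) (hN : N ≤ N') : fvexN p q N' :=
  le_trans h (zpow_le_zpow_right₀ (by exact_mod_cast hp.out.one_le) hN)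

theorem fvex_mul (h : fvexN p q N) (h' : fvexN p q' N') : fvexN p (q * q') (N + N') := by
  unfold fvexN
  rw [padicNorm.mul, zpow_add₀ (fvex_pos p).ne']
  exact mul_le_mul h h' (padicNorm.nonneg _) (zpow_pos (fvex_pos p) _).le

theorem fvex_sub (h : fvexN p q N) (h' : fvexN p q' N) : fvexN p (q - q') N :=
  padicNorm.sub.trans (max_le h h')

theorem fvex_add (h : fvexN p q N) (h' : fvexN p q' N) : fvexN p (q + q') N :=
  padicNorm.nonarchimedean.trans (max_le h h')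

theorem fvex_sum {α : Type} (s : Finset α) (F : α → ℚ) (h : ∀ i ∈ s, fvexN p (F i) N) :
    fvexN p (∑ i ∈ s, F i) N :=
  padicNorm.sum_le' h (zpow_pos (fvex_pos p) _).le

theorem fvex_zero : fvexN p 0 N := by
  unfold fvexN
  rw [padicNorm.zero]
  exact (zpow_pos (fvex_pos p) _).le

theorem fvex_val (N : ℤ) : padicValRat p ((p : ℚ) ^ N) = N := by
  rw [padicValRat.zpow, padicValRat.self hp.out.one_lt, mul_one]

theorem fvex_pow (N : ℤ) : fvexN p ((p : ℚ) ^ N) (-N) := by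
  unfold fvexN
  rw [padicNorm.eq_zpow_of_nonzero (zpow_pos (fvex_pos p) _).ne', fvex_val]

theorem fvex_nat {E : ℕ} (h : padicNorm p q ≤ (p : ℚ) ^ E) : fvexN p q E := by
  unfold fvexN
  rwa [zpow_natCast]

theorem fvex_one (h : fvexN p q N) (hN : N ≤ 0) : padicNorm p q ≤ 1 := by
  have := fvex_mono h hN
  unfold fvexN at this
  rwa [zpow_zero] at this

theorem fvex_div {E : ℕ} (h : fvexN p q N) (hN : N ≤ -(E : ℤ)) :
    padicNorm p q ≤ 1 / (p : ℚ) ^ E := by
  have := fvex_mono h hN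
  unfold fvexN at this
  rwa [zpow_neg, zpow_natCast, ← one_div] at this

end

theorem fvex_ne (x : Nd) (i : ℕ) : (yy x : ℚ) ^ 2 ≠ (12 * i + 6) ^ 2 := by
  intro h
  have h' : yy x ^ 2 = (12 * (i : ℤ) + 6) ^ 2 := by exact_mod_cast h
  rcases sq_eq_sq_iff_eq_or_eq_neg.1 h' with h1 | h1 <;> unfold yy at h1 <;> split_ifs at h1 <;>
    omega

theorem fvex_NN0 (x : Nd) (k : ℕ) : NN k ((yy x : ℚ) ^ 2) ≠ 0 :=
  prod_ne_zero_iff.2 fun i _ => sub_ne_zero.2 (fvex_ne x i)

theorem fvex_inv (p : ℕ) [Fact p.Prime] {n K L : ℕ} (hL : 12 * n + 12 * K < p ^ (L + 1)) {x : Nd}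
    (hx : x ∈ nodes n) {i : ℕ} (hi : i < K) :
    fvexN p (1 / ((yy x : ℚ) ^ 2 - (12 * i + 6) ^ 2)) (L + L) := by
  have h1 := abs_lt.1 (yy_lt hx)
  have h2 : (12 * n + 12 * K : ℤ) < (p : ℤ) ^ (L + 1) := by exact_mod_cast hL
  have a := inv_norm p (z := yy x - (12 * i + 6)) (L := L) (abs_lt.2 ⟨by omega, by omega⟩)
  have b := inv_norm p (z := yy x + (12 * i + 6)) (L := L) (abs_lt.2 ⟨by omega, by omega⟩)
  have e : 1 / ((yy x : ℚ) ^ 2 - (12 * i + 6) ^ 2)
      = 1 / ((yy x - (12 * i + 6) : ℤ) : ℚ) * (1 / ((yy x + (12 * i + 6) : ℤ) : ℚ)) := by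
    rw [one_div_mul_one_div]
    push_cast
    congr 1
    ring
  rw [e]
  exact fvex_mul (fvex_nat a) (fvex_nat b)

theorem fvex_t {p ρ σ : ℕ} {e : Bool} (hG : Gd p e ρ σ) {k L : ℕ} (hL : 2 * k < p ^ (L + 1))
    (i : ℕ) : fvexN p (NN k ((12 * i + 6) ^ 2)) ((L : ℤ) + 1 - ρ * k) := by
  have := NN_bad hG (y := 12 * (i : ℤ) + 6) (Or.inr ⟨i, rfl⟩) hL
  push_cast at this
  exact this

theorem fvex_y {p ρ σ : ℕ} {e : Bool} (hG : Gd p e ρ σ) {k L : ℕ} (hL : 2 * k < p ^ (L + 1))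
    {x : Nd} (hx : x.1 ≠ e) : fvexN p (NN k ((yy x : ℚ) ^ 2)) ((L : ℤ) + 1 - ρ * k) := by
  refine NN_bad hG (y := yy x) (Or.inl ⟨x.2, ?_⟩) hL
  have : x.1 = !e := by
    revert hx
    cases x.1 <;> cases e <;> simp
  rw [← this]

theorem fvex_off {p ρ σ : ℕ} [Fact p.Prime] {e : Bool} (hG : Gd p e ρ σ) {n K L E k : ℕ}
    (hL : 12 * n + 12 * K < p ^ (L + 1)) (hk : 2 * k < p ^ (L + 1)) {x : Nd} (hx : x ∈ nodes n)
    (he : x.1 ≠ e) {w : ℕ → ℚ} {c₀ g : ℚ} (hw : ∀ i, padicNorm p (w i) ≤ (p : ℚ) ^ E)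
    (hc : padicNorm p c₀ ≤ (p : ℚ) ^ E) (hg : padicNorm p g ≤ (p : ℚ) ^ E) :
    fvexN p (g * NN k ((yy x : ℚ) ^ 2) - (c₀ * NN k ((yy x : ℚ) ^ 2) + ∑ i ∈ range K,
      w i * (NN k ((yy x : ℚ) ^ 2) - NN k ((12 * i + 6) ^ 2))
        / ((yy x : ℚ) ^ 2 - (12 * i + 6) ^ 2))) (E + 3 * L + 1 - ρ * k) := by
  have hy := fvex_y hG hk he
  refine fvex_sub (fvex_mono (fvex_mul (fvex_nat hg) hy) (by linarith [Int.natCast_nonneg L]))
    (fvex_add (fvex_mono (fvex_mul (fvex_nat hc) hy) (by linarith [Int.natCast_nonneg L]))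
      (fvex_sum _ _ fun i hi => ?_))
  rw [div_eq_mul_one_div]
  exact fvex_mono (fvex_mul (fvex_mul (fvex_nat (hw i)) (fvex_sub hy (fvex_t hG hk i)))
    (fvex_inv p hL hx (mem_range.1 hi))) (by linarith)

theorem fvex_on (w : ℕ → ℚ) (c₀ : ℚ) (K k : ℕ) {Y : ℚ} (hY : ∀ i : ℕ, Y ≠ (12 * i + 6) ^ 2) :
    NN K Y * ((c₀ + ∑ i ∈ range K, w i / (Y - (12 * i + 6) ^ 2)) * NN k Y - (c₀ * NN k Y
      + ∑ i ∈ range K, w i * (NN k Y - NN k ((12 * i + 6) ^ 2)) / (Y - (12 * i + 6) ^ 2)))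
      = ∑ j ∈ range K, (∏ i ∈ Ico (j + 1) K, (Y - (12 * i + 6) ^ 2))
        * ∑ i ∈ range K, w i * NN k ((12 * i + 6) ^ 2) * NN j ((12 * i + 6) ^ 2) := by
  have h0 : ∀ j, NN j Y ≠ 0 := fun j => prod_ne_zero_iff.2 fun i _ => sub_ne_zero.2 (hY i)
  have e1 : (c₀ + ∑ i ∈ range K, w i / (Y - (12 * i + 6) ^ 2)) * NN k Y - (c₀ * NN k Y
      + ∑ i ∈ range K, w i * (NN k Y - NN k ((12 * i + 6) ^ 2)) / (Y - (12 * i + 6) ^ 2))
      = ∑ i ∈ range K, w i * NN k ((12 * i + 6) ^ 2) * (1 / (Y - (12 * i + 6) ^ 2)) := by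
    rw [add_mul, add_sub_add_left_eq_sub, sum_mul, ← sum_sub_distrib]
    exact sum_congr rfl fun i _ => by ring
  rw [e1, sum_congr rfl fun i hi => by rw [inv_expand (mem_range.1 hi) (h0 K), mul_sum],
    sum_comm, mul_sum]
  refine sum_congr rfl fun j hj => ?_
  have e2 : NN K Y = NN (j + 1) Y * ∏ i ∈ Ico (j + 1) K, (Y - (12 * i + 6) ^ 2) :=
    (prod_range_mul_prod_Ico _ (mem_range.1 hj)).symm
  rw [e2, mul_sum, mul_sum]
  refine sum_congr rfl fun i _ => ?_
  have := h0 (j + 1)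
  field_simp

/-- integer polynomials with roots at the poles -/
noncomputable def fvexA (s : Finset ℕ) : ℤ[X] := ∏ i ∈ s, (X - C ((12 * (i : ℤ) + 6) ^ 2 - 4))

theorem fvex_A (s : Finset ℕ) (x : Nd) :
    (((fvexA s).eval (zz x) : ℤ) : ℚ) = ∏ i ∈ s, ((yy x : ℚ) ^ 2 - (12 * i + 6) ^ 2) := by
  unfold fvexA zz
  rw [eval_prod]
  push_cast
  refine prod_congr rfl fun i _ => ?_
  rw [eval_sub, eval_X, eval_C]
  push_cast
  ring

theorem fvex_col {m : ℕ} (x : Col m → Nd) (g : Col m → ℚ) (w : ℕ → ℚ) (c₀ : ℚ) (K : ℕ) :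
    DG m (fun r => (zz (x r) : ℚ)) g = Matrix.det (Matrix.of fun r => Sum.elim
      (fun k : Fin m => NN k ((yy (x r) : ℚ) ^ 2))
      (fun k : Fin m => g r * NN k ((yy (x r) : ℚ) ^ 2) - (c₀ * NN k ((yy (x r) : ℚ) ^ 2)
        + ∑ i ∈ range K, w i * (NN k ((yy (x r) : ℚ) ^ 2) - NN k ((12 * i + 6) ^ 2))
          / ((yy (x r) : ℚ) ^ 2 - (12 * i + 6) ^ 2)))) := by
  choose B hB hB' using fun k : Fin m => poly_part w c₀ K k
  have hz : ∀ r, (zz (x r) : ℚ) = (yy (x r) : ℚ) ^ 2 - 4 := fun r => by simp [zz]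
  have hA : ∀ (k : ℕ) r, (∏ i ∈ range k, (X - C ((12 * (i : ℚ) + 6) ^ 2 - 4))).eval (zz (x r) : ℚ)
      = NN k ((yy (x r) : ℚ) ^ 2) := fun k r => by
    rw [eval_prod, NN]
    refine prod_congr rfl fun i _ => ?_
    rw [eval_sub, eval_X, eval_C, hz]
    ring
  rw [col_ops _ g (fun k => ∏ i ∈ range k, (X - C ((12 * (i : ℚ) + 6) ^ 2 - 4))) B
    (fun k => monic_prod_X_sub_C _ _) (fun k => by rw [natDegree_finsetProd_X_sub_C_eq_card, card_range])
    (fun k => (hB k).trans_le (by exact_mod_cast k.2))]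
  congr 1
  ext r c
  rcases c with k | k
  · exact hA k r
  · simp only [Matrix.of_apply, Sum.elim_inr]
    rw [hA, hz, hB' k _ (fvex_ne _)]

theorem rate_exact {n m : ℕ} {x : Col m → Nd} (h : Sel n m x) {p ρ σ : ℕ} {e : Bool}
    (hG : Gd p e ρ σ) (w : ℕ → ℚ) (c₀ : ℚ) {K E L : ℕ} (hL : 12 * n + 12 * K < p ^ (L + 1))
    (hw : ∀ i, padicNorm p (w i) ≤ (p : ℚ) ^ E) (hc : padicNorm p c₀ ≤ (p : ℚ) ^ E)
    (g : Col m → ℚ) (hN : ∀ r ∉ chn x e, padicNorm p (g r) ≤ (p : ℚ) ^ E)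
    (hg : ∀ r ∈ chn x e, g r = c₀ + TW w K (yy (x r)))
    (hD : DG m (fun r => (zz (x r) : ℚ)) g ≠ 0) {k : ℕ} (hk : (chn x e).card = k) :
    ρ * (2 * (m : ℤ) * (m - 1) - 2 * (m - 1) * k + k * (k - 1)) - 4 * m * (E + 3 * L + 8)
      + padicValInt p (WW (fun r => zz (x r)) (chn x e))
      ≤ 2 * padicValRat p (DG m (fun r => (zz (x r) : ℚ)) g) := by
  have hp : p = 2 ∨ p = 3 := hG.imp (·.1) (·.1)
  haveI : Fact p.Prime := by
    rcases hp with rfl | rfl
    · exact Nat.fact_prime_two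
    · exact Nat.fact_prime_three
  have hρ : (ρ : ℤ) ≤ 6 := by
    rcases hG with ⟨-, -, rfl, -⟩ | ⟨-, -, rfl, -⟩ <;> norm_num
  have hm := h.hm
  have hL0 : (0 : ℤ) ≤ L := Int.natCast_nonneg L
  have hE0 : (0 : ℤ) ≤ E := Int.natCast_nonneg E
  have hmem : ∀ r, r ∈ chn x e ↔ (x r).1 = e := fun r => by simp [chn]
  have hkL : ∀ j : Fin m, 2 * (j : ℕ) < p ^ (L + 1) := fun j => by have := j.2; omega
  have pz : ∀ N : ℤ, (p : ℚ) ^ N ≠ 0 := fun N => (zpow_pos (fvex_pos p) N).ne'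
  obtain ⟨Λ, hΛ⟩ : ∃ Λ : ℤ, Λ = E + 3 * L + 8 := ⟨_, rfl⟩
  obtain ⟨M0, hM0⟩ : ∃ M0 : Matrix (Col m) (Col m) ℚ, M0 = Matrix.of fun r => Sum.elim
      (fun k : Fin m => NN k ((yy (x r) : ℚ) ^ 2))
      (fun k : Fin m => g r * NN k ((yy (x r) : ℚ) ^ 2) - (c₀ * NN k ((yy (x r) : ℚ) ^ 2)
        + ∑ i ∈ range K, w i * (NN k ((yy (x r) : ℚ) ^ 2) - NN k ((12 * i + 6) ^ 2))
          / ((yy (x r) : ℚ) ^ 2 - (12 * i + 6) ^ 2))) := ⟨_, rfl⟩
  have hdet : DG m (fun r => (zz (x r) : ℚ)) g = M0.det := by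
    rw [hM0]
    exact fvex_col x g w c₀ K
  let s : Col m → ℚ := fun r => if r ∈ chn x e then
    (p : ℚ) ^ (ρ * ((m : ℤ) - 1) + Λ) * NN K ((yy (x r) : ℚ) ^ 2) else (p : ℚ) ^ Λ
  let t : Col m → ℚ := Sum.elim (fun j => (p : ℚ) ^ (-(ρ * ((j : ℕ) : ℤ))))
    (fun j => (p : ℚ) ^ (-(ρ * ((j : ℕ) : ℤ))))
  let P : ℕ → ℤ[X] := fun j => if j < m then fvexA (range (m - 1 - j)) * fvexA (range K)
    else fvexA (Ico (j - m + 1) K)
  let a : ℕ → Col m → ℚ := fun j => Sum.elim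
    (fun k => if j = m - 1 - k then
      (p : ℚ) ^ (ρ * ((m : ℤ) - 1) + Λ) * (p : ℚ) ^ (-(ρ * ((k : ℕ) : ℤ))) else 0)
    (fun k => if j < m then 0 else
      (p : ℚ) ^ (ρ * ((m : ℤ) - 1) + Λ) * (p : ℚ) ^ (-(ρ * ((k : ℕ) : ℤ)))
        * ∑ i ∈ range K, w i * NN k ((12 * i + 6) ^ 2) * NN (j - m) ((12 * i + 6) ^ 2))
  have e1 : (Matrix.of fun r c => s r * (t c * M0 r c)).det
      = (∏ r, s r) * ((∏ c, t c) * DG m (fun r => (zz (x r) : ℚ)) g) := by
    rw [hdet, ← Matrix.det_mul_row, ← Matrix.det_mul_column]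
    rfl
  have sv : ∀ r, s r ≠ 0 ∧ padicValRat p (s r)
      = Λ + if r ∈ chn x e then ρ * ((m : ℤ) - 1) else 0 := fun r => by
    by_cases hr : r ∈ chn x e
    · have n1 := fvex_NN0 (x r) K
      have n2 : padicValRat p (NN K ((yy (x r) : ℚ) ^ 2)) = 0 := by
        have u := good_unit hG (x r).2 0
        rw [← (hmem r).1 hr, mul_zero, add_zero] at u
        have := NN_good hp u K
        rw [padicNorm.eq_zpow_of_nonzero n1, zpow_eq_one_iff_right₀ (fvex_pos p).le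
          (by exact_mod_cast (Fact.out : p.Prime).ne_one)] at this
        omega
      simp only [s, hr, if_true]
      refine ⟨mul_ne_zero (pz _) n1, ?_⟩
      rw [padicValRat.mul (pz _) n1, fvex_val, n2]
      ring
    · simp only [s, hr, if_false]
      exact ⟨pz _, by rw [fvex_val, add_zero]⟩
  have tv : ∀ c, t c ≠ 0 := fun c => by rcases c with j | j <;> exact pz _
  have v1 : padicValRat p (∏ r, s r) = 2 * m * Λ + ρ * ((m : ℤ) - 1) * k := by
    rw [val_prod p _ _ fun r _ => (sv r).1, sum_congr rfl fun r _ => (sv r).2, sum_add_distrib,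
      sum_ite_mem, univ_inter, sum_const, sum_const, hk]
    simp only [card_univ, Fintype.card_sum, Fintype.card_fin, nsmul_eq_mul]
    push_cast
    ring
  have v2 : padicValRat p (∏ c, t c) = -(ρ * (m : ℤ) * (m - 1)) := by
    have a2 : ∀ M : ℕ, 2 * ∑ j ∈ range M, -(ρ * (j : ℤ)) = -(ρ * (M : ℤ) * (M - 1)) := fun M => by
      induction M with
      | zero => simp
      | succ M ih => rw [sum_range_succ, mul_add, ih]; push_cast; ring
    rw [val_prod p _ _ fun c _ => tv c, Fintype.sum_sum_type]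
    simp only [t, Sum.elim_inl, Sum.elim_inr, fvex_val]
    rw [Fin.sum_univ_eq_sum_range (fun j => -(ρ * (j : ℤ))) m, ← two_mul, a2]
  have s0 : ∏ r, s r ≠ 0 := prod_ne_zero_iff.2 fun r _ => (sv r).1
  have t0 : ∏ c, t c ≠ 0 := prod_ne_zero_iff.2 fun c _ => tv c
  have ha : ∀ j < m + K, ∀ c, padicNorm p (a j c) ≤ 1 / (p : ℚ) ^ (ρ * j) := by
    intro j hj c
    rcases c with l | l
    · simp only [a, Sum.elim_inl]
      split_ifs with hjl
      · refine fvex_div (fvex_mul (fvex_pow _) (fvex_pow _)) ?_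
        have e2 : (j : ℤ) = m - 1 - (l : ℕ) := by have := l.2; omega
        push_cast
        rw [e2]
        linarith
      · exact fvex_div (N := -((ρ * j : ℕ) : ℤ)) fvex_zero le_rfl
    · simp only [a, Sum.elim_inr]
      split_ifs with hjm
      · exact fvex_div (N := -((ρ * j : ℕ) : ℤ)) fvex_zero le_rfl
      · refine fvex_div (fvex_mul (fvex_mul (fvex_pow _) (fvex_pow _)) (fvex_sum _ _ fun i _ =>
          fvex_mul (fvex_mul (fvex_nat (hw i)) (fvex_t hG (hkL l) i))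
            (fvex_t hG (k := j - m) (L := L) (by omega) i))) ?_
        have e2 : ((j - m : ℕ) : ℤ) = j - m := by omega
        rw [e2]
        push_cast
        linarith
  have hon : ∀ r ∈ chn x e, ∀ c, (Matrix.of fun r c => s r * (t c * M0 r c)) r c
      = ∑ j ∈ range (m + K), (((P j).eval (zz (x r)) : ℤ) : ℚ) * a j c := by
    intro r hr c
    rw [sum_range_add]
    rcases c with l | l
    · have hl := l.2
      rw [sum_eq_single (m - 1 - l) (fun j _ hj => by simp only [a, Sum.elim_inl, if_neg hj, mul_zero])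
        (fun hj => absurd (mem_range.2 (by omega)) hj), sum_eq_zero fun j _ => by
          simp only [a, Sum.elim_inl, if_neg (show m + j ≠ m - 1 - l by omega), mul_zero]]
      simp only [hM0, a, P, s, t, Matrix.of_apply, Sum.elim_inl, hr, if_true,
        if_pos (show m - 1 - l < m by omega), show m - 1 - (m - 1 - l) = l by omega, eval_mul,
        Int.cast_mul, fvex_A, NN]
      ring
    · rw [sum_eq_zero fun j hj => by
        simp only [a, Sum.elim_inr, if_pos (mem_range.1 hj), mul_zero], zero_add]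
      have e3 := fvex_on w c₀ K l (fvex_ne (x r))
      have e4 : ∀ j ∈ range K, (((P (m + j)).eval (zz (x r)) : ℤ) : ℚ) * a (m + j) (.inr l)
          = (p : ℚ) ^ (ρ * ((m : ℤ) - 1) + Λ) * (p : ℚ) ^ (-(ρ * ((l : ℕ) : ℤ)))
            * ((∏ i ∈ Ico (j + 1) K, ((yy (x r) : ℚ) ^ 2 - (12 * i + 6) ^ 2))
              * ∑ i ∈ range K, w i * NN l ((12 * i + 6) ^ 2) * NN j ((12 * i + 6) ^ 2)) := by
        intro j _
        simp only [a, P, Sum.elim_inr, if_neg (show ¬ m + j < m by omega), Nat.add_sub_cancel_left,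
          fvex_A]
        ring
      rw [sum_congr rfl e4, ← mul_sum, ← e3]
      simp only [hM0, s, t, Matrix.of_apply, Sum.elim_inr, hr, if_true, hg r hr, TW]
      ring
  have hoff : ∀ r ∉ chn x e, ∀ c,
      padicNorm p ((Matrix.of fun r c => s r * (t c * M0 r c)) r c) ≤ 1 := by
    intro r hr c
    have he : (x r).1 ≠ e := fun h' => hr ((hmem r).2 h')
    rcases c with l | l
    · simp only [hM0, s, t, Matrix.of_apply, Sum.elim_inl, hr, if_false]
      exact fvex_one (fvex_mul (fvex_pow _) (fvex_mul (fvex_pow _) (fvex_y hG (hkL l) he)))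
        (by linarith)
    · simp only [hM0, s, t, Matrix.of_apply, Sum.elim_inr, hr, if_false]
      exact fvex_one (fvex_mul (fvex_pow _) (fvex_mul (fvex_pow _)
        (fvex_off hG hL (hkL l) (h.mem r) he hw hc (hN r hr)))) (by linarith)
  have fin := rate_det p (chn x e) h.zinj (m + K) ρ P a _ ha hon hoff
    (by rw [e1]; exact mul_ne_zero s0 (mul_ne_zero t0 hD))
  rw [e1, padicValRat.mul s0 (mul_ne_zero t0 hD), padicValRat.mul t0 hD, v1, v2, hk, hΛ] at fin
  linarith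

end Pool.Agent.FMZ
end

-- part Pool.Agent.P.MP_cb43af_nt.FzTwoA
section

open Finset Filter Polynomial
namespace Pool.Agent.FMZ

variable {n m : ℕ} {x : Col m → Nd}

theorem fztwoa_W {ι : Type} [DecidableEq ι] {u : ι → ℤ} (hu : Function.Injective u) (S : Finset ι) :
    padicValInt 2 (WW u S) = ∑ i ∈ S, ∑ j ∈ S.erase i, padicValInt 2 (u i - u j) := by
  have h1 : ∀ i, ∀ j ∈ S.erase i, u i - u j ≠ 0 := fun i j hj =>
    sub_ne_zero.2 fun e => (mem_erase.1 hj).1 (hu e).symm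
  rw [WW, valInt_prod 2 _ _ fun i _ => prod_ne_zero_iff.2 (h1 i)]
  exact sum_congr rfl fun i _ => valInt_prod 2 _ _ (h1 i)

theorem fztwoa_odd {a b : Nd} (h : a.1 ≠ b.1) : padicValInt 2 (zz a - zz b) = 0 := by
  apply padicValInt.eq_zero_of_not_dvd
  obtain ⟨e, i⟩ := a
  obtain ⟨e', j⟩ := b
  have k1 : ∀ i : ℤ, ∃ c, zz (false, i) = 2 * c := fun i =>
    ⟨72 * i ^ 2 + 24 * i, by simp [zz, yy]; ring⟩
  have k2 : ∀ i : ℤ, ∃ c, zz (true, i) = 2 * c + 1 := fun i =>
    ⟨72 * i ^ 2 + 36 * i + 2, by simp [zz, yy]; ring⟩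
  cases e <;> cases e'
  · exact absurd rfl h
  · obtain ⟨c, hc⟩ := k1 i
    obtain ⟨d, hd⟩ := k2 j
    rw [hc, hd]; push_cast; omega
  · obtain ⟨c, hc⟩ := k2 i
    obtain ⟨d, hd⟩ := k1 j
    rw [hc, hd]; push_cast; omega
  · exact absurd rfl h

theorem fztwoa_half (_h : Sel n m x) (e : Bool) :
    ∑ i ∈ univ.filter (fun r => (x r).1 = e), ∑ j ∈ univ.erase i,
      padicValInt 2 (zz (x i) - zz (x j)) =
    ∑ i ∈ univ.filter (fun r => (x r).1 = e), ∑ j ∈ (univ.filter fun r => (x r).1 = e).erase i,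
      padicValInt 2 (zz (x i) - zz (x j)) := by
  refine sum_congr rfl fun i hi => (sum_subset (erase_subset_erase _ (subset_univ _)) ?_).symm
  intro j hj hn
  apply fztwoa_odd
  intro k
  exact hn (mem_erase.2 ⟨(mem_erase.1 hj).1, mem_filter.2 ⟨mem_univ _, k ▸ (mem_filter.1 hi).2⟩⟩)

theorem fztwoa_inj (h : Sel n m x) (e : Bool) :
    Set.InjOn (fun r => (x r).2) (univ.filter (fun r => (x r).1 = e) : Finset (Col m)) := by
  intro r hr s hs hrs
  have h1 := (mem_filter.1 (mem_coe.1 hr)).2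
  have h2 := (mem_filter.1 (mem_coe.1 hs)).2
  exact h.inj (Prod.ext (h1.trans h2.symm) hrs)

theorem fztwoa_mem (h : Sel n m x) (r : Col m) : (x r).2 ∈ Ico (-(n : ℤ)) n :=
  mem_Ico.2 (mem_nodes.1 (h.mem r))

theorem fztwoa_card (h : Sel n m x) (e : Bool) :
    (univ.filter fun r => (x r).1 = e).card ≤ 2 * n := by
  have := card_le_card_of_injOn (t := Ico (-(n : ℤ)) n) (fun r => (x r).2)
    (fun r _ => mem_coe.2 (fztwoa_mem h r)) (fztwoa_inj h e)
  rw [Int.card_Ico] at this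
  omega

theorem fztwoa_geom (N L : ℕ) : ∑ k ∈ Icc 1 L, N / 2 ^ k + N / 2 ^ L ≤ N := by
  induction L with
  | zero => simp
  | succ L ih =>
    rw [sum_Icc_succ_top (by omega), pow_succ, ← Nat.div_div_eq_div_mul]
    omega

theorem fztwoa_cnt (s : ℤ) (hs : Odd s) (t : ℤ) (n k : ℕ) :
    ((Ico (-(n : ℤ)) n).filter fun i => (2 : ℤ) ^ k ∣ s * i + t).card ≤ 2 * n / 2 ^ k + 1 := by
  have hd : (0 : ℤ) < 2 ^ k := by positivity
  have hco : IsCoprime ((2 : ℤ) ^ k) s := by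
    apply IsCoprime.pow_left
    obtain ⟨c, rfl⟩ := hs
    exact ⟨-c, 1, by ring⟩
  rw [← card_range (2 * n / 2 ^ k + 1)]
  refine card_le_card_of_injOn (fun i => (i + n).toNat / 2 ^ k) ?_ ?_
  · intro i hi
    have := mem_Ico.1 (mem_filter.1 (mem_coe.1 hi)).1
    refine mem_coe.2 (mem_range.2 (Nat.lt_succ_of_le (Nat.div_le_div_right ?_)))
    omega
  · intro i hi j hj hij
    obtain ⟨hi1, hi2⟩ := mem_filter.1 (mem_coe.1 hi)
    obtain ⟨hj1, hj2⟩ := mem_filter.1 (mem_coe.1 hj)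
    have a1 := mem_Ico.1 hi1
    have a2 := mem_Ico.1 hj1
    have h1 : (2 : ℤ) ^ k ∣ i - j := by
      apply hco.dvd_of_dvd_mul_left
      have := dvd_sub hi2 hj2
      rwa [show s * i + t - (s * j + t) = s * (i - j) by ring] at this
    have h2 : (i + n).toNat ≡ (j + n).toNat [MOD 2 ^ k] := by
      rw [Nat.modEq_iff_dvd, Int.toNat_of_nonneg (by omega), Int.toNat_of_nonneg (by omega)]
      push_cast
      rw [show j + n - (i + n) = -(i - j) by ring]
      exact h1.neg_right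
    have h3 : (i + n).toNat = (j + n).toNat := by
      rw [← Nat.div_add_mod (i + n).toNat (2 ^ k), ← Nat.div_add_mod (j + n).toNat (2 ^ k)]
      have hij' : (i + n).toNat / 2 ^ k = (j + n).toNat / 2 ^ k := hij
      rw [hij', h2]
    omega

theorem fztwoa_le {z : ℤ} {L : ℕ} (h : |z| < 2 ^ (L + 1)) :
    padicValInt 2 z ≤ ((Icc 1 L).filter fun k => (2 : ℤ) ^ k ∣ z).card := by
  by_cases hz : z = 0
  · simp [hz]
  have hv : padicValInt 2 z ≤ L := by
    by_contra hc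
    have : ((2 : ℕ) : ℤ) ^ (L + 1) ∣ z := (padicValInt_dvd_iff _ _).2 (Or.inr (by omega))
    have := Int.le_of_dvd (abs_pos.2 hz) ((dvd_abs _ _).2 this)
    push_cast at this
    omega
  calc padicValInt 2 z = (Icc 1 (padicValInt 2 z)).card := by simp
    _ ≤ _ := by
      refine card_le_card fun k hk => mem_filter.2 ⟨?_, ?_⟩
      · have := mem_Icc.1 hk
        exact mem_Icc.2 ⟨this.1, by omega⟩
      · have : ((2 : ℕ) : ℤ) ^ k ∣ z := (padicValInt_dvd_iff _ _).2 (Or.inr (mem_Icc.1 hk).2)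
        exact_mod_cast this

theorem two_split (h : Sel n m x) : padicValInt 2 (WW (fun r => zz (x r)) univ)
    = padicValInt 2 (WW (fun r => zz (x r)) (univ.filter fun r => (x r).1 = false))
      + padicValInt 2 (WW (fun r => zz (x r)) (univ.filter fun r => (x r).1 = true)) := by
  rw [fztwoa_W h.zinj, fztwoa_W h.zinj, fztwoa_W h.zinj, ← fztwoa_half h, ← fztwoa_half h,
    ← sum_filter_add_sum_filter_not univ (fun r => (x r).1 = false)]
  simp

theorem two_B (h : Sel n m x) {k : ℕ} (hk : (univ.filter fun r => (x r).1 = true).card = k) :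
    3 * (k * (k - 1)) ≤
      padicValInt 2 (WW (fun r => zz (x r)) (univ.filter fun r => (x r).1 = true)) := by
  rw [fztwoa_W h.zinj]
  calc 3 * (k * (k - 1)) = ∑ i ∈ univ.filter (fun r => (x r).1 = true),
        ∑ j ∈ (univ.filter fun r => (x r).1 = true).erase i, 3 := by
        rw [sum_congr rfl fun i hi => by rw [sum_const, card_erase_of_mem hi], sum_const, hk]
        simp only [smul_eq_mul]
        ring
    _ ≤ _ := by
        refine sum_le_sum fun i hi => sum_le_sum fun j hj => ?_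
        have hne : zz (x i) - zz (x j) ≠ 0 :=
          sub_ne_zero.2 fun e => (mem_erase.1 hj).1 (h.zinj e).symm
        have h1 := (mem_filter.1 hi).2
        have h2 := (mem_filter.1 (mem_erase.1 hj).2).2
        have : ((2 : ℕ) : ℤ) ^ 3 ∣ zz (x i) - zz (x j) :=
          ⟨9 * ((x i).2 - (x j).2) * (2 * ((x i).2 + (x j).2) + 1), by
            simp only [zz, yy, h1, h2, if_true]; push_cast; ring⟩
        exact ((padicValInt_dvd_iff _ _).1 this).resolve_left hne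

theorem two_card (h : Sel n m x) : 2 * n ≤ (univ.filter fun r => (x r).1 = true).card + 2 ∧
    (univ.filter fun r => (x r).1 = true).card ≤ 2 * n := by
  refine ⟨?_, fztwoa_card h true⟩
  have h1 := fztwoa_card h false
  have h2 := card_filter_add_card_filter_not (s := (univ : Finset (Col m))) (fun r => (x r).1 = true)
  have h3 : (univ : Finset (Col m)).card = m + m := by simp
  have h4 := h.hm
  simp only [Bool.not_eq_true] at h2
  omega

theorem ap_val (s : ℤ) (hs : Odd s) (t : ℤ) (n L : ℕ)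
    (hL : ∀ i ∈ Ico (-(n : ℤ)) n, |s * i + t| < 2 ^ (L + 1)) :
    ∑ i ∈ Ico (-(n : ℤ)) n, padicValInt 2 (s * i + t) ≤ 2 * n + L := by
  calc _ ≤ ∑ i ∈ Ico (-(n : ℤ)) n, ((Icc 1 L).filter fun k => (2 : ℤ) ^ k ∣ s * i + t).card :=
        sum_le_sum fun i hi => fztwoa_le (hL i hi)
    _ = ∑ k ∈ Icc 1 L, ((Ico (-(n : ℤ)) n).filter fun i => (2 : ℤ) ^ k ∣ s * i + t).card := by
        simp only [card_filter]
        exact sum_comm
    _ ≤ ∑ k ∈ Icc 1 L, (2 * n / 2 ^ k + 1) := sum_le_sum fun k _ => fztwoa_cnt s hs t n k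
    _ ≤ _ := by
        rw [sum_add_distrib]
        have := le_trans (Nat.le_add_right _ _) (fztwoa_geom (2 * n) L)
        simp only [sum_const, Nat.card_Icc, smul_eq_mul]
        omega

theorem two_A (h : Sel n m x) {L : ℕ} (hL : 6 * n ≤ 2 ^ (L + 1)) :
    padicValInt 2 (WW (fun r => zz (x r)) (univ.filter fun r => (x r).1 = false))
      ≤ 2 * n * (12 * n + 2 * L) := by
  rw [fztwoa_W h.zinj]
  have hL' : 6 * (n : ℤ) ≤ 2 ^ (L + 1) := by exact_mod_cast hL
  have key : ∀ i ∈ univ.filter (fun r => (x r).1 = false),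
      ∑ j ∈ (univ.filter fun r => (x r).1 = false).erase i, padicValInt 2 (zz (x i) - zz (x j))
        ≤ 12 * n + 2 * L := by
    intro i hi
    have h1 := (mem_filter.1 hi).2
    have mi := mem_Ico.1 (fztwoa_mem h i)
    have e : ∀ j ∈ (univ.filter fun r => (x r).1 = false).erase i,
        padicValInt 2 (zz (x i) - zz (x j)) = (fun c : ℤ => 4 + padicValInt 2 (-1 * c + (x i).2) +
          padicValInt 2 (3 * c + (3 * (x i).2 + 1))) (x j).2 := by
      intro j hj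
      have h2 := (mem_filter.1 (mem_erase.1 hj).2).2
      have hne : -1 * (x j).2 + (x i).2 ≠ 0 := fun k =>
        (mem_erase.1 hj).1 (h.inj (Prod.ext (h2.trans h1.symm) (by omega)))
      have hne2 : 3 * (x j).2 + (3 * (x i).2 + 1) ≠ 0 := by omega
      have e1 : zz (x i) - zz (x j) =
          48 * (-1 * (x j).2 + (x i).2) * (3 * (x j).2 + (3 * (x i).2 + 1)) := by
        simp only [zz, yy, h1, h2, Bool.false_eq_true, if_false]; ring
      have e2 : padicValInt 2 48 = 4 := by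
        rw [show (48 : ℤ) = ((2 ^ 4 * 3 : ℕ) : ℤ) by norm_num, padicValInt.of_nat,
          padicValNat.mul (by norm_num) (by norm_num), padicValNat.prime_pow,
          padicValNat.eq_zero_of_not_dvd (by norm_num)]
      rw [e1, padicValInt.mul (mul_ne_zero (by norm_num) hne) hne2,
        padicValInt.mul (by norm_num) hne, e2]
    rw [sum_congr rfl e, ← sum_image (s := (univ.filter fun r => (x r).1 = false).erase i)
      (g := fun r => (x r).2) (f := fun c : ℤ => 4 + padicValInt 2 (-1 * c + (x i).2) +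
          padicValInt 2 (3 * c + (3 * (x i).2 + 1)))
      ((fztwoa_inj h false).mono (coe_subset.2 (erase_subset _ _)))]
    have hsub : ((univ.filter fun r => (x r).1 = false).erase i).image (fun r => (x r).2) ⊆
        Ico (-(n : ℤ)) n := image_subset_iff.2 fun r _ => fztwoa_mem h r
    refine (sum_le_sum_of_subset hsub).trans ?_
    have a1 := ap_val (-1) (by decide) (x i).2 n L fun c hc => by
      have := mem_Ico.1 hc
      rw [abs_lt]; constructor <;> omega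
    have a2 := ap_val 3 (by decide) (3 * (x i).2 + 1) n L fun c hc => by
      have := mem_Ico.1 hc
      rw [abs_lt]; constructor <;> omega
    rw [sum_add_distrib, sum_add_distrib, sum_const, Int.card_Ico, smul_eq_mul]
    omega
  refine (sum_le_sum key).trans ?_
  rw [sum_const, smul_eq_mul]
  exact Nat.mul_le_mul_right _ (fztwoa_card h false)


end Pool.Agent.FMZ
end

-- part Pool.Agent.P.MP_cb43af_nt.FvWb
section

open Finset Filter Polynomial Topology
namespace Pool.Agent.FMZ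

variable {n m : ℕ} {x : Col m → Nd}

theorem fvwb_sf (p : ℕ) [Fact p.Prime] {L : ℕ} (N : ℕ) (h : N < p ^ (L + 1)) :
    (N + 1) * N ≤ (p - 1) * (2 * padicValNat p N.superFactorial + 2 * N * (L + 1)) := by
  induction N with
  | zero => simp
  | succ N ih =>
    have h1 := ih (by omega)
    have h2 := fact_val p h
    have h3 : N.superFactorial ≠ 0 := by
      rw [← Nat.prod_range_succ_factorial]
      exact prod_ne_zero_iff.2 fun i _ => Nat.factorial_ne_zero _
    rw [Nat.superFactorial_succ, padicValNat.mul (Nat.factorial_ne_zero _) h3]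
    nlinarith [h1, h2]

theorem ww_low {ι : Type} [DecidableEq ι] (p : ℕ) [Fact p.Prime] {u : ι → ℤ} (S : Finset ι)
    (hu : Set.InjOn u S) {L : ℕ} (hL : S.card ≤ p ^ (L + 1)) :
    S.card * (S.card - 1) ≤ (p - 1) * (padicValInt p (WW u S) + 2 * S.card * (L + 1)) := by
  rcases hk : S.card with _ | N
  · simp
  obtain ⟨e, he, hS⟩ := fzcau_enum hk
  have hm : ∀ i, e i ∈ S := fun i => hS ▸ mem_image_of_mem _ (mem_univ _)
  have h1 := fzcau_WW u he
  rw [hS] at h1
  have h2 : (Matrix.vandermonde fun i => u (e i)).det ≠ 0 :=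
    Matrix.det_vandermonde_ne_zero_iff.2 fun i j h => he (hu (hm i) (hm j) h)
  have h3 : WW u S ≠ 0 := by
    rw [← abs_ne_zero, h1]
    exact pow_ne_zero _ (abs_ne_zero.2 h2)
  have h4 : (p : ℤ) ^ padicValNat p N.superFactorial ∣ (Matrix.vandermonde fun i => u (e i)).det :=
    dvd_trans (by exact_mod_cast pow_padicValNat_dvd)
      (Matrix.superFactorial_dvd_vandermonde_det fun i => u (e i))
  have h5 : (p : ℤ) ^ (2 * padicValNat p N.superFactorial) ∣ WW u S := by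
    rw [← dvd_abs, h1, sq_abs, mul_comm, pow_mul]
    exact pow_dvd_pow_of_dvd h4 2
  have h6 := ((padicValInt_dvd_iff _ _).1 h5).resolve_left h3
  refine (fvwb_sf p (L := L) N (by omega)).trans (Nat.mul_le_mul_left _ ?_)
  have : 2 * N * (L + 1) ≤ 2 * (N + 1) * (L + 1) := Nat.mul_le_mul_right _ (by omega)
  omega

theorem fvwb_cmp {ι : Type} [DecidableEq ι] (p : ℕ) [Fact p.Prime] {u z : ι → ℤ} (S : Finset ι)
    (hz : Function.Injective z) (a : ℕ)
    (h : ∀ i ∈ S, ∀ j ∈ S, (p : ℤ) ^ a * (u i - u j) ∣ z i - z j) :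
    a * (S.card * (S.card - 1)) + padicValInt p (WW u S) ≤ padicValInt p (WW z S) := by
  have h1 : ∏ i ∈ S, ∏ j ∈ S.erase i, ((p : ℤ) ^ a * (u i - u j)) ∣ WW z S :=
    prod_dvd_prod_of_dvd _ _ fun i hi => prod_dvd_prod_of_dvd _ _ fun j hj =>
      h i hi j (mem_of_mem_erase hj)
  have h2 : ∏ i ∈ S, ∏ j ∈ S.erase i, ((p : ℤ) ^ a * (u i - u j)) =
      (p : ℤ) ^ (a * (S.card * (S.card - 1))) * WW u S := by
    rw [prod_congr rfl fun i hi => by rw [prod_mul_distrib, prod_const, card_erase_of_mem hi],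
      prod_mul_distrib, prod_const, ← pow_mul, ← pow_mul, mul_comm (S.card - 1)]
    rfl
  rw [h2] at h1
  refine ((padicValInt_dvd_iff _ _).1 (dvd_trans ?_ h1)).resolve_left (WW_ne_zero hz S)
  rw [pow_add]
  exact mul_dvd_mul_left _ (padicValInt_dvd _)

theorem w_good (h : Sel n m x) {p ρ σ : ℕ} {e : Bool} (hG : Gd p e ρ σ) {L k : ℕ}
    (hk : (chn x e).card = k) (hL : 2 * n ≤ p ^ (L + 1)) :
    σ * (k * (k - 1)) ≤ 2 * padicValInt p (WW (fun r => zz (x r)) (chn x e)) + 4 * k * (L + 1) := by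
  have hc : (chn x e).card ≤ p ^ (L + 1) := (fztwoa_card h e).trans hL
  rcases hG with ⟨rfl, rfl, rfl, rfl⟩ | ⟨rfl, rfl, rfl, rfl⟩
  · have h1 := ww_low 2 (chn x true) (fztwoa_inj h true) hc
    have h2 := fvwb_cmp 2 (u := fun r => (x r).2) (chn x true) h.zinj 3 fun i hi j hj =>
      ⟨9 * (2 * ((x i).2 + (x j).2) + 1), by
        simp only [zz, yy, (mem_filter.1 hi).2, (mem_filter.1 hj).2, if_true]; push_cast; ring⟩
    rw [hk] at h1 h2
    have e : 4 * k * (L + 1) = 2 * (2 * k * (L + 1)) := by ring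
    omega
  · have h1 := ww_low 3 (chn x false) (fztwoa_inj h false) hc
    have h2 := fvwb_cmp 3 (u := fun r => (x r).2) (chn x false) h.zinj 1 fun i hi j hj =>
      ⟨16 * (3 * ((x i).2 + (x j).2) + 1), by
        simp only [zz, yy, (mem_filter.1 hi).2, (mem_filter.1 hj).2, Bool.false_eq_true, if_false]
        push_cast; ring⟩
    rw [hk] at h1 h2
    have e : 4 * k * (L + 1) = 2 * (2 * k * (L + 1)) := by ring
    omega

theorem fvwb_le (p : ℕ) [Fact p.Prime] {z : ℤ} {L : ℕ} (hz : z ≠ 0) (h : |z| < (p : ℤ) ^ (L + 1)) :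
    padicValInt p z ≤ L := by
  by_contra hc
  have h1 : (p : ℤ) ^ (L + 1) ∣ z := (padicValInt_dvd_iff _ _).2 (Or.inr (by omega))
  exact absurd (Int.le_of_dvd (abs_pos.2 hz) ((dvd_abs _ _).2 h1)) h.not_ge

theorem w_crude (h : Sel n m x) (p : ℕ) [Fact p.Prime] (e : Bool) {L : ℕ}
    (hL : 24 * n ≤ p ^ (L + 1)) :
    padicValInt p (WW (fun r => zz (x r)) (chn x e)) ≤ 8 * L * n ^ 2 := by
  have hL' : 24 * (n : ℤ) ≤ (p : ℤ) ^ (L + 1) := by exact_mod_cast hL
  have hc : (chn x e).card ≤ 2 * n := fztwoa_card h e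
  have h1 : ∀ i, ∀ j ∈ (chn x e).erase i, zz (x i) - zz (x j) ≠ 0 := fun i j hj =>
    sub_ne_zero.2 fun k => (mem_erase.1 hj).1 (h.zinj k).symm
  rw [WW, valInt_prod p _ _ fun i _ => prod_ne_zero_iff.2 (h1 i)]
  have key : ∀ i ∈ chn x e, padicValInt p (∏ j ∈ (chn x e).erase i, (zz (x i) - zz (x j))) ≤
      2 * n * (2 * L) := by
    intro i _
    rw [valInt_prod p _ _ (h1 i)]
    refine (sum_le_card_nsmul _ _ (2 * L) fun j hj => ?_).trans
      (Nat.mul_le_mul_right _ (card_erase_le.trans hc))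
    have h2 := h1 i j hj
    rw [zz_sub] at h2 ⊢
    have a1 := abs_lt.1 (yy_lt (h.mem i))
    have a2 := abs_lt.1 (yy_lt (h.mem j))
    have b1 := fvwb_le p (L := L) (left_ne_zero_of_mul h2) (abs_lt.2 ⟨by omega, by omega⟩)
    have b2 := fvwb_le p (L := L) (right_ne_zero_of_mul h2) (abs_lt.2 ⟨by omega, by omega⟩)
    rw [padicValInt.mul (left_ne_zero_of_mul h2) (right_ne_zero_of_mul h2)]
    omega
  refine (sum_le_card_nsmul _ _ _ key).trans ((Nat.mul_le_mul_right _ hc).trans (le_of_eq ?_))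
  ring

end Pool.Agent.FMZ
end

-- part Pool.Agent.P.MP_cb43af_nt.FvLim
section

open Finset Filter Polynomial Topology
namespace Pool.Agent.FMZ

theorem fvlim_prod (p : ℕ) [Fact p.Prime] {α : Type} (s : Finset α) (F : α → ℚ) {t : ℚ}
    (ht : 0 ≤ t) (h : ∀ i ∈ s, padicNorm p (F i) ≤ t) :
    padicNorm p (∏ i ∈ s, F i) ≤ t ^ s.card := by
  classical
  induction s using Finset.induction_on with
  | empty => simp
  | insert a s ha ih =>
    rw [prod_insert ha, padicNorm.mul, card_insert_of_notMem ha, pow_succ']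
    exact mul_le_mul (h a (mem_insert_self _ _)) (ih fun i hi => h i (mem_insert_of_mem hi))
      (padicNorm.nonneg _) ht

theorem fvlim_det (p : ℕ) [Fact p.Prime] {ι : Type} [Fintype ι] [DecidableEq ι]
    (M : Matrix ι ι ℚ) {t : ℚ} (ht : 0 ≤ t)
    (h : ∀ i j, padicNorm p (M i j) ≤ t) : padicNorm p M.det ≤ t ^ Fintype.card ι := by
  rw [Matrix.det_apply']
  refine padicNorm.sum_le' (fun σ _ => ?_) (pow_nonneg ht _)
  rw [padicNorm.mul]
  exact (mul_le_of_le_one_left (padicNorm.nonneg _) (padicNorm.of_int _)).trans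
    (fvlim_prod p univ _ ht fun i _ => h _ _)

theorem fvlim_rowv (p : ℕ) [Fact p.Prime] {m : ℕ} (z : ℤ) {s u t : ℚ} (hs : padicNorm p s ≤ t)
    (hu : padicNorm p u ≤ t) (c : Col m) : padicNorm p (rowv m (z : ℚ) s u c) ≤ t := by
  have e : ∀ (v : ℚ) (k : ℕ), padicNorm p v ≤ t → padicNorm p (v * (z : ℚ) ^ k) ≤ t := by
    intro v k hv
    rw [padicNorm.mul, ← Int.cast_pow]
    exact (mul_le_of_le_one_right (padicNorm.nonneg _) (padicNorm.of_int _)).trans hv
  rcases c with k | k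
  · exact e s k hs
  · exact e u k hu

theorem fvlim_card {n m : ℕ} {x : Col m → Nd} (h : Sel n m x) (e : Bool) :
    (chn x e).card ≤ 2 * n := fztwoa_card h e

theorem fvlim_num {ρ n m k L K W : ℤ} (hρ0 : 0 ≤ ρ) (hρ : ρ ≤ 6) (hm : m + 1 = 2 * n)
    (hm1 : 1 ≤ m) (hk0 : 0 ≤ k) (hk : k ≤ 2 * n) (hL : 0 ≤ L)
    (hK : (18 + 4 * L) * n ^ 2 ≤ K) (hW : W ≤ 8 * L * n ^ 2) :
    ρ * (2 * m * (m - 1) - 2 * (m - 1) * k + k * (k - 1)) - 4 * m * (9 * L + 16) + W
      ≤ 2 * (2 * K - (2 * m + 1) * (6 * L + 8)) := by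
  have hn : 1 ≤ n := by omega
  have hQ : 2 * m * (m - 1) - 2 * (m - 1) * k + k * (k - 1) ≤ 12 * n ^ 2 := by
    have a1 : 0 ≤ (m - 1) * k := mul_nonneg (by omega) hk0
    have a2 : k * k ≤ (2 * n) * (2 * n) := mul_le_mul hk hk hk0 (by omega)
    have a3 : m * m ≤ (2 * n) * (2 * n) := mul_le_mul (by omega) (by omega) (by omega) (by omega)
    nlinarith
  have h1 : ρ * (2 * m * (m - 1) - 2 * (m - 1) * k + k * (k - 1)) ≤ ρ * (12 * n ^ 2) :=
    mul_le_mul_of_nonneg_left hQ hρ0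
  have h2 : ρ * (12 * n ^ 2) ≤ 6 * (12 * n ^ 2) :=
    mul_le_mul_of_nonneg_right hρ (by positivity)
  have h3 : 0 ≤ (m - 1) * L := mul_nonneg (by omega) hL
  have h4 : 0 ≤ L * n ^ 2 := by positivity
  nlinarith

theorem rate_lim {a b c : ℤ} {f : Nd → ℚ} (h : Ch5 a b c f) {n m : ℕ} {x : Col m → Nd}
    (hx : Sel n m x) (hD : DD m f x ≠ 0) {p ρ σ : ℕ} {e : Bool} (hG : Gd p e ρ σ) {K L : ℕ}
    (hL : 24 * n + 12 * K < p ^ (L + 1)) (hK : (18 + 4 * L) * n ^ 2 ≤ K) {k : ℕ}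
    (hk : (chn x e).card = k) :
    ρ * (2 * (m : ℤ) * (m - 1) - 2 * (m - 1) * k + k * (k - 1)) - 4 * m * (9 * L + 16)
      + padicValInt p (WW (fun r => zz (x r)) (chn x e)) ≤ 2 * padicValRat p (DD m f x) := by
  have hp : Fact p.Prime := by
    rcases hG with ⟨rfl, -, -, -⟩ | ⟨rfl, -, -, -⟩
    · exact Nat.fact_prime_two
    · exact Nat.fact_prime_three
  have hρ : ρ ≤ 6 := by
    rcases hG with ⟨-, -, rfl, -⟩ | ⟨-, -, rfl, -⟩ <;> omega
  have p1 : (1 : ℚ) < p := by exact_mod_cast hp.out.one_lt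
  have hm := hx.hm
  have hn : 1 ≤ n := by omega
  have hn2 : 1 ≤ n ^ 2 := Nat.one_le_pow _ _ hn
  have hK1 : 18 + 4 * L ≤ K := le_trans (Nat.le_mul_of_pos_right _ hn2) hK
  have hpos : 0 < padicNorm p (DD m f x) :=
    lt_of_le_of_ne (padicNorm.nonneg _) (padicNorm.nonzero hD).symm
  obtain ⟨w, c₀, hw, hc, hon, hap⟩ := ch_approx5 h hG (K := K) (L := L) (by omega)
  set t : ℚ := (p : ℚ) ^ (6 * L + 8) with ht
  set d : ℚ := (p : ℚ) ^ (6 * (L : ℤ) + 8 - 2 * K) with hdd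
  have t1 : (1 : ℚ) ≤ t := one_le_pow₀ p1.le
  have t5 : (p : ℚ) ^ (5 * L) ≤ t := pow_le_pow_right₀ p1.le (by omega)
  have d0 : 0 < d := zpow_pos (by linarith) _
  have d1 : d ≤ 1 := zpow_le_one_of_nonpos₀ p1.le (by omega)
  let g : Col m → ℚ := fun r =>
    if (x r).1 = e then c₀ + TW w K (yy (x r)) else f (x r)
  have hf : ∀ r, padicNorm p (f (x r)) ≤ t := fun r =>
    (ch_norm5 h p (L := L) (by omega) (hx.mem r)).trans t5
  have hg : ∀ r, padicNorm p (g r) ≤ t := fun r => by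
    simp only [g]
    split_ifs with he
    · have e' : x r = (e, (x r).2) := Prod.ext he rfl
      rw [e']
      exact hon _
    · exact hf r
  have hd : ∀ r, padicNorm p (f (x r) - g r) ≤ d := fun r => by
    simp only [g]
    split_ifs with he
    · have e' : x r = (e, (x r).2) := Prod.ext he rfl
      rw [e']
      exact hap _
    · simp [d0.le]
  have hE := det_expand (fun r => (zz (x r) : ℚ)) (fun r => f (x r)) g
  rw [← add_sum_erase _ _ (mem_univ ∅), prod_empty, one_mul, DS_empty] at hE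
  have hR : padicNorm p (∑ S ∈ univ.erase ∅, (∏ r ∈ S, (f (x r) - g r)) *
      DS m (fun r => (zz (x r) : ℚ)) g S) ≤ d * t ^ Fintype.card (Col m) := by
    refine padicNorm.sum_le' (fun S hS => ?_) (by positivity)
    rw [padicNorm.mul]
    refine mul_le_mul ((fvlim_prod p S _ d0.le fun r _ => hd r).trans
      (pow_le_of_le_one d0.le d1 (card_ne_zero.2
        (nonempty_iff_ne_empty.2 (ne_of_mem_erase hS))))) (fvlim_det p _ (by positivity)
        fun r c => ?_) (padicNorm.nonneg _) d0.le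
    simp only [Matrix.of_apply]
    split_ifs
    · exact fvlim_rowv p _ (by simpa using zero_le_one.trans t1) (by simpa using t1) c
    · exact fvlim_rowv p _ (by simpa using t1) (hg r) c
  have hU : d * t ^ Fintype.card (Col m)
      = (p : ℚ) ^ (-(2 * (K : ℤ) - (2 * m + 1) * (6 * L + 8))) := by
    have hc' : Fintype.card (Col m) = m + m := by simp
    rw [hc', ht, hdd, ← pow_mul, ← zpow_natCast, ← zpow_add₀ (by linarith)]
    congr 1
    push_cast
    ring
  have hmax := padicNorm.nonarchimedean (p := p) (q := DG m (fun r => (zz (x r) : ℚ)) g)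
    (r := ∑ S ∈ univ.erase ∅, (∏ r ∈ S, (f (x r) - g r)) * DS m (fun r => (zz (x r) : ℚ)) g S)
  rw [← hE] at hmax
  rcases le_max_iff.1 hmax with hle | hle
  · have hne : DG m (fun r => (zz (x r) : ℚ)) g ≠ 0 := fun e => by
      rw [e, padicNorm.zero] at hle
      exact absurd hpos (not_lt.2 hle)
    have hv := (val_of_norm p hne (padicValRat p (DG m (fun r => (zz (x r) : ℚ)) g))).2 le_rfl
    have hv2 := (val_of_norm p hD _).1 (hle.trans hv)
    have := rate_exact hx hG w c₀ (K := K) (E := 6 * L + 8) (L := L) (by omega) hw hc g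
      (fun r _ => hg r) (fun r hr => by
        have he : (x r).1 = e := (mem_filter.1 hr).2
        simp only [g, he, if_true]) hne hk
    push_cast at this
    linarith
  · have hv := (val_of_norm p hD _).1 (hle.trans (hR.trans hU.le))
    have hW := w_crude hx p e (L := L) (by omega)
    have hk2 : k ≤ 2 * n := hk ▸ fvlim_card hx e
    have := fvlim_num (ρ := ρ) (n := n) (m := m) (k := k) (L := L) (K := K)
      (W := padicValInt p (WW (fun r => zz (x r)) (chn x e))) (by positivity) (by omega)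
      (by omega) (by omega) (by positivity) (by omega) (by positivity)
      (by exact_mod_cast hK) (by exact_mod_cast hW)
    linarith

end Pool.Agent.FMZ
end

-- part Pool.Agent.P.MP_cb43af_nt.FvWa
section

open Finset Filter Polynomial Topology
namespace Pool.Agent.FMZ

variable {n m : ℕ} {x : Col m → Nd}

theorem chn_card (h : Sel n m x) (e : Bool) :
    2 * n ≤ (chn x e).card + 2 ∧ (chn x e).card ≤ 2 * n := by
  refine ⟨?_, fztwoa_card h e⟩
  have h1 := fztwoa_card h (!e)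
  have h2 := card_filter_add_card_filter_not (s := (univ : Finset (Col m))) (fun r => (x r).1 = e)
  have h3 : (univ : Finset (Col m)).card = m + m := by simp
  have h4 := h.hm
  have h5 : (univ.filter fun r => ¬ (x r).1 = e) = univ.filter fun r => (x r).1 = !e :=
    filter_congr fun r _ => by cases (x r).1 <;> cases e <;> simp
  rw [h5] at h2
  unfold chn
  omega

theorem fvwa_W {ι : Type} [DecidableEq ι] {u : ι → ℤ} (hu : Function.Injective u) (S : Finset ι) :
    padicValInt 3 (WW u S) = ∑ i ∈ S, ∑ j ∈ S.erase i, padicValInt 3 (u i - u j) := by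
  have h1 : ∀ i, ∀ j ∈ S.erase i, u i - u j ≠ 0 := fun i j hj =>
    sub_ne_zero.2 fun e => (mem_erase.1 hj).1 (hu e).symm
  rw [WW, valInt_prod 3 _ _ fun i _ => prod_ne_zero_iff.2 (h1 i)]
  exact sum_congr rfl fun i _ => valInt_prod 3 _ _ (h1 i)

theorem fvwa_odd {a b : Nd} (h : a.1 ≠ b.1) : padicValInt 3 (zz a - zz b) = 0 := by
  apply padicValInt.eq_zero_of_not_dvd
  obtain ⟨e, i⟩ := a
  obtain ⟨e', j⟩ := b
  have k1 : ∀ i : ℤ, ∃ c, zz (false, i) = 3 * c := fun i =>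
    ⟨48 * i ^ 2 + 16 * i, by simp [zz, yy]; ring⟩
  have k2 : ∀ i : ℤ, ∃ c, zz (true, i) = 3 * c + 2 := fun i =>
    ⟨48 * i ^ 2 + 24 * i + 1, by simp [zz, yy]; ring⟩
  cases e <;> cases e'
  · exact absurd rfl h
  · obtain ⟨c, hc⟩ := k1 i
    obtain ⟨d, hd⟩ := k2 j
    rw [hc, hd]; push_cast; omega
  · obtain ⟨c, hc⟩ := k2 i
    obtain ⟨d, hd⟩ := k1 j
    rw [hc, hd]; push_cast; omega
  · exact absurd rfl h

theorem fvwa_half (e : Bool) :
    ∑ i ∈ univ.filter (fun r => (x r).1 = e), ∑ j ∈ univ.erase i,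
      padicValInt 3 (zz (x i) - zz (x j)) =
    ∑ i ∈ univ.filter (fun r => (x r).1 = e), ∑ j ∈ (univ.filter fun r => (x r).1 = e).erase i,
      padicValInt 3 (zz (x i) - zz (x j)) := by
  refine sum_congr rfl fun i hi => (sum_subset (erase_subset_erase _ (subset_univ _)) ?_).symm
  intro j hj hn
  apply fvwa_odd
  intro k
  exact hn (mem_erase.2 ⟨(mem_erase.1 hj).1, mem_filter.2 ⟨mem_univ _, k ▸ (mem_filter.1 hi).2⟩⟩)

theorem w_split (h : Sel n m x) {p ρ σ : ℕ} {e : Bool} (hG : Gd p e ρ σ) :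
    padicValInt p (WW (fun r => zz (x r)) univ)
      = padicValInt p (WW (fun r => zz (x r)) (chn x e))
        + padicValInt p (WW (fun r => zz (x r)) (chn x (!e))) := by
  rcases hG with ⟨rfl, rfl, rfl, rfl⟩ | ⟨rfl, rfl, rfl, rfl⟩
  · rw [two_split h, add_comm]
    rfl
  · simp only [chn, Bool.not_false]
    rw [fvwa_W h.zinj, fvwa_W h.zinj, fvwa_W h.zinj, ← fvwa_half, ← fvwa_half,
      ← sum_filter_add_sum_filter_not univ (fun r => (x r).1 = false)]
    simp

theorem fvwa_geom (N L : ℕ) : 2 * ∑ k ∈ Icc 1 L, N / 3 ^ k + N / 3 ^ L ≤ N := by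
  induction L with
  | zero => simp
  | succ L ih =>
    rw [sum_Icc_succ_top (by omega), pow_succ, ← Nat.div_div_eq_div_mul]
    omega

theorem fvwa_cnt (s : ℤ) (hs : ¬ (3 : ℤ) ∣ s) (t : ℤ) (n k : ℕ) :
    ((Ico (-(n : ℤ)) n).filter fun i => (3 : ℤ) ^ k ∣ s * i + t).card ≤ 2 * n / 3 ^ k + 1 := by
  have hd : (0 : ℤ) < 3 ^ k := by positivity
  have hco : IsCoprime ((3 : ℤ) ^ k) s :=
    IsCoprime.pow_left ((Prime.coprime_iff_not_dvd Int.prime_three).2 hs)
  rw [← card_range (2 * n / 3 ^ k + 1)]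
  refine card_le_card_of_injOn (fun i => (i + n).toNat / 3 ^ k) ?_ ?_
  · intro i hi
    have := mem_Ico.1 (mem_filter.1 (mem_coe.1 hi)).1
    refine mem_coe.2 (mem_range.2 (Nat.lt_succ_of_le (Nat.div_le_div_right ?_)))
    omega
  · intro i hi j hj hij
    obtain ⟨hi1, hi2⟩ := mem_filter.1 (mem_coe.1 hi)
    obtain ⟨hj1, hj2⟩ := mem_filter.1 (mem_coe.1 hj)
    have a1 := mem_Ico.1 hi1
    have a2 := mem_Ico.1 hj1
    have h1 : (3 : ℤ) ^ k ∣ i - j := by
      apply hco.dvd_of_dvd_mul_left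
      have := dvd_sub hi2 hj2
      rwa [show s * i + t - (s * j + t) = s * (i - j) by ring] at this
    have h2 : (i + n).toNat ≡ (j + n).toNat [MOD 3 ^ k] := by
      rw [Nat.modEq_iff_dvd, Int.toNat_of_nonneg (by omega), Int.toNat_of_nonneg (by omega)]
      push_cast
      rw [show j + n - (i + n) = -(i - j) by ring]
      exact h1.neg_right
    have h3 : (i + n).toNat = (j + n).toNat := by
      rw [← Nat.div_add_mod (i + n).toNat (3 ^ k), ← Nat.div_add_mod (j + n).toNat (3 ^ k)]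
      have hij' : (i + n).toNat / 3 ^ k = (j + n).toNat / 3 ^ k := hij
      rw [hij', h2]
    omega

theorem fvwa_le {z : ℤ} {L : ℕ} (h : |z| < 3 ^ (L + 1)) :
    padicValInt 3 z ≤ ((Icc 1 L).filter fun k => (3 : ℤ) ^ k ∣ z).card := by
  by_cases hz : z = 0
  · simp [hz]
  have hv : padicValInt 3 z ≤ L := by
    by_contra hc
    have : ((3 : ℕ) : ℤ) ^ (L + 1) ∣ z := (padicValInt_dvd_iff _ _).2 (Or.inr (by omega))
    have := Int.le_of_dvd (abs_pos.2 hz) ((dvd_abs _ _).2 this)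
    push_cast at this
    omega
  calc padicValInt 3 z = (Icc 1 (padicValInt 3 z)).card := by simp
    _ ≤ _ := by
      refine card_le_card fun k hk => mem_filter.2 ⟨?_, ?_⟩
      · have := mem_Icc.1 hk
        exact mem_Icc.2 ⟨this.1, by omega⟩
      · have : ((3 : ℕ) : ℤ) ^ k ∣ z := (padicValInt_dvd_iff _ _).2 (Or.inr (mem_Icc.1 hk).2)
        exact_mod_cast this

theorem ap_val3 (s : ℤ) (hs : ¬ (3 : ℤ) ∣ s) (t : ℤ) (n L : ℕ)
    (hL : ∀ i ∈ Ico (-(n : ℤ)) n, |s * i + t| < 3 ^ (L + 1)) :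
    ∑ i ∈ Ico (-(n : ℤ)) n, padicValInt 3 (s * i + t) ≤ n + L := by
  calc _ ≤ ∑ i ∈ Ico (-(n : ℤ)) n, ((Icc 1 L).filter fun k => (3 : ℤ) ^ k ∣ s * i + t).card :=
        sum_le_sum fun i hi => fvwa_le (hL i hi)
    _ = ∑ k ∈ Icc 1 L, ((Ico (-(n : ℤ)) n).filter fun i => (3 : ℤ) ^ k ∣ s * i + t).card := by
        simp only [card_filter]
        exact sum_comm
    _ ≤ ∑ k ∈ Icc 1 L, (2 * n / 3 ^ k + 1) := sum_le_sum fun k _ => fvwa_cnt s hs t n k
    _ ≤ _ := by
        rw [sum_add_distrib]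
        have := le_trans (Nat.le_add_right _ _) (fvwa_geom (2 * n) L)
        simp only [sum_const, Nat.card_Icc, smul_eq_mul]
        omega

theorem fvwa_three (h : Sel n m x) {L : ℕ} (hL : 6 * n ≤ 3 ^ (L + 1)) :
    padicValInt 3 (WW (fun r => zz (x r)) (univ.filter fun r => (x r).1 = true))
      ≤ 2 * n * (6 * n + 2 * L) := by
  rw [fvwa_W h.zinj]
  have hL' : 6 * (n : ℤ) ≤ 3 ^ (L + 1) := by exact_mod_cast hL
  have key : ∀ i ∈ univ.filter (fun r => (x r).1 = true),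
      ∑ j ∈ (univ.filter fun r => (x r).1 = true).erase i, padicValInt 3 (zz (x i) - zz (x j))
        ≤ 6 * n + 2 * L := by
    intro i hi
    have h1 := (mem_filter.1 hi).2
    have mi := mem_Ico.1 (fztwoa_mem h i)
    have e : ∀ j ∈ (univ.filter fun r => (x r).1 = true).erase i,
        padicValInt 3 (zz (x i) - zz (x j)) = (fun c : ℤ => 2 + padicValInt 3 (-1 * c + (x i).2) +
          padicValInt 3 (2 * c + (2 * (x i).2 + 1))) (x j).2 := by
      intro j hj
      have h2 := (mem_filter.1 (mem_erase.1 hj).2).2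
      have hne : -1 * (x j).2 + (x i).2 ≠ 0 := fun k =>
        (mem_erase.1 hj).1 (h.inj (Prod.ext (h2.trans h1.symm) (by omega)))
      have hne2 : 2 * (x j).2 + (2 * (x i).2 + 1) ≠ 0 := by omega
      have e1 : zz (x i) - zz (x j) =
          72 * (-1 * (x j).2 + (x i).2) * (2 * (x j).2 + (2 * (x i).2 + 1)) := by
        simp only [zz, yy, h1, h2, if_true]; ring
      have e2 : padicValInt 3 72 = 2 := by
        rw [show (72 : ℤ) = ((3 ^ 2 * 8 : ℕ) : ℤ) by norm_num, padicValInt.of_nat,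
          padicValNat.mul (by norm_num) (by norm_num), padicValNat.prime_pow,
          padicValNat.eq_zero_of_not_dvd (by norm_num)]
      rw [e1, padicValInt.mul (mul_ne_zero (by norm_num) hne) hne2,
        padicValInt.mul (by norm_num) hne, e2]
    rw [sum_congr rfl e, ← sum_image (s := (univ.filter fun r => (x r).1 = true).erase i)
      (g := fun r => (x r).2) (f := fun c : ℤ => 2 + padicValInt 3 (-1 * c + (x i).2) +
          padicValInt 3 (2 * c + (2 * (x i).2 + 1)))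
      ((fztwoa_inj h true).mono (coe_subset.2 (erase_subset _ _)))]
    have hsub : ((univ.filter fun r => (x r).1 = true).erase i).image (fun r => (x r).2) ⊆
        Ico (-(n : ℤ)) n := image_subset_iff.2 fun r _ => fztwoa_mem h r
    refine (sum_le_sum_of_subset hsub).trans ?_
    have a1 := ap_val3 (-1) (by decide) (x i).2 n L fun c hc => by
      have := mem_Ico.1 hc
      rw [abs_lt]; constructor <;> omega
    have a2 := ap_val3 2 (by decide) (2 * (x i).2 + 1) n L fun c hc => by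
      have := mem_Ico.1 hc
      rw [abs_lt]; constructor <;> omega
    rw [sum_add_distrib, sum_add_distrib, sum_const, Int.card_Ico, smul_eq_mul]
    omega
  refine (sum_le_sum key).trans ?_
  rw [sum_const, smul_eq_mul]
  exact Nat.mul_le_mul_right _ (fztwoa_card h true)

theorem w_bad (h : Sel n m x) {p ρ σ : ℕ} {e : Bool} (hG : Gd p e ρ σ) {L : ℕ}
    (hL : 6 * n ≤ p ^ (L + 1)) :
    padicValInt p (WW (fun r => zz (x r)) (chn x (!e))) ≤ 2 * n * (ρ * (2 * n) + 2 * L) := by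
  rcases hG with ⟨rfl, rfl, rfl, rfl⟩ | ⟨rfl, rfl, rfl, rfl⟩
  · rw [show 6 * (2 * n) = 12 * n by ring]
    exact two_A h hL
  · rw [show 3 * (2 * n) = 6 * n by ring]
    exact fvwa_three h hL

end Pool.Agent.FMZ
end

-- part Pool.Agent.P.MP_cb43af_nt.FvBd
section

open Finset Filter Polynomial Topology
namespace Pool.Agent.FMZ

theorem rate_expl {a b c : ℤ} {f : Nd → ℚ} (h : Ch5 a b c f) {n m : ℕ} {x : Col m → Nd}
    (hx : Sel n m x) (hD : DD m f x ≠ 0) {p ρ σ : ℕ} {e : Bool} (hG : Gd p e ρ σ) {K L : ℕ}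
    (hL : 24 * n + 12 * K < p ^ (L + 1)) (hK : (18 + 4 * L) * n ^ 2 ≤ K) :
    (4 * ρ + 2 * σ : ℤ) * n ^ 2 - 400 * n * (L + 1) ≤ padicValRat p (qq m f x) := by
  have hp : p.Prime := by
    rcases hG with ⟨rfl, -⟩ | ⟨rfl, -⟩
    exacts [Nat.prime_two, Nat.prime_three]
  haveI : Fact p.Prime := ⟨hp⟩
  have a1 := rate_lim h hx hD hG hL hK rfl
  have a2 := val_qq p hx hD
  have a3 := w_split hx hG
  have a4 := w_bad hx hG (L := L) (by omega)
  have a5 := w_good hx hG (L := L) rfl (by omega)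
  have a6 := chn_card hx e
  have a7 := hx.hm
  generalize (chn x e).card = k at a1 a5 a6
  rw [a3] at a2
  generalize padicValInt p (WW (fun r => zz (x r)) (chn x e)) = B at a1 a2 a5
  generalize padicValInt p (WW (fun r => zz (x r)) (chn x (!e))) = A at a2 a4
  have hk : ((k * (k - 1) : ℕ) : ℤ) = k * (k - 1) := by cases k <;> simp
  have b5 : (σ : ℤ) * (k * (k - 1)) ≤ 2 * B + 4 * k * (L + 1) := by
    rw [← hk]
    exact_mod_cast a5
  have b4 : (A : ℤ) ≤ 2 * n * (ρ * (2 * n) + 2 * L) := by exact_mod_cast a4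
  have hm : (m : ℤ) = 2 * n - 1 := by omega
  have hL0 : (0 : ℤ) ≤ L := Nat.cast_nonneg L
  have hn0 : (0 : ℤ) ≤ n := Nat.cast_nonneg n
  have hnL := mul_nonneg hn0 hL0
  push_cast at a2
  rw [hm] at a1
  rcases hG with ⟨-, -, rfl, rfl⟩ | ⟨-, -, rfl, rfl⟩ <;> push_cast at a1 b4 b5 ⊢ <;>
    rcases (by omega : (k : ℤ) = 2 * n ∨ (k : ℤ) = 2 * n - 1 ∨ (k : ℤ) = 2 * n - 2) with
      e | e | e <;> rw [e] at a1 b5 <;> nlinarith

theorem fvbd_log {δ : ℝ} (hδ : 0 < δ) :
    ∀ᶠ n : ℕ in atTop, ∀ L : ℕ, 2 ^ L ≤ 36 * n ^ 3 → (L : ℝ) + 1 ≤ δ * n := by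
  have h1 := tendsto_natCast_atTop_atTop.eventually
    (Real.isLittleO_log_id_atTop.bound (show 0 < δ / 12 by positivity))
  filter_upwards [h1, tendsto_natCast_atTop_atTop.eventually_ge_atTop (142 / δ),
    eventually_ge_atTop 1] with n n1 n2 n3 L hL
  have n0 : (0 : ℝ) < n := by exact_mod_cast n3
  have h2 : (2 : ℝ) ^ L ≤ 36 * (n : ℝ) ^ 3 := by exact_mod_cast hL
  have h3 := Real.log_le_log (by positivity) h2
  rw [Real.log_pow, Real.log_mul (by norm_num) (by positivity), Real.log_pow] at h3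
  have h4 := Real.log_le_sub_one_of_pos (show (0 : ℝ) < 36 by norm_num)
  have h5 := Real.log_two_gt_d9
  have h6 : (0 : ℝ) ≤ L := Nat.cast_nonneg L
  rw [Real.norm_eq_abs, id, Real.norm_eq_abs, abs_of_pos n0] at n1
  have h7 := le_abs_self (Real.log n)
  rw [div_le_iff₀ hδ] at n2
  push_cast at h3
  nlinarith

theorem rate_bound {a b c : ℤ} {f : Nd → ℚ} (h : Ch5 a b c f) {p ρ σ : ℕ} {e : Bool}
    (hG : Gd p e ρ σ) {ε : ℝ} (hε : 0 < ε) :
    ∀ᶠ n : ℕ in atTop, ∀ m x, Sel n m x → DD m f x ≠ 0 →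
      (4 * ρ + 2 * σ - ε) * n ^ 2 ≤ (padicValRat p (qq m f x) : ℝ) := by
  have hp : 2 ≤ p := by
    rcases hG with ⟨rfl, -⟩ | ⟨rfl, -⟩ <;> norm_num
  filter_upwards [fvbd_log (show 0 < ε / 400 by positivity),
    fvbd_log (show (0 : ℝ) < 1 / 18 by norm_num), eventually_ge_atTop 1] with n n1 n2 n3 m x hx hD
  set L := Nat.log p (24 * n + 12 * n ^ 3) with hL
  have l1 : 24 * n + 12 * n ^ 3 < p ^ (L + 1) := Nat.lt_pow_succ_log_self (by omega) _
  have l2 : p ^ L ≤ 24 * n + 12 * n ^ 3 := Nat.pow_log_le_self _ (by omega)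
  have l3 : n ≤ n ^ 3 := Nat.le_self_pow (by norm_num) n
  have l4 : 2 ^ L ≤ 36 * n ^ 3 := (Nat.pow_le_pow_left hp L).trans (by omega)
  have b1 := n1 L l4
  have b2 := n2 L l4
  have l5 : 18 + 4 * L ≤ n := by
    have h0 : (0 : ℝ) ≤ L := Nat.cast_nonneg L
    have : ((18 + 4 * L : ℕ) : ℝ) ≤ n := by
      push_cast
      linarith
    exact_mod_cast this
  have key := rate_expl h hx hD hG l1 (by
    calc (18 + 4 * L) * n ^ 2 ≤ n * n ^ 2 := Nat.mul_le_mul_right _ l5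
      _ = n ^ 3 := by ring)
  have key' : (4 * ρ + 2 * σ : ℝ) * (n : ℝ) ^ 2 - 400 * n * (L + 1) ≤
      (padicValRat p (qq m f x) : ℝ) := by
    exact_mod_cast key
  have n0 : (0 : ℝ) ≤ n := Nat.cast_nonneg n
  have b3 := mul_le_mul_of_nonneg_left b1 n0
  nlinarith

end Pool.Agent.FMZ
end

-- part Pool.Agent.P.MP_cb43af_nt.FzSumA
section

open Finset Filter Polynomial Topology
namespace Pool.Agent.FMZ

theorem fzsuma_mem {M p : ℕ} : p ∈ PR M ↔ p < M ∧ p.Prime := by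
  rw [PR, mem_filter, mem_range]

theorem fzsuma_th {M M' : ℕ} (h : M ≤ M') :
    th M = ∑ p ∈ PR M', if p < M then Real.log p else 0 := by
  rw [← sum_filter, th]
  refine sum_congr ?_ fun _ _ => rfl
  ext p
  rw [mem_filter, fzsuma_mem, fzsuma_mem]
  exact ⟨fun h1 => ⟨⟨by omega, h1.2⟩, h1.1⟩, fun h1 => ⟨h1.2, h1.1.2⟩⟩

theorem fzsuma_II {s ν : ℕ} (h : s ≤ 48) :
    II s ν = ∑ p ∈ PR (48 * ν),
      if 3 * ν ≤ p then max ((s : ℝ) * ν - p) 0 * Real.log p else 0 := by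
  have hle : s * ν ≤ 48 * ν := Nat.mul_le_mul_right _ h
  rw [← sum_filter, II]
  refine Eq.trans (sum_congr rfl fun p hp => ?_) (sum_subset (fun p hp => ?_) fun p hp hn => ?_)
  · have h1 : p < s * ν := (fzsuma_mem.1 (mem_filter.1 hp).1).1
    have h2 : (p : ℝ) < (s : ℝ) * ν := by exact_mod_cast h1
    rw [max_eq_left (by linarith)]
  · rw [mem_filter, fzsuma_mem] at hp ⊢
    exact ⟨⟨by omega, hp.1.2⟩, hp.2⟩
  · rw [mem_filter, fzsuma_mem] at hp hn
    have h1 : s * ν ≤ p := by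
      by_contra h0
      exact hn ⟨⟨by omega, hp.1.2⟩, hp.2⟩
    have h2 : (s : ℝ) * ν ≤ p := by exact_mod_cast h1
    rw [max_eq_right (by linarith), zero_mul]

theorem fzsuma_card (M N : ℕ) {B : ℝ} (hB : 0 ≤ B) :
    ∑ p ∈ PR M, (if p ^ 2 < N then B else 0) ≤ (√(N : ℝ) + 1) * B := by
  rw [← sum_filter, sum_const, nsmul_eq_mul]
  refine mul_le_mul_of_nonneg_right ?_ hB
  have h1 : ((PR M).filter fun p => p ^ 2 < N) ⊆ range (Nat.sqrt N + 1) := fun p hp =>
    mem_range.2 (Nat.lt_succ_of_le (Nat.le_sqrt'.2 (mem_filter.1 hp).2.le))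
  have h2 := card_le_card h1
  rw [card_range] at h2
  have h3 : ((((PR M).filter fun p => p ^ 2 < N).card : ℕ) : ℝ) ≤ (Nat.sqrt N : ℝ) + 1 := by
    exact_mod_cast h2
  have h4 : (Nat.sqrt N : ℝ) ≤ √(N : ℝ) := Real.nat_sqrt_le_real_sqrt
  linarith

theorem fzsuma_div {n p : ℝ} (hn : 0 ≤ n) (hp : 0 < p) (h : 24 * n ≤ p ^ 2) : 4 * n / p ≤ √n := by
  have h1 : √n * √n = n := Real.mul_self_sqrt hn
  have h2 : 0 ≤ √n := Real.sqrt_nonneg n
  have h3 : 4 * √n ≤ p := by
    refine (pow_le_pow_iff_left₀ (by positivity) hp.le two_ne_zero).1 ?_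
    nlinarith
  rw [div_le_iff₀ hp]
  nlinarith

/-- summing the bounds over all primes, for one `ν` -/
theorem sum_point {ν n : ℕ} (hν : 30 ≤ ν) (hn : n = 2 * ν) (δ : ℕ → ℝ) (bad : ℕ → Prop)
    [DecidablePred bad] {A : ℝ} (h2 : A ≤ δ 2)
    (hb : ∀ p, p.Prime → -(32 * n * Real.log (24 * n)) ≤ δ p * Real.log p)
    (hc : ∀ p, p.Prime → 5 ≤ p → 24 * n ≤ p ^ 2 → -(28 * n + 4 * n / p + 2 : ℝ) ≤ δ p)
    (hg : ∀ p, p.Prime → 5 ≤ p → 24 * n ≤ p ^ 2 → 3 * n < 2 * p → ¬ bad p →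
      (24 * n - p : ℝ) / 6 - 16 / 3 * max (3 * n - p : ℝ) 0 - 4 * max (4 * n - p : ℝ) 0 - 45
        ≤ δ p) :
    A * Real.log 2 - (28 * n + √n + 2) * th (3 * ν) + II 48 ν / 6 - 16 / 3 * II 6 ν - 4 * II 8 ν
      - 45 * th (48 * ν) - (√(24 * n) + 1) * (32 * n * Real.log (24 * n))
      - 33 * n * ∑ p ∈ (PR (48 * ν)).filter bad, Real.log p
      ≤ ∑ p ∈ PR (48 * ν), δ p * Real.log p := by
  have hnR : (n : ℝ) = 2 * ν := by rw [hn]; push_cast; ring
  have hνR : (30 : ℝ) ≤ ν := by exact_mod_cast hν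
  have hB : 0 ≤ 32 * n * Real.log (24 * n) :=
    mul_nonneg (by positivity) (Real.log_nonneg (by linarith))
  have e1 : A * Real.log 2 = ∑ p ∈ PR (48 * ν), if p = 2 then A * Real.log p else 0 := by
    rw [sum_ite_eq', if_pos (fzsuma_mem.2 ⟨by omega, Nat.prime_two⟩)]
    norm_num
  have e7 := fzsuma_card (48 * ν) (24 * n) hB
  rw [Nat.cast_mul, Nat.cast_ofNat] at e7
  have e6 : th (48 * ν) = ∑ p ∈ PR (48 * ν), Real.log p := rfl
  rw [e1, fzsuma_th (M := 3 * ν) (M' := 48 * ν) (by omega), fzsuma_II (s := 48) le_rfl,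
    fzsuma_II (s := 6) (by norm_num), fzsuma_II (s := 8) (by norm_num), e6, sum_filter]
  refine le_trans (sub_le_sub_right (sub_le_sub_left e7 _) _) ?_
  simp only [mul_sum, sum_div, ← sum_sub_distrib, ← sum_add_distrib]
  refine sum_le_sum fun p hp => ?_
  obtain ⟨hlt, hpr⟩ := fzsuma_mem.1 hp
  have hp1 : (1 : ℝ) ≤ p := by exact_mod_cast hpr.one_le
  have hL : 0 ≤ Real.log p := Real.log_nonneg hp1
  have hs : 0 ≤ √(n : ℝ) := Real.sqrt_nonneg _
  have hbad : 0 ≤ 33 * (n : ℝ) * if bad p then Real.log p else 0 := by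
    split_ifs <;> positivity
  have hc1 : 0 ≤ (28 * n + √(n : ℝ) + 2) * Real.log p := by positivity
  by_cases hsq : p ^ 2 < 24 * n
  · have h3 : p < 3 * ν := by
      by_contra h0
      have : (3 * ν) ^ 2 ≤ p ^ 2 := Nat.pow_le_pow_left (by omega) 2
      nlinarith
    rw [if_pos hsq, if_pos h3, if_neg (not_le.2 h3), if_neg (not_le.2 h3), if_neg (not_le.2 h3)]
    by_cases hp2 : p = 2
    · rw [if_pos hp2]
      have h4 : A * Real.log p ≤ δ p * Real.log p :=
        mul_le_mul_of_nonneg_right (by rw [hp2]; exact h2) hL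
      linarith
    · rw [if_neg hp2]
      have h4 := hb p hpr
      linarith
  · have hsq' : 24 * n ≤ p ^ 2 := not_lt.1 hsq
    have h5 : 5 ≤ p := by
      by_contra h0
      have : p ^ 2 ≤ 4 ^ 2 := Nat.pow_le_pow_left (by omega) 2
      omega
    have hsqR : 24 * (n : ℝ) ≤ (p : ℝ) ^ 2 := by exact_mod_cast hsq'
    have hcp := hc p hpr h5 hsq'
    rw [if_neg hsq, if_neg (by omega : ¬p = 2)]
    by_cases h3 : p < 3 * ν
    · rw [if_pos h3, if_neg (not_le.2 h3), if_neg (not_le.2 h3), if_neg (not_le.2 h3)]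
      have h4 := fzsuma_div (Nat.cast_nonneg n) (by linarith) hsqR
      have h6 : -(28 * n + √(n : ℝ) + 2) * Real.log p ≤ δ p * Real.log p :=
        mul_le_mul_of_nonneg_right (by linarith) hL
      linarith
    · have h3' : 3 * ν ≤ p := not_lt.1 h3
      have h3R : 3 * (ν : ℝ) ≤ p := by exact_mod_cast h3'
      have hltR : (p : ℝ) < 48 * ν := by exact_mod_cast hlt
      rw [if_neg h3, if_pos h3', if_pos h3', if_pos h3']
      push_cast
      rw [max_eq_left (by linarith : (0 : ℝ) ≤ 48 * ν - p)]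
      by_cases hbp : bad p
      · rw [if_pos hbp]
        have h4 : 4 * (n : ℝ) / p ≤ 3 := by
          rw [div_le_iff₀ (by linarith)]
          linarith
        have m1 : 0 ≤ max (6 * (ν : ℝ) - p) 0 := le_max_right _ _
        have m2 : 0 ≤ max (8 * (ν : ℝ) - p) 0 := le_max_right _ _
        have h6 : ((48 * ν - p) / 6 - 16 / 3 * max (6 * (ν : ℝ) - p) 0 -
            4 * max (8 * (ν : ℝ) - p) 0 - 45 - 33 * n) * Real.log p ≤ δ p * Real.log p :=
          mul_le_mul_of_nonneg_right (by linarith) hL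
        linarith
      · rw [if_neg hbp]
        have hne : p ≠ 3 * ν := fun e => by
          rw [e] at hpr
          exact Nat.not_prime_mul (by norm_num) (by omega) hpr
        have h4 := hg p hpr h5 hsq' (by omega) hbp
        have a1 : 3 * (n : ℝ) = 6 * ν := by linarith
        have a2 : 4 * (n : ℝ) = 8 * ν := by linarith
        have a3 : 24 * (n : ℝ) = 48 * ν := by linarith
        rw [a1, a2, a3] at h4
        have h6 := mul_le_mul_of_nonneg_right h4 hL
        linarith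

end Pool.Agent.FMZ
end

-- part Pool.Agent.P.MP_cb43af_nt.FvSumA
section

open Finset Filter Polynomial Topology
namespace Pool.Agent.FMZ

theorem fvsuma_I6 {s ν : ℕ} (h : s ≤ 144) :
    I6 s ν = ∑ p ∈ PR (144 * ν),
      if 6 * ν ≤ p then max ((s : ℝ) * ν - p) 0 * Real.log p else 0 := by
  have hle : s * ν ≤ 144 * ν := Nat.mul_le_mul_right _ h
  rw [← sum_filter, I6]
  refine Eq.trans (sum_congr rfl fun p hp => ?_) (sum_subset (fun p hp => ?_) fun p hp hn => ?_)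
  · have h1 : p < s * ν := (fzsuma_mem.1 (mem_filter.1 hp).1).1
    have h2 : (p : ℝ) < (s : ℝ) * ν := by exact_mod_cast h1
    rw [max_eq_left (by linarith)]
  · rw [mem_filter, fzsuma_mem] at hp ⊢
    exact ⟨⟨by omega, hp.1.2⟩, hp.2⟩
  · rw [mem_filter, fzsuma_mem] at hp hn
    have h1 : s * ν ≤ p := by
      by_contra h0
      exact hn ⟨⟨by omega, hp.1.2⟩, hp.2⟩
    have h2 : (s : ℝ) * ν ≤ p := by exact_mod_cast h1
    rw [max_eq_right (by linarith), zero_mul]

theorem sum_point5 {ν n : ℕ} (hν : 5 ≤ ν) (hn : n = 6 * ν) (δ : ℕ → ℝ) (bad : ℕ → Prop)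
    [DecidablePred bad] {A B : ℝ} (h2 : A ≤ δ 2) (h3 : B ≤ δ 3)
    (hb : ∀ p, p.Prime → -(48 * n * Real.log (24 * n)) ≤ δ p * Real.log p)
    (hc : ∀ p, p.Prime → 7 ≤ p → 24 * n ≤ p ^ 2 → -(44 * n + 4 * n / p + 2 : ℝ) ≤ δ p)
    (hg : ∀ p, p.Prime → 7 ≤ p → 24 * n ≤ p ^ 2 → n ≤ p → ¬ bad p →
      (24 * n - p : ℝ) / 6 - 8 * max (3 * n - p : ℝ) 0 - 8 * max (3 * n - 2 * p : ℝ) 0
        - 6 * max (4 * n - p : ℝ) 0 - 6 * max (4 * n - 3 * p : ℝ) 0 - 110 ≤ δ p) :
    A * Real.log 2 + B * Real.log 3 - (44 * n + √n + 2) * th (6 * ν) + I6 144 ν / 6 - 8 * I6 18 ν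
      - 16 * I6 9 ν - 6 * I6 24 ν - 18 * I6 8 ν - 110 * th (144 * ν)
      - (√(24 * n) + 1) * (48 * n * Real.log (24 * n))
      - 48 * n * ∑ p ∈ (PR (144 * ν)).filter bad, Real.log p
      ≤ ∑ p ∈ PR (144 * ν), δ p * Real.log p := by
  have hnR : (n : ℝ) = 6 * ν := by rw [hn]; push_cast; ring
  have hνR : (5 : ℝ) ≤ ν := by exact_mod_cast hν
  have hB : 0 ≤ 48 * n * Real.log (24 * n) :=
    mul_nonneg (by positivity) (Real.log_nonneg (by linarith))
  have e1 : A * Real.log 2 = ∑ p ∈ PR (144 * ν), if p = 2 then A * Real.log p else 0 := by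
    rw [sum_ite_eq', if_pos (fzsuma_mem.2 ⟨by omega, Nat.prime_two⟩)]
    norm_num
  have e2 : B * Real.log 3 = ∑ p ∈ PR (144 * ν), if p = 3 then B * Real.log p else 0 := by
    rw [sum_ite_eq', if_pos (fzsuma_mem.2 ⟨by omega, Nat.prime_three⟩)]
    norm_num
  have e7 := fzsuma_card (144 * ν) (24 * n) hB
  rw [Nat.cast_mul, Nat.cast_ofNat] at e7
  have e6 : th (144 * ν) = ∑ p ∈ PR (144 * ν), Real.log p := rfl
  rw [e1, e2, fzsuma_th (M := 6 * ν) (M' := 144 * ν) (by omega), fvsuma_I6 (s := 144) le_rfl,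
    fvsuma_I6 (s := 18) (by norm_num), fvsuma_I6 (s := 9) (by norm_num),
    fvsuma_I6 (s := 24) (by norm_num), fvsuma_I6 (s := 8) (by norm_num), e6, sum_filter]
  refine le_trans (sub_le_sub_right (sub_le_sub_left e7 _) _) ?_
  simp only [mul_sum, sum_div, ← sum_sub_distrib, ← sum_add_distrib]
  refine sum_le_sum fun p hp => ?_
  obtain ⟨hlt, hpr⟩ := fzsuma_mem.1 hp
  have hp1 : (1 : ℝ) ≤ p := by exact_mod_cast hpr.one_le
  have hL : 0 ≤ Real.log p := Real.log_nonneg hp1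
  have hs : 0 ≤ √(n : ℝ) := Real.sqrt_nonneg _
  have hbad : 0 ≤ 48 * (n : ℝ) * if bad p then Real.log p else 0 := by
    split_ifs <;> positivity
  have hc1 : 0 ≤ (44 * n + √(n : ℝ) + 2) * Real.log p := by positivity
  by_cases hsq : p ^ 2 < 24 * n
  · have h6 : p < 6 * ν := by
      by_contra h0
      have : (6 * ν) ^ 2 ≤ p ^ 2 := Nat.pow_le_pow_left (by omega) 2
      nlinarith
    simp only [if_pos hsq, if_pos h6, if_neg (not_le.2 h6)]
    by_cases hp2 : p = 2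
    · rw [if_pos hp2, if_neg (by omega : ¬p = 3)]
      have h4 : A * Real.log p ≤ δ p * Real.log p :=
        mul_le_mul_of_nonneg_right (by rw [hp2]; exact h2) hL
      linarith
    · rw [if_neg hp2]
      by_cases hp3 : p = 3
      · rw [if_pos hp3]
        have h4 : B * Real.log p ≤ δ p * Real.log p :=
          mul_le_mul_of_nonneg_right (by rw [hp3]; exact h3) hL
        linarith
      · rw [if_neg hp3]
        have h4 := hb p hpr
        linarith
  · have hsq' : 24 * n ≤ p ^ 2 := not_lt.1 hsq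
    have h5 : 7 ≤ p := by
      by_contra h0
      have : p ^ 2 ≤ 6 ^ 2 := Nat.pow_le_pow_left (by omega) 2
      omega
    have hsqR : 24 * (n : ℝ) ≤ (p : ℝ) ^ 2 := by exact_mod_cast hsq'
    have hcp := hc p hpr h5 hsq'
    rw [if_neg hsq, if_neg (by omega : ¬p = 2), if_neg (by omega : ¬p = 3)]
    by_cases h6 : p < 6 * ν
    · simp only [if_pos h6, if_neg (not_le.2 h6)]
      have h4 := fzsuma_div (Nat.cast_nonneg n) (by linarith) hsqR
      have h7 : -(44 * n + √(n : ℝ) + 2) * Real.log p ≤ δ p * Real.log p :=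
        mul_le_mul_of_nonneg_right (by linarith) hL
      linarith
    · have h6' : 6 * ν ≤ p := not_lt.1 h6
      have h6R : 6 * (ν : ℝ) ≤ p := by exact_mod_cast h6'
      have hltR : (p : ℝ) < 144 * ν := by exact_mod_cast hlt
      simp only [if_neg h6, if_pos h6']
      push_cast
      rw [max_eq_left (by linarith : (0 : ℝ) ≤ 144 * ν - p)]
      by_cases hbp : bad p
      · rw [if_pos hbp]
        have h4 : 4 * (n : ℝ) / p ≤ 4 := by
          rw [div_le_iff₀ (by linarith)]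
          linarith
        have m1 : 0 ≤ max (18 * (ν : ℝ) - p) 0 := le_max_right _ _
        have m2 : 0 ≤ max (9 * (ν : ℝ) - p) 0 := le_max_right _ _
        have m3 : 0 ≤ max (24 * (ν : ℝ) - p) 0 := le_max_right _ _
        have m4 : 0 ≤ max (8 * (ν : ℝ) - p) 0 := le_max_right _ _
        have h7 : ((144 * ν - p) / 6 - 8 * max (18 * (ν : ℝ) - p) 0 -
            16 * max (9 * (ν : ℝ) - p) 0 - 6 * max (24 * (ν : ℝ) - p) 0 -
            18 * max (8 * (ν : ℝ) - p) 0 - 110 - 48 * n) * Real.log p ≤ δ p * Real.log p :=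
          mul_le_mul_of_nonneg_right (by linarith) hL
        linarith
      · rw [if_neg hbp]
        have h4 := hg p hpr h5 hsq' (by omega) hbp
        have a1 : 3 * (n : ℝ) = 18 * ν := by linarith
        have a2 : 4 * (n : ℝ) = 24 * ν := by linarith
        have a3 : 24 * (n : ℝ) = 144 * ν := by linarith
        have b1 : max (18 * (ν : ℝ) - 2 * p) 0 = 2 * max (9 * (ν : ℝ) - p) 0 := by
          rw [mul_max_of_nonneg _ _ (by norm_num : (0 : ℝ) ≤ 2), mul_zero]
          congr 1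
          ring
        have b2 : max (24 * (ν : ℝ) - 3 * p) 0 = 3 * max (8 * (ν : ℝ) - p) 0 := by
          rw [mul_max_of_nonneg _ _ (by norm_num : (0 : ℝ) ≤ 3), mul_zero]
          congr 1
          ring
        rw [a1, a2, a3, b1, b2] at h4
        have h7 := mul_le_mul_of_nonneg_right h4 hL
        linarith

end Pool.Agent.FMZ
end

-- part Pool.Agent.P.MP_cb43af_nt.FzPNT
section

open Finset Filter Polynomial Topology
namespace Pool.Agent.FMZ

theorem fzpnt_theta : Tendsto (fun x : ℝ => Chebyshev.theta x / x) atTop (𝓝 1) := by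
  obtain ⟨C, hC⟩ := Chebyshev.psi_sub_theta_le_mul_sqrt
  have h1 : Tendsto (fun x : ℝ => C * (√x)⁻¹) atTop (𝓝 0) := by
    simpa using (tendsto_inv_atTop_zero.comp Real.tendsto_sqrt_atTop).const_mul C
  have h2 : Tendsto (fun x : ℝ => (Chebyshev.psi x - Chebyshev.theta x) / x) atTop (𝓝 0) := by
    refine squeeze_zero' ?_ ?_ h1
    · filter_upwards [eventually_gt_atTop 0] with x hx
      exact div_nonneg (sub_nonneg.2 (Chebyshev.theta_le_psi x)) hx.le
    · filter_upwards [eventually_gt_atTop 0] with x hx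
      have h3 := Real.sqrt_pos.2 hx
      rw [div_le_iff₀ hx]
      refine (hC x).trans (le_of_eq ?_)
      nth_rewrite 3 [← Real.mul_self_sqrt hx.le]
      field_simp
  have h3 := Pool.Agent.P.MP_78d079_nt.pnt.sub h2
  rw [sub_zero] at h3
  refine h3.congr fun x => ?_
  ring

theorem fzpnt_th (k : ℕ) : th (k + 1) = Chebyshev.theta k := by
  rw [Chebyshev.theta_eq_sum_Icc, Nat.floor_natCast, th, PR, Nat.range_succ_eq_Icc_zero]

theorem fzpnt_one : Tendsto (fun k : ℕ => th k / k) atTop (𝓝 1) := by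
  rw [← tendsto_add_atTop_iff_nat 1]
  have h1 := (fzpnt_theta.comp tendsto_natCast_atTop_atTop).mul
    (tendsto_natCast_div_add_atTop (1 : ℝ))
  rw [mul_one] at h1
  refine h1.congr' ?_
  filter_upwards [eventually_gt_atTop 0] with k hk
  have h2 : (k : ℝ) ≠ 0 := by positivity
  rw [fzpnt_th, Function.comp_apply, Nat.cast_succ]
  field_simp

theorem fzpnt_scale {f : ℕ → ℝ} {a : ℝ} {e : ℕ} (he : e ≠ 0) (h0 : f 0 = 0)
    (h : Tendsto (fun k : ℕ => f k / k ^ e) atTop (𝓝 a)) (s : ℕ) :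
    Tendsto (fun ν : ℕ => f (s * ν) / ν ^ e) atTop (𝓝 (s ^ e * a)) := by
  rcases Nat.eq_zero_or_pos s with rfl | hs
  · simp [h0, he]
  · refine ((h.comp (tendsto_id.const_mul_atTop' hs)).const_mul ((s : ℝ) ^ e)).congr fun ν => ?_
    have h2 : (s : ℝ) ≠ 0 := by positivity
    simp only [Function.comp_apply, id, Nat.cast_mul, mul_pow]
    rw [← mul_div_assoc, mul_div_mul_left _ _ (pow_ne_zero e h2)]

theorem fzpnt_JJ (M : ℕ) : JJ M = ∑ k ∈ range M, th (k + 1) := by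
  induction M with
  | zero => simp [JJ, PR]
  | succ M ih =>
    rw [sum_range_succ, ← ih]
    have h1 : JJ M = ∑ p ∈ PR (M + 1), ((M : ℝ) - p) * Real.log p := by
      simp only [JJ, PR, sum_filter, sum_range_succ, sub_self, zero_mul, ite_self, add_zero]
    rw [h1, JJ, th, ← sum_add_distrib]
    refine sum_congr rfl fun p _ => ?_
    push_cast
    ring

theorem fzpnt_sum (M : ℕ) : ∑ k ∈ range M, ((k : ℝ) + 1) = M * (M + 1) / 2 := by
  induction M with
  | zero => simp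
  | succ M ih =>
    rw [sum_range_succ, ih]
    push_cast
    ring

theorem fzpnt_two : Tendsto (fun M : ℕ => JJ M / M ^ 2) atTop (𝓝 (1 / 2)) := by
  have h1 : (fun k : ℕ => th (k + 1) - ((k : ℝ) + 1)) =o[atTop] fun k : ℕ => (k : ℝ) + 1 := by
    refine (Asymptotics.isLittleO_iff_tendsto fun k hk => absurd hk (by positivity)).2 ?_
    have h2 := ((tendsto_add_atTop_iff_nat 1).2 fzpnt_one).sub_const 1
    rw [sub_self] at h2
    refine h2.congr fun k => ?_
    have h3 : (k : ℝ) + 1 ≠ 0 := by positivity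
    push_cast
    field_simp
  have h2 := (h1.sum_range (fun k => by positivity) (by
    refine tendsto_atTop_mono (fun M => ?_) tendsto_natCast_atTop_atTop
    calc (M : ℝ) = ∑ k ∈ range M, (1 : ℝ) := by simp
      _ ≤ _ := sum_le_sum fun k _ => by linarith [Nat.cast_nonneg (α := ℝ) k])).tendsto_div_nhds_zero
  have h3 : Tendsto (fun M : ℕ => (1 + (M : ℝ)⁻¹) / 2) atTop (𝓝 (1 / 2)) := by
    simpa using ((tendsto_inv_atTop_nhds_zero_nat (𝕜 := ℝ)).const_add 1).div_const 2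
  have h4 := (h2.add_const 1).mul h3
  rw [zero_add, one_mul] at h4
  refine h4.congr' ?_
  filter_upwards [eventually_gt_atTop 0] with M hM
  have h5 : (M : ℝ) ≠ 0 := by positivity
  have h6 : (M : ℝ) + 1 ≠ 0 := by positivity
  rw [sum_sub_distrib, ← fzpnt_JJ, fzpnt_sum]
  field_simp
  ring

theorem th_lim (s : ℕ) : Tendsto (fun ν : ℕ => th (s * ν) / ν) atTop (𝓝 s) := by
  have h := fzpnt_scale (f := th) (e := 1) one_ne_zero (by simp [th, PR])
    (by simpa only [pow_one] using fzpnt_one) s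
  simpa only [pow_one, mul_one] using h
theorem JJ_lim (s : ℕ) : Tendsto (fun ν : ℕ => JJ (s * ν) / ν ^ 2) atTop (𝓝 (s ^ 2 / 2)) := by
  have h := fzpnt_scale (f := JJ) two_ne_zero (by simp [JJ, PR]) fzpnt_two s
  rwa [mul_one_div] at h

theorem fzpnt_II {s : ℕ} (hs : 3 ≤ s) (ν : ℕ) :
    II s ν = JJ (s * ν) - JJ (3 * ν) - (s - 3) * ν * th (3 * ν) := by
  have h1 : (PR (s * ν)).filter (fun p => ¬ 3 * ν ≤ p) = PR (3 * ν) := by
    ext p
    have := Nat.mul_le_mul_right ν hs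
    simp only [PR, mem_filter, mem_range]
    constructor
    · exact fun h => ⟨by omega, h.1.2⟩
    · exact fun h => ⟨⟨by omega, h.2⟩, by omega⟩
  have h2 := sum_filter_add_sum_filter_not (PR (s * ν)) (fun p => 3 * ν ≤ p)
    fun p => ((s * ν : ℝ) - p) * Real.log p
  rw [h1] at h2
  have h3 : ∑ p ∈ PR (3 * ν), ((s * ν : ℝ) - p) * Real.log p =
      JJ (3 * ν) + (s - 3) * ν * th (3 * ν) := by
    rw [JJ, th, mul_sum, ← sum_add_distrib]
    refine sum_congr rfl fun p _ => ?_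
    push_cast
    ring
  have h4 : JJ (s * ν) = ∑ p ∈ PR (s * ν), ((s * ν : ℝ) - p) * Real.log p := by
    rw [JJ, Nat.cast_mul]
  rw [II, h4, ← h2, h3]
  ring

theorem II_lim {s : ℕ} (hs : 3 ≤ s) :
    Tendsto (fun ν : ℕ => II s ν / ν ^ 2) atTop (𝓝 ((s - 3) ^ 2 / 2)) := by
  have h1 := ((JJ_lim s).sub (JJ_lim 3)).sub ((th_lim 3).const_mul ((s : ℝ) - 3))
  have h2 : (s : ℝ) ^ 2 / 2 - ((3 : ℕ) : ℝ) ^ 2 / 2 - (s - 3) * ((3 : ℕ) : ℝ) = (s - 3) ^ 2 / 2 := by
    push_cast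
    ring
  rw [h2] at h1
  refine h1.congr' ?_
  filter_upwards [eventually_gt_atTop 0] with ν hν
  have h5 : (ν : ℝ) ≠ 0 := by positivity
  rw [fzpnt_II hs]
  field_simp

end Pool.Agent.FMZ
end

-- part Pool.Agent.P.MP_cb43af_nt.FzSumB
section

open Finset Filter Polynomial Topology
namespace Pool.Agent.FMZ

theorem fzsumb_mul (c : ℝ) (hc : 0 < c) : Tendsto (fun ν : ℕ => c * (ν : ℝ)) atTop atTop :=
  tendsto_natCast_atTop_atTop.const_mul_atTop hc

theorem fzsumb_sqrt : Tendsto (fun x : ℝ => √x / x) atTop (𝓝 0) := by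
  simp only [Real.sqrt_div_self]
  exact Real.tendsto_sqrt_atTop.inv_tendsto_atTop

theorem fzsumb_log : Tendsto (fun x : ℝ => (√x + 1) * Real.log x / x) atTop (𝓝 0) := by
  have h1 := (isLittleO_log_rpow_atTop (r := 1 / 2) (by norm_num)).tendsto_div_nhds_zero
  have h2 := Real.isLittleO_log_id_atTop.tendsto_div_nhds_zero
  have h3 := h1.add h2
  rw [add_zero] at h3
  refine h3.congr fun x => ?_
  rw [← Real.sqrt_eq_rpow, id, add_mul, add_div, one_mul, mul_comm, mul_div_assoc,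
    Real.sqrt_div_self, div_eq_mul_inv]

theorem sum_asym : ∀ᶠ ν : ℕ in atTop, ∀ n : ℕ, n = 2 * ν →
    1 / 10 * (n : ℝ) ^ 2 + 33 * n * ((ν : ℝ) / 32) ≤
      (28 - 1 / 10) * (n : ℝ) ^ 2 * Real.log 2 - (28 * n + √n + 2) * th (3 * ν) + II 48 ν / 6
        - 16 / 3 * II 6 ν - 4 * II 8 ν - 45 * th (48 * ν)
        - (√(24 * n) + 1) * (32 * n * Real.log (24 * n)) := by
  have a1 := (fzsumb_sqrt.comp (fzsumb_mul 2 two_pos)).const_mul 2
  have a2 := (fzsumb_log.comp (fzsumb_mul 48 (by norm_num))).const_mul (64 * 48)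
  have a3 := tendsto_inv_atTop_nhds_zero_nat (𝕜 := ℝ)
  have h := ((((((tendsto_const_nhds (x := (28 - 1 / 10) * 4 * Real.log 2)).sub
    (((a1.const_add 56).add (a3.const_mul 2)).mul (th_lim 3))).add
    ((II_lim (s := 48) (by norm_num)).div_const 6)).sub
    ((II_lim (s := 6) (by norm_num)).const_mul (16 / 3))).sub
    ((II_lim (s := 8) (by norm_num)).const_mul 4)).sub
    (((th_lim 48).mul a3).const_mul 45)).sub a2
  have hl := Real.log_two_gt_d9
  filter_upwards [h.eventually_const_lt (u := 197 / 80) (by push_cast; linarith),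
    eventually_gt_atTop 0] with ν h1 h2 n hn
  have h3 : (0 : ℝ) < ν := by exact_mod_cast h2
  have h4 := mul_le_mul_of_nonneg_right h1.le (sq_nonneg (ν : ℝ))
  have e : (n : ℝ) = 2 * ν := by rw [hn]; push_cast; ring
  have e2 : (24 : ℝ) * (2 * ν) = 48 * ν := by ring
  rw [e, e2]
  refine le_of_eq_of_le (by ring) (h4.trans_eq ?_)
  simp only [Function.comp]
  field_simp
  ring

end Pool.Agent.FMZ
end

-- part Pool.Agent.P.MP_cb43af_nt.FvSumB
section

open Finset Filter Polynomial Topology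
namespace Pool.Agent.FMZ

theorem fvsumb_I6 {s : ℕ} (hs : 6 ≤ s) (ν : ℕ) :
    I6 s ν = JJ (s * ν) - JJ (6 * ν) - (s - 6) * ν * th (6 * ν) := by
  have h1 : (PR (s * ν)).filter (fun p => ¬ 6 * ν ≤ p) = PR (6 * ν) := by
    ext p
    have := Nat.mul_le_mul_right ν hs
    simp only [PR, mem_filter, mem_range]
    constructor
    · exact fun h => ⟨by omega, h.1.2⟩
    · exact fun h => ⟨⟨by omega, h.2⟩, by omega⟩
  have h2 := sum_filter_add_sum_filter_not (PR (s * ν)) (fun p => 6 * ν ≤ p)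
    fun p => ((s * ν : ℝ) - p) * Real.log p
  rw [h1] at h2
  have h3 : ∑ p ∈ PR (6 * ν), ((s * ν : ℝ) - p) * Real.log p =
      JJ (6 * ν) + (s - 6) * ν * th (6 * ν) := by
    rw [JJ, th, mul_sum, ← sum_add_distrib]
    refine sum_congr rfl fun p _ => ?_
    push_cast
    ring
  have h4 : JJ (s * ν) = ∑ p ∈ PR (s * ν), ((s * ν : ℝ) - p) * Real.log p := by
    rw [JJ, Nat.cast_mul]
  rw [I6, h4, ← h2, h3]
  ring

theorem I6_lim {s : ℕ} (hs : 6 ≤ s) :
    Tendsto (fun ν : ℕ => I6 s ν / ν ^ 2) atTop (𝓝 ((s - 6) ^ 2 / 2)) := by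
  have h1 := ((JJ_lim s).sub (JJ_lim 6)).sub ((th_lim 6).const_mul ((s : ℝ) - 6))
  have h2 : (s : ℝ) ^ 2 / 2 - ((6 : ℕ) : ℝ) ^ 2 / 2 - (s - 6) * ((6 : ℕ) : ℝ) = (s - 6) ^ 2 / 2 := by
    push_cast
    ring
  rw [h2] at h1
  refine h1.congr' ?_
  filter_upwards [eventually_gt_atTop 0] with ν hν
  have h5 : (ν : ℝ) ≠ 0 := by positivity
  rw [fvsumb_I6 hs]
  field_simp

theorem sum_asym5 : ∀ᶠ ν : ℕ in atTop, ∀ n : ℕ, n = 6 * ν →
    1 / 100 * (n : ℝ) ^ 2 + 48 * n * ((ν : ℝ) / 6) ≤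
      (40 - 1 / 100) * (n : ℝ) ^ 2 * Real.log 2 + (18 - 1 / 100) * (n : ℝ) ^ 2 * Real.log 3
        - (44 * n + √n + 2) * th (6 * ν) + I6 144 ν / 6 - 8 * I6 18 ν
        - 16 * I6 9 ν - 6 * I6 24 ν - 18 * I6 8 ν - 110 * th (144 * ν)
        - (√(24 * n) + 1) * (48 * n * Real.log (24 * n)) := by
  have a1 := (fzsumb_sqrt.comp (fzsumb_mul 6 (by norm_num))).const_mul 6
  have a2 := (fzsumb_log.comp (fzsumb_mul 144 (by norm_num))).const_mul (288 * 144)
  have a3 := tendsto_inv_atTop_nhds_zero_nat (𝕜 := ℝ)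
  have h := ((((((((tendsto_const_nhds
    (x := (40 - 1 / 100) * 36 * Real.log 2 + (18 - 1 / 100) * 36 * Real.log 3)).sub
    (((a1.const_add 264).add (a3.const_mul 2)).mul (th_lim 6))).add
    ((I6_lim (s := 144) (by norm_num)).div_const 6)).sub
    ((I6_lim (s := 18) (by norm_num)).const_mul 8)).sub
    ((I6_lim (s := 9) (by norm_num)).const_mul 16)).sub
    ((I6_lim (s := 24) (by norm_num)).const_mul 6)).sub
    ((I6_lim (s := 8) (by norm_num)).const_mul 18)).sub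
    (((th_lim 144).mul a3).const_mul 110)).sub a2
  have hl := Real.log_two_gt_d9
  have hl3 := Real.log_three_gt_d9
  filter_upwards [h.eventually_const_lt (u := 1209 / 25) (by push_cast; linarith),
    eventually_gt_atTop 0] with ν h1 h2 n hn
  have h3 : (0 : ℝ) < ν := by exact_mod_cast h2
  have h4 := mul_le_mul_of_nonneg_right h1.le (sq_nonneg (ν : ℝ))
  have e : (n : ℝ) = 6 * ν := by rw [hn]; push_cast; ring
  have e2 : (24 : ℝ) * (6 * ν) = 144 * ν := by ring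
  rw [e, e2]
  refine le_of_eq_of_le (by ring) (h4.trans_eq ?_)
  simp only [Function.comp]
  field_simp
  ring

theorem third (bad : ℕ → Prop) [DecidablePred bad]
    (h : ∀ᶠ ν : ℕ in atTop, (ν : ℝ) / 6 ≤ ∑ p ∈ (PR (144 * ν)).filter bad, Real.log p) :
    ∀ᶠ ν : ℕ in atTop, (ν : ℝ) / 32 ≤ ∑ p ∈ (PR (48 * ν)).filter bad, Real.log p := by
  have ht : Tendsto (fun ν : ℕ => ν / 3) atTop atTop := Nat.tendsto_div_const_atTop (by norm_num)
  filter_upwards [ht.eventually h, eventually_ge_atTop 5] with ν h1 h2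
  have h3 : ((3 * ν : ℕ) : ℝ) ≤ (16 * (ν / 3) : ℕ) := by exact_mod_cast (by omega)
  push_cast at h3
  refine le_trans (by linarith) (h1.trans (sum_le_sum_of_subset_of_nonneg
    (filter_subset_filter _ (filter_subset_filter _ (range_subset_range.2 (by omega))))
    fun p _ _ => Real.log_natCast_nonneg p))

end Pool.Agent.FMZ
end

-- part Pool.Agent.P.MP_cb43af_nt.FvMain
section

open Finset Filter Polynomial Topology
namespace Pool.Agent.FMZ

open Classical in
theorem dens_core5 (a : ℤ) {b c : ℤ} (hb : b ≠ 0 ∨ c ≠ 0) : ∀ᶠ ν : ℕ in atTop,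
    (ν : ℝ) / 32 ≤ ∑ p ∈ (PR (48 * ν)).filter (fun p => ¬ Hp5 a b c p), Real.log p := by
  refine third _ ?_
  obtain ⟨f, hf⟩ := exists_ch5 a b c
  have t2 : Tendsto (fun ν : ℕ => 6 * ν) atTop atTop :=
    tendsto_atTop_mono (fun ν => by simp only [id]; omega) tendsto_id
  have g2 : Gd 2 true 6 8 := Or.inl ⟨rfl, rfl, rfl, rfl⟩
  have g3 : Gd 3 false 3 3 := Or.inr ⟨rfl, rfl, rfl, rfl⟩
  filter_upwards [sum_asym5, t2.eventually (real_bound5 hf (ε := 1 / 100) (by norm_num)),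
    t2.eventually (rate_bound hf g2 (ε := 1 / 100) (by norm_num)),
    t2.eventually (rate_bound hf g3 (ε := 1 / 100) (by norm_num)), eventually_ge_atTop 5]
    with ν h1 h2 h3 h3' h4
  obtain ⟨x, hx, hD⟩ := exists_sel5 hb hf (n := 6 * ν) (m := 12 * ν - 1) (by omega) (by omega)
  have k1 := sum_point5 h4 rfl (fun p => (padicValRat p (qq _ f x) : ℝ)) (fun p => ¬ Hp5 a b c p)
    (h3 _ x hx hD) (h3' _ x hx hD) (fun p hp => triv5_b hf hx hD hp)
    (fun p hp h5 h6 => triv5_c hf hx hD hp (by omega) h6)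
    (fun p hp h5 h6 h7 h8 => good5 hf hx hD hp h5 h6 h7 (not_not.1 h8))
  have k2 := log_abs_ge (qq_ne_zero hx hD) (PR (144 * ν)) (fun p hp => (mem_filter.1 hp).2)
    (fun p hp hn => triv5_a hf hx hD hp (by
      by_contra hlt
      exact hn (mem_filter.2 ⟨mem_range.2 (by omega), hp⟩)))
  have k3 := h2 _ x hx
  have k4 := h1 _ rfl
  have hpos : (0 : ℝ) < 48 * ((6 * ν : ℕ) : ℝ) := by
    have : 0 < 6 * ν := by omega
    positivity
  refine le_of_mul_le_mul_left ?_ hpos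
  rw [show (4 * ((6 : ℕ) : ℝ) + 2 * ((8 : ℕ) : ℝ) - 1 / 100) = 40 - 1 / 100 by norm_num,
    show (4 * ((3 : ℕ) : ℝ) + 2 * ((3 : ℕ) : ℝ) - 1 / 100) = 18 - 1 / 100 by norm_num] at k1
  linarith

end Pool.Agent.FMZ
end

-- part Pool.Agent.P.MP_cb43af_nt.FzInt
section

open Finset Filter Polynomial Topology
namespace Pool.Agent.FMZ

theorem fzint_nat {p n : ℕ} (hp : p.Prime) (h0 : n ≠ 0) (hn : n < p) : padicNorm p (n : ℚ) = 1 := by
  have := Fact.mk hp
  exact (padicNorm.nat_eq_one_iff n).2 fun h => absurd (Nat.le_of_dvd (by omega) h) (by omega)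

theorem fzint_add {p : ℕ} (hp : p.Prime) {a b t : ℚ} (ha : padicNorm p a ≤ t)
    (hb : padicNorm p b ≤ t) : padicNorm p (a + b) ≤ t := by
  have := Fact.mk hp
  exact padicNorm.nonarchimedean.trans (max_le ha hb)

theorem fzint_mul {p : ℕ} (hp : p.Prime) {a b s t : ℚ} (ha : padicNorm p a ≤ s)
    (hb : padicNorm p b ≤ t) : padicNorm p (a * b) ≤ s * t := by
  have := Fact.mk hp
  rw [padicNorm.mul]
  exact mul_le_mul ha hb (padicNorm.nonneg _) ((padicNorm.nonneg _).trans ha)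

theorem fzint_pow {p : ℕ} (hp : p.Prime) (a : ℚ) (k : ℕ) :
    padicNorm p (a ^ k) = padicNorm p a ^ k := by
  have := Fact.mk hp
  induction k with
  | zero => simp
  | succ k ih => rw [pow_succ, padicNorm.mul, ih, pow_succ]

theorem fzint_div {p n : ℕ} (hp : p.Prime) (hn : n < p) {a : ℚ} (ha : padicNorm p a ≤ 1) (k : ℕ) :
    padicNorm p (a / (n : ℚ) ^ k) ≤ 1 := by
  have := Fact.mk hp
  rw [padicNorm.div, fzint_pow hp]
  by_cases h0 : n = 0
  · subst h0
    cases k <;> simp [ha]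
  · rw [fzint_nat hp h0 hn]
    simpa using ha

theorem fzint_p {p : ℕ} (hp : p.Prime) : padicNorm p (p : ℚ) = 1 / (p : ℚ) := by
  have := Fact.mk hp
  rw [padicNorm.padicNorm_p_of_prime, one_div]

theorem rat_unit {q : ℚ} (hq : q ≠ 0) : ∀ᶠ p in atTop, Nat.Prime p → padicNorm p q = 1 := by
  filter_upwards [eventually_gt_atTop q.den, eventually_gt_atTop q.num.natAbs] with p h1 h2 hp
  have := Fact.mk hp
  have e : padicNorm p (q.num : ℚ) = 1 := (padicNorm.int_eq_one_iff _).2 fun h =>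
    absurd (Nat.le_of_dvd (Int.natAbs_pos.2 (Rat.num_ne_zero.2 hq)) (Int.natCast_dvd.1 h))
      (by omega)
  rw [← Rat.num_div_den q, padicNorm.div, e, fzint_nat hp q.den_ne_zero h1, div_one]

theorem rat_int (q : ℚ) : ∀ᶠ p in atTop, Nat.Prime p → padicNorm p q ≤ 1 := by
  by_cases hq : q = 0
  · exact Eventually.of_forall fun p _ => by simp [hq]
  · filter_upwards [rat_unit hq] with p h hp using (h hp).le

theorem zeta_norm {p : ℕ} (hp : p.Prime) (k : List ℕ+) {n : ℕ} (hn : n ≤ p) :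
    padicNorm p (zeta k n) ≤ 1 := by
  have := Fact.mk hp
  induction k generalizing n with
  | nil => simp [zeta]
  | cons a k ih =>
    rw [zeta]
    refine padicNorm.sum_le' (fun i hi => ?_) zero_le_one
    have := (mem_Ioo.1 hi).2
    exact fzint_div hp (by omega) (ih (by omega)) _

theorem UU_int {φ : ℕ → ℚ} (h : φ ∈ UU) :
    ∀ᶠ p in atTop, Nat.Prime p → ∀ n < p, padicNorm p (φ n) ≤ 1 := by
  induction h using Submodule.span_induction with
  | mem x hx =>
    obtain ⟨t, rfl⟩ := hx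
    exact Eventually.of_forall fun p hp n hn => fzint_div hp hn (zeta_norm hp _ hn.le) _
  | zero => exact Eventually.of_forall fun p _ n _ => by simp
  | add x y _ _ hx hy =>
    filter_upwards [hx, hy] with p h1 h2 hp n hn using fzint_add hp (h1 hp n hn) (h2 hp n hn)
  | smul a x _ hx =>
    filter_upwards [hx, rat_int a] with p h1 h2 hp n hn
    simpa using fzint_mul hp (h2 hp) (h1 hp n hn)

theorem VV_int {x : ℕ → ℚ} (h : x ∈ VV) :
    ∀ᶠ p in atTop, Nat.Prime p → padicNorm p (x p) ≤ 1 := by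
  induction h using Submodule.span_induction with
  | mem x hx =>
    obtain ⟨t, rfl⟩ := hx
    exact Eventually.of_forall fun p hp => zeta_norm hp _ le_rfl
  | zero => exact Eventually.of_forall fun p _ => by simp
  | add x y _ _ hx hy =>
    filter_upwards [hx, hy] with p h1 h2 hp using fzint_add hp (h1 hp) (h2 hp)
  | smul a x _ hx =>
    filter_upwards [hx, rat_int a] with p h1 h2 hp
    simpa using fzint_mul hp (h2 hp) (h1 hp)

variable {N : ℕ} {x y z x' y' : ℕ → ℚ}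

theorem Cong.of_eq (h : ∀ᶠ p in atTop, Nat.Prime p → x p = y p) : Cong N x y := by
  filter_upwards [h] with p h hp
  rw [h hp, sub_self, padicNorm.zero]
  positivity
theorem Cong.symm (h : Cong N x y) : Cong N y x := by
  filter_upwards [h] with p h hp
  have := Fact.mk hp
  rw [← neg_sub, padicNorm.neg]
  exact h hp
theorem Cong.trans (h : Cong N x y) (h' : Cong N y z) : Cong N x z := by
  filter_upwards [h, h'] with p h h' hp
  simpa using fzint_add hp (h hp) (h' hp)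
theorem Cong.add (h : Cong N x y) (h' : Cong N x' y') :
    Cong N (fun p => x p + x' p) fun p => y p + y' p := by
  filter_upwards [h, h'] with p h h' hp
  rw [add_sub_add_comm]
  exact fzint_add hp (h hp) (h' hp)
theorem Cong.mul (h : Cong N x y) (hz : ∀ᶠ p in atTop, Nat.Prime p → padicNorm p (z p) ≤ 1) :
    Cong N (fun p => x p * z p) fun p => y p * z p := by
  filter_upwards [h, hz] with p h h' hp
  rw [← sub_mul]
  simpa using fzint_mul hp (h hp) (h' hp)
theorem Cong.smul (h : Cong N x y) (q : ℚ) :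
    Cong N (fun p => q * x p) fun p => q * y p := by
  filter_upwards [h, rat_int q] with p h h' hp
  rw [← mul_sub]
  simpa using fzint_mul hp (h' hp) (h hp)
theorem Cong.mulp (h : Cong N x y) :
    Cong (N + 1) (fun p => p * x p) fun p => p * y p := by
  filter_upwards [h] with p h hp
  rw [← mul_sub, pow_succ', ← one_div_mul_one_div]
  exact fzint_mul hp (fzint_p hp).le (h hp)
theorem Cong.sq (h : Cong 1 x 0) : Cong 2 (fun p => x p * x p) 0 := by
  filter_upwards [h] with p h hp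
  have h1 := h hp
  simp only [Pi.zero_apply, sub_zero, pow_one] at h1 ⊢
  rw [pow_two, ← one_div_mul_one_div]
  exact fzint_mul hp h1 h1
theorem Cong.pow_mul (hz : ∀ᶠ p in atTop, Nat.Prime p → padicNorm p (z p) ≤ 1) :
    Cong N (fun p => (p : ℚ) ^ N * z p) 0 := by
  filter_upwards [hz] with p h hp
  simp only [Pi.zero_apply, sub_zero]
  have h1 : padicNorm p ((p : ℚ) ^ N) ≤ 1 / (p : ℚ) ^ N := by
    rw [fzint_pow hp, fzint_p hp, one_div_pow]
  simpa using fzint_mul hp h1 (h hp)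

end Pool.Agent.FMZ
end

-- part Pool.Agent.P.MP_cb43af_nt.FzVor
section

open Finset Filter Polynomial Topology
namespace Pool.Agent.FMZ

theorem fzvor_mem {n k j : ℕ} (h : Nat.Coprime n k) (hj : j ∈ Ioo 0 n) : k * j % n ∈ Ioo 0 n := by
  rw [mem_Ioo] at hj ⊢
  refine ⟨Nat.pos_of_ne_zero fun e => ?_, Nat.mod_lt _ (by omega)⟩
  have := Nat.le_of_dvd hj.1 (h.dvd_of_dvd_mul_left (Nat.dvd_of_mod_eq_zero e))
  omega

theorem fzvor_perm {A : Type} [AddCommMonoid A] {n k : ℕ} (h : Nat.Coprime n k) (g : ℕ → A) :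
    ∑ j ∈ Ioo 0 n, g (k * j % n) = ∑ j ∈ Ioo 0 n, g j := by
  have hi : Set.InjOn (fun j => k * j % n) (Ioo 0 n : Finset ℕ) := by
    intro a ha b hb e
    have ha' := mem_Ioo.1 (mem_coe.1 ha)
    have hb' := mem_Ioo.1 (mem_coe.1 hb)
    have e1 : a ≡ b [MOD n] := Nat.ModEq.cancel_left_of_coprime h e
    exact Nat.ModEq.eq_of_lt_of_lt e1 ha'.2 hb'.2
  have him : (Ioo 0 n).image (fun j => k * j % n) = Ioo 0 n := by
    apply eq_of_subset_of_card_le
    · intro x hx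
      obtain ⟨j, hj, rfl⟩ := mem_image.1 hx
      exact fzvor_mem h hj
    · rw [card_image_of_injOn hi]
  conv_rhs => rw [← him]
  rw [sum_image hi]

theorem fzvor_zeta (p : ℕ) : zeta [2] p = ∑ j ∈ Ioo 0 p, 1 / (j : ℚ) ^ 2 := by
  simp [zeta]

theorem fzvor_rat {p d : ℕ} (hp : 0 < p) (h : Nat.Coprime p d) :
    (((d : ℤ) ^ 3 - d : ℤ) : ℚ) * (zeta [2] p / p) = ∑ j ∈ Ioo 0 p,
      (((d * (d * j / p) * (d * j + d * j % p) : ℕ) : ℤ) : ℚ) /
        ((((d * j % p) * j : ℕ) : ℤ) : ℚ) ^ 2 := by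
  have h1 := fzvor_perm h (fun j => 1 / (j : ℚ) ^ 2)
  have hp' : (p : ℚ) ≠ 0 := by exact_mod_cast hp.ne'
  have e : (((d : ℤ) ^ 3 - d : ℤ) : ℚ) * (zeta [2] p / p) =
      (d : ℚ) ^ 3 / p * zeta [2] p - (d : ℚ) / p * zeta [2] p := by
    push_cast; ring
  rw [e, fzvor_zeta]
  nth_rewrite 1 [← h1]
  rw [mul_sum, mul_sum, ← sum_sub_distrib]
  apply sum_congr rfl
  intro j hj
  have hr := mem_Ioo.1 (fzvor_mem h hj)
  have hj' := mem_Ioo.1 hj
  have hd := Nat.div_add_mod (d * j) p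
  generalize d * j % p = r at hr hd
  generalize d * j / p = t at hd
  have r0 : (r : ℚ) ≠ 0 := by exact_mod_cast hr.1.ne'
  have j0 : (j : ℚ) ≠ 0 := by exact_mod_cast hj'.1.ne'
  have hq : (p : ℚ) * t + r = d * j := by exact_mod_cast hd
  have ht : (t : ℚ) = (d * j - r) / p := by
    rw [eq_div_iff hp']; linear_combination hq
  push_cast
  rw [ht]
  field_simp
  ring

theorem fzvor_count {p d j : ℕ} (hp : 0 < p) (hd : 0 < d) (hj : j < p) :
    d * j / p = ∑ a ∈ Ioo 0 d, if a * p ≤ d * j then 1 else 0 := by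
  rw [← card_filter]
  have hlt : d * j / p < d := by
    rw [Nat.div_lt_iff_lt_mul hp]
    exact Nat.mul_lt_mul_of_pos_left hj hd
  have : (Ioo 0 d).filter (fun a => a * p ≤ d * j) = Icc 1 (d * j / p) := by
    ext a
    rw [mem_filter, mem_Ioo, mem_Icc, ← Nat.le_div_iff_mul_le hp]
    omega
  rw [this, Nat.card_Icc, Nat.add_sub_cancel]

theorem fzvor_tail {p : ℕ} [Fact p.Prime] (h5 : 5 ≤ p) {m : ℕ} (hm : m < p) :
    ∑ j ∈ Ioo 0 p, (if m < j then ((j : ZMod p)⁻¹) ^ 3 else 0) = -Phi p m := by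
  have h0 : Phi p (-1) = 0 := by
    have := phi_refl h5 (0 : ZMod p)
    rw [sub_zero] at this
    rw [this]
    simp [Phi]
  have hv : (-1 : ZMod p).val = p - 1 := by
    obtain ⟨q, rfl⟩ : ∃ q, p = q + 1 := ⟨p - 1, by omega⟩
    exact ZMod.val_neg_one q
  have hI : Icc 1 (p - 1) = Ioo 0 p := by
    ext a
    rw [mem_Icc, mem_Ioo]
    omega
  rw [Phi, hv, hI, ← sum_filter_add_sum_filter_not _ (fun j => m < j)] at h0
  have hF : (Ioo 0 p).filter (fun j => ¬m < j) = Icc 1 m := by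
    ext a
    rw [mem_filter, mem_Icc, mem_Ioo]
    omega
  rw [hF] at h0
  rw [← sum_filter, Phi, ZMod.val_natCast, Nat.mod_eq_of_lt hm]
  exact eq_neg_of_add_eq_zero_left h0

/-- the congruence of Voronoi -/
theorem voronoi {p : ℕ} [Fact p.Prime] (h5 : 5 ≤ p) {d : ℕ} (hd : 0 < d) (hdp : d < p)
    (h : padicNorm p (zeta [2] p) ≤ 1 / p) :
    ((d : ZMod p) ^ 3 - d) * ((zeta [2] p / p : ℚ) : ZMod p)
      = -2 * ∑ c ∈ Ioo 0 d, Phi p (-(c : ZMod p) * (d : ZMod p)⁻¹) := by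
  have hpp : p.Prime := Fact.out
  have hp : 0 < p := hpp.pos
  have hc : Nat.Coprime p d := Nat.coprime_of_lt_prime hd.ne' hdp hpp
  have unit : ∀ j ∈ Ioo 0 p, (j : ZMod p) ≠ 0 := by
    intro j hj e
    have hj' := mem_Ioo.1 hj
    have := Nat.le_of_dvd hj'.1 ((ZMod.natCast_eq_zero_iff j p).1 e)
    omega
  have d0 : (d : ZMod p) ≠ 0 := unit d (mem_Ioo.2 ⟨hd, hdp⟩)
  have hW : padicNorm p (zeta [2] p / p) ≤ 1 := by
    have hp' : (0 : ℚ) < p := by exact_mod_cast hp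
    rw [padicNorm.div, padicNorm.padicNorm_p hpp.one_lt, div_le_one (inv_pos.2 hp'), ← one_div]
    exact h
  have nd : ∀ j ∈ Ioo 0 p, ¬(p : ℤ) ∣ (((d * j % p) * j : ℕ) : ℤ) := by
    intro j hj e
    rw [Int.natCast_dvd_natCast, ← ZMod.natCast_eq_zero_iff, Nat.cast_mul] at e
    exact mul_ne_zero (unit _ (fzvor_mem hc hj)) (unit j hj) e
  have h1 := congrArg (fun q : ℚ => (q : ZMod p)) (fzvor_rat hp hc)
  rw [red_mul (padicNorm.of_int _) hW, Rat.cast_intCast,
    red_sum _ _ fun j hj => (red_div _ _ 2 (nd j hj)).1] at h1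
  have h2 : ∀ j ∈ Ioo 0 p, ((((((d * (d * j / p) * (d * j + d * j % p) : ℕ) : ℤ) : ℚ) /
      ((((d * j % p) * j : ℕ) : ℤ) : ℚ) ^ 2 : ℚ)) : ZMod p) =
      2 * ∑ a ∈ Ioo 0 d, if a * p ≤ d * j then ((j : ZMod p)⁻¹) ^ 3 else 0 := by
    intro j hj
    have j0 := unit j hj
    have e1 : ∑ a ∈ Ioo 0 d, (if a * p ≤ d * j then ((j : ZMod p)⁻¹) ^ 3 else 0) =
        ((d * j / p : ℕ) : ZMod p) * ((j : ZMod p)⁻¹) ^ 3 := by
      rw [fzvor_count hp hd (mem_Ioo.1 hj).2, Nat.cast_sum, sum_mul]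
      apply sum_congr rfl
      intro a _
      split_ifs <;> simp
    rw [(red_div _ _ 2 (nd j hj)).2, e1, Int.cast_natCast, Int.cast_natCast]
    generalize d * j / p = t
    rw [Nat.cast_mul, Nat.cast_mul, Nat.cast_add, Nat.cast_mul (d * j % p), ZMod.natCast_mod,
      Nat.cast_mul]
    field_simp
    ring
  rw [sum_congr rfl h2, ← mul_sum, sum_comm] at h1
  have h3 : ∀ a ∈ Ioo 0 d, ∑ j ∈ Ioo 0 p, (if a * p ≤ d * j then ((j : ZMod p)⁻¹) ^ 3 else 0) =
      -Phi p (-((p * a % d : ℕ) : ZMod p) * (d : ZMod p)⁻¹) := by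
    intro a ha
    have hr := mem_Ioo.1 (fzvor_mem hc.symm ha)
    have ha' := mem_Ioo.1 ha
    have hdm := Nat.div_add_mod (p * a) d
    have hm : p * a / d < p := by
      rw [Nat.div_lt_iff_lt_mul hd]
      exact Nat.mul_lt_mul_of_pos_left ha'.2 hp
    have e1 : ((p * a / d : ℕ) : ZMod p) = -((p * a % d : ℕ) : ZMod p) * (d : ZMod p)⁻¹ := by
      have := congrArg (fun n : ℕ => (n : ZMod p)) hdm
      simp only [Nat.cast_add, Nat.cast_mul, ZMod.natCast_self, zero_mul] at this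
      rw [eq_mul_inv_iff_mul_eq₀ d0]
      linear_combination this
    rw [← e1, ← fzvor_tail h5 hm]
    apply sum_congr rfl
    intro j _
    apply if_congr _ rfl rfl
    rw [Nat.div_lt_iff_lt_mul hd, mul_comm a p, mul_comm j d]
    refine ⟨fun hle => lt_of_le_of_ne hle fun e => ?_, le_of_lt⟩
    rw [e, Nat.mul_mod_right] at hr
    exact lt_irrefl _ hr.1
  rw [sum_congr rfl h3, sum_neg_distrib,
    fzvor_perm hc.symm fun c => Phi p (-(c : ZMod p) * (d : ZMod p)⁻¹)] at h1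
  push_cast at h1
  linear_combination h1

end Pool.Agent.FMZ
end

-- part Pool.Agent.P.MP_cb43af_nt.FvVor
section

open Finset Filter Polynomial Topology
namespace Pool.Agent.FMZ

theorem fvvor_zeta (p : ℕ) : zeta [4] p = ∑ j ∈ Ioo 0 p, 1 / (j : ℚ) ^ 4 := by
  simp [zeta]

theorem fvvor_rat {p d : ℕ} (hp : 0 < p) (h : Nat.Coprime p d) :
    (((d : ℤ) ^ 5 - d : ℤ) : ℚ) * (zeta [4] p / p) = ∑ j ∈ Ioo 0 p,
      (((d * (d * j / p) * ((d * j) ^ 3 + (d * j) ^ 2 * (d * j % p) + d * j * (d * j % p) ^ 2 +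
        (d * j % p) ^ 3) : ℕ) : ℤ) : ℚ) /
        ((((d * j % p) * j : ℕ) : ℤ) : ℚ) ^ 4 := by
  have h1 := fzvor_perm h (fun j => 1 / (j : ℚ) ^ 4)
  have hp' : (p : ℚ) ≠ 0 := by exact_mod_cast hp.ne'
  have e : (((d : ℤ) ^ 5 - d : ℤ) : ℚ) * (zeta [4] p / p) =
      (d : ℚ) ^ 5 / p * zeta [4] p - (d : ℚ) / p * zeta [4] p := by
    push_cast; ring
  rw [e, fvvor_zeta]
  nth_rewrite 1 [← h1]
  rw [mul_sum, mul_sum, ← sum_sub_distrib]
  apply sum_congr rfl
  intro j hj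
  have hr := mem_Ioo.1 (fzvor_mem h hj)
  have hj' := mem_Ioo.1 hj
  have hd := Nat.div_add_mod (d * j) p
  generalize d * j % p = r at hr hd
  generalize d * j / p = t at hd
  have r0 : (r : ℚ) ≠ 0 := by exact_mod_cast hr.1.ne'
  have j0 : (j : ℚ) ≠ 0 := by exact_mod_cast hj'.1.ne'
  have hq : (p : ℚ) * t + r = d * j := by exact_mod_cast hd
  have ht : (t : ℚ) = (d * j - r) / p := by
    rw [eq_div_iff hp']; linear_combination hq
  push_cast
  rw [ht]
  field_simp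
  ring

theorem fvvor_tail {p : ℕ} [Fact p.Prime] (h7 : 7 ≤ p) {m : ℕ} (hm : m < p) :
    ∑ j ∈ Ioo 0 p, (if m < j then ((j : ZMod p)⁻¹) ^ 5 else 0) = -Phi5 p m := by
  have h0 : Phi5 p (-1) = 0 := by
    have := phi5_refl h7 (0 : ZMod p)
    rw [sub_zero] at this
    rw [this]
    simp [Phi5]
  have hv : (-1 : ZMod p).val = p - 1 := by
    obtain ⟨q, rfl⟩ : ∃ q, p = q + 1 := ⟨p - 1, by omega⟩
    exact ZMod.val_neg_one q
  have hI : Icc 1 (p - 1) = Ioo 0 p := by
    ext a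
    rw [mem_Icc, mem_Ioo]
    omega
  rw [Phi5, hv, hI, ← sum_filter_add_sum_filter_not _ (fun j => m < j)] at h0
  have hF : (Ioo 0 p).filter (fun j => ¬m < j) = Icc 1 m := by
    ext a
    rw [mem_filter, mem_Icc, mem_Ioo]
    omega
  rw [hF] at h0
  rw [← sum_filter, Phi5, ZMod.val_natCast, Nat.mod_eq_of_lt hm]
  exact eq_neg_of_add_eq_zero_left h0

theorem voronoi4 {p : ℕ} [Fact p.Prime] (h7 : 7 ≤ p) {d : ℕ} (hd : 0 < d) (hdp : d < p)
    (h : padicNorm p (zeta [4] p) ≤ 1 / p) :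
    ((d : ZMod p) ^ 5 - d) * ((zeta [4] p / p : ℚ) : ZMod p)
      = -4 * ∑ c ∈ Ioo 0 d, Phi5 p (-(c : ZMod p) * (d : ZMod p)⁻¹) := by
  have hpp : p.Prime := Fact.out
  have hp : 0 < p := hpp.pos
  have hc : Nat.Coprime p d := Nat.coprime_of_lt_prime hd.ne' hdp hpp
  have unit : ∀ j ∈ Ioo 0 p, (j : ZMod p) ≠ 0 := by
    intro j hj e
    have hj' := mem_Ioo.1 hj
    have := Nat.le_of_dvd hj'.1 ((ZMod.natCast_eq_zero_iff j p).1 e)
    omega
  have d0 : (d : ZMod p) ≠ 0 := unit d (mem_Ioo.2 ⟨hd, hdp⟩)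
  have hW : padicNorm p (zeta [4] p / p) ≤ 1 := by
    have hp' : (0 : ℚ) < p := by exact_mod_cast hp
    rw [padicNorm.div, padicNorm.padicNorm_p hpp.one_lt, div_le_one (inv_pos.2 hp'), ← one_div]
    exact h
  have nd : ∀ j ∈ Ioo 0 p, ¬(p : ℤ) ∣ (((d * j % p) * j : ℕ) : ℤ) := by
    intro j hj e
    rw [Int.natCast_dvd_natCast, ← ZMod.natCast_eq_zero_iff, Nat.cast_mul] at e
    exact mul_ne_zero (unit _ (fzvor_mem hc hj)) (unit j hj) e
  have h1 := congrArg (fun q : ℚ => (q : ZMod p)) (fvvor_rat hp hc)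
  rw [red_mul (padicNorm.of_int _) hW, Rat.cast_intCast,
    red_sum _ _ fun j hj => (red_div _ _ 4 (nd j hj)).1] at h1
  have h2 : ∀ j ∈ Ioo 0 p, ((((((d * (d * j / p) * ((d * j) ^ 3 + (d * j) ^ 2 * (d * j % p) +
      d * j * (d * j % p) ^ 2 + (d * j % p) ^ 3) : ℕ) : ℤ) : ℚ) /
      ((((d * j % p) * j : ℕ) : ℤ) : ℚ) ^ 4 : ℚ)) : ZMod p) =
      4 * ∑ a ∈ Ioo 0 d, if a * p ≤ d * j then ((j : ZMod p)⁻¹) ^ 5 else 0 := by
    intro j hj
    have j0 := unit j hj
    have e1 : ∑ a ∈ Ioo 0 d, (if a * p ≤ d * j then ((j : ZMod p)⁻¹) ^ 5 else 0) =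
        ((d * j / p : ℕ) : ZMod p) * ((j : ZMod p)⁻¹) ^ 5 := by
      rw [fzvor_count hp hd (mem_Ioo.1 hj).2, Nat.cast_sum, sum_mul]
      apply sum_congr rfl
      intro a _
      split_ifs <;> simp
    rw [(red_div _ _ 4 (nd j hj)).2, e1, Int.cast_natCast, Int.cast_natCast]
    generalize d * j / p = t
    simp only [Nat.cast_mul, Nat.cast_add, Nat.cast_pow, ZMod.natCast_mod]
    field_simp
    ring
  rw [sum_congr rfl h2, ← mul_sum, sum_comm] at h1
  have h3 : ∀ a ∈ Ioo 0 d, ∑ j ∈ Ioo 0 p, (if a * p ≤ d * j then ((j : ZMod p)⁻¹) ^ 5 else 0) =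
      -Phi5 p (-((p * a % d : ℕ) : ZMod p) * (d : ZMod p)⁻¹) := by
    intro a ha
    have hr := mem_Ioo.1 (fzvor_mem hc.symm ha)
    have ha' := mem_Ioo.1 ha
    have hdm := Nat.div_add_mod (p * a) d
    have hm : p * a / d < p := by
      rw [Nat.div_lt_iff_lt_mul hd]
      exact Nat.mul_lt_mul_of_pos_left ha'.2 hp
    have e1 : ((p * a / d : ℕ) : ZMod p) = -((p * a % d : ℕ) : ZMod p) * (d : ZMod p)⁻¹ := by
      have := congrArg (fun n : ℕ => (n : ZMod p)) hdm
      simp only [Nat.cast_add, Nat.cast_mul, ZMod.natCast_self, zero_mul] at this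
      rw [eq_mul_inv_iff_mul_eq₀ d0]
      linear_combination this
    rw [← e1, ← fvvor_tail h7 hm]
    apply sum_congr rfl
    intro j _
    apply if_congr _ rfl rfl
    rw [Nat.div_lt_iff_lt_mul hd, mul_comm a p, mul_comm j d]
    refine ⟨fun hle => lt_of_le_of_ne hle fun e => ?_, le_of_lt⟩
    rw [e, Nat.mul_mod_right] at hr
    exact lt_irrefl _ hr.1
  rw [sum_congr rfl h3, sum_neg_distrib,
    fzvor_perm hc.symm fun c => Phi5 p (-(c : ZMod p) * (d : ZMod p)⁻¹)] at h1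
  push_cast at h1
  linear_combination h1

theorem ff5_val {p : ℕ} [Fact p.Prime] (h7 : 7 ≤ p) (h : padicNorm p (zeta [4] p) ≤ 1 / p) :
    4 * 12 ^ 5 * (FF5 p 3 - FF5 p 2) = -375 * ((zeta [4] p / p : ℚ) : ZMod p) := by
  have ne : ∀ k : ℕ, 0 < k → k < 7 → ((k : ℕ) : ZMod p) ≠ 0 := fun k h0 h1 h =>
    absurd (Nat.le_of_dvd h0 ((ZMod.natCast_eq_zero_iff k p).1 h)) (by omega)
  have h2 : (2 : ZMod p) ≠ 0 := by exact_mod_cast ne 2 (by omega) (by omega)
  have h3 : (3 : ZMod p) ≠ 0 := by exact_mod_cast ne 3 (by omega) (by omega)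
  have h4 : (4 : ZMod p) ≠ 0 := by exact_mod_cast ne 4 (by omega) (by omega)
  have h12 : (12 : ZMod p) ≠ 0 := by
    rw [show (12 : ZMod p) = 3 * 4 by norm_num]; exact mul_ne_zero h3 h4
  have v2 := voronoi4 h7 (d := 2) (by omega) (by omega) h
  have v3 := voronoi4 h7 (d := 3) (by omega) (by omega) h
  have v4 := voronoi4 h7 (d := 4) (by omega) (by omega) h
  rw [show Ioo 0 2 = ({1} : Finset ℕ) by decide, sum_singleton] at v2
  rw [show Ioo 0 3 = ({1, 2} : Finset ℕ) by decide, sum_insert (by decide), sum_singleton] at v3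
  rw [show Ioo 0 4 = ({1, 2, 3} : Finset ℕ) by decide, sum_insert (by decide),
    sum_insert (by decide), sum_singleton] at v4
  push_cast at v2 v3 v4
  have e3 : -(2 : ZMod p) * (3 : ZMod p)⁻¹ = -1 - (-1 * (3 : ZMod p)⁻¹) := by
    field_simp; norm_num
  have e4 : -(3 : ZMod p) * (4 : ZMod p)⁻¹ = -1 - (-1 * (4 : ZMod p)⁻¹) := by
    field_simp; norm_num
  have e5 : -(2 : ZMod p) * (4 : ZMod p)⁻¹ = -1 * (2 : ZMod p)⁻¹ := by
    field_simp; norm_num
  rw [e3, phi5_refl h7] at v3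
  rw [e4, phi5_refl h7, e5] at v4
  have f3 : ((3 : ZMod p) - 6) * (12 : ZMod p)⁻¹ = -1 * (4 : ZMod p)⁻¹ := by
    field_simp; norm_num
  have f2 : ((2 : ZMod p) - 6) * (12 : ZMod p)⁻¹ = -1 * (3 : ZMod p)⁻¹ := by
    field_simp; norm_num
  have i12 : (12 : ZMod p) ^ 5 * ((12 : ZMod p)⁻¹) ^ 5 = 1 := by
    rw [← mul_pow, mul_inv_cancel₀ h12, one_pow]
  unfold FF5
  rw [f3, f2]
  generalize Phi5 p (-1 * (4 : ZMod p)⁻¹) = A at *
  generalize Phi5 p (-1 * (3 : ZMod p)⁻¹) = B at *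
  generalize Phi5 p (-1 * (2 : ZMod p)⁻¹) = C at *
  generalize ((zeta [4] p / p : ℚ) : ZMod p) = W at *
  generalize ((12 : ZMod p)⁻¹) ^ 5 = u at *
  apply mul_left_cancel₀ h2
  linear_combination (8 * (A - B)) * i12 + v4 - v2 - v3

end Pool.Agent.FMZ
end

-- part Pool.Agent.P.MP_cb43af_nt.FzStuf
section

open Finset Filter Polynomial Topology
namespace Pool.Agent.FMZ

theorem fzstuf_Ioo (f : ℕ → ℚ) (h0 : f 0 = 0) (n : ℕ) :
    ∑ i ∈ Ioo 0 (n + 1), f i = ∑ i ∈ Ioo 0 n, f i + f n := by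
  rcases Nat.eq_zero_or_pos n with rfl | hn
  · have h : Ioo 0 (0 + 1) = (∅ : Finset ℕ) := by
      ext i
      simp only [mem_Ioo, notMem_empty, iff_false]
      omega
    rw [h]
    simp [h0]
  · have h : Ioo 0 (n + 1) = insert n (Ioo 0 n) := by
      ext i
      simp only [mem_Ioo, mem_insert]
      omega
    rw [h, sum_insert (by simp), add_comm]

theorem fzstuf_cons (a : ℕ+) (k : List ℕ+) (M : ℕ) :
    zeta (a :: k) M = ∑ n ∈ Ioo 0 M, zeta k n / (n : ℚ) ^ (a : ℕ) := by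
  rw [zeta]

theorem fzstuf_nil (M : ℕ) : zeta [] M = 1 := by
  rw [zeta]

theorem fzstuf_ind (W : Submodule ℚ (ℕ → ℚ)) (s : Set (ℕ → ℚ)) (L : (ℕ → ℚ) → ℕ → ℚ)
    (hadd : ∀ x y, L (x + y) = L x + L y) (hsm : ∀ (c : ℚ) x, L (c • x) = c • L x)
    (hs : ∀ x ∈ s, L x ∈ W) {x : ℕ → ℚ} (hx : x ∈ Submodule.span ℚ s) : L x ∈ W := by
  induction hx using Submodule.span_induction with
  | mem x h => exact hs x h
  | zero =>
    have h := hsm 0 0
    rw [zero_smul, zero_smul] at h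
    rw [h]
    exact W.zero_mem
  | add x y _ _ hx hy =>
    rw [hadd]
    exact W.add_mem hx hy
  | smul c x _ hx =>
    rw [hsm]
    exact W.smul_mem c hx

theorem zeta_mem (k : List ℕ+) : zeta k ∈ VV := Submodule.subset_span ⟨k, rfl⟩
theorem zeta_succ (a : ℕ+) (k : List ℕ+) (n : ℕ) :
    zeta (a :: k) (n + 1) = zeta (a :: k) n + zeta k n / (n : ℚ) ^ (a : ℕ) := by
  rw [fzstuf_cons, fzstuf_cons]
  exact fzstuf_Ioo (fun n : ℕ => zeta k n / (n : ℚ) ^ (a : ℕ)) (by simp) n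
theorem st_rec (a b : ℕ+) (k l : List ℕ+) (M : ℕ) :
    zeta (a :: k) M * zeta (b :: l) M = ∑ n ∈ Ioo 0 M,
      (zeta k n * zeta (b :: l) n / (n : ℚ) ^ (a : ℕ) + zeta (a :: k) n * zeta l n / (n : ℚ) ^ (b : ℕ)
        + zeta k n * zeta l n / (n : ℚ) ^ ((a : ℕ) + b)) := by
  induction M with
  | zero => simp [fzstuf_cons]
  | succ M ih =>
    rw [fzstuf_Ioo (fun n : ℕ => zeta k n * zeta (b :: l) n / (n : ℚ) ^ (a : ℕ) +
      zeta (a :: k) n * zeta l n / (n : ℚ) ^ (b : ℕ) +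
      zeta k n * zeta l n / (n : ℚ) ^ ((a : ℕ) + b)) (by simp), ← ih, zeta_succ, zeta_succ, pow_add]
    simp only [div_eq_mul_inv, mul_inv]
    ring
theorem SS_mem {φ : ℕ → ℚ} (h : φ ∈ UU) : SS φ ∈ VV := by
  refine fzstuf_ind VV _ SS ?_ ?_ ?_ h
  · intro x y
    funext M
    simp only [SS, Pi.add_apply, add_div, sum_add_distrib]
  · intro c x
    funext M
    simp only [SS, Pi.smul_apply, smul_eq_mul, mul_sum, mul_div_assoc]
  · rintro x ⟨⟨k, a⟩, rfl⟩
    have e : SS (fun n : ℕ => zeta k n / (n : ℚ) ^ a) = zeta (⟨a + 1, Nat.succ_pos a⟩ :: k) := by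
      funext M
      rw [fzstuf_cons]
      simp only [SS, PNat.mk_coe, pow_succ, div_div]
    exact e ▸ zeta_mem _
theorem VV_le_UU : VV ≤ UU := by
  refine Submodule.span_le.2 ?_
  rintro x ⟨k, rfl⟩
  exact Submodule.subset_span ⟨(k, 0), by funext n; simp⟩
theorem UU_div {φ : ℕ → ℚ} (h : φ ∈ UU) (a : ℕ) : (fun n : ℕ => φ n / (n : ℚ) ^ a) ∈ UU := by
  refine fzstuf_ind UU _ (fun (φ : ℕ → ℚ) (n : ℕ) => φ n / (n : ℚ) ^ a) ?_ ?_ ?_ h
  · intro x y
    funext n
    simp only [Pi.add_apply, add_div]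
  · intro c x
    funext n
    simp only [Pi.smul_apply, smul_eq_mul, mul_div_assoc]
  · rintro x ⟨⟨k, b⟩, rfl⟩
    exact Submodule.subset_span ⟨(k, b + a), by funext n; simp only [pow_add, div_div]⟩

theorem fzstuf_S {φ : ℕ → ℚ} (h : φ ∈ VV) {a : ℕ} (ha : 0 < a) :
    (fun M : ℕ => ∑ n ∈ Ioo 0 M, φ n / (n : ℚ) ^ a) ∈ VV := by
  obtain ⟨b, rfl⟩ : ∃ b, a = b + 1 := ⟨a - 1, by omega⟩
  have h1 := SS_mem (UU_div (VV_le_UU h) b)
  have e : SS (fun n : ℕ => φ n / (n : ℚ) ^ b) =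
      fun M : ℕ => ∑ n ∈ Ioo 0 M, φ n / (n : ℚ) ^ (b + 1) := by
    funext M
    simp only [SS, pow_succ, div_div]
  exact e ▸ h1

theorem fzstuf_zz (N : ℕ) : ∀ k l : List ℕ+, k.length + l.length ≤ N →
    (fun n => zeta k n * zeta l n) ∈ VV := by
  induction N with
  | zero =>
    intro k l h
    obtain rfl : k = [] := List.length_eq_zero_iff.1 (by omega)
    simpa only [fzstuf_nil, one_mul] using zeta_mem l
  | succ N ih =>
    intro k l h
    rcases k with _ | ⟨a, k⟩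
    · simpa only [fzstuf_nil, one_mul] using zeta_mem l
    rcases l with _ | ⟨b, l⟩
    · simpa only [fzstuf_nil, mul_one] using zeta_mem (a :: k)
    simp only [List.length_cons] at h
    have h1 := fzstuf_S (ih k (b :: l) (by simp only [List.length_cons]; omega)) a.pos
    have h2 := fzstuf_S (ih (a :: k) l (by simp only [List.length_cons]; omega)) b.pos
    have h3 := fzstuf_S (ih k l (by omega)) (Nat.add_pos_left a.pos (b : ℕ))
    have h4 := VV.add_mem (VV.add_mem h1 h2) h3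
    refine (congrArg (· ∈ VV) ?_).mp h4
    funext M
    simp only [Pi.add_apply, st_rec, sum_add_distrib]

theorem fzstuf_bil (W : Submodule ℚ (ℕ → ℚ)) (s : Set (ℕ → ℚ))
    (hs : ∀ x ∈ s, ∀ y ∈ s, (fun n => x n * y n) ∈ W) {x y : ℕ → ℚ}
    (hx : x ∈ Submodule.span ℚ s) (hy : y ∈ Submodule.span ℚ s) : (fun n => x n * y n) ∈ W := by
  refine fzstuf_ind W s (fun (x : ℕ → ℚ) n => x n * y n) ?_ ?_ ?_ hx
  · intro u v
    funext n
    simp only [Pi.add_apply, add_mul]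
  · intro c u
    funext n
    simp only [Pi.smul_apply, smul_eq_mul, mul_assoc]
  · intro u hu
    refine fzstuf_ind W s (fun (y : ℕ → ℚ) n => u n * y n) ?_ ?_ (hs u hu) hy
    · intro v w
      funext n
      simp only [Pi.add_apply, mul_add]
    · intro c v
      funext n
      simp only [Pi.smul_apply, smul_eq_mul, mul_left_comm]

theorem VV_mul {x y : ℕ → ℚ} (hx : x ∈ VV) (hy : y ∈ VV) : (fun n => x n * y n) ∈ VV := by
  refine fzstuf_bil VV _ ?_ hx hy
  rintro _ ⟨k, rfl⟩ _ ⟨l, rfl⟩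
  exact fzstuf_zz _ k l le_rfl
theorem UU_mul {x y : ℕ → ℚ} (hx : x ∈ UU) (hy : y ∈ UU) : (fun n => x n * y n) ∈ UU := by
  refine fzstuf_bil UU _ ?_ hx hy
  rintro _ ⟨⟨k, a⟩, rfl⟩ _ ⟨⟨l, b⟩, rfl⟩
  have h := UU_div (VV_le_UU (VV_mul (zeta_mem k) (zeta_mem l))) (a + b)
  refine (congrArg (· ∈ UU) ?_).mp h
  funext n
  simp only [pow_add, div_mul_div_comm]
theorem UU_succ (k : List ℕ+) : (fun n => zeta k (n + 1)) ∈ UU := by
  rcases k with _ | ⟨a, k⟩
  · have h := VV_le_UU (zeta_mem [])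
    refine (congrArg (· ∈ UU) ?_).mp h
    funext n
    simp only [fzstuf_nil]
  · have h := UU.add_mem (VV_le_UU (zeta_mem (a :: k))) (UU_div (VV_le_UU (zeta_mem k)) a)
    refine (congrArg (· ∈ UU) ?_).mp h
    funext n
    simp only [Pi.add_apply, zeta_succ]

theorem fzstuf_app (c : List ℕ+ →₀ ℚ) (M : ℕ) :
    (c.sum fun k a => a • zeta k) M = c.sum fun k a => a * zeta k M := by
  simp only [Finsupp.sum, Finset.sum_apply, Pi.smul_apply, smul_eq_mul]

theorem VV_repr {x : ℕ → ℚ} (h : x ∈ VV) :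
    ∃ c : List ℕ+ →₀ ℚ, ∀ M, x M = c.sum fun k a => a * zeta k M := by
  obtain ⟨c, rfl⟩ := Finsupp.mem_span_range_iff_exists_finsupp.1 h
  exact ⟨c, fzstuf_app c⟩
theorem sum_mem_VV (c : List ℕ+ →₀ ℚ) : (fun M => c.sum fun k a => a * zeta k M) ∈ VV :=
  Finsupp.mem_span_range_iff_exists_finsupp.2 ⟨c, funext (fzstuf_app c)⟩

end Pool.Agent.FMZ
end

-- part Pool.Agent.P.MP_cb43af_nt.FzLift
section

open Finset Filter Polynomial Topology
namespace Pool.Agent.FMZ

variable {x y : ℕ → ℚ}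

theorem fzlift_repr (v : ℕ → ℕ → ℚ) (hv : ∀ r, v r ∈ VV) :
    ∃ d : ℕ → List ℕ+ →₀ ℚ, ∀ N p, trunc d N p = ∑ j ∈ range N, (p : ℚ) ^ j * v j p := by
  choose d hd using fun r => VV_repr (hv r)
  exact ⟨d, fun N p => sum_congr rfl fun j _ => by rw [hd j p]⟩

theorem fzlift_iff : Lf x ↔ ∃ v : ℕ → ℕ → ℚ, (∀ r, v r ∈ VV) ∧
    ∀ N, Cong N x fun p => p * ∑ j ∈ range N, (p : ℚ) ^ j * v j p := by
  constructor
  · rintro ⟨d, hd⟩
    exact ⟨fun r M => (d r).sum fun k a => a * zeta k M, fun r => sum_mem_VV (d r), hd⟩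
  · rintro ⟨v, hv, h⟩
    obtain ⟨d, hd⟩ := fzlift_repr v hv
    refine ⟨d, fun N => ?_⟩
    simp only [hd]
    exact h N

theorem fzlift_eq {N : ℕ} (h : ∀ p, x p = y p) : Cong N x y :=
  Cong.of_eq (Eventually.of_forall fun p _ => h p)

theorem Lf.zero : Lf fun _ => 0 := by
  refine fzlift_iff.2 ⟨fun _ => 0, fun _ => VV.zero_mem, fun N => fzlift_eq fun p => ?_⟩
  simp

theorem Lf.congr (h : Lf x) (e : ∀ᶠ p in atTop, Nat.Prime p → x p = y p) : Lf y := by
  obtain ⟨d, hd⟩ := h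
  exact ⟨d, fun N => (Cong.of_eq e).symm.trans (hd N)⟩

theorem Lf.add (h : Lf x) (h' : Lf y) : Lf fun p => x p + y p := by
  obtain ⟨v, hv, h⟩ := fzlift_iff.1 h
  obtain ⟨w, hw, h'⟩ := fzlift_iff.1 h'
  refine fzlift_iff.2 ⟨fun r => v r + w r, fun r => VV.add_mem (hv r) (hw r), fun N =>
    ((h N).add (h' N)).trans (fzlift_eq fun p => ?_)⟩
  simp only [Pi.add_apply, mul_add, sum_add_distrib]

theorem Lf.smul (h : Lf x) (q : ℚ) : Lf fun p => q * x p := by
  obtain ⟨v, hv, h⟩ := fzlift_iff.1 h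
  refine fzlift_iff.2 ⟨fun r => q • v r, fun r => VV.smul_mem q (hv r), fun N =>
    ((h N).smul q).trans (fzlift_eq fun p => ?_)⟩
  simp only [Pi.smul_apply, smul_eq_mul, mul_sum]
  exact sum_congr rfl fun j _ => by ring

theorem Lf.sum {α : Type} (s : Finset α) {t : α → ℕ → ℚ} (h : ∀ i ∈ s, Lf (t i)) :
    Lf fun p => ∑ i ∈ s, t i p := by
  classical
  induction s using Finset.induction_on with
  | empty => simpa using Lf.zero
  | insert a s ha ih =>
    simp only [sum_insert ha]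
    exact (h a (mem_insert_self _ _)).add (ih fun i hi => h i (mem_insert_of_mem hi))

theorem Lf.mul (h : Lf x) (hy : y ∈ VV) : Lf fun p => x p * y p := by
  obtain ⟨v, hv, h⟩ := fzlift_iff.1 h
  refine fzlift_iff.2 ⟨fun r n => v r n * y n, fun r => VV_mul (hv r) hy, fun N =>
    ((h N).mul (VV_int hy)).trans (fzlift_eq fun p => ?_)⟩
  simp only [mul_sum, sum_mul]
  exact sum_congr rfl fun j _ => by ring

theorem Lf.cong (h : Lf x) : Cong 1 x 0 := by
  obtain ⟨v, hv, h⟩ := fzlift_iff.1 h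
  refine ((h 1).trans (fzlift_eq fun p => ?_)).trans (Cong.pow_mul (VV_int (hv 0)))
  simp

theorem lf_series (v : ℕ → ℕ → ℚ) (hv : ∀ r, v r ∈ VV)
    (hi : ∀ᶠ p in atTop, Nat.Prime p → ∀ r, padicNorm p (v r p) ≤ 1) :
    Lf fun p => ∑ r ∈ range (p - 1), (p : ℚ) ^ (r + 1) * v r p := by
  refine fzlift_iff.2 ⟨v, hv, fun N => ?_⟩
  filter_upwards [hi, eventually_ge_atTop (N + 1)] with p hp hN hpp
  haveI : Fact p.Prime := ⟨hpp⟩
  have h1 : (1 : ℚ) ≤ p := by exact_mod_cast hpp.one_le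
  have e : ∑ r ∈ range (p - 1), (p : ℚ) ^ (r + 1) * v r p -
      p * ∑ j ∈ range N, (p : ℚ) ^ j * v j p = ∑ r ∈ Ico N (p - 1), (p : ℚ) ^ (r + 1) * v r p := by
    rw [sum_Ico_eq_sub _ (by omega), mul_sum]
    congr 1
    exact sum_congr rfl fun j _ => by ring
  rw [e]
  refine padicNorm.sum_le' (fun r hr => ?_) (by positivity)
  have hr' : N ≤ r + 1 := by
    have := (mem_Ico.1 hr).1
    omega
  have h2 : padicNorm p ((p : ℚ) ^ (r + 1)) = 1 / (p : ℚ) ^ (r + 1) := by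
    rw [IsAbsoluteValue.abv_pow (padicNorm p), padicNorm.padicNorm_p_of_prime, inv_pow, one_div]
  rw [padicNorm.mul, h2]
  calc 1 / (p : ℚ) ^ (r + 1) * padicNorm p (v r p) ≤ 1 / (p : ℚ) ^ (r + 1) * 1 :=
        mul_le_mul_of_nonneg_left (hp hpp r) (by positivity)
    _ ≤ 1 / (p : ℚ) ^ N := by
        rw [mul_one]
        exact one_div_le_one_div_of_le (by positivity) (pow_le_pow_right₀ h1 hr')

theorem lf_final (c : ℕ → List ℕ+ →₀ ℚ) (h : Lf fun p => (c 0).sum fun k a => a * zeta k p) :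
    ∃ d, ∀ N, Cong N (trunc c N) fun p => p * trunc d N p := by
  obtain ⟨v, hv, h⟩ := fzlift_iff.1 h
  obtain ⟨w, hw, hc⟩ : ∃ w : ℕ → ℕ → ℚ, (∀ r, w r ∈ VV) ∧
      ∀ r p, ((c r).sum fun k a => a * zeta k p) = w r p :=
    ⟨fun r M => (c r).sum fun k a => a * zeta k M, fun r => sum_mem_VV (c r), fun _ _ => rfl⟩
  obtain ⟨d, hd⟩ := fzlift_repr (fun r => v r + w (r + 1)) fun r => VV.add_mem (hv r) (hw _)
  refine ⟨d, fun N => ?_⟩
  have ht : ∀ p, trunc c N p = ∑ j ∈ range N, (p : ℚ) ^ j * w j p := fun p =>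
    sum_congr rfl fun j _ => by rw [hc]
  simp only [hc] at h
  have h1 : Cong N (fun p => (p : ℚ) ^ N * w N p) 0 := Cong.pow_mul (VV_int (hw N))
  have h2 : Cong N (trunc c N) (trunc c N) := fzlift_eq fun _ => rfl
  have h3 : Cong N (fun p => (p : ℚ) * ∑ j ∈ range N, (p : ℚ) ^ j * w (j + 1) p)
      (fun p => (p : ℚ) * ∑ j ∈ range N, (p : ℚ) ^ j * w (j + 1) p) := fzlift_eq fun _ => rfl
  refine ((fzlift_eq fun p => ?_).trans (h2.add h1.symm)).trans
    (((fzlift_eq fun p => ?_).trans ((h N).add h3)).trans (fzlift_eq fun p => ?_))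
  · simp
  · rw [ht, ← sum_range_succ (fun j => (p : ℚ) ^ j * w j p), sum_range_succ', mul_sum, pow_zero,
      one_mul, add_comm]
    congr 1
    exact sum_congr rfl fun j _ => by ring
  · rw [hd]
    simp only [Pi.add_apply, mul_add, sum_add_distrib]

end Pool.Agent.FMZ
end
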