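import Pool.Agent.K.MP_cb43af_nt.C0

-- part Pool.Agent.P.MP_cb43af_nt.FzDual
section

open Finset Filter Polynomial Topology
namespace Pool.Agent.FMZ

theorem fzdual_range (φ : ℕ → ℚ) (M : ℕ) :
    TT φ M = ∑ n ∈ range M, (-1) ^ n * (M.choose (n + 1) : ℚ) * φ (n + 1) := by
  rw [TT, ← Finset.Ico_add_one_right_eq_Icc, sum_Ico_eq_sum_range, Nat.add_sub_cancel]
  refine sum_congr rfl fun n _ => ?_
  rw [add_comm 1 n, pow_succ, pow_succ]
  ring

theorem fzdual_pascal (φ : ℕ → ℚ) (M : ℕ) :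
    TT φ (M + 1) = TT φ M + ∑ n ∈ range (M + 1), (-1) ^ n * (M.choose n : ℚ) * φ (n + 1) := by
  have h : TT φ M = ∑ n ∈ range (M + 1), (-1) ^ n * (M.choose (n + 1) : ℚ) * φ (n + 1) := by
    rw [sum_range_succ, Nat.choose_succ_self, fzdual_range]
    simp
  rw [h, fzdual_range, ← sum_add_distrib]
  refine sum_congr rfl fun n _ => ?_
  rw [Nat.choose_succ_succ, Nat.cast_add]
  ring

theorem fzdual_zero (φ : ℕ → ℚ) (M : ℕ) :
    TT φ M = φ 0 - ∑ n ∈ range (M + 1), (-1) ^ n * (M.choose n : ℚ) * φ n := by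
  rw [sum_range_succ', fzdual_range, eq_sub_iff_add_eq, ← add_assoc, ← sum_add_distrib,
    sum_eq_zero fun n _ => by ring]
  simp

theorem fzdual_SS (φ : ℕ → ℚ) (n : ℕ) : SS φ (n + 1 + 1) = SS φ (n + 1) + φ (n + 1) / (n + 1 : ℕ) := by
  have h : ∀ m : ℕ, Ioo 0 m = Ico 1 m := fun m => rfl
  rw [SS, SS, h, h, sum_Ico_succ_top (Nat.succ_pos n)]

theorem fzdual_Ioo : Ioo 0 1 = (∅ : Finset ℕ) := rfl

theorem fzdual_SS1 (φ : ℕ → ℚ) : SS φ 1 = 0 := by
  rw [SS, fzdual_Ioo, sum_empty]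

theorem fzdual_div (φ : ℕ → ℚ) (M : ℕ) :
    ∑ n ∈ range (M + 1), (-1) ^ n * (M.choose n : ℚ) * (φ (n + 1) / (n + 1 : ℕ)) =
      TT φ (M + 1) / (M + 1 : ℕ) := by
  rw [fzdual_range, sum_div]
  refine sum_congr rfl fun n _ => ?_
  have h : ((M + 1 : ℕ) : ℚ) * M.choose n = (M + 1).choose (n + 1) * (n + 1 : ℕ) := by
    exact_mod_cast Nat.add_one_mul_choose_eq M n
  have h1 : ((M + 1 : ℕ) : ℚ) ≠ 0 := Nat.cast_ne_zero.2 M.succ_ne_zero
  have h2 : ((n + 1 : ℕ) : ℚ) ≠ 0 := Nat.cast_ne_zero.2 n.succ_ne_zero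
  rw [mul_div_assoc', div_eq_div_iff h2 h1]
  linear_combination (-1) ^ n * φ (n + 1) * h

theorem TT_one {M : ℕ} (hM : 0 < M) : TT (fun _ => 1) M = 1 := by
  have h : ∑ n ∈ range (M + 1), (-1) ^ n * (M.choose n : ℚ) = 0 := by
    exact_mod_cast Int.alternating_sum_range_choose_of_ne hM.ne'
  simp only [fzdual_zero, mul_one, h, sub_zero]
theorem TT_div (φ : ℕ → ℚ) (M : ℕ) : TT (fun n => φ n / n) M = SS (TT φ) (M + 1) := by
  induction M with
  | zero => simp [TT, fzdual_SS1]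
  | succ M ih => rw [fzdual_pascal, ih, fzdual_SS, fzdual_div]
theorem TT_sum (φ : ℕ → ℚ) (M : ℕ) : TT (fun n => SS φ (n + 1)) M = TT φ M / M := by
  cases M with
  | zero => simp [TT]
  | succ M =>
    rw [fzdual_pascal, fzdual_zero, ← fzdual_div]
    simp only [fzdual_SS, mul_add, sum_add_distrib, zero_add, fzdual_SS1]
    ring
theorem prod_expand (t : ℚ) (n : ℕ) {B : ℕ} (hB : n < B) :
    ∏ j ∈ Icc 1 n, (1 + t / j) = ∑ r ∈ range B, t ^ r * zeta (List.replicate r 1) (n + 1) := by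
  induction n generalizing B with
  | zero =>
    obtain ⟨B, rfl⟩ := Nat.exists_eq_succ_of_ne_zero hB.ne'
    rw [sum_range_succ']
    simp [List.replicate_succ, zeta, fzdual_Ioo]
  | succ n ih =>
    obtain ⟨B, rfl⟩ := Nat.exists_eq_succ_of_ne_zero (Nat.ne_zero_of_lt hB)
    have h1 := ih (Nat.lt_of_succ_lt hB)
    have h2 := ih (Nat.lt_of_succ_lt_succ hB)
    rw [sum_range_succ'] at h1
    rw [prod_Icc_succ_top (Nat.succ_pos n), mul_add, mul_one, sum_range_succ']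
    nth_rewrite 1 [h1]
    rw [h2, sum_mul, add_right_comm, ← sum_add_distrib]
    refine congrArg₂ _ (sum_congr rfl fun r _ => ?_) rfl
    rw [List.replicate_succ, zeta_succ 1 _ (n + 1), PNat.one_coe, pow_one]
    ring
theorem fzdual_choose (q n : ℕ) (h : n ≤ q) :
    (-1) ^ n * (q.choose n : ℚ) = ∏ j ∈ Icc 1 n, (1 + -((q + 1 : ℕ) : ℚ) / j) := by
  induction n with
  | zero => simp
  | succ n ih =>
    have h1 : (q.choose (n + 1) : ℚ) * (n + 1) = q.choose n * (q - n) := by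
      rw [← Nat.cast_sub (Nat.le_of_succ_le h)]
      exact_mod_cast Nat.choose_succ_right_eq q n
    have h2 : (n + 1 : ℚ) ≠ 0 := by positivity
    rw [prod_Icc_succ_top (Nat.succ_pos n), ← ih (Nat.le_of_succ_le h)]
    push_cast
    field_simp
    linear_combination (-1) ^ (n + 1) * h1
theorem TT_expand (φ : ℕ → ℚ) {p : ℕ} (hp : 0 < p) : TT φ (p - 1) =
    -∑ r ∈ range p, (-(p : ℚ)) ^ r *
      ∑ n ∈ Ioo 0 p, zeta (List.replicate r 1) (n + 1) * φ n := by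
  obtain ⟨q, rfl⟩ := Nat.exists_eq_succ_of_ne_zero hp.ne'
  have h : Ioo 0 (q + 1) = Icc 1 q := by
    ext n
    simp only [mem_Ioo, mem_Icc]
    omega
  simp only [mul_sum, Nat.succ_eq_add_one, Nat.add_sub_cancel, h]
  rw [sum_comm, TT, ← sum_neg_distrib]
  refine sum_congr rfl fun n hn => ?_
  have h1 := (mem_Icc.1 hn).2
  simp only [← mul_assoc]
  rw [← sum_mul, ← prod_expand _ n (Nat.lt_succ_of_le h1), ← fzdual_choose q n h1]
  ring

end Pool.Agent.FMZ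
end

-- part Pool.Agent.P.MP_cb43af_nt.FzTL
section

open Finset Filter Polynomial Topology
namespace Pool.Agent.FMZ

noncomputable def fztl_v (φ : ℕ → ℚ) (r p : ℕ) : ℚ :=
  (-1) ^ r * SS (fun n => zeta (List.replicate (r + 1) 1) (n + 1) * φ n) p

theorem fztl_eq (φ : ℕ → ℚ) {p : ℕ} (hp : 0 < p) :
    TT (fun n => φ n / n) (p - 1) + SS φ p =
      ∑ r ∈ range (p - 1), (p : ℚ) ^ (r + 1) * fztl_v φ r p := by
  rw [TT_expand _ hp]
  obtain ⟨q, rfl⟩ : ∃ q, p = q + 1 := ⟨p - 1, by omega⟩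
  rw [sum_range_succ', Nat.add_sub_cancel]
  have e0 : (-((q + 1 : ℕ) : ℚ)) ^ 0 *
      ∑ n ∈ Ioo 0 (q + 1), zeta (List.replicate 0 1) (n + 1) * (φ n / n) = SS φ (q + 1) := by
    simp [SS, zeta]
  rw [e0, neg_add, neg_add_cancel_right, ← sum_neg_distrib]
  refine sum_congr rfl fun r _ => ?_
  have e1 : ∑ n ∈ Ioo 0 (q + 1), zeta (List.replicate (r + 1) 1) (n + 1) * (φ n / n) =
      SS (fun n => zeta (List.replicate (r + 1) 1) (n + 1) * φ n) (q + 1) :=
    sum_congr rfl fun n _ => (mul_div_assoc _ _ _).symm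
  rw [e1, fztl_v, neg_pow ((q + 1 : ℕ) : ℚ), pow_succ (-1 : ℚ)]
  ring

theorem fztl_mem {φ : ℕ → ℚ} (h : φ ∈ UU) (r : ℕ) : fztl_v φ r ∈ VV :=
  VV.smul_mem ((-1 : ℚ) ^ r) (SS_mem (UU_mul (UU_succ (List.replicate (r + 1) 1)) h))

theorem fztl_int {φ : ℕ → ℚ} (h : φ ∈ UU) :
    ∀ᶠ p in atTop, Nat.Prime p → ∀ r, padicNorm p (fztl_v φ r p) ≤ 1 := by
  filter_upwards [UU_int h] with p hp pp r
  haveI : Fact p.Prime := ⟨pp⟩
  have h1 : padicNorm p ((-1 : ℚ) ^ r) = 1 := by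
    rcases neg_one_pow_eq_or ℚ r with e | e <;> rw [e]
    · exact padicNorm.one
    · rw [padicNorm.neg]; exact padicNorm.one
  rw [fztl_v, padicNorm.mul, h1, one_mul, SS]
  refine padicNorm.sum_le' (fun n hn => ?_) zero_le_one
  obtain ⟨hn0, hn1⟩ := mem_Ioo.1 hn
  have h2 : padicNorm p (n : ℚ) = 1 :=
    (padicNorm.nat_eq_one_iff n).2 (Nat.not_dvd_of_pos_of_lt hn0 hn1)
  rw [padicNorm.div, h2, div_one, padicNorm.mul]
  exact mul_le_one₀ (zeta_norm pp _ hn1) (padicNorm.nonneg _) (hp pp n hn1)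

theorem TT_lift {φ : ℕ → ℚ} (h : φ ∈ UU) :
    Lf fun p => TT (fun n => φ n / n) (p - 1) + SS φ p := by
  refine (lf_series (fztl_v φ) (fztl_mem h) (fztl_int h)).congr ?_
  exact Eventually.of_forall fun p pp => (fztl_eq φ pp.pos).symm
theorem TT_two {φ : ℕ → ℚ} (h : φ ∈ UU) :
    Cong 2 (fun p => TT (fun n => φ n / n) (p - 1) + SS φ p)
      fun p => p * SS (fun n => zeta [1] (n + 1) * φ n) p := by
  filter_upwards [fztl_int h] with p hp pp
  haveI : Fact p.Prime := ⟨pp⟩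
  obtain ⟨q, hq⟩ : ∃ q, p - 1 = q + 1 := ⟨p - 2, by have := pp.two_le; omega⟩
  have e0 : fztl_v φ 0 p = SS (fun n => zeta [1] (n + 1) * φ n) p := by
    rw [fztl_v, pow_zero, one_mul]; rfl
  have e1 : ∑ r ∈ range q, (p : ℚ) ^ (r + 1 + 1) * fztl_v φ (r + 1) p =
      (p : ℚ) ^ 2 * ∑ r ∈ range q, (p : ℚ) ^ r * fztl_v φ (r + 1) p := by
    rw [mul_sum]
    exact sum_congr rfl fun r _ => by ring
  have hpn : padicNorm p (p : ℚ) = (p : ℚ)⁻¹ := padicNorm.padicNorm_p pp.one_lt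
  have hpow : ∀ r : ℕ, padicNorm p ((p : ℚ) ^ r) = (p : ℚ)⁻¹ ^ r := by
    intro r
    induction r with
    | zero => simp
    | succ r ih => rw [pow_succ, padicNorm.mul, ih, hpn, pow_succ]
  have hp1 : (1 : ℚ) ≤ p := by exact_mod_cast pp.one_le
  rw [fztl_eq φ pp.pos, hq, sum_range_succ', e0, zero_add, pow_one, add_sub_cancel_right, e1,
    padicNorm.mul, hpow, inv_pow, one_div]
  refine mul_le_of_le_one_right (by positivity) (padicNorm.sum_le' (fun r _ => ?_) zero_le_one)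
  rw [padicNorm.mul, hpow]
  exact mul_le_one₀ (pow_le_one₀ (by positivity) (inv_le_one_of_one_le₀ hp1)) (padicNorm.nonneg _)
    (hp pp _)

end Pool.Agent.FMZ
end

-- part Pool.Agent.P.MP_cb43af_nt.FzSt
section

open Finset Filter Polynomial Topology
namespace Pool.Agent.FMZ

theorem fzst_zero (a : ℕ+) (k : List ℕ+) : zeta (a :: k) 0 = 0 := by simp [zeta]

theorem fzst_nil (n : ℕ) : zeta [] n = 1 := rfl

theorem fzst_succ (a : ℕ+) (k : List ℕ+) (n : ℕ) :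
    zeta (a :: k) (n + 1) = zeta (a :: k) n + zeta k n * (n : ℚ)⁻¹ ^ (a : ℕ) := by
  rw [zeta_succ, div_eq_mul_inv, inv_pow]

variable (M : ℕ)

theorem st_1_1 : zeta [1] M * zeta [1] M = 2 * zeta [1, 1] M + zeta [2] M := by
  induction M with
  | zero => simp only [fzst_zero]; ring
  | succ n ih =>
    simp only [fzst_succ, fzst_nil, PNat.val_ofNat]
    linear_combination ih

theorem st_1_2 : zeta [1] M * zeta [2] M = zeta [1, 2] M + zeta [2, 1] M + zeta [3] M := by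
  induction M with
  | zero => simp only [fzst_zero]; ring
  | succ n ih =>
    simp only [fzst_succ, fzst_nil, PNat.val_ofNat]
    linear_combination ih

theorem st_1_3 : zeta [1] M * zeta [3] M = zeta [1, 3] M + zeta [3, 1] M + zeta [4] M := by
  induction M with
  | zero => simp only [fzst_zero]; ring
  | succ n ih =>
    simp only [fzst_succ, fzst_nil, PNat.val_ofNat]
    linear_combination ih

theorem st_2_2 : zeta [2] M * zeta [2] M = 2 * zeta [2, 2] M + zeta [4] M := by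
  induction M with
  | zero => simp only [fzst_zero]; ring
  | succ n ih =>
    simp only [fzst_succ, fzst_nil, PNat.val_ofNat]
    linear_combination ih

theorem st_1_11 : zeta [1] M * zeta [1, 1] M
    = 3 * zeta [1, 1, 1] M + zeta [1, 2] M + zeta [2, 1] M := by
  induction M with
  | zero => simp only [fzst_zero]; ring
  | succ n ih =>
    simp only [fzst_succ, fzst_nil, PNat.val_ofNat]
    linear_combination ih + (n : ℚ)⁻¹ * st_1_1 n

theorem st_1_21 : zeta [1] M * zeta [2, 1] M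
    = zeta [1, 2, 1] M + 2 * zeta [2, 1, 1] M + zeta [3, 1] M + zeta [2, 2] M := by
  induction M with
  | zero => simp only [fzst_zero]; ring
  | succ n ih =>
    simp only [fzst_succ, fzst_nil, PNat.val_ofNat]
    linear_combination ih + (n : ℚ)⁻¹ ^ 2 * st_1_1 n

theorem st_1_12 : zeta [1] M * zeta [1, 2] M
    = 2 * zeta [1, 1, 2] M + zeta [1, 2, 1] M + zeta [2, 2] M + zeta [1, 3] M := by
  induction M with
  | zero => simp only [fzst_zero]; ring
  | succ n ih =>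
    simp only [fzst_succ, fzst_nil, PNat.val_ofNat]
    linear_combination ih + (n : ℚ)⁻¹ * st_1_2 n

theorem st_2_11 : zeta [2] M * zeta [1, 1] M = zeta [2, 1, 1] M + zeta [1, 2, 1] M
    + zeta [1, 1, 2] M + zeta [3, 1] M + zeta [1, 3] M := by
  induction M with
  | zero => simp only [fzst_zero]; ring
  | succ n ih =>
    simp only [fzst_succ, fzst_nil, PNat.val_ofNat]
    linear_combination ih + (n : ℚ)⁻¹ * st_1_2 n

theorem st_1_111 : zeta [1] M * zeta [1, 1, 1] M = 4 * zeta [1, 1, 1, 1] M + zeta [2, 1, 1] M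
    + zeta [1, 2, 1] M + zeta [1, 1, 2] M := by
  induction M with
  | zero => simp only [fzst_zero]; ring
  | succ n ih =>
    simp only [fzst_succ, fzst_nil, PNat.val_ofNat]
    linear_combination ih + (n : ℚ)⁻¹ * st_1_11 n


end Pool.Agent.FMZ
end

-- part Pool.Agent.P.MP_cb43af_nt.FzDu
section

open Finset Filter Polynomial Topology
namespace Pool.Agent.FMZ

theorem fzdu_ss {φ ψ : ℕ → ℚ} (h : ∀ n, 0 < n → φ n = ψ n) (M : ℕ) : SS φ M = SS ψ M :=
  sum_congr rfl fun n hn => by rw [h n (mem_Ioo.1 hn).1]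

theorem fzdu_tt {φ ψ : ℕ → ℚ} (h : ∀ n, 0 < n → φ n = ψ n) (M : ℕ) : TT φ M = TT ψ M :=
  sum_congr rfl fun n hn => by rw [h n (mem_Icc.1 hn).1]

theorem fzdu_add (φ ψ : ℕ → ℚ) (M : ℕ) : SS (fun n => φ n + ψ n) M = SS φ M + SS ψ M := by
  simp only [SS, add_div, sum_add_distrib]

theorem fzdu_pow (j : ℕ) (b : ℕ+) (hb : (b : ℕ) = j + 1) (k : List ℕ+) (M : ℕ) :
    SS (fun n => zeta k n / (n : ℚ) ^ j) M = zeta (b :: k) M := by
  rw [zeta, SS, hb]
  exact sum_congr rfl fun n _ => by rw [div_div, pow_succ]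

theorem fzdu_succ (j : ℕ) (a b c : ℕ+) (hb : (b : ℕ) = j + 1) (hc : (c : ℕ) = a + j + 1)
    (k : List ℕ+) (M : ℕ) :
    SS (fun n => zeta (a :: k) (n + 1) / (n : ℚ) ^ j) M = zeta (b :: a :: k) M + zeta (c :: k) M := by
  rw [← fzdu_pow j b hb, ← fzdu_pow (a + j) c hc, ← fzdu_add]
  exact fzdu_ss (fun n _ => by rw [zeta_succ, add_div, div_div, pow_add]) M

theorem fzdu_succ0 (a c : ℕ+) (hc : (c : ℕ) = a + 1) (k : List ℕ+) (M : ℕ) :
    SS (fun n => zeta (a :: k) (n + 1)) M = zeta (1 :: a :: k) M + zeta (c :: k) M := by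
  rw [← fzdu_succ 0 a 1 c rfl hc]; simp

theorem fzdu_one (j : ℕ) (b : ℕ+) (hb : (b : ℕ) = j + 1) (M : ℕ) :
    SS (fun n => 1 / (n : ℚ) ^ j) M = zeta [b] M := fzdu_pow j b hb [] M

variable (M : ℕ)

theorem fzdu_s0 : SS (fun _ => 1) M = zeta [1] M := by
  rw [← fzdu_one 0 1 rfl]; simp

theorem fzdu_t1 : TT (fun n => 1 / n) M = zeta [1] (M + 1) := by
  rw [TT_div (fun _ => 1), fzdu_ss (ψ := fun _ => 1) fun n hn => TT_one hn, fzdu_s0]

theorem fzdu_t2 : TT (fun n => 1 / (n : ℚ) ^ 1 / n) M = zeta [1, 1] (M + 1) + zeta [2] (M + 1) := by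
  rw [TT_div, fzdu_ss (ψ := fun n => zeta [1] (n + 1)) fun n _ => by
    rw [← fzdu_t1]; simp only [pow_one], fzdu_succ0 1 2 rfl]

theorem fzdu_t2' : TT (fun n => 1 / (n : ℚ) ^ 2) M = zeta [1, 1] (M + 1) + zeta [2] (M + 1) := by
  rw [← fzdu_t2]; exact fzdu_tt (fun n _ => by rw [div_div, ← pow_succ]) M

theorem fzdu_t3 : TT (fun n => 1 / (n : ℚ) ^ 2 / n) M
    = zeta [1, 1, 1] (M + 1) + zeta [2, 1] (M + 1) + (zeta [1, 2] (M + 1) + zeta [3] (M + 1)) := by
  rw [TT_div, fzdu_ss (fun n _ => fzdu_t2' n), fzdu_add, fzdu_succ0 1 2 rfl, fzdu_succ0 2 3 rfl]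

theorem du1 : TT (fun n => 1 / n) M + SS (fun _ => 1) (M + 1) = 2 * zeta [1] (M + 1) := by
  rw [fzdu_t1, fzdu_s0, two_mul]
theorem du2 : TT (fun n => 1 / (n : ℚ) ^ 1 / n) M + SS (fun n => 1 / (n : ℚ) ^ 1) (M + 1)
    = zeta [1, 1] (M + 1) + 2 * zeta [2] (M + 1) := by
  rw [fzdu_t2, fzdu_one 1 2 rfl]; ring
theorem du3 : TT (fun n => 1 / (n : ℚ) ^ 2 / n) M + SS (fun n => 1 / (n : ℚ) ^ 2) (M + 1)
    = zeta [1, 1, 1] (M + 1) + zeta [1, 2] (M + 1) + zeta [2, 1] (M + 1) + 2 * zeta [3] (M + 1) := by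
  rw [fzdu_t3, fzdu_one 2 3 rfl]; ring
theorem du4 : TT (fun n => 1 / (n : ℚ) ^ 3 / n) M + SS (fun n => 1 / (n : ℚ) ^ 3) (M + 1)
    = zeta [1, 1, 1, 1] (M + 1) + zeta [2, 1, 1] (M + 1) + zeta [1, 2, 1] (M + 1)
      + zeta [1, 1, 2] (M + 1) + zeta [2, 2] (M + 1) + zeta [3, 1] (M + 1) + zeta [1, 3] (M + 1)
      + 2 * zeta [4] (M + 1) := by
  rw [TT_div, fzdu_ss (ψ := fun n => zeta [1, 1, 1] (n + 1) + zeta [2, 1] (n + 1)
    + (zeta [1, 2] (n + 1) + zeta [3] (n + 1))) fun n _ => by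
      rw [← fzdu_t3]; exact fzdu_tt (fun n _ => by rw [div_div, ← pow_succ]) n,
    fzdu_add, fzdu_add, fzdu_add, fzdu_succ0 1 2 rfl, fzdu_succ0 2 3 rfl, fzdu_succ0 1 2 rfl,
    fzdu_succ0 3 4 rfl, fzdu_one 3 4 rfl]
  ring

theorem fzdu_h0 (hM : 0 < M) : TT (fun n => zeta [1] (n + 1)) M = 1 / (M : ℚ) ^ 1 := by
  rw [fzdu_tt (ψ := fun n => SS (fun _ => 1) (n + 1)) fun n _ => (fzdu_s0 _).symm, TT_sum,
    TT_one hM, pow_one]

theorem fzdu_h1 : TT (fun n => zeta [1] (n + 1) / n) M = zeta [2] (M + 1) := by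
  rw [TT_div, fzdu_ss fun n hn => fzdu_h0 n hn, fzdu_one 1 2 rfl]

theorem fzdu_h2 : TT (fun n => zeta [1] (n + 1) / (n : ℚ) ^ 2) M
    = zeta [1, 2] (M + 1) + zeta [3] (M + 1) := by
  rw [fzdu_tt (ψ := fun n => zeta [1] (n + 1) / n / n) fun n _ => by rw [div_div, sq], TT_div,
    fzdu_ss fun n _ => fzdu_h1 n, fzdu_succ0 2 3 rfl]

theorem du31 : TT (fun n => zeta [1] (n + 1) / (n : ℚ) ^ 2 / n) M
      + SS (fun n => zeta [1] (n + 1) / (n : ℚ) ^ 2) (M + 1)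
    = zeta [1, 1, 2] (M + 1) + zeta [2, 2] (M + 1) + zeta [1, 3] (M + 1) + zeta [3, 1] (M + 1)
      + 2 * zeta [4] (M + 1) := by
  rw [TT_div, fzdu_ss fun n _ => fzdu_h2 n, fzdu_add, fzdu_succ0 1 2 rfl, fzdu_succ0 3 4 rfl,
    fzdu_succ 2 1 3 4 rfl rfl]
  ring
theorem du13 : TT (fun n => zeta [3] (n + 1) / n) M + SS (fun n => zeta [3] (n + 1)) (M + 1)
    = zeta [2, 1, 1] (M + 1) + zeta [3, 1] (M + 1) + zeta [2, 2] (M + 1) + zeta [1, 3] (M + 1)
      + 2 * zeta [4] (M + 1) := by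
  rw [TT_div, fzdu_ss (ψ := fun n => zeta [1, 1] (n + 1) / (n : ℚ) ^ 1
    + zeta [2] (n + 1) / (n : ℚ) ^ 1) fun n _ => by
      rw [fzdu_tt (ψ := fun n => SS (fun n => 1 / (n : ℚ) ^ 2) (n + 1))
        fun n _ => (fzdu_one 2 3 rfl _).symm, TT_sum, fzdu_t2', add_div, pow_one],
    fzdu_add, fzdu_succ 1 1 2 3 rfl rfl, fzdu_succ 1 2 2 4 rfl rfl, fzdu_succ0 3 4 rfl]
  ring
theorem ss21 : SS (fun n => zeta [1] (n + 1) * (1 / (n : ℚ) ^ 1)) M
    = zeta [2, 1] M + zeta [3] M := by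
  rw [← fzdu_succ 1 1 2 3 rfl rfl]
  exact fzdu_ss (fun n _ => by ring) M

end Pool.Agent.FMZ
end

-- part Pool.Agent.P.MP_cb43af_nt.FzLow
section

open Finset Filter Polynomial Topology
namespace Pool.Agent.FMZ

theorem fzlow_du {φ x : ℕ → ℚ} (h : φ ∈ UU)
    (e : ∀ M, TT (fun n => φ n / n) M + SS φ (M + 1) = x (M + 1)) : Lf x := by
  refine (TT_lift h).congr (Eventually.of_forall fun p hp => ?_)
  have := e (p - 1)
  rwa [Nat.sub_add_cancel hp.one_le] at this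

theorem fzlow_lin {x y z : ℕ → ℚ} (hx : Lf x) (hy : Lf y) (q r : ℚ)
    (e : ∀ p, q * x p + r * y p = z p) : Lf z :=
  ((hx.smul q).add (hy.smul r)).congr (Eventually.of_forall fun p _ => e p)

theorem fzlow_st {k : List ℕ+} (l : List ℕ+) {z : ℕ → ℚ} (h : Lf (zeta k))
    (e : ∀ p, zeta k p * zeta l p = z p) : Lf z :=
  (h.mul (zeta_mem l)).congr (Eventually.of_forall fun p _ => e p)

theorem fzlow_one : (fun _ : ℕ => (1 : ℚ)) ∈ UU := VV_le_UU (zeta_mem [])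

theorem fzlow_1 : Lf (zeta [1]) := by
  have h := fzlow_du (x := fun p => 2 * zeta [1] p) fzlow_one du1
  exact fzlow_lin h h (1 / 2) 0 fun p => by ring

theorem fzlow_w2 : Lf (zeta [2]) ∧ Lf (zeta [1, 1]) := by
  have h1 := fzlow_du (x := fun p => zeta [1, 1] p + 2 * zeta [2] p) (UU_div fzlow_one 1) du2
  have h2 := fzlow_st [1] fzlow_1 st_1_1
  exact ⟨fzlow_lin h1 h2 (2 / 3) (-1 / 3) fun p => by ring,
    fzlow_lin h1 h2 (-1 / 3) (2 / 3) fun p => by ring⟩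

theorem fzlow_w3 : Lf (zeta [3]) ∧ Lf (zeta [1, 1, 1]) ∧
    Lf fun p => zeta [1, 2] p + zeta [2, 1] p := by
  have h1 := fzlow_du (x := fun p => zeta [1, 1, 1] p + zeta [1, 2] p + zeta [2, 1] p
    + 2 * zeta [3] p) (UU_div fzlow_one 2) du3
  have h2 := fzlow_st [2] fzlow_1 st_1_2
  have h3 := fzlow_st [1, 1] fzlow_1 st_1_11
  have h4 : Lf fun p => zeta [1, 1, 1] p + zeta [3] p := fzlow_lin h1 h2 1 (-1) fun p => by ring
  have h5 : Lf fun p => 3 * zeta [1, 1, 1] p - zeta [3] p :=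
    fzlow_lin h3 h2 1 (-1) fun p => by ring
  have h6 : Lf (zeta [3]) := fzlow_lin h4 h5 (3 / 4) (-1 / 4) fun p => by ring
  exact ⟨h6, fzlow_lin h4 h5 (1 / 4) (1 / 4) fun p => by ring,
    fzlow_lin h2 h6 1 (-1) fun p => by ring⟩

theorem fzlow_w4 : Lf (zeta [4]) ∧ Lf (zeta [3, 1]) ∧ Lf (zeta [1, 3]) ∧ Lf (zeta [2, 2]) ∧
    Lf (zeta [2, 1, 1]) ∧ Lf (zeta [1, 2, 1]) ∧ Lf (zeta [1, 1, 2]) ∧ Lf (zeta [1, 1, 1, 1]) := by
  have r1 := fzlow_st [3] fzlow_1 st_1_3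
  have r2 := fzlow_st [2] fzlow_w2.1 st_2_2
  have r3 := fzlow_st [2, 1] fzlow_1 st_1_21
  have r5 := fzlow_st [1, 1] fzlow_w2.1 st_2_11
  have r6 := fzlow_st [1, 1, 1] fzlow_1 st_1_111
  have r7 := fzlow_du (x := fun p => zeta [1, 1, 1, 1] p + zeta [2, 1, 1] p + zeta [1, 2, 1] p
    + zeta [1, 1, 2] p + zeta [2, 2] p + zeta [3, 1] p + zeta [1, 3] p + 2 * zeta [4] p)
    (UU_div fzlow_one 3) du4
  have r8 := fzlow_du (x := fun p => zeta [1, 1, 2] p + zeta [2, 2] p + zeta [1, 3] p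
    + zeta [3, 1] p + 2 * zeta [4] p) (UU_div (UU_succ [1]) 2) du31
  have r9 := fzlow_du (x := fun p => zeta [2, 1, 1] p + zeta [3, 1] p + zeta [2, 2] p
    + zeta [1, 3] p + 2 * zeta [4] p) (UU_succ [3]) du13
  have s1 : Lf fun p => zeta [2, 1, 1] p + zeta [1, 2, 1] p + zeta [1, 1, 2] p - zeta [4] p :=
    fzlow_lin r5 r1 1 (-1) fun p => by ring
  have s2 : Lf fun p => 4 * zeta [1, 1, 1, 1] p + zeta [4] p :=
    fzlow_lin r6 s1 1 (-1) fun p => by ring
  have s3 : Lf fun p => zeta [1, 1, 1, 1] p + zeta [2, 2] p + 2 * zeta [4] p :=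
    fzlow_lin r7 r5 1 (-1) fun p => by ring
  have s4 : Lf fun p => zeta [2, 2] p + 7 / 4 * zeta [4] p :=
    fzlow_lin s3 s2 1 (-1 / 4) fun p => by ring
  have a : Lf (zeta [4]) := fzlow_lin s4 r2 (4 / 5) (-2 / 5) fun p => by ring
  have c : Lf (zeta [2, 2]) := fzlow_lin r2 a (1 / 2) (-1 / 2) fun p => by ring
  have g : Lf (zeta [1, 1, 1, 1]) := fzlow_lin s2 a (1 / 4) (-1 / 4) fun p => by ring
  have s5 : Lf fun p => zeta [2, 2] p + zeta [1, 3] p + zeta [3, 1] p + 2 * zeta [4] p :=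
    fzlow_lin (r1.add c) a 1 1 fun p => by ring
  have d2 : Lf (zeta [1, 1, 2]) := fzlow_lin r8 s5 1 (-1) fun p => by ring
  have d1 : Lf (zeta [2, 1, 1]) := fzlow_lin r9 s5 1 (-1) fun p => by ring
  have e : Lf (zeta [1, 2, 1]) := fzlow_lin (s1.add a) (d1.add d2) 1 (-1) fun p => by ring
  have b1 : Lf (zeta [3, 1]) :=
    fzlow_lin r3 (((e.add d1).add d1).add c) 1 (-1) fun p => by ring
  have b2 : Lf (zeta [1, 3]) := fzlow_lin r1 (b1.add a) 1 (-1) fun p => by ring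
  exact ⟨a, b1, b2, c, d1, e, d2, g⟩

theorem fzlow_zero {k : List ℕ+} (h : Lf (zeta k)) :
    ∃ α β : ℚ, Lf fun p => zeta k p - (α + β * zeta [2, 1] p) :=
  ⟨0, 0, fzlow_lin h h 1 0 fun p => by ring⟩

theorem fzlow_cases (a : ℕ+) (h : (a : ℕ) ≤ 4) : a = 1 ∨ a = 2 ∨ a = 3 ∨ a = 4 := by
  have h0 := a.pos
  have : (a : ℕ) = 1 ∨ (a : ℕ) = 2 ∨ (a : ℕ) = 3 ∨ (a : ℕ) = 4 := by omega
  rcases this with e | e | e | e
  · exact Or.inl (PNat.eq e)
  · exact Or.inr (Or.inl (PNat.eq e))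
  · exact Or.inr (Or.inr (Or.inl (PNat.eq e)))
  · exact Or.inr (Or.inr (Or.inr (PNat.eq e)))

theorem fzlow_wt (a : ℕ+) (k : List ℕ+) : wt (a :: k) = a + wt k := by simp [wt]

theorem fzlow_wt0 : wt [] = 0 := by simp [wt]

theorem low_main (k : List ℕ+) (hk : wt k ≤ 4) :
    ∃ α β : ℚ, Lf fun p => zeta k p - (α + β * zeta [2, 1] p) := by
  obtain ⟨h2, h11⟩ := fzlow_w2
  obtain ⟨h3, h111, h12⟩ := fzlow_w3
  obtain ⟨h4, h31, h13, h22, h211, h121, h112, h1111⟩ := fzlow_w4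
  have h1 := fzlow_1
  have h12' : ∃ α β : ℚ, Lf fun p => zeta [1, 2] p - (α + β * zeta [2, 1] p) :=
    ⟨0, -1, fzlow_lin h12 h12 1 0 fun p => by ring⟩
  have h21' : ∃ α β : ℚ, Lf fun p => zeta [2, 1] p - (α + β * zeta [2, 1] p) :=
    ⟨0, 1, Lf.zero.congr (Eventually.of_forall fun p _ => by ring)⟩
  rcases k with _ | ⟨a, _ | ⟨b, _ | ⟨c, _ | ⟨d, _ | ⟨e, l⟩⟩⟩⟩⟩ <;>
    simp only [fzlow_wt, fzlow_wt0] at hk
  · exact ⟨1, 0, Lf.zero.congr (Eventually.of_forall fun p _ => by simp [zeta])⟩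
  · rcases fzlow_cases a (by omega) with rfl | rfl | rfl | rfl <;>
      exact fzlow_zero (by assumption)
  · rcases fzlow_cases a (by omega) with rfl | rfl | rfl | rfl <;>
      rcases fzlow_cases b (by omega) with rfl | rfl | rfl | rfl <;>
      first
        | exact absurd hk (by decide)
        | exact fzlow_zero (by assumption)
        | exact h12'
        | exact h21'
  · rcases fzlow_cases a (by omega) with rfl | rfl | rfl | rfl <;>
      rcases fzlow_cases b (by omega) with rfl | rfl | rfl | rfl <;>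
      rcases fzlow_cases c (by omega) with rfl | rfl | rfl | rfl <;>
      first
        | exact absurd hk (by decide)
        | exact fzlow_zero (by assumption)
  · have := a.pos
    have := b.pos
    have := c.pos
    have := d.pos
    obtain rfl : a = 1 := PNat.eq (by change (a : ℕ) = 1; omega)
    obtain rfl : b = 1 := PNat.eq (by change (b : ℕ) = 1; omega)
    obtain rfl : c = 1 := PNat.eq (by change (c : ℕ) = 1; omega)
    obtain rfl : d = 1 := PNat.eq (by change (d : ℕ) = 1; omega)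
    exact fzlow_zero h1111
  · have := a.pos
    have := b.pos
    have := c.pos
    have := d.pos
    have := e.pos
    omega

theorem two_cong : Cong 2 (fun p => 3 / 2 * zeta [2] p) fun p => p * zeta [2, 1] p := by
  have h := ((TT_two (UU_div fzlow_one 1)).add (fzlow_1.cong.sq.smul (-1 / 2))).add
    fzlow_w3.1.cong.mulp
  filter_upwards [h] with p hp hq
  have e := du2 (p - 1)
  rw [Nat.sub_add_cancel hq.one_le] at e
  have h1 := hp hq
  rw [e, ss21, st_1_1] at h1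
  convert h1 using 2
  simp only [Pi.zero_apply]
  ring

end Pool.Agent.FMZ
end

-- part Pool.Agent.P.MP_cb43af_nt.FzLink
section

open Finset Filter Polynomial Topology
namespace Pool.Agent.FMZ

theorem fzlink_ne {p : ℕ} [hp : Fact p.Prime] {k : ℕ} (h0 : 0 < k) (hk : k < p) :
    ((k : ℕ) : ZMod p) ≠ 0 := fun h =>
  absurd (Nat.le_of_dvd h0 ((ZMod.natCast_eq_zero_iff k p).1 h)) (by omega)

theorem fzlink_phi {p : ℕ} [hp : Fact p.Prime] (h5 : 5 ≤ p)
    (h : padicNorm p (zeta [2] p) ≤ 1 / p) :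
    2 * 1728 * (FF p 3 - FF p 2) = -15 * ((zeta [2] p / p : ℚ) : ZMod p) := by
  have h2 : (2 : ZMod p) ≠ 0 := by exact_mod_cast fzlink_ne (p := p) (k := 2) (by omega) (by omega)
  have h3 : (3 : ZMod p) ≠ 0 := by exact_mod_cast fzlink_ne (p := p) (k := 3) (by omega) (by omega)
  have h4 : (4 : ZMod p) ≠ 0 := by exact_mod_cast fzlink_ne (p := p) (k := 4) (by omega) (by omega)
  have h12 : (12 : ZMod p) ≠ 0 := by
    rw [show (12 : ZMod p) = 3 * 4 by norm_num]; exact mul_ne_zero h3 h4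
  have v2 := voronoi h5 (d := 2) (by omega) (by omega) h
  have v3 := voronoi h5 (d := 3) (by omega) (by omega) h
  have v4 := voronoi h5 (d := 4) (by omega) (by omega) h
  rw [show Ioo 0 2 = ({1} : Finset ℕ) by decide, sum_singleton] at v2
  rw [show Ioo 0 3 = ({1, 2} : Finset ℕ) by decide, sum_insert (by decide), sum_singleton] at v3
  rw [show Ioo 0 4 = ({1, 2, 3} : Finset ℕ) by decide, sum_insert (by decide),
    sum_insert (by decide), sum_singleton] at v4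
  push_cast at v2 v3 v4
  have e3 : -(2 : ZMod p) * (3 : ZMod p)⁻¹ = -1 - (-1 * (3 : ZMod p)⁻¹) := by
    field_simp; norm_num
  have e4 : -(3 : ZMod p) * (4 : ZMod p)⁻¹ = -1 - (-1 * (4 : ZMod p)⁻¹) := by
    field_simp; norm_num
  have e5 : -(2 : ZMod p) * (4 : ZMod p)⁻¹ = -1 * (2 : ZMod p)⁻¹ := by
    field_simp; norm_num
  rw [e3, phi_refl h5] at v3
  rw [e4, phi_refl h5, e5] at v4
  have f3 : ((3 : ZMod p) - 6) * (12 : ZMod p)⁻¹ = -1 * (4 : ZMod p)⁻¹ := by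
    field_simp; norm_num
  have f2 : ((2 : ZMod p) - 6) * (12 : ZMod p)⁻¹ = -1 * (3 : ZMod p)⁻¹ := by
    field_simp; norm_num
  have i12 : (1728 : ZMod p) * ((12 : ZMod p)⁻¹) ^ 3 = 1 := by
    field_simp; norm_num
  unfold FF
  rw [f3, f2]
  generalize Phi p (-1 * (4 : ZMod p)⁻¹) = A at *
  generalize Phi p (-1 * (3 : ZMod p)⁻¹) = B at *
  generalize Phi p (-1 * (2 : ZMod p)⁻¹) = C at *
  generalize ((zeta [2] p / p : ℚ) : ZMod p) = W at *
  apply mul_left_cancel₀ h2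
  linear_combination (4 * (A - B)) * i12 + v4 - v2 - v3

theorem link (r : ℚ) : ∀ᶠ p in atTop, Nat.Prime p →
    padicNorm p (zeta [2, 1] p - r) ≤ 1 / p → Hp (-5 * r.num) (1728 * r.den) p := by
  filter_upwards [two_cong, rat_int r, rat_int (2 / 3), eventually_ge_atTop 5]
    with p hc hr h23 h5 hp hz
  have : Fact p.Prime := ⟨hp⟩
  have hc := hc hp
  have hr := hr hp
  have h23 := h23 hp
  have hp0 : (0 : ℚ) < p := by exact_mod_cast hp.pos
  have hp1 : (1 : ℚ) / p ≤ 1 := by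
    rw [div_le_one hp0]; exact_mod_cast hp.one_le
  have hpn : padicNorm p (p : ℚ) = 1 / p := by
    rw [padicNorm.padicNorm_p hp.one_lt, one_div]
  have hZ : padicNorm p (zeta [2, 1] p) ≤ 1 := zeta_norm hp _ le_rfl
  set Z := zeta [2, 1] p with hZd
  set W : ℚ := zeta [2] p / p with hWd
  have hzW : zeta [2] p = p * W := by rw [hWd]; field_simp
  have k1 : padicNorm p (3 / 2 * W - Z) ≤ 1 / p := by
    have e : 3 / 2 * zeta [2] p - p * Z = p * (3 / 2 * W - Z) := by rw [hzW]; ring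
    rw [e, padicNorm.mul, hpn, pow_two, ← one_div_mul_one_div] at hc
    exact le_of_mul_le_mul_left hc (by positivity)
  have k2 : padicNorm p (3 / 2 * W) ≤ 1 := by
    have := padicNorm.nonarchimedean (p := p) (q := 3 / 2 * W - Z) (r := Z)
    rw [sub_add_cancel] at this
    exact this.trans (max_le (k1.trans hp1) hZ)
  have k3 : padicNorm p W ≤ 1 := by
    rw [show W = 2 / 3 * (3 / 2 * W) by ring, padicNorm.mul]
    exact mul_le_one₀ h23 (padicNorm.nonneg _) k2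
  have k4 : padicNorm p (zeta [2] p) ≤ 1 / p := by
    rw [hzW, padicNorm.mul, hpn]
    exact mul_le_of_le_one_right (by positivity) k3
  have n2 : padicNorm p (2 : ℚ) ≤ 1 := by exact_mod_cast padicNorm.of_nat (p := p) 2
  have n3 : padicNorm p (3 : ℚ) ≤ 1 := by exact_mod_cast padicNorm.of_nat (p := p) 3
  have m3 : padicNorm p (3 * W) ≤ 1 := by
    rw [padicNorm.mul]; exact mul_le_one₀ n3 (padicNorm.nonneg _) k3
  have m2 : padicNorm p (2 * Z) ≤ 1 := by
    rw [padicNorm.mul]; exact mul_le_one₀ n2 (padicNorm.nonneg _) hZ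
  have k5 : padicNorm p (3 * W - 2 * Z) ≤ 1 / p := by
    rw [show 3 * W - 2 * Z = 2 * (3 / 2 * W - Z) by ring, padicNorm.mul]
    exact (mul_le_of_le_one_left (padicNorm.nonneg _) n2).trans k1
  have k6 := (red_zero (k5.trans hp1)).2 k5
  rw [red_sub m3 m2, red_mul n3 k3, red_mul n2 hZ] at k6
  have k7 := (red_zero (hz.trans hp1)).2 hz
  rw [red_sub hZ hr] at k7
  have k8 : ((r.den : ℕ) : ZMod p) * (r : ZMod p) = r.num := by
    rw [Rat.cast_def, mul_div_cancel₀ _ (red_den.1 hr)]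
  have k9 := fzlink_phi h5 k4
  rw [← hWd] at k9
  have h2 : (2 : ZMod p) ≠ 0 := by exact_mod_cast fzlink_ne (p := p) (k := 2) (by omega) (by omega)
  unfold Hp
  push_cast at k6 ⊢
  apply mul_left_cancel₀ h2
  linear_combination (r.den : ZMod p) * k9 - 5 * (r.den : ZMod p) * k6
    - 10 * (r.den : ZMod p) * k7 - 10 * k8

end Pool.Agent.FMZ
end

-- part Pool.Agent.P.MP_cb43af_nt.FvLink
section

open Finset Filter Polynomial Topology
namespace Pool.Agent.FMZ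

theorem fvlink_mul {x y : ℕ → ℚ} (h : Cong 1 x 0) (h' : Cong 1 y 0) :
    Cong 2 (fun p => x p * y p) 0 := by
  filter_upwards [h, h'] with p h h' hp
  have h1 := h hp
  have h2 := h' hp
  simp only [Pi.zero_apply, sub_zero, pow_one] at h1 h2 ⊢
  rw [pow_two, ← one_div_mul_one_div]
  exact fzint_mul hp h1 h2

theorem fvlink_five : Cong 1 (zeta [5]) 0 := by
  filter_upwards [eventually_ge_atTop 7] with p h7 hp
  have : Fact p.Prime := ⟨hp⟩
  simp only [Pi.zero_apply, sub_zero, pow_one]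
  refine (red_zero (zeta_norm hp _ le_rfl)).1 ?_
  have h0 : Phi5 p (-1) = 0 := by
    have := phi5_refl h7 (0 : ZMod p)
    rw [sub_zero] at this
    rw [this]
    simp [Phi5]
  have hv : (-1 : ZMod p).val = p - 1 := by
    obtain ⟨n, rfl⟩ : ∃ n, p = n + 1 := ⟨p - 1, by omega⟩
    exact ZMod.val_neg_one n
  have e : zeta [5] p = ∑ j ∈ Ioo 0 p, ((1 : ℤ) : ℚ) / (((j : ℕ) : ℤ) : ℚ) ^ 5 := by
    simp [zeta]
  have hj : ∀ j ∈ Ioo 0 p, ¬ (p : ℤ) ∣ ((j : ℕ) : ℤ) := fun j hj h => by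
    have := mem_Ioo.1 hj
    exact absurd (Nat.le_of_dvd this.1 (Int.natCast_dvd_natCast.1 h)) (by omega)
  rw [e, red_sum _ _ fun (j : ℕ) h => (red_div 1 j 5 (hj j h)).1, ← h0, Phi5, hv,
    show Icc 1 (p - 1) = Ioo 0 p by ext j; simp only [mem_Icc, mem_Ioo]; omega]
  refine sum_congr rfl fun j h => ?_
  rw [(red_div 1 j 5 (hj j h)).2]
  simp

theorem four_cong : Cong 2 (fun p => 5 / 4 * zeta [4] p) fun p => p * zeta [4, 1] p := by
  have a1 := (fvlink_mul fzlow_1.cong fzlow_w3.2.1.cong).smul (-1 / 4)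
  have a2 := (fvlink_mul fzlow_w2.1.cong fzlow_w2.2.cong).smul (-3 / 4)
  have a3 := (fvlink_mul fzlow_w2.1.cong fzlow_w2.1.cong).smul (-1 / 2)
  have a4 := (fvlink_mul fzlow_1.cong fzlow_w3.1.cong).smul (-1 / 4)
  have h := (((((TT_two (UU_div fzlow_one 3)).add a1).add a2).add a3).add a4).add fvlink_five.mulp
  filter_upwards [h] with p hp hq
  have e := du4 (p - 1)
  rw [Nat.sub_add_cancel hq.one_le] at e
  have h1 := hp hq
  have e' : SS (fun n => zeta [1] (n + 1) * (1 / (n : ℚ) ^ 3)) p = zeta [4, 1] p + zeta [5] p := by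
    rw [← fzdu_succ 3 1 4 5 rfl rfl]
    exact fzdu_ss (fun n _ => by ring) p
  rw [e, e', st_1_111, st_2_11, st_2_2, st_1_3] at h1
  refine le_of_eq_of_le (congrArg _ ?_) h1
  simp only [Pi.zero_apply]
  ring

theorem fvlink_red {p : ℕ} [hp : Fact p.Prime] {u v : ℕ} (hu : u ≠ 0) (hv : v ≠ 0) {z Z : ℚ}
    (hZ : padicNorm p Z ≤ 1) (hc : padicNorm p (u / v * z - p * Z) ≤ 1 / (p : ℚ) ^ 2)
    (h23 : padicNorm p (v / u : ℚ) ≤ 1) :
    padicNorm p z ≤ 1 / p ∧ (u : ZMod p) * ((z / p : ℚ) : ZMod p) = v * (Z : ZMod p) := by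
  have hp0 : (0 : ℚ) < p := by exact_mod_cast hp.out.pos
  have hu0 : (u : ℚ) ≠ 0 := by exact_mod_cast hu
  have hv0 : (v : ℚ) ≠ 0 := by exact_mod_cast hv
  have hp1 : (1 : ℚ) / p ≤ 1 := by
    rw [div_le_one hp0]; exact_mod_cast hp.out.one_le
  have hpn : padicNorm p (p : ℚ) = 1 / p := by
    rw [padicNorm.padicNorm_p hp.out.one_lt, one_div]
  set W : ℚ := z / p with hWd
  have hzW : z = p * W := by rw [hWd]; field_simp
  have k1 : padicNorm p (u / v * W - Z) ≤ 1 / p := by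
    have e : u / v * z - p * Z = p * (u / v * W - Z) := by rw [hzW]; ring
    rw [e, padicNorm.mul, hpn, pow_two, ← one_div_mul_one_div] at hc
    exact le_of_mul_le_mul_left hc (by positivity)
  have k2 : padicNorm p (u / v * W) ≤ 1 := by
    have := padicNorm.nonarchimedean (p := p) (q := u / v * W - Z) (r := Z)
    rw [sub_add_cancel] at this
    exact this.trans (max_le (k1.trans hp1) hZ)
  have k3 : padicNorm p W ≤ 1 := by
    rw [show W = v / u * (u / v * W) by field_simp, padicNorm.mul]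
    exact mul_le_one₀ h23 (padicNorm.nonneg _) k2
  have k4 : padicNorm p z ≤ 1 / p := by
    rw [hzW, padicNorm.mul, hpn]
    exact mul_le_of_le_one_right (by positivity) k3
  have n2 : padicNorm p (v : ℚ) ≤ 1 := padicNorm.of_nat (p := p) v
  have n3 : padicNorm p (u : ℚ) ≤ 1 := padicNorm.of_nat (p := p) u
  have m3 : padicNorm p (u * W) ≤ 1 := by
    rw [padicNorm.mul]; exact mul_le_one₀ n3 (padicNorm.nonneg _) k3
  have m2 : padicNorm p (v * Z) ≤ 1 := by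
    rw [padicNorm.mul]; exact mul_le_one₀ n2 (padicNorm.nonneg _) hZ
  have k5 : padicNorm p (u * W - v * Z) ≤ 1 / p := by
    rw [show u * W - v * Z = v * (u / v * W - Z) by field_simp, padicNorm.mul]
    exact (mul_le_of_le_one_left (padicNorm.nonneg _) n2).trans k1
  have k6 := (red_zero (k5.trans hp1)).2 k5
  rw [red_sub m3 m2, red_mul n3 k3, red_mul n2 hZ, Rat.cast_natCast, Rat.cast_natCast] at k6
  exact ⟨k4, sub_eq_zero.1 k6⟩

theorem link3 : ∀ᶠ p in atTop, ∀ [Fact (Nat.Prime p)],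
    1728 * (FF p 3 - FF p 2) = -5 * ((zeta [2, 1] p : ℚ) : ZMod p) := by
  filter_upwards [two_cong, rat_int (2 / 3), eventually_ge_atTop 5] with p hc h23 h5 hp
  obtain ⟨k4, k6⟩ := fvlink_red (p := p) (u := 3) (v := 2) (by omega) (by omega)
    (zeta_norm hp.out [2, 1] le_rfl) (by exact_mod_cast hc hp.out) (by exact_mod_cast h23 hp.out)
  have k9 := fzlink_phi h5 k4
  have h2 : (2 : ZMod p) ≠ 0 := by exact_mod_cast fzlink_ne (p := p) (k := 2) (by omega) (by omega)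
  apply mul_left_cancel₀ h2
  rw [Nat.cast_ofNat, Nat.cast_ofNat] at k6
  linear_combination k9 - 5 * k6

theorem link4 : ∀ᶠ p in atTop, ∀ [Fact (Nat.Prime p)],
    12 ^ 5 * (FF5 p 3 - FF5 p 2) = -75 * ((zeta [4, 1] p : ℚ) : ZMod p) := by
  filter_upwards [four_cong, rat_int (4 / 5), eventually_ge_atTop 7] with p hc h23 h7 hp
  obtain ⟨k4, k6⟩ := fvlink_red (p := p) (u := 5) (v := 4) (by omega) (by omega)
    (zeta_norm hp.out [4, 1] le_rfl) (by exact_mod_cast hc hp.out) (by exact_mod_cast h23 hp.out)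
  have k9 := ff5_val h7 k4
  have h4 : (4 : ZMod p) ≠ 0 := by exact_mod_cast fzlink_ne (p := p) (k := 4) (by omega) (by omega)
  apply mul_left_cancel₀ h4
  rw [Nat.cast_ofNat, Nat.cast_ofNat] at k6
  linear_combination k9 - 75 * k6

theorem link5 (α β γ : ℤ) : ∀ᶠ p in atTop, Nat.Prime p →
    padicNorm p (β * zeta [2, 1] p + γ * zeta [4, 1] p - α) ≤ 1 / p →
      Hp5 (-75 * α) (15 * 1728 * β) (12 ^ 5 * γ) p := by
  filter_upwards [link3, link4] with p h3 h4 hp hz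
  have : Fact p.Prime := ⟨hp⟩
  have h3 := @h3 this
  have h4 := @h4 this
  have hp0 : (0 : ℚ) < p := by exact_mod_cast hp.pos
  have hp1 : (1 : ℚ) / p ≤ 1 := by
    rw [div_le_one hp0]; exact_mod_cast hp.one_le
  have z1 : padicNorm p (zeta [2, 1] p) ≤ 1 := zeta_norm hp _ le_rfl
  have z2 : padicNorm p (zeta [4, 1] p) ≤ 1 := zeta_norm hp _ le_rfl
  have m1 : padicNorm p (β * zeta [2, 1] p) ≤ 1 := by
    rw [padicNorm.mul]; exact mul_le_one₀ (padicNorm.of_int β) (padicNorm.nonneg _) z1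
  have m2 : padicNorm p (γ * zeta [4, 1] p) ≤ 1 := by
    rw [padicNorm.mul]; exact mul_le_one₀ (padicNorm.of_int γ) (padicNorm.nonneg _) z2
  have k := (red_zero (hz.trans hp1)).2 hz
  rw [red_sub (padicNorm.nonarchimedean.trans (max_le m1 m2)) (padicNorm.of_int α), red_add m1 m2,
    red_mul (padicNorm.of_int β) z1, red_mul (padicNorm.of_int γ) z2, Rat.cast_intCast,
    Rat.cast_intCast, Rat.cast_intCast] at k
  unfold Hp5 GG
  push_cast
  linear_combination 15 * (β : ZMod p) * h3 + (γ : ZMod p) * h4 - 75 * k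

end Pool.Agent.FMZ
end

-- part Pool.Agent.P.MP_cb43af_nt.FvRel
section

open Finset Filter Polynomial Topology
namespace Pool.Agent.FMZ

/-- words in the two operators exchanged by `TT` -/
def EW : List Bool → ℕ → ℚ
  | [], _ => 1
  | true :: w, n => EW w n / n
  | false :: w, n => SS (EW w) (n + 1)

theorem EW_realize : True := by have := @EW.eq_def; trivial

def exw : List Bool → List (ℕ × List ℕ+)
  | [] => [(0, [])]
  | true :: w => (exw w).map fun t => (t.1 + 1, t.2)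
  | false :: w => ((exw w).map fun t => (0, t.1.succPNat :: t.2))
      ++ (exw w).map fun t => (t.1 + 1, t.2)

theorem exw_realize : True := by have := @exw.eq_def; trivial

/-- the stuffle product -/
def stl : ℕ → List ℕ+ → List ℕ+ → List (List ℕ+)
  | 0, _, _ => []
  | _ + 1, [], l => [l]
  | _ + 1, a :: k, [] => [a :: k]
  | N + 1, a :: k, b :: l => (stl N k (b :: l)).map (a :: ·) ++ ((stl N (a :: k) l).map (b :: ·)
      ++ (stl N k l).map ((a + b) :: ·))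

theorem stl_realize : True := by have := @stl.eq_def; trivial

/-- all indices of weight `N + 1` -/
def cps : ℕ → List (List ℕ+)
  | 0 => [[1]]
  | N + 1 => (cps N).map (1 :: ·) ++ (cps N).map fun k => k.modifyHead (· + 1)

theorem cps_realize : True := by have := @cps.eq_def; trivial

def dl (w : List Bool) : List (List ℕ+) :=
  (exw (w.map not) ++ exw w).map fun t => t.1.succPNat :: t.2

def zs (L : List (List ℕ+)) (M : ℕ) : ℚ := (L.map fun k => zeta k M).sum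

theorem zs_append (L L' : List (List ℕ+)) (M : ℕ) : zs (L ++ L') M = zs L M + zs L' M := by
  simp [zs]

theorem zs_cons (a : ℕ+) (L : List (List ℕ+)) (M : ℕ) :
    zs (L.map (a :: ·)) M = ∑ n ∈ Ioo 0 M, zs L n / (n : ℚ) ^ (a : ℕ) := by
  induction L with
  | nil => simp [zs]
  | cons k L ih =>
    simp only [zs, List.map_cons, List.sum_cons, add_div, sum_add_distrib] at ih ⊢
    rw [ih, fzstuf_cons]

theorem stl_spec : ∀ (N : ℕ) (k l : List ℕ+), k.length + l.length < N → ∀ M,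
    zeta k M * zeta l M = zs (stl N k l) M
  | 0, _, _, h, _ => absurd h (Nat.not_lt_zero _)
  | _ + 1, [], l, _, M => by simp [stl, zs, fzstuf_nil]
  | _ + 1, a :: k, [], _, M => by simp [stl, zs, fzstuf_nil]
  | N + 1, a :: k, b :: l, h, M => by
    simp only [List.length_cons] at h
    rw [stl, zs_append, zs_append, zs_cons, zs_cons, zs_cons, st_rec, ← sum_add_distrib,
      ← sum_add_distrib]
    refine sum_congr rfl fun n _ => ?_
    rw [stl_spec N k (b :: l) (by simp only [List.length_cons]; omega),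
      stl_spec N (a :: k) l (by simp only [List.length_cons]; omega), stl_spec N k l (by omega),
      PNat.add_coe, add_assoc]

theorem TT_EW : ∀ (w : List Bool) (M : ℕ), 0 < M → TT (EW w) M = EW (w.map not) M
  | [], _, h => TT_one h
  | true :: w, M, _ => (TT_div (EW w) M).trans (fzdu_ss (fun n hn => TT_EW w n hn) _)
  | false :: w, M, h => (TT_sum (EW w) M).trans (by rw [TT_EW w M h]; rfl)

theorem fvrel_ss (L : List (ℕ × List ℕ+)) (M : ℕ) :
    SS (fun n => (L.map fun t => zeta t.2 n / (n : ℚ) ^ t.1).sum) M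
      = zs (L.map fun t => t.1.succPNat :: t.2) M := by
  induction L with
  | nil => simp [SS, zs]
  | cons t L ih =>
    simp only [zs, List.map_cons, List.sum_cons] at ih ⊢
    rw [fzdu_add, ih, fzdu_pow t.1 t.1.succPNat rfl]

theorem EW_eq : ∀ w : List Bool,
    EW w = fun n => ((exw w).map fun t => zeta t.2 n / (n : ℚ) ^ t.1).sum
  | [] => by funext n; simp [EW, exw, fzstuf_nil]
  | true :: w => by
    funext n
    rw [EW, EW_eq w, exw, List.map_map, div_eq_mul_inv, ← List.sum_map_mul_right]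
    congr 2
    funext t
    simp only [Function.comp]
    rw [pow_succ, ← div_div, div_eq_mul_inv (_ / _)]
  | false :: w => by
    funext n
    rw [EW, EW_eq w, fvrel_ss, exw, List.map_append, List.sum_append, zs, List.map_map,
      List.map_map, List.map_map, ← List.sum_map_add]
    congr 2
    funext t
    simp only [Function.comp]
    rw [zeta_succ, pow_zero, div_one]
    rfl

theorem EW_mem (w : List Bool) : EW w ∈ UU := by
  rw [EW_eq]
  induction exw w with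
  | nil => exact UU.zero_mem
  | cons t L ih => exact UU.add_mem (Submodule.subset_span ⟨(t.2, t.1), rfl⟩) ih

theorem du_lf (w : List Bool) : Lf (zs (dl w)) :=
  fzlow_du (EW_mem w) fun M => by
    rw [TT_div, fzdu_ss (fun n hn => TT_EW w n hn), EW_eq, EW_eq, fvrel_ss, fvrel_ss, dl,
      List.map_append, zs_append]

theorem st_lf {k : List ℕ+} (h : Lf (zeta k)) (l : List ℕ+) (hl : k.length + l.length < 9) :
    Lf (zs (stl 9 k l)) := fzlow_st l h (stl_spec 9 k l hl)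

theorem cps_mem : ∀ (N : ℕ) (k : List ℕ+), wt k = N + 1 → k ∈ cps N
  | _, [], h => by simp [wt] at h
  | 0, a :: k, h => by
    rw [fzlow_wt] at h
    have := a.pos
    obtain rfl : a = 1 := PNat.eq (by change (a : ℕ) = 1; omega)
    rcases k with _ | ⟨b, k⟩
    · simp [cps]
    · rw [fzlow_wt] at h
      have := b.pos
      omega
  | N + 1, a :: k, h => by
    rw [fzlow_wt] at h
    rw [cps, List.mem_append, List.mem_map, List.mem_map]
    rcases eq_or_ne a 1 with rfl | ha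
    · exact Or.inl ⟨k, cps_mem N k (by rw [PNat.one_coe] at h; omega), rfl⟩
    · obtain ⟨b, rfl⟩ := PNat.exists_eq_succ_of_ne_one ha
      refine Or.inr ⟨b :: k, cps_mem N _ ?_, rfl⟩
      rw [PNat.add_coe, PNat.one_coe] at h
      rw [fzlow_wt]
      omega

/-- membership in `p` times the completed algebra is tested by linear forms -/
theorem lf_dual {x : ℕ → ℚ}
    (h : ∀ φ : (ℕ → ℚ) →ₗ[ℚ] ℚ, (∀ y, Lf y → φ y = 0) → φ x = 0) : Lf x := by
  let H : Submodule ℚ (ℕ → ℚ) :=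
    { carrier := {y | Lf y}
      add_mem' := fun ha hb => Lf.add ha hb
      zero_mem' := Lf.zero
      smul_mem' := fun q _ hy => Lf.smul hy q }
  exact (Subspace.forall_mem_dualAnnihilator_apply_eq_zero_iff H x).1 fun φ hφ =>
    h φ fun y hy => (Submodule.mem_dualAnnihilator φ).1 hφ y hy

theorem phi_zs (φ : (ℕ → ℚ) →ₗ[ℚ] ℚ) (L : List (List ℕ+)) :
    φ (zs L) = (L.map fun k => φ (zeta k)).sum := by
  induction L with
  | nil => exact φ.map_zero
  | cons k L ih =>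
    rw [List.map_cons, List.sum_cons, ← ih, ← φ.map_add]
    rfl

/-- the relations satisfied by the values of a linear form that kills the ideal -/
structure Rl (x : List ℕ+ → ℚ) : Prop where
  du : ∀ w, ((dl w).map x).sum = 0
  st : ∀ k, Lf (zeta k) → ∀ l, k.length + l.length < 9 → ((stl 9 k l).map x).sum = 0
  s3 : ∀ l : List ℕ+, l.length < 7 →
    ((stl 9 [1, 2] l).map x).sum + ((stl 9 [2, 1] l).map x).sum = 0

theorem rl_of {φ : (ℕ → ℚ) →ₗ[ℚ] ℚ} (h : ∀ y, Lf y → φ y = 0) : Rl fun k => φ (zeta k) where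
  du w := by rw [← phi_zs]; exact h _ (du_lf w)
  st k hk l hl := by rw [← phi_zs]; exact h _ (st_lf hk l hl)
  s3 l hl := by
    rw [← phi_zs, ← phi_zs, ← φ.map_add]
    refine h _ ((fzlow_w3.2.2.mul (zeta_mem l)).congr (Eventually.of_forall fun p _ => ?_))
    rw [Pi.add_apply, ← stl_spec 9 _ l (by simp only [List.length_cons, List.length_nil]; omega),
      ← stl_spec 9 _ l (by simp only [List.length_cons, List.length_nil]; omega), add_mul]

end Pool.Agent.FMZ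
end

-- part Pool.Agent.P.MP_cb43af_nt.FvLow5
section

open Finset Filter Polynomial Topology
namespace Pool.Agent.FMZ

theorem low5_key {x : List ℕ+ → ℚ} (h : Rl x) :
    x [1, 1, 1, 1, 1] = (0) * x [4, 1] ∧ x [1, 1, 1, 2] = (-1) * x [4, 1] ∧ x [1, 1, 2, 1] =
      (2) * x [4, 1] ∧ x [1, 1, 3] = (-1 / 2) * x [4, 1] ∧ x [1, 2, 1, 1] = (-2) * x [4, 1]
      ∧ x [1, 2, 2] = (3 / 2) * x [4, 1] ∧ x [1, 3, 1] = (0) * x [4, 1] ∧ x [1, 4] = (-1) *
      x [4, 1] ∧ x [2, 1, 1, 1] = (1) * x [4, 1] ∧ x [2, 1, 2] = (0) * x [4, 1] ∧ x [2, 2,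
      1] = (-3 / 2) * x [4, 1] ∧ x [2, 3] = (2) * x [4, 1] ∧ x [3, 1, 1] = (1 / 2) * x [4,
      1] ∧ x [3, 2] = (-2) * x [4, 1] ∧ x [4, 1] = (1) * x [4, 1] ∧ x [5] = (0) * x [4, 1]
      := by
  have r0 : x [1, 4] + (x [4, 1] + (x [5] + 0)) = 0 := h.st [1] fzlow_1 [4] (by decide)
  have r1 : x [2, 3] + (x [3, 2] + (x [5] + 0)) = 0 := h.st [2] fzlow_w2.1 [3] (by decide)
  have r2 : x [1, 1, 3] + (x [1, 1, 3] + (x [1, 3, 1] + (x [1, 4] + (x [2, 3] + 0)))) = 0 :=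
      h.st [1] fzlow_1 [1, 3] (by decide)
  have r3 : x [1, 2, 2] + (x [2, 1, 2] + (x [2, 2, 1] + (x [2, 3] + (x [3, 2] + 0)))) = 0 :=
      h.st [1] fzlow_1 [2, 2] (by decide)
  have r4 : x [1, 3, 1] + (x [3, 1, 1] + (x [3, 1, 1] + (x [3, 2] + (x [4, 1] + 0)))) = 0 :=
      h.st [1] fzlow_1 [3, 1] (by decide)
  have r5 : x [2, 1, 2] + (x [1, 2, 2] + (x [1, 2, 2] + (x [1, 4] + (x [3, 2] + 0)))) = 0 :=
      h.st [2] fzlow_w2.1 [1, 2] (by decide)
  have r6 : x [1, 1, 1, 2] + (x [1, 1, 1, 2] + (x [1, 1, 1, 2] + (x [1, 1, 2, 1] + (x [1, 1,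
      3] + (x [1, 2, 2] + (x [2, 1, 2] + 0)))))) = 0 := h.st [1] fzlow_1 [1, 1, 2] (by
      decide)
  have r7 : x [1, 1, 2, 1] + (x [1, 1, 2, 1] + (x [1, 2, 1, 1] + (x [1, 2, 1, 1] + (x [1, 2,
      2] + (x [1, 3, 1] + (x [2, 2, 1] + 0)))))) = 0 := h.st [1] fzlow_1 [1, 2, 1] (by
      decide)
  have r8 : x [1, 2, 1, 1] + (x [2, 1, 1, 1] + (x [2, 1, 1, 1] + (x [2, 1, 1, 1] + (x [2, 1,
      2] + (x [2, 2, 1] + (x [3, 1, 1] + 0)))))) = 0 := h.st [1] fzlow_1 [2, 1, 1] (by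
      decide)
  have r9 : x [1, 1, 3] + (x [1, 4] + (x [2, 3] + (x [5] + (x [3, 1, 1] + (x [3, 2] + (x [4,
      1] + (x [5] + 0))))))) = 0 := h.du [true, true, false, false]
  have r10 : x [1, 2, 2] + (x [1, 4] + (x [3, 2] + (x [5] + (x [2, 2, 1] + (x [2, 3] + (x
      [4, 1] + (x [5] + 0))))))) = 0 := h.du [true, false, true, false]
  have r11 : x [1, 3, 1] + (x [1, 4] + (x [4, 1] + (x [5] + (x [2, 1, 2] + (x [2, 3] + (x
      [3, 2] + (x [5] + 0))))))) = 0 := h.du [true, false, false, true]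
  have r12 : x [1, 1, 1, 1, 1] + (x [1, 1, 1, 1, 1] + (x [1, 1, 1, 1, 1] + (x [1, 1, 1, 1,
      1] + (x [1, 1, 1, 1, 1] + (x [1, 1, 1, 2] + (x [1, 1, 2, 1] + (x [1, 2, 1, 1] + (x [2,
      1, 1, 1] + 0)))))))) = 0 := h.st [1] fzlow_1 [1, 1, 1, 1] (by decide)
  have r13 : x [1, 1, 1, 2] + (x [1, 1, 3] + (x [1, 2, 2] + (x [1, 4] + (x [2, 1, 2] + (x
      [2, 3] + (x [3, 2] + (x [5] + (x [4, 1] + (x [5] + 0))))))))) = 0 := h.du [true, true,
      true, false]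
  have r14 : x [1, 1, 2, 1] + (x [1, 1, 3] + (x [1, 3, 1] + (x [1, 4] + (x [2, 2, 1] + (x
      [2, 3] + (x [4, 1] + (x [5] + (x [3, 2] + (x [5] + 0))))))))) = 0 := h.du [true, true,
      false, true]
  refine ⟨?_, ?_, ?_, ?_, ?_, ?_, ?_, ?_, ?_, ?_, ?_, ?_, ?_, ?_, ?_, ?_⟩
  · linear_combination (-17 / 60) * r0 + (-19 / 60) * r1 + (-1 / 60) * r2 + (1 / 30) * r3 +
      (-1 / 60) * r4 + (-1 / 15) * r6 + (-1 / 15) * r7 + (-1 / 15) * r8 + (1 / 10) * r9 + (1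
      / 10) * r10 + (1 / 10) * r11 + (1 / 5) * r12
  · linear_combination (13 / 8) * r0 + (7 / 8) * r1 + (1 / 8) * r2 + (1 / 4) * r3 + (5 / 8)
      * r4 + (-1 / 2) * r5 + (-5 / 4) * r9 + (-1 / 4) * r10 + (-3 / 4) * r11 + (1) * r13
  · linear_combination (-9 / 4) * r0 + (-3 / 4) * r1 + (-1 / 4) * r2 + (-1 / 2) * r3 + (-5 /
      4) * r4 + (1) * r5 + (1) * r6 + (5 / 2) * r9 + (1 / 2) * r10 + (3 / 2) * r11 + (-3) *
      r13
  · linear_combination (5 / 16) * r0 + (-1 / 16) * r1 + (1 / 16) * r2 + (1 / 8) * r3 + (5 /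
      16) * r4 + (-1 / 4) * r5 + (-1 / 2) * r6 + (-5 / 8) * r9 + (-5 / 8) * r10 + (-7 / 8) *
      r11 + (3 / 2) * r13 + (1 / 2) * r14
  · linear_combination (25 / 8) * r0 + (11 / 8) * r1 + (1 / 8) * r2 + (3 / 4) * r3 + (9 / 8)
      * r4 + (-1) * r5 + (-1) * r6 + (1 / 2) * r7 + (-9 / 4) * r9 + (-5 / 4) * r10 + (-7 /
      4) * r11 + (3) * r13
  · linear_combination (-43 / 16) * r0 + (-17 / 16) * r1 + (1 / 16) * r2 + (-7 / 8) * r3 +
      (-11 / 16) * r4 + (3 / 4) * r5 + (1 / 2) * r6 + (11 / 8) * r9 + (11 / 8) * r10 + (9 /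
      8) * r11 + (-3 / 2) * r13 + (-1 / 2) * r14
  · linear_combination (-3 / 4) * r0 + (-1 / 4) * r1 + (1 / 4) * r2 + (-1 / 2) * r3 + (1 /
      4) * r4 + (-1 / 2) * r9 + (1 / 2) * r10 + (1 / 2) * r11
  · linear_combination (9 / 4) * r0 + (3 / 4) * r1 + (1 / 4) * r2 + (1 / 2) * r3 + (1 / 4) *
      r4 + (-1 / 2) * r9 + (-1 / 2) * r10 + (-1 / 2) * r11
  · linear_combination (-13 / 12) * r0 + (1 / 12) * r1 + (1 / 12) * r2 + (-2 / 3) * r3 + (-5
      / 12) * r4 + (1 / 2) * r5 + (1 / 3) * r6 + (-1 / 6) * r7 + (1 / 3) * r8 + (1 / 2) * r9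
      + (1 / 2) * r10 + (1 / 2) * r11 + (-1) * r13
  · linear_combination (-1 / 4) * r0 + (-3 / 4) * r1 + (-1 / 4) * r2 + (1 / 2) * r3 + (-1 /
      4) * r4 + (1 / 2) * r9 + (-1 / 2) * r10 + (1 / 2) * r11
  · linear_combination (27 / 16) * r0 + (1 / 16) * r1 + (-1 / 16) * r2 + (7 / 8) * r3 + (11
      / 16) * r4 + (-3 / 4) * r5 + (-1 / 2) * r6 + (-11 / 8) * r9 + (-3 / 8) * r10 + (-9 /
      8) * r11 + (3 / 2) * r13 + (1 / 2) * r14
  · linear_combination (-17 / 8) * r0 + (-3 / 8) * r1 + (3 / 8) * r2 + (-1 / 4) * r3 + (-9 /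
      8) * r4 + (1 / 2) * r5 + (1) * r6 + (9 / 4) * r9 + (5 / 4) * r10 + (7 / 4) * r11 +
      (-3) * r13 + (-1) * r14
  · linear_combination (-21 / 16) * r0 + (-15 / 16) * r1 + (-1 / 16) * r2 + (-1 / 8) * r3 +
      (-5 / 16) * r4 + (1 / 4) * r5 + (1 / 2) * r6 + (13 / 8) * r9 + (5 / 8) * r10 + (7 / 8)
      * r11 + (-3 / 2) * r13 + (-1 / 2) * r14
  · linear_combination (27 / 8) * r0 + (17 / 8) * r1 + (-1 / 8) * r2 + (3 / 4) * r3 + (11 /
      8) * r4 + (-1 / 2) * r5 + (-1) * r6 + (-11 / 4) * r9 + (-7 / 4) * r10 + (-9 / 4) * r11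
      + (3) * r13 + (1) * r14
  · ring
  · linear_combination (-5 / 4) * r0 + (-3 / 4) * r1 + (-1 / 4) * r2 + (-1 / 2) * r3 + (-1 /
      4) * r4 + (1 / 2) * r9 + (1 / 2) * r10 + (1 / 2) * r11

theorem low5_rl : ∀ k ∈ cps 4, ∃ q : ℚ, ∀ x, Rl x → x k = q * x [4, 1] := by
  intro k hk
  rw [show cps 4 = [[1, 1, 1, 1, 1], [1, 1, 1, 2], [1, 1, 2, 1], [1, 1, 3], [1, 2, 1, 1],
      [1, 2, 2], [1, 3, 1], [1, 4], [2, 1, 1, 1], [2, 1, 2], [2, 2, 1], [2, 3], [3, 1, 1],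
      [3, 2], [4, 1], [5]] from rfl] at hk
  simp only [List.mem_cons, List.not_mem_nil, or_false] at hk
  rcases hk with rfl | rfl | rfl | rfl | rfl | rfl | rfl | rfl | rfl | rfl | rfl | rfl | rfl
      | rfl | rfl | rfl
  · exact ⟨_, fun _ h => (low5_key h).1⟩
  · exact ⟨_, fun _ h => (low5_key h).2.1⟩
  · exact ⟨_, fun _ h => (low5_key h).2.2.1⟩
  · exact ⟨_, fun _ h => (low5_key h).2.2.2.1⟩
  · exact ⟨_, fun _ h => (low5_key h).2.2.2.2.1⟩
  · exact ⟨_, fun _ h => (low5_key h).2.2.2.2.2.1⟩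
  · exact ⟨_, fun _ h => (low5_key h).2.2.2.2.2.2.1⟩
  · exact ⟨_, fun _ h => (low5_key h).2.2.2.2.2.2.2.1⟩
  · exact ⟨_, fun _ h => (low5_key h).2.2.2.2.2.2.2.2.1⟩
  · exact ⟨_, fun _ h => (low5_key h).2.2.2.2.2.2.2.2.2.1⟩
  · exact ⟨_, fun _ h => (low5_key h).2.2.2.2.2.2.2.2.2.2.1⟩
  · exact ⟨_, fun _ h => (low5_key h).2.2.2.2.2.2.2.2.2.2.2.1⟩
  · exact ⟨_, fun _ h => (low5_key h).2.2.2.2.2.2.2.2.2.2.2.2.1⟩
  · exact ⟨_, fun _ h => (low5_key h).2.2.2.2.2.2.2.2.2.2.2.2.2.1⟩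
  · exact ⟨_, fun _ h => (low5_key h).2.2.2.2.2.2.2.2.2.2.2.2.2.2.1⟩
  · exact ⟨_, fun _ h => (low5_key h).2.2.2.2.2.2.2.2.2.2.2.2.2.2.2⟩

theorem low5 (k : List ℕ+) (hk : wt k = 5) :
    ∃ q : ℚ, Lf fun p => zeta k p - q * zeta [4, 1] p := by
  obtain ⟨q, hq⟩ := low5_rl k (cps_mem 4 k hk)
  refine ⟨q, lf_dual (x := zeta k - q • zeta [4, 1]) fun φ h => ?_⟩
  rw [φ.map_sub, φ.map_smul, hq _ (rl_of h), smul_eq_mul, sub_self]

end Pool.Agent.FMZ
end

-- part Pool.Agent.P.MP_cb43af_nt.FvLow6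
section

open Finset Filter Polynomial Topology
namespace Pool.Agent.FMZ

def sq21 (x : List ℕ+ → ℚ) : ℚ := ((stl 9 [2, 1] [2, 1]).map x).sum

theorem low6_key {x : List ℕ+ → ℚ} (h : Rl x) :
    x [1, 1, 1, 1, 1, 1] = (0) * sq21 x ∧ x [1, 1, 1, 1, 2] = (0) * sq21 x ∧ x [1, 1, 1, 2,
      1] = (0) * sq21 x ∧ x [1, 1, 1, 3] = (-1 / 6) * sq21 x ∧ x [1, 1, 2, 1, 1] = (0) *
      sq21 x ∧ x [1, 1, 2, 2] = (1 / 3) * sq21 x ∧ x [1, 1, 3, 1] = (1 / 6) * sq21 x ∧ x [1,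
      1, 4] = (-1 / 6) * sq21 x ∧ x [1, 2, 1, 1, 1] = (0) * sq21 x ∧ x [1, 2, 1, 2] = (1 /
      2) * sq21 x ∧ x [1, 2, 2, 1] = (-1) * sq21 x ∧ x [1, 2, 3] = (1 / 3) * sq21 x ∧ x [1,
      3, 1, 1] = (1 / 6) * sq21 x ∧ x [1, 3, 2] = (-1 / 2) * sq21 x ∧ x [1, 4, 1] = (1 / 3)
      * sq21 x ∧ x [1, 5] = (0) * sq21 x ∧ x [2, 1, 1, 1, 1] = (0) * sq21 x ∧ x [2, 1, 1, 2]
      = (-2 / 3) * sq21 x ∧ x [2, 1, 2, 1] = (1 / 2) * sq21 x ∧ x [2, 1, 3] = (1 / 6) * sq21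
      x ∧ x [2, 2, 1, 1] = (1 / 3) * sq21 x ∧ x [2, 2, 2] = (0) * sq21 x ∧ x [2, 3, 1] = (-1
      / 2) * sq21 x ∧ x [2, 4] = (0) * sq21 x ∧ x [3, 1, 1, 1] = (-1 / 6) * sq21 x ∧ x [3,
      1, 2] = (1 / 6) * sq21 x ∧ x [3, 2, 1] = (1 / 3) * sq21 x ∧ x [3, 3] = (0) * sq21 x ∧
      x [4, 1, 1] = (-1 / 6) * sq21 x ∧ x [4, 2] = (0) * sq21 x ∧ x [5, 1] = (0) * sq21 x ∧
      x [6] = (0) * sq21 x := by
  have r0 : x [1, 5] + (x [5, 1] + (x [6] + 0)) = 0 := h.st [1] fzlow_1 [5] (by decide)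
  have r1 : x [2, 4] + (x [4, 2] + (x [6] + 0)) = 0 := h.st [2] fzlow_w2.1 [4] (by decide)
  have r2 : x [3, 3] + (x [3, 3] + (x [6] + 0)) = 0 := h.st [3] fzlow_w3.1 [3] (by decide)
  have r3 : x [1, 1, 4] + (x [1, 1, 4] + (x [1, 4, 1] + (x [1, 5] + (x [2, 4] + 0)))) = 0 :=
      h.st [1] fzlow_1 [1, 4] (by decide)
  have r4 : x [1, 2, 3] + (x [2, 1, 3] + (x [2, 3, 1] + (x [2, 4] + (x [3, 3] + 0)))) = 0 :=
      h.st [1] fzlow_1 [2, 3] (by decide)
  have r5 : x [1, 3, 2] + (x [3, 1, 2] + (x [3, 2, 1] + (x [3, 3] + (x [4, 2] + 0)))) = 0 :=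
      h.st [1] fzlow_1 [3, 2] (by decide)
  have r6 : x [1, 4, 1] + (x [4, 1, 1] + (x [4, 1, 1] + (x [4, 2] + (x [5, 1] + 0)))) = 0 :=
      h.st [1] fzlow_1 [4, 1] (by decide)
  have r7 : x [2, 1, 3] + (x [1, 2, 3] + (x [1, 3, 2] + (x [1, 5] + (x [3, 3] + 0)))) = 0 :=
      h.st [2] fzlow_w2.1 [1, 3] (by decide)
  have r8 : x [2, 2, 2] + (x [2, 2, 2] + (x [2, 2, 2] + (x [2, 4] + (x [4, 2] + 0)))) = 0 :=
      h.st [2] fzlow_w2.1 [2, 2] (by decide)
  have r9 : x [3, 1, 2] + (x [1, 3, 2] + (x [1, 2, 3] + (x [1, 5] + (x [4, 2] + 0)))) = 0 :=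
      h.st [3] fzlow_w3.1 [1, 2] (by decide)
  have r10 : x [1, 1, 1, 3] + (x [1, 1, 1, 3] + (x [1, 1, 1, 3] + (x [1, 1, 3, 1] + (x [1,
      1, 4] + (x [1, 2, 3] + (x [2, 1, 3] + 0)))))) = 0 := h.st [1] fzlow_1 [1, 1, 3] (by
      decide)
  have r11 : x [1, 1, 2, 2] + (x [1, 1, 2, 2] + (x [1, 2, 1, 2] + (x [1, 2, 2, 1] + (x [1,
      2, 3] + (x [1, 3, 2] + (x [2, 2, 2] + 0)))))) = 0 := h.st [1] fzlow_1 [1, 2, 2] (by
      decide)
  have r12 : x [1, 1, 3, 1] + (x [1, 1, 3, 1] + (x [1, 3, 1, 1] + (x [1, 3, 1, 1] + (x [1,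
      3, 2] + (x [1, 4, 1] + (x [2, 3, 1] + 0)))))) = 0 := h.st [1] fzlow_1 [1, 3, 1] (by
      decide)
  have r13 : x [1, 2, 1, 2] + (x [2, 1, 1, 2] + (x [2, 1, 1, 2] + (x [2, 1, 2, 1] + (x [2,
      1, 3] + (x [2, 2, 2] + (x [3, 1, 2] + 0)))))) = 0 := h.st [1] fzlow_1 [2, 1, 2] (by
      decide)
  have r14 : x [1, 2, 2, 1] + (x [2, 1, 2, 1] + (x [2, 2, 1, 1] + (x [2, 2, 1, 1] + (x [2,
      2, 2] + (x [2, 3, 1] + (x [3, 2, 1] + 0)))))) = 0 := h.st [1] fzlow_1 [2, 2, 1] (by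
      decide)
  have r15 : x [1, 3, 1, 1] + (x [3, 1, 1, 1] + (x [3, 1, 1, 1] + (x [3, 1, 1, 1] + (x [3,
      1, 2] + (x [3, 2, 1] + (x [4, 1, 1] + 0)))))) = 0 := h.st [1] fzlow_1 [3, 1, 1] (by
      decide)
  have r16 : x [2, 1, 1, 2] + (x [1, 2, 1, 2] + (x [1, 1, 2, 2] + (x [1, 1, 2, 2] + (x [1,
      1, 4] + (x [1, 3, 2] + (x [3, 1, 2] + 0)))))) = 0 := h.st [2] fzlow_w2.1 [1, 1, 2] (by
      decide)
  have r17 : x [1, 1, 1, 1, 2] + (x [1, 1, 1, 1, 2] + (x [1, 1, 1, 1, 2] + (x [1, 1, 1, 1,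
      2] + (x [1, 1, 1, 2, 1] + (x [1, 1, 1, 3] + (x [1, 1, 2, 2] + (x [1, 2, 1, 2] + (x [2,
      1, 1, 2] + 0)))))))) = 0 := h.st [1] fzlow_1 [1, 1, 1, 2] (by decide)
  have r18 : x [1, 1, 1, 2, 1] + (x [1, 1, 1, 2, 1] + (x [1, 1, 1, 2, 1] + (x [1, 1, 2, 1,
      1] + (x [1, 1, 2, 1, 1] + (x [1, 1, 2, 2] + (x [1, 1, 3, 1] + (x [1, 2, 2, 1] + (x [2,
      1, 2, 1] + 0)))))))) = 0 := h.st [1] fzlow_1 [1, 1, 2, 1] (by decide)
  have r19 : x [1, 1, 2, 1, 1] + (x [1, 1, 2, 1, 1] + (x [1, 2, 1, 1, 1] + (x [1, 2, 1, 1,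
      1] + (x [1, 2, 1, 1, 1] + (x [1, 2, 1, 2] + (x [1, 2, 2, 1] + (x [1, 3, 1, 1] + (x [2,
      2, 1, 1] + 0)))))))) = 0 := h.st [1] fzlow_1 [1, 2, 1, 1] (by decide)
  have r20 : x [1, 2, 1, 1, 1] + (x [2, 1, 1, 1, 1] + (x [2, 1, 1, 1, 1] + (x [2, 1, 1, 1,
      1] + (x [2, 1, 1, 1, 1] + (x [2, 1, 1, 2] + (x [2, 1, 2, 1] + (x [2, 2, 1, 1] + (x [3,
      1, 1, 1] + 0)))))))) = 0 := h.st [1] fzlow_1 [2, 1, 1, 1] (by decide)
  have r21 : x [1, 1, 1, 1, 1, 1] + (x [1, 1, 1, 1, 1, 1] + (x [1, 1, 1, 1, 1, 1] + (x [1,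
      1, 1, 1, 1, 1] + (x [1, 1, 1, 1, 1, 1] + (x [1, 1, 1, 1, 1, 1] + (x [1, 1, 1, 1, 2] +
      (x [1, 1, 1, 2, 1] + (x [1, 1, 2, 1, 1] + (x [1, 2, 1, 1, 1] + (x [2, 1, 1, 1, 1] +
      0)))))))))) = 0 := h.st [1] fzlow_1 [1, 1, 1, 1, 1] (by decide)
  have r22 : x [1, 1, 1, 3] + (x [1, 1, 4] + (x [1, 2, 3] + (x [1, 5] + (x [2, 1, 3] + (x
      [2, 4] + (x [3, 3] + (x [6] + (x [4, 1, 1] + (x [4, 2] + (x [5, 1] + (x [6] +
      0))))))))))) = 0 := h.du [true, true, true, false, false]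
  have r23 : x [1, 1, 2, 2] + (x [1, 1, 4] + (x [1, 3, 2] + (x [1, 5] + (x [2, 2, 2] + (x
      [2, 4] + (x [4, 2] + (x [6] + (x [3, 2, 1] + (x [3, 3] + (x [5, 1] + (x [6] +
      0))))))))))) = 0 := h.du [true, true, false, true, false]
  have r24 : x [1, 1, 3, 1] + (x [1, 1, 4] + (x [1, 4, 1] + (x [1, 5] + (x [2, 3, 1] + (x
      [2, 4] + (x [5, 1] + (x [6] + (x [3, 1, 2] + (x [3, 3] + (x [4, 2] + (x [6] +
      0))))))))))) = 0 := h.du [true, true, false, false, true]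
  have r25 : x [1, 1, 4] + (x [1, 5] + (x [2, 4] + (x [6] + (x [3, 1, 1, 1] + (x [3, 1, 2] +
      (x [3, 2, 1] + (x [3, 3] + (x [4, 1, 1] + (x [4, 2] + (x [5, 1] + (x [6] +
      0))))))))))) = 0 := h.du [true, true, false, false, false]
  have r26 : x [1, 2, 1, 2] + (x [1, 2, 3] + (x [1, 3, 2] + (x [1, 5] + (x [3, 1, 2] + (x
      [3, 3] + (x [4, 2] + (x [6] + (x [2, 3, 1] + (x [2, 4] + (x [5, 1] + (x [6] +
      0))))))))))) = 0 := h.du [true, false, true, true, false]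
  have r27 : x [1, 2, 2, 1] + (x [1, 2, 3] + (x [1, 4, 1] + (x [1, 5] + (x [3, 2, 1] + (x
      [3, 3] + (x [5, 1] + (x [6] + (x [2, 2, 2] + (x [2, 4] + (x [4, 2] + (x [6] +
      0))))))))))) = 0 := h.du [true, false, true, false, true]
  have r28 : x [1, 2, 3] + (x [1, 5] + (x [3, 3] + (x [6] + (x [2, 2, 1, 1] + (x [2, 2, 2] +
      (x [2, 3, 1] + (x [2, 4] + (x [4, 1, 1] + (x [4, 2] + (x [5, 1] + (x [6] +
      0))))))))))) = 0 := h.du [true, false, true, false, false]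
  have r29 : x [1, 3, 1, 1] + (x [1, 3, 2] + (x [1, 4, 1] + (x [1, 5] + (x [4, 1, 1] + (x
      [4, 2] + (x [5, 1] + (x [6] + (x [2, 1, 3] + (x [2, 4] + (x [3, 3] + (x [6] +
      0))))))))))) = 0 := h.du [true, false, false, true, true]
  have r30 : x [1, 1, 1, 1, 2] + (x [1, 1, 1, 3] + (x [1, 1, 2, 2] + (x [1, 1, 4] + (x [1,
      2, 1, 2] + (x [1, 2, 3] + (x [1, 3, 2] + (x [1, 5] + (x [2, 1, 1, 2] + (x [2, 1, 3] +
      (x [2, 2, 2] + (x [2, 4] + (x [3, 1, 2] + (x [3, 3] + (x [4, 2] + (x [6] + (x [5, 1] +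
      (x [6] + 0))))))))))))))))) = 0 := h.du [true, true, true, true, false]
  rw [show sq21 x = x [2, 1, 2, 1] + (x [2, 2, 1, 1] + (x [2, 2, 1, 1] + (x [2, 2, 2] + (x
      [2, 3, 1] + (x [2, 2, 1, 1] + (x [2, 2, 1, 1] + (x [2, 2, 2] + (x [2, 1, 2, 1] + (x
      [2, 3, 1] + (x [4, 1, 1] + (x [4, 1, 1] + (x [4, 2] + 0)))))))))))) from rfl]
  refine ⟨?_, ?_, ?_, ?_, ?_, ?_, ?_, ?_, ?_, ?_, ?_, ?_, ?_, ?_, ?_, ?_, ?_, ?_, ?_, ?_,
      ?_, ?_, ?_, ?_, ?_, ?_, ?_, ?_, ?_, ?_, ?_, ?_⟩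
  · linear_combination (223 / 1008) * r0 + (25 / 112) * r1 + (8 / 63) * r2 + (29 / 1008) *
      r3 + (1 / 63) * r4 + (-5 / 252) * r5 + (65 / 1008) * r6 + (1 / 28) * r7 + (1 / 56) *
      r8 + (1 / 72) * r10 + (1 / 168) * r11 + (25 / 504) * r12 + (1 / 168) * r13 + (13 /
      168) * r14 + (1 / 72) * r15 + (1 / 14) * r16 + (-1 / 24) * r17 + (-1 / 24) * r18 + (-1
      / 24) * r19 + (-1 / 24) * r20 + (1 / 6) * r21 + (-1 / 14) * r23 + (-1 / 14) * r24 +
      (-1 / 14) * r28 + (-1 / 14) * r29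
  · linear_combination (1 / 7) * r0 + (-1 / 7) * r1 + (-2 / 7) * r2 + (6 / 7) * r3 + (3 /
      14) * r4 + (19 / 14) * r5 + (-2 / 7) * r6 + (-8 / 7) * r7 + (-15 / 14) * r8 + (23 /
      14) * r11 + (-1 / 7) * r12 + (9 / 14) * r13 + (-9 / 14) * r14 + (-16 / 7) * r16 + (-1)
      * r22 + (2 / 7) * r23 + (2 / 7) * r24 + (-1) * r26 + (-1) * r27 + (9 / 7) * r28 + (2 /
      7) * r29 + (1) * r30
  · linear_combination (-155 / 42) * r0 + (-9 / 14) * r1 + (43 / 21) * r2 + (-265 / 42) * r3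
      + (-13 / 21) * r4 + (-241 / 21) * r5 + (107 / 42) * r6 + (48 / 7) * r7 + (45 / 7) * r8
      + (2) * r9 + (-2 / 3) * r10 + (-76 / 7) * r11 + (25 / 21) * r12 + (-34 / 7) * r13 +
      (34 / 7) * r14 + (-2 / 3) * r15 + (89 / 7) * r16 + (1) * r17 + (5) * r22 + (-5 / 7) *
      r23 + (-12 / 7) * r24 + (2) * r25 + (6) * r26 + (6) * r27 + (-68 / 7) * r28 + (-12 /
      7) * r29 + (-4) * r30
  · linear_combination (79 / 126) * r0 + (2 / 21) * r1 + (17 / 126) * r2 + (377 / 504) * r3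
      + (41 / 252) * r4 + (559 / 504) * r5 + (-25 / 126) * r6 + (-187 / 168) * r7 + (-97 /
      168) * r8 + (1 / 6) * r9 + (11 / 18) * r10 + (187 / 168) * r11 + (-169 / 504) * r12 +
      (103 / 168) * r13 + (-47 / 168) * r14 + (1 / 9) * r15 + (-103 / 84) * r16 + (-5 / 6) *
      r22 + (19 / 84) * r23 + (5 / 84) * r24 + (-1 / 3) * r25 + (-1 / 2) * r26 + (-5 / 6) *
      r27 + (103 / 84) * r28 + (47 / 84) * r29
  · linear_combination (223 / 42) * r0 + (5 / 14) * r1 + (-83 / 21) * r2 + (835 / 84) * r3 +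
      (8 / 21) * r4 + (1577 / 84) * r5 + (-187 / 42) * r6 + (-291 / 28) * r7 + (-275 / 28) *
      r8 + (-4) * r9 + (5 / 6) * r10 + (459 / 28) * r11 + (-173 / 84) * r12 + (207 / 28) *
      r13 + (-221 / 28) * r14 + (4 / 3) * r15 + (-135 / 7) * r16 + (-3 / 2) * r17 + (1 / 2)
      * r18 + (-7) * r22 + (11 / 14) * r23 + (39 / 14) * r24 + (-4) * r25 + (-9) * r26 +
      (-9) * r27 + (221 / 14) * r28 + (39 / 14) * r29 + (6) * r30
  · linear_combination (71 / 63) * r0 + (2 / 21) * r1 + (-23 / 63) * r2 + (157 / 252) * r3 +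
      (26 / 63) * r4 + (437 / 252) * r5 + (-44 / 63) * r6 + (-83 / 84) * r7 + (-59 / 84) *
      r8 + (-1 / 3) * r9 + (1 / 9) * r10 + (125 / 84) * r11 + (-53 / 252) * r12 + (41 / 84)
      * r13 + (-97 / 84) * r14 + (1 / 9) * r15 + (-41 / 42) * r16 + (-1 / 3) * r22 + (-1 /
      42) * r23 + (13 / 42) * r24 + (-1 / 3) * r25 + (-1) * r26 + (-1 / 3) * r27 + (41 / 42)
      * r28 + (13 / 42) * r29
  · linear_combination (-19 / 126) * r0 + (16 / 21) * r1 + (31 / 126) * r2 + (-491 / 504) *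
      r3 + (-29 / 252) * r4 + (-841 / 504) * r5 + (73 / 126) * r6 + (289 / 168) * r7 + (127
      / 168) * r8 + (-1 / 6) * r9 + (1 / 18) * r10 + (-205 / 168) * r11 + (307 / 504) * r12
      + (-121 / 168) * r13 + (65 / 168) * r14 + (-4 / 9) * r15 + (121 / 84) * r16 + (-1 / 6)
      * r22 + (-37 / 84) * r23 + (-23 / 84) * r24 + (4 / 3) * r25 + (1 / 2) * r26 + (5 / 6)
      * r27 + (-121 / 84) * r28 + (-65 / 84) * r29
  · linear_combination (-55 / 63) * r0 + (-17 / 42) * r1 + (17 / 126) * r2 + (-127 / 504) *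
      r3 + (-85 / 252) * r4 + (-449 / 504) * r5 + (19 / 63) * r6 + (65 / 168) * r7 + (71 /
      168) * r8 + (1 / 6) * r9 + (-7 / 18) * r10 + (-149 / 168) * r11 + (83 / 504) * r12 +
      (-65 / 168) * r13 + (121 / 168) * r14 + (1 / 9) * r15 + (65 / 84) * r16 + (7 / 6) *
      r22 + (19 / 84) * r23 + (5 / 84) * r24 + (-1 / 3) * r25 + (1 / 2) * r26 + (1 / 6) *
      r27 + (-65 / 84) * r28 + (-37 / 84) * r29
  · linear_combination (-61 / 14) * r0 + (-9 / 14) * r1 + (19 / 7) * r2 + (-293 / 42) * r3 +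
      (1 / 21) * r4 + (-283 / 21) * r5 + (45 / 14) * r6 + (48 / 7) * r7 + (45 / 7) * r8 +
      (10 / 3) * r9 + (-1 / 3) * r10 + (-235 / 21) * r11 + (25 / 21) * r12 + (-34 / 7) * r13
      + (109 / 21) * r14 + (-1) * r15 + (89 / 7) * r16 + (1) * r17 + (-1 / 3) * r18 + (1 /
      3) * r19 + (4) * r22 + (2 / 7) * r23 + (-12 / 7) * r24 + (3) * r25 + (6) * r26 + (6) *
      r27 + (-75 / 7) * r28 + (-12 / 7) * r29 + (-4) * r30
  · linear_combination (73 / 42) * r0 + (3 / 7) * r1 + (-55 / 42) * r2 + (275 / 168) * r3 +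
      (-61 / 84) * r4 + (709 / 168) * r5 + (-55 / 42) * r6 + (-25 / 56) * r7 + (-51 / 56) *
      r8 + (-5 / 2) * r9 + (-1 / 6) * r10 + (137 / 56) * r11 + (-19 / 168) * r12 + (53 / 56)
      * r13 + (-109 / 56) * r14 + (1 / 3) * r15 + (-53 / 28) * r16 + (1 / 2) * r22 + (-31 /
      28) * r23 + (11 / 28) * r24 + (-1) * r25 + (-1 / 2) * r26 + (-1 / 2) * r27 + (53 / 28)
      * r28 + (-3 / 28) * r29
  · linear_combination (-3 / 7) * r0 + (3 / 7) * r1 + (6 / 7) * r2 + (-1 / 14) * r3 + (-1 /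
      7) * r4 + (-15 / 14) * r5 + (6 / 7) * r6 + (-1 / 14) * r7 + (3 / 14) * r8 + (1) * r9 +
      (1 / 14) * r11 + (-1 / 14) * r12 + (1 / 14) * r13 + (27 / 14) * r14 + (-1 / 7) * r16 +
      (1 / 7) * r23 + (1 / 7) * r24 + (-1) * r27 + (1 / 7) * r28 + (1 / 7) * r29
  · linear_combination (-131 / 126) * r0 + (-17 / 42) * r1 + (19 / 63) * r2 + (-305 / 252) *
      r3 + (31 / 126) * r4 + (-613 / 252) * r5 + (59 / 126) * r6 + (85 / 84) * r7 + (67 /
      84) * r8 + (2 / 3) * r9 + (-2 / 9) * r10 + (-169 / 84) * r11 + (115 / 252) * r12 +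
      (-85 / 84) * r13 + (29 / 84) * r14 + (-2 / 9) * r15 + (85 / 42) * r16 + (2 / 3) * r22
      + (-1 / 42) * r23 + (-29 / 42) * r24 + (2 / 3) * r25 + (1) * r26 + (5 / 3) * r27 +
      (-85 / 42) * r28 + (-29 / 42) * r29
  · linear_combination (149 / 126) * r0 + (-5 / 21) * r1 + (-11 / 126) * r2 + (349 / 504) *
      r3 + (55 / 252) * r4 + (839 / 504) * r5 + (-95 / 126) * r6 + (-215 / 168) * r7 + (-41
      / 168) * r8 + (-1 / 6) * r9 + (-5 / 18) * r10 + (131 / 168) * r11 + (139 / 504) * r12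
      + (47 / 168) * r13 + (-103 / 168) * r14 + (2 / 9) * r15 + (-47 / 84) * r16 + (5 / 6) *
      r22 + (-37 / 84) * r23 + (-23 / 84) * r24 + (-2 / 3) * r25 + (-1 / 2) * r26 + (-1 / 6)
      * r27 + (47 / 84) * r28 + (19 / 84) * r29
  · linear_combination (-44 / 21) * r0 + (-1 / 14) * r1 + (43 / 42) * r2 + (-257 / 168) * r3
      + (-5 / 84) * r4 + (-691 / 168) * r5 + (32 / 21) * r6 + (87 / 56) * r7 + (61 / 56) *
      r8 + (3 / 2) * r9 + (1 / 6) * r10 + (-143 / 56) * r11 + (37 / 168) * r12 + (-59 / 56)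
      * r13 + (115 / 56) * r14 + (-1 / 3) * r15 + (59 / 28) * r16 + (-1 / 2) * r22 + (25 /
      28) * r23 + (-17 / 28) * r24 + (1) * r25 + (3 / 2) * r26 + (1 / 2) * r27 + (-59 / 28)
      * r28 + (-3 / 28) * r29
  · linear_combination (-47 / 126) * r0 + (-17 / 42) * r1 + (-23 / 63) * r2 + (31 / 252) *
      r3 + (-11 / 126) * r4 + (59 / 252) * r5 + (-25 / 126) * r6 + (1 / 84) * r7 + (-17 /
      84) * r8 + (-1 / 3) * r9 + (1 / 9) * r10 + (-1 / 84) * r11 + (-53 / 252) * r12 + (-1 /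
      84) * r13 + (-55 / 84) * r14 + (1 / 9) * r15 + (1 / 42) * r16 + (-1 / 3) * r22 + (-1 /
      42) * r23 + (13 / 42) * r24 + (-1 / 3) * r25 + (2 / 3) * r27 + (-1 / 42) * r28 + (13 /
      42) * r29
  · linear_combination (97 / 42) * r0 + (5 / 14) * r1 + (-20 / 21) * r2 + (205 / 84) * r3 +
      (-5 / 42) * r4 + (401 / 84) * r5 + (-61 / 42) * r6 + (-53 / 28) * r7 + (-51 / 28) * r8
      + (-1) * r9 + (1 / 3) * r10 + (109 / 28) * r11 + (-47 / 84) * r12 + (53 / 28) * r13 +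
      (-53 / 28) * r14 + (1 / 3) * r15 + (-53 / 14) * r16 + (-1) * r22 + (-3 / 14) * r23 +
      (11 / 14) * r24 + (-1) * r25 + (-2) * r26 + (-2) * r27 + (53 / 14) * r28 + (11 / 14) *
      r29
  · linear_combination (71 / 56) * r0 + (-15 / 56) * r1 + (-9 / 7) * r2 + (389 / 168) * r3 +
      (-5 / 42) * r4 + (415 / 84) * r5 + (-79 / 56) * r6 + (-67 / 28) * r7 + (-29 / 14) * r8
      + (-4 / 3) * r9 + (1 / 12) * r10 + (167 / 42) * r11 + (-10 / 21) * r12 + (23 / 14) *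
      r13 + (-83 / 42) * r14 + (1 / 4) * r15 + (-30 / 7) * r16 + (-1 / 4) * r17 + (1 / 12) *
      r18 + (-1 / 12) * r19 + (1 / 4) * r20 + (-1) * r22 + (-3 / 14) * r23 + (11 / 14) * r24
      + (-1) * r25 + (-2) * r26 + (-2) * r27 + (53 / 14) * r28 + (11 / 14) * r29 + (1) * r30
  · linear_combination (-47 / 126) * r0 + (25 / 42) * r1 + (40 / 63) * r2 + (-8 / 63) * r3 +
      (-11 / 126) * r4 + (-64 / 63) * r5 + (101 / 126) * r6 + (11 / 42) * r7 + (1 / 21) * r8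
      + (2 / 3) * r9 + (1 / 9) * r10 + (-16 / 21) * r11 + (5 / 126) * r12 + (5 / 21) * r13 +
      (23 / 21) * r14 + (1 / 9) * r15 + (11 / 21) * r16 + (-1 / 3) * r22 + (10 / 21) * r23 +
      (-4 / 21) * r24 + (-1 / 3) * r25 + (-1 / 3) * r27 + (10 / 21) * r28 + (-4 / 21) * r29
  · linear_combination (-2 / 21) * r0 + (-1 / 14) * r1 + (43 / 42) * r2 + (-89 / 168) * r3 +
      (79 / 84) * r4 + (-355 / 168) * r5 + (11 / 21) * r6 + (-25 / 56) * r7 + (5 / 56) * r8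
      + (3 / 2) * r9 + (1 / 6) * r10 + (-31 / 56) * r11 + (37 / 168) * r12 + (-3 / 56) * r13
      + (3 / 56) * r14 + (-1 / 3) * r15 + (3 / 28) * r16 + (-1 / 2) * r22 + (25 / 28) * r23
      + (-17 / 28) * r24 + (1) * r25 + (1 / 2) * r26 + (1 / 2) * r27 + (-59 / 28) * r28 +
      (-3 / 28) * r29
  · linear_combination (23 / 126) * r0 + (-5 / 21) * r1 + (-137 / 126) * r2 + (97 / 504) *
      r3 + (-71 / 252) * r4 + (839 / 504) * r5 + (-95 / 126) * r6 + (37 / 168) * r7 + (-41 /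
      168) * r8 + (-7 / 6) * r9 + (-5 / 18) * r10 + (131 / 168) * r11 + (-113 / 504) * r12 +
      (47 / 168) * r13 + (-103 / 168) * r14 + (2 / 9) * r15 + (-47 / 84) * r16 + (5 / 6) *
      r22 + (-37 / 84) * r23 + (61 / 84) * r24 + (-2 / 3) * r25 + (-1 / 2) * r26 + (-1 / 6)
      * r27 + (47 / 84) * r28 + (19 / 84) * r29
  · linear_combination (-5 / 126) * r0 + (25 / 42) * r1 + (19 / 63) * r2 + (-305 / 252) * r3
      + (-16 / 63) * r4 + (-487 / 252) * r5 + (59 / 126) * r6 + (169 / 84) * r7 + (109 / 84)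
      * r8 + (-1 / 3) * r9 + (-2 / 9) * r10 + (-211 / 84) * r11 + (115 / 252) * r12 + (-127
      / 84) * r13 + (71 / 84) * r14 + (-2 / 9) * r15 + (127 / 42) * r16 + (2 / 3) * r22 +
      (-43 / 42) * r23 + (-29 / 42) * r24 + (2 / 3) * r25 + (1) * r26 + (5 / 3) * r27 + (-85
      / 42) * r28 + (-29 / 42) * r29
  · linear_combination (-3 / 7) * r0 + (-4 / 7) * r1 + (-1 / 7) * r2 + (-1 / 14) * r3 + (-1
      / 7) * r4 + (-1 / 14) * r5 + (-1 / 7) * r6 + (-1 / 14) * r7 + (3 / 14) * r8 + (1 / 14)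
      * r11 + (-1 / 14) * r12 + (1 / 14) * r13 + (-1 / 14) * r14 + (-1 / 7) * r16 + (1 / 7)
      * r23 + (1 / 7) * r24 + (1 / 7) * r28 + (1 / 7) * r29
  · linear_combination (17 / 42) * r0 + (-4 / 7) * r1 + (-41 / 42) * r2 + (331 / 168) * r3 +
      (-5 / 84) * r4 + (653 / 168) * r5 + (-41 / 42) * r6 + (-137 / 56) * r7 + (-107 / 56) *
      r8 + (-1 / 2) * r9 + (1 / 6) * r10 + (193 / 56) * r11 + (-131 / 168) * r12 + (109 /
      56) * r13 + (-53 / 56) * r14 + (2 / 3) * r15 + (-109 / 28) * r16 + (-1 / 2) * r22 +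
      (25 / 28) * r23 + (39 / 28) * r24 + (-2) * r25 + (-3 / 2) * r26 + (-5 / 2) * r27 +
      (109 / 28) * r28 + (25 / 28) * r29
  · linear_combination (-4 / 21) * r0 + (6 / 7) * r1 + (22 / 21) * r2 + (-89 / 84) * r3 +
      (37 / 42) * r4 + (-271 / 84) * r5 + (22 / 21) * r6 + (31 / 28) * r7 + (33 / 28) * r8 +
      (1) * r9 + (1 / 3) * r10 + (-59 / 28) * r11 + (37 / 84) * r12 + (-31 / 28) * r13 + (31
      / 28) * r14 + (-2 / 3) * r15 + (31 / 14) * r16 + (-1) * r22 + (-3 / 14) * r23 + (-17 /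
      14) * r24 + (2) * r25 + (1) * r26 + (1) * r27 + (-31 / 14) * r28 + (-3 / 14) * r29
  · linear_combination (-13 / 63) * r0 + (25 / 42) * r1 + (59 / 126) * r2 + (-211 / 504) *
      r3 + (-43 / 252) * r4 + (-617 / 504) * r5 + (40 / 63) * r6 + (149 / 168) * r7 + (71 /
      168) * r8 + (1 / 6) * r9 + (-1 / 18) * r10 + (-149 / 168) * r11 + (-1 / 504) * r12 +
      (-65 / 168) * r13 + (121 / 168) * r14 + (4 / 9) * r15 + (65 / 84) * r16 + (1 / 6) *
      r22 + (19 / 84) * r23 + (5 / 84) * r24 + (-1 / 3) * r25 + (1 / 2) * r26 + (1 / 6) *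
      r27 + (-65 / 84) * r28 + (-37 / 84) * r29
  · linear_combination (-41 / 63) * r0 + (-31 / 42) * r1 + (31 / 126) * r2 + (-491 / 504) *
      r3 + (97 / 252) * r4 + (-841 / 504) * r5 + (5 / 63) * r6 + (37 / 168) * r7 + (127 /
      168) * r8 + (5 / 6) * r9 + (1 / 18) * r10 + (-205 / 168) * r11 + (55 / 504) * r12 +
      (-121 / 168) * r13 + (65 / 168) * r14 + (-4 / 9) * r15 + (121 / 84) * r16 + (-1 / 6) *
      r22 + (-37 / 84) * r23 + (-23 / 84) * r24 + (4 / 3) * r25 + (1 / 2) * r26 + (5 / 6) *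
      r27 + (-121 / 84) * r28 + (19 / 84) * r29
  · linear_combination (79 / 126) * r0 + (-17 / 42) * r1 + (-86 / 63) * r2 + (283 / 252) *
      r3 + (-11 / 126) * r4 + (815 / 252) * r5 + (-151 / 126) * r6 + (-83 / 84) * r7 + (-101
      / 84) * r8 + (-4 / 3) * r9 + (1 / 9) * r10 + (167 / 84) * r11 + (-53 / 252) * r12 +
      (83 / 84) * r13 + (-139 / 84) * r14 + (1 / 9) * r15 + (-83 / 42) * r16 + (-1 / 3) *
      r22 + (-1 / 42) * r23 + (13 / 42) * r24 + (-1 / 3) * r25 + (-1) * r26 + (-1 / 3) * r27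
      + (83 / 42) * r28 + (13 / 42) * r29
  · linear_combination (9 / 14) * r0 + (5 / 14) * r1 + (5 / 7) * r2 + (3 / 28) * r3 + (3 /
      14) * r4 + (3 / 28) * r5 + (3 / 14) * r6 + (3 / 28) * r7 + (5 / 28) * r8 + (-3 / 28) *
      r11 + (3 / 28) * r12 + (-3 / 28) * r13 + (3 / 28) * r14 + (3 / 14) * r16 + (-3 / 14) *
      r23 + (-3 / 14) * r24 + (-3 / 14) * r28 + (-3 / 14) * r29
  · linear_combination (-34 / 63) * r0 + (-17 / 42) * r1 + (-25 / 126) * r2 + (209 / 504) *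
      r3 + (-1 / 252) * r4 + (223 / 504) * r5 + (-2 / 63) * r6 + (-103 / 168) * r7 + (-97 /
      168) * r8 + (1 / 6) * r9 + (5 / 18) * r10 + (187 / 168) * r11 + (-85 / 504) * r12 +
      (103 / 168) * r13 + (-47 / 168) * r14 + (-2 / 9) * r15 + (-103 / 84) * r16 + (-5 / 6)
      * r22 + (19 / 84) * r23 + (5 / 84) * r24 + (2 / 3) * r25 + (-1 / 2) * r26 + (-5 / 6) *
      r27 + (103 / 84) * r28 + (47 / 84) * r29
  · linear_combination (31 / 21) * r0 + (6 / 7) * r1 + (-13 / 21) * r2 + (107 / 84) * r3 +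
      (-19 / 42) * r4 + (289 / 84) * r5 + (-13 / 21) * r6 + (-25 / 28) * r7 + (-23 / 28) *
      r8 + (-1) * r9 + (-1 / 3) * r10 + (53 / 28) * r11 + (-19 / 84) * r12 + (25 / 28) * r13
      + (-25 / 28) * r14 + (2 / 3) * r15 + (-25 / 14) * r16 + (1) * r22 + (-3 / 14) * r23 +
      (11 / 14) * r24 + (-2) * r25 + (-1) * r26 + (-1) * r27 + (25 / 14) * r28 + (-3 / 14) *
      r29
  · linear_combination (-1 / 42) * r0 + (5 / 14) * r1 + (29 / 21) * r2 + (-187 / 84) * r3 +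
      (23 / 42) * r4 + (-383 / 84) * r5 + (79 / 42) * r6 + (59 / 28) * r7 + (61 / 28) * r8 +
      (1) * r9 + (-1 / 3) * r10 + (-115 / 28) * r11 + (65 / 84) * r12 + (-59 / 28) * r13 +
      (59 / 28) * r14 + (-1 / 3) * r15 + (59 / 14) * r16 + (1) * r22 + (-3 / 14) * r23 +
      (-17 / 14) * r24 + (1) * r25 + (2) * r26 + (2) * r27 + (-59 / 14) * r28 + (-17 / 14) *
      r29
  · linear_combination (-9 / 7) * r0 + (-5 / 7) * r1 + (-3 / 7) * r2 + (-3 / 14) * r3 + (-3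
      / 7) * r4 + (-3 / 14) * r5 + (-3 / 7) * r6 + (-3 / 14) * r7 + (-5 / 14) * r8 + (3 /
      14) * r11 + (-3 / 14) * r12 + (3 / 14) * r13 + (-3 / 14) * r14 + (-3 / 7) * r16 + (3 /
      7) * r23 + (3 / 7) * r24 + (3 / 7) * r28 + (3 / 7) * r29

theorem low6_rl : ∀ k ∈ cps 5, ∃ q : ℚ, ∀ x, Rl x → x k = q * sq21 x := by
  intro k hk
  rw [show cps 5 = [[1, 1, 1, 1, 1, 1], [1, 1, 1, 1, 2], [1, 1, 1, 2, 1], [1, 1, 1, 3], [1,
      1, 2, 1, 1], [1, 1, 2, 2], [1, 1, 3, 1], [1, 1, 4], [1, 2, 1, 1, 1], [1, 2, 1, 2], [1,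
      2, 2, 1], [1, 2, 3], [1, 3, 1, 1], [1, 3, 2], [1, 4, 1], [1, 5], [2, 1, 1, 1, 1], [2,
      1, 1, 2], [2, 1, 2, 1], [2, 1, 3], [2, 2, 1, 1], [2, 2, 2], [2, 3, 1], [2, 4], [3, 1,
      1, 1], [3, 1, 2], [3, 2, 1], [3, 3], [4, 1, 1], [4, 2], [5, 1], [6]] from rfl] at hk
  simp only [List.mem_cons, List.not_mem_nil, or_false] at hk
  rcases hk with rfl | rfl | rfl | rfl | rfl | rfl | rfl | rfl | rfl | rfl | rfl | rfl | rfl
      | rfl | rfl | rfl | rfl | rfl | rfl | rfl | rfl | rfl | rfl | rfl | rfl | rfl | rfl |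
      rfl | rfl | rfl | rfl | rfl
  · exact ⟨_, fun _ h => (low6_key h).1⟩
  · exact ⟨_, fun _ h => (low6_key h).2.1⟩
  · exact ⟨_, fun _ h => (low6_key h).2.2.1⟩
  · exact ⟨_, fun _ h => (low6_key h).2.2.2.1⟩
  · exact ⟨_, fun _ h => (low6_key h).2.2.2.2.1⟩
  · exact ⟨_, fun _ h => (low6_key h).2.2.2.2.2.1⟩
  · exact ⟨_, fun _ h => (low6_key h).2.2.2.2.2.2.1⟩
  · exact ⟨_, fun _ h => (low6_key h).2.2.2.2.2.2.2.1⟩
  · exact ⟨_, fun _ h => (low6_key h).2.2.2.2.2.2.2.2.1⟩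
  · exact ⟨_, fun _ h => (low6_key h).2.2.2.2.2.2.2.2.2.1⟩
  · exact ⟨_, fun _ h => (low6_key h).2.2.2.2.2.2.2.2.2.2.1⟩
  · exact ⟨_, fun _ h => (low6_key h).2.2.2.2.2.2.2.2.2.2.2.1⟩
  · exact ⟨_, fun _ h => (low6_key h).2.2.2.2.2.2.2.2.2.2.2.2.1⟩
  · exact ⟨_, fun _ h => (low6_key h).2.2.2.2.2.2.2.2.2.2.2.2.2.1⟩
  · exact ⟨_, fun _ h => (low6_key h).2.2.2.2.2.2.2.2.2.2.2.2.2.2.1⟩
  · exact ⟨_, fun _ h => (low6_key h).2.2.2.2.2.2.2.2.2.2.2.2.2.2.2.1⟩
  · exact ⟨_, fun _ h => (low6_key h).2.2.2.2.2.2.2.2.2.2.2.2.2.2.2.2.1⟩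
  · exact ⟨_, fun _ h => (low6_key h).2.2.2.2.2.2.2.2.2.2.2.2.2.2.2.2.2.1⟩
  · exact ⟨_, fun _ h => (low6_key h).2.2.2.2.2.2.2.2.2.2.2.2.2.2.2.2.2.2.1⟩
  · exact ⟨_, fun _ h => (low6_key h).2.2.2.2.2.2.2.2.2.2.2.2.2.2.2.2.2.2.2.1⟩
  · exact ⟨_, fun _ h => (low6_key h).2.2.2.2.2.2.2.2.2.2.2.2.2.2.2.2.2.2.2.2.1⟩
  · exact ⟨_, fun _ h => (low6_key h).2.2.2.2.2.2.2.2.2.2.2.2.2.2.2.2.2.2.2.2.2.1⟩
  · exact ⟨_, fun _ h => (low6_key h).2.2.2.2.2.2.2.2.2.2.2.2.2.2.2.2.2.2.2.2.2.2.1⟩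
  · exact ⟨_, fun _ h => (low6_key h).2.2.2.2.2.2.2.2.2.2.2.2.2.2.2.2.2.2.2.2.2.2.2.1⟩
  · exact ⟨_, fun _ h => (low6_key h).2.2.2.2.2.2.2.2.2.2.2.2.2.2.2.2.2.2.2.2.2.2.2.2.1⟩
  · exact ⟨_, fun _ h => (low6_key h).2.2.2.2.2.2.2.2.2.2.2.2.2.2.2.2.2.2.2.2.2.2.2.2.2.1⟩
  · exact ⟨_, fun _ h => (low6_key h).2.2.2.2.2.2.2.2.2.2.2.2.2.2.2.2.2.2.2.2.2.2.2.2.2.2.1⟩
  · exact ⟨_, fun _ h => (low6_key h).2.2.2.2.2.2.2.2.2.2.2.2.2.2.2.2.2.2.2.2.2.2.2.2.2.2.2.1⟩
  · exact ⟨_, fun _ h => (low6_key h).2.2.2.2.2.2.2.2.2.2.2.2.2.2.2.2.2.2.2.2.2.2.2.2.2.2.2.2.1⟩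
  · exact ⟨_, fun _ h => (low6_key h).2.2.2.2.2.2.2.2.2.2.2.2.2.2.2.2.2.2.2.2.2.2.2.2.2.2.2.2.2.1⟩
  · exact ⟨_, fun _ h => (low6_key h).2.2.2.2.2.2.2.2.2.2.2.2.2.2.2.2.2.2.2.2.2.2.2.2.2.2.2.2.2.2.1⟩
  · exact ⟨_, fun _ h => (low6_key h).2.2.2.2.2.2.2.2.2.2.2.2.2.2.2.2.2.2.2.2.2.2.2.2.2.2.2.2.2.2.2⟩

theorem low6 (k : List ℕ+) (hk : wt k = 6) :
    ∃ q : ℚ, Lf fun p => zeta k p - q * (zeta [2, 1] p * zeta [2, 1] p) := by
  obtain ⟨q, hq⟩ := low6_rl k (cps_mem 5 k hk)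
  refine ⟨q, (lf_dual (x := zeta k - q • zs (stl 9 [2, 1] [2, 1])) fun φ h => ?_).congr
    (Eventually.of_forall fun p _ => ?_)⟩
  · rw [φ.map_sub, φ.map_smul, hq _ (rl_of h), smul_eq_mul, phi_zs, sq21, sub_self]
  · rw [stl_spec 9 _ _ (by decide)]
    rfl

end Pool.Agent.FMZ
end

-- part Pool.Agent.P.MP_cb43af_nt.FzGood
section

open Finset Filter Polynomial
namespace Pool.Agent.FMZ

open Classical in
theorem fzgood_row {a b : ℤ} {f : Nd → ℚ} {n : ℕ} (h : Ch a b f) {p : ℕ} [Fact p.Prime]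
    (h5 : 5 ≤ p) (h2 : 24 * n ≤ p ^ 2) (hH : Hp a b p) {y : Nd} (hy : y ∈ nodes n)
    (hne : f y - lift0 b p y ≠ 0) :
    (1 : ℤ) - 4 * (if Pole p y then 1 else 0) ≤ padicValRat p (f y - lift0 b p y) := by
  have hp1 : (1 : ℚ) ≤ p := by exact_mod_cast (show 1 ≤ p by omega)
  by_cases hP : Pole p y
  · rw [if_pos hP]
    refine (val_of_norm p hne _).1 ?_
    have h1 : padicNorm p (f y) ≤ (p : ℚ) ^ (3 * 1) :=
      ch_norm h p (L := 1) (by show 12 * n ≤ p ^ 2; omega) hy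
    have h3 : padicNorm p ((lift0 b p y : ℤ) : ℚ) ≤ (p : ℚ) ^ (3 * 1) :=
      (padicNorm.of_int _).trans (one_le_pow₀ hp1)
    have h4 : (p : ℚ) ^ (-((1 : ℤ) - 4 * 1)) = (p : ℚ) ^ (3 * 1) := by
      rw [show (-((1 : ℤ) - 4 * 1)) = ((3 * 1 : ℕ) : ℤ) by norm_num, zpow_natCast]
    rw [h4]
    exact padicNorm.sub.trans (max_le h1 h3)
  · rw [if_neg hP]
    refine (val_of_norm p hne _).1 ?_
    have h1 := ch_cong h5 h hH hP
    have h4 : (p : ℚ) ^ (-((1 : ℤ) - 4 * 0)) = 1 / p := by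
      rw [show (-((1 : ℤ) - 4 * 0)) = -1 by norm_num, zpow_neg_one, one_div]
    rw [h4]; exact h1

theorem good_bound {a b : ℤ} {f : Nd → ℚ} {n m : ℕ} {x : Col m → Nd} (h : Ch a b f)
    (hx : Sel n m x) (hD : DD m f x ≠ 0) {p : ℕ} (hp : p.Prime) (h5 : 5 ≤ p)
    (h2 : 24 * n ≤ p ^ 2) (h3 : 3 * n < 2 * p) (hH : Hp a b p) :
    (24 * n - p : ℝ) / 6 - 16 / 3 * max (3 * n - p : ℝ) 0 - 4 * max (4 * n - p : ℝ) 0 - 45
      ≤ padicValRat p (qq m f x) := by
  classical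
  haveI : Fact p.Prime := ⟨hp⟩
  have hexp : DD m f x = ∑ S : Finset (Col m), (∏ r ∈ S, (f (x r) - (lift0 b p (x r) : ℚ))) *
      DS m (fun r => (zz (x r) : ℚ)) (fun r => (lift0 b p (x r) : ℚ)) S :=
    det_expand _ _ _
  obtain ⟨S, -, hne, hle⟩ := val_term p univ _ (hexp ▸ hD)
  rw [← hexp] at hle
  have hmap : DS m (fun r => (zz (x r) : ℚ)) (fun r => (lift0 b p (x r) : ℚ)) S =
      ((DS m (fun r => zz (x r)) (fun r => lift0 b p (x r)) S : ℤ) : ℚ) :=
    (DS_map (Int.castRingHom ℚ) (fun r => zz (x r)) (fun r => lift0 b p (x r)) S).symm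
  rw [hmap] at hne hle
  obtain ⟨hn1, hn2⟩ := mul_ne_zero_iff.1 hne
  have hn3 : ∀ r ∈ S, f (x r) - (lift0 b p (x r) : ℚ) ≠ 0 := prod_ne_zero_iff.1 hn1
  have hn4 : DS m (fun r => zz (x r)) (fun r => lift0 b p (x r)) S ≠ 0 := by exact_mod_cast hn2
  rw [padicValRat.mul hn1 hn2, val_prod p S _ hn3, padicValRat.of_int] at hle
  have hsum : (S.card : ℤ) - 4 * ((univ.filter fun r => Pole p (x r)).card : ℕ) ≤
      ∑ r ∈ S, padicValRat p (f (x r) - (lift0 b p (x r) : ℚ)) := by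
    refine le_trans ?_ (sum_le_sum fun r hr => fzgood_row h h5 h2 hH (hx.mem r) (hn3 r hr))
    rw [sum_sub_distrib, ← mul_sum, sum_boole, sum_const, nsmul_eq_mul, mul_one]
    have : (S.filter fun r => Pole p (x r)).card ≤ (univ.filter fun r => Pole p (x r)).card :=
      card_le_card (filter_subset_filter _ (subset_univ S))
    have : ((S.filter fun r => Pole p (x r)).card : ℤ) ≤
      ((univ.filter fun r => Pole p (x r)).card : ℕ) := by exact_mod_cast this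
    linarith
  have hds := ds_val p hx.zinj (fun r s hrs => lift0_congr h5 b hrs) hn4
  obtain ⟨T, σ, hM, hT⟩ := exists_match hx hp h5
  have hlev := lev_two p (u := fun r => zz (x r)) (not_cube hx hp h2) S hM
  have hmult := mult_sq hx hp h5 h2
  have hpole := card_pole hx hp h5 h3
  have hq := val_qq p hx hD
  have hp0 : (0 : ℝ) < p := by exact_mod_cast hp.pos
  have h83 : (4 * n / p : ℝ) ≤ 8 / 3 := by
    rw [div_le_iff₀ hp0]
    have : (3 * n : ℝ) < 2 * p := by exact_mod_cast h3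
    linarith
  have key : (2 * T.card : ℤ) - 16 * ((univ.filter fun r => Pole p (x r)).card : ℕ)
      - (mult fun r => zz (x r) % (p : ℤ) ^ 2 : ℕ) ≤ padicValRat p (qq m f x) := by
    rw [hq]
    zify at hds hlev
    linarith
  have key' : (2 * T.card : ℝ) - 16 * ((univ.filter fun r => Pole p (x r)).card : ℕ)
      - (mult fun r => zz (x r) % (p : ℤ) ^ 2 : ℕ) ≤ padicValRat p (qq m f x) := by
    exact_mod_cast key
  linarith

end Pool.Agent.FMZ
end

-- part Pool.Agent.P.MP_cb43af_nt.FzMark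
section

open Finset Filter Polynomial
namespace Pool.Agent.FMZ

theorem fzmark_pow (q : ℚ) (k : ℕ) : padicNorm 2 (q ^ k) = padicNorm 2 q ^ k :=
  IsAbsoluteValue.abv_pow (padicNorm 2) q k

theorem fzmark_odd {y : ℤ} (hy : Odd y) : padicNorm 2 (y : ℚ) = 1 := by
  rw [padicNorm.int_eq_one_iff]
  obtain ⟨t, rfl⟩ := hy
  push_cast
  omega

theorem fzmark_two (k : ℕ) {y : ℤ} (hy : Odd y) : padicNorm 2 (2 ^ k * (y : ℚ)) = 1 / 2 ^ k := by
  have h : padicNorm 2 (2 : ℚ) = 2⁻¹ := by simpa using padicNorm.padicNorm_p (p := 2) (by norm_num)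
  rw [padicNorm.mul, fzmark_pow, fzmark_odd hy, h, mul_one, inv_pow, one_div]

theorem fzmark_144 : padicNorm 2 144 = 1 / 16 := by
  have := fzmark_two 4 (y := 9) (by decide)
  norm_num at this ⊢
  exact this

theorem fzmark_fact (k : ℕ) : 8 ^ (k / 4) ∣ k.factorial := by
  have h : ∀ t : ℕ, 8 ^ t ∣ (4 * t).factorial := by
    intro t
    induction t with
    | zero => simp
    | succ t ih =>
      rw [show 4 * (t + 1) = 4 * t + 1 + 1 + 1 + 1 by ring, pow_succ]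
      simp only [Nat.factorial_succ]
      obtain ⟨c, hc⟩ := ih
      rw [hc]
      exact ⟨(t + 1) * (4 * t + 3) * (2 * t + 1) * (4 * t + 1) * c, by ring⟩
  exact (h _).trans (Nat.factorial_dvd_factorial (Nat.mul_div_le k 4))

theorem gam_norm (k : ℕ) : padicNorm 2 (gam k / 32 ^ (k + 1)) ≤ 2 ^ 13 := by
  obtain ⟨v, y, hy, e⟩ := Nat.exists_eq_two_pow_mul_odd (n := k + 1) (by omega)
  obtain ⟨c, hc⟩ := fzmark_fact k
  have hv : 2 * v ≤ k + 1 := by
    have h1 : 2 * v ≤ 2 ^ v := Nat.mul_le_pow (by norm_num) v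
    have h2 : 2 ^ v ≤ 2 ^ v * y := Nat.le_mul_of_pos_right _ hy.pos
    omega
  obtain ⟨d, hd⟩ : ∃ d, 6 * (k / 4) + 5 = d + (k + v) := ⟨6 * (k / 4) + 5 - (k + v), by omega⟩
  have hy0 : (y : ℚ) ≠ 0 := by exact_mod_cast hy.pos.ne'
  have e' : (k : ℚ) + 1 = 2 ^ v * y := by exact_mod_cast e
  have hc' : (k.factorial : ℚ) ^ 2 * 32 = 2 ^ d * 2 ^ k * 2 ^ v * c ^ 2 := by
    rw [hc, mul_assoc (2 ^ d : ℚ), ← pow_add, ← pow_add, ← hd]
    push_cast
    generalize k / 4 = t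
    rw [pow_add, pow_mul, mul_pow, ← pow_mul, mul_comm t, pow_mul]
    norm_num
    ring
  have key : gam k / 32 ^ (k + 1) =
      (((-1) ^ (k + 1) * 9 ^ k * 2 ^ d * c ^ 2 : ℤ) : ℚ) / (2 ^ 13 * ((3 * y : ℤ) : ℚ)) := by
    rw [gam, e', eq_div_of_mul_eq (by norm_num) hc', show (144 : ℚ) = 9 * 16 by norm_num,
      show (32 : ℚ) ^ (k + 1) = 32 * (2 ^ k * 16 ^ k) by
        rw [← mul_pow, pow_succ']; norm_num, mul_pow]
    push_cast
    field_simp
    ring
  rw [key, padicNorm.div, fzmark_two 13 (Odd.mul (by decide) ((Int.odd_coe_nat y).2 hy)),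
    div_le_iff₀ (by positivity)]
  exact (padicNorm.of_int _).trans (by norm_num)

theorem NN_norm (k : ℕ) {y : ℤ} (hy : Odd y) : padicNorm 2 (NN k ((y : ℚ) ^ 2)) = 1 := by
  induction k with
  | zero => simp [NN]
  | succ k ih =>
    have h : Odd (y ^ 2 - (12 * (k : ℤ) + 6) ^ 2) :=
      hy.pow.sub_even ⟨2 * (6 * (k : ℤ) + 3) ^ 2, by ring⟩
    have := fzmark_odd h
    push_cast at this
    rw [NN, prod_range_succ, padicNorm.mul, this, mul_one]
    exact ih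

theorem TK_norm (K : ℕ) {y : ℤ} (hy : Odd y) : padicNorm 2 (TK K y) ≤ 2 ^ 13 := by
  refine padicNorm.sum_le' (fun k _ => ?_) (by positivity)
  have e : gam k = gam k / 32 ^ (k + 1) * ((32 ^ (k + 1) : ℤ) : ℚ) := by
    push_cast
    field_simp
  rw [padicNorm.div, NN_norm _ hy, div_one, e, padicNorm.mul]
  exact (mul_le_of_le_one_right (padicNorm.nonneg _) (padicNorm.of_int _)).trans (gam_norm k)

theorem fzmark_A (k : ℕ) {l : ℤ} (hl : Odd l) :
    padicNorm 2 (∏ i ∈ range k, ((l : ℚ) ^ 2 - 144 * (i + 1) ^ 2)) = 1 := by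
  induction k with
  | zero => simp
  | succ k ih =>
    have h : Odd (l ^ 2 - 144 * ((k : ℤ) + 1) ^ 2) :=
      hl.pow.sub_even ⟨72 * ((k : ℤ) + 1) ^ 2, by ring⟩
    have := fzmark_odd h
    push_cast at this
    rw [prod_range_succ, padicNorm.mul, this, ih, mul_one]

theorem fzmark_NN (k : ℕ) (L : ℚ) :
    NN k ((L + 6) ^ 2) * (L - 12 * k) = L * ∏ i ∈ range k, (L ^ 2 - 144 * (i + 1) ^ 2) ∧
    NN k ((L - 6) ^ 2) * (L + 12 * k) = L * ∏ i ∈ range k, (L ^ 2 - 144 * (i + 1) ^ 2) := by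
  induction k with
  | zero => simp [NN]
  | succ k ih =>
    simp only [NN, prod_range_succ] at ih ⊢
    push_cast
    constructor
    · linear_combination (L ^ 2 - 144 * (k + 1) ^ 2) * ih.1
    · linear_combination (L ^ 2 - 144 * (k + 1) ^ 2) * ih.2

theorem fzmark_id (K : ℕ) {l : ℤ} (hl : Odd l) :
    TK K (l + 6) - TK K (l - 6) - 1 / (l : ℚ) ^ 3 = -((-144) ^ K * (K.factorial : ℚ) ^ 2 /
      ((l : ℚ) ^ 3 * ∏ i ∈ range K, ((l : ℚ) ^ 2 - 144 * (i + 1) ^ 2))) := by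
  have ne : ∀ q : ℚ, padicNorm 2 q = 1 → q ≠ 0 := by
    rintro q hq rfl
    simp at hq
  have hl0 : (l : ℚ) ≠ 0 := ne _ (fzmark_odd hl)
  induction K with
  | zero => simp [TK]
  | succ K ih =>
    obtain ⟨h1, h2⟩ := fzmark_NN (K + 1) l
    have hA := ne _ (fzmark_A (K + 1) hl)
    have n1 := ne _ (NN_norm (K + 1) (hl.add_even (show Even (6 : ℤ) by decide)))
    have n2 := ne _ (NN_norm (K + 1) (hl.sub_even (show Even (6 : ℤ) by decide)))
    push_cast at n1 n2 h1 h2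
    have e1 : gam K / NN (K + 1) (((l : ℚ) + 6) ^ 2) = gam K * (l - 12 * (K + 1)) /
        (l * ∏ i ∈ range (K + 1), ((l : ℚ) ^ 2 - 144 * (i + 1) ^ 2)) := by
      rw [div_eq_div_iff n1 (mul_ne_zero hl0 hA), ← h1]
      ring
    have e2 : gam K / NN (K + 1) (((l : ℚ) - 6) ^ 2) = gam K * (l + 12 * (K + 1)) /
        (l * ∏ i ∈ range (K + 1), ((l : ℚ) ^ 2 - 144 * (i + 1) ^ 2)) := by
      rw [div_eq_div_iff n2 (mul_ne_zero hl0 hA), ← h2]
      ring
    simp only [TK, sum_range_succ] at ih ⊢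
    rw [e1, e2]
    rw [prod_range_succ] at hA ⊢
    have hA1 := left_ne_zero_of_mul hA
    have hA2 := right_ne_zero_of_mul hA
    have hK : (K : ℚ) + 1 ≠ 0 := by positivity
    have e3 : gam K * (24 * (K + 1)) = -((-144) ^ K * (K.factorial : ℚ) ^ 2) := by
      rw [gam, div_mul_cancel₀ _ (by positivity), neg_eq_neg_one_mul (144 : ℚ), mul_pow]
      ring
    rw [Nat.factorial_succ, pow_succ (-144 : ℚ)]
    push_cast
    generalize ∏ i ∈ range K, ((l : ℚ) ^ 2 - 144 * (i + 1) ^ 2) = A at *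
    generalize (-144 : ℚ) ^ K = B at *
    have e4 : gam K * (l - 12 * (K + 1)) / (l * (A * ((l : ℚ) ^ 2 - 144 * (K + 1) ^ 2))) -
        gam K * (l + 12 * (K + 1)) / (l * (A * ((l : ℚ) ^ 2 - 144 * (K + 1) ^ 2))) =
        B * (K.factorial : ℚ) ^ 2 / (l * (A * ((l : ℚ) ^ 2 - 144 * (K + 1) ^ 2))) := by
      rw [← sub_div]
      congr 1
      linear_combination -e3
    have e5 : B * (K.factorial : ℚ) ^ 2 / (l * (A * ((l : ℚ) ^ 2 - 144 * (K + 1) ^ 2))) -
        B * (K.factorial : ℚ) ^ 2 / ((l : ℚ) ^ 3 * A) =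
        -(B * -144 * (((K : ℚ) + 1) * K.factorial) ^ 2 /
          ((l : ℚ) ^ 3 * (A * ((l : ℚ) ^ 2 - 144 * (K + 1) ^ 2)))) := by
      field_simp
      ring
    linear_combination ih + e4 + e5

theorem TK_step (K : ℕ) {l : ℤ} (hl : Odd l) :
    padicNorm 2 (TK K (l + 6) - TK K (l - 6) - 1 / (l : ℚ) ^ 3) ≤ 1 / 16 ^ K := by
  rw [fzmark_id K hl, padicNorm.neg, padicNorm.div, padicNorm.mul, padicNorm.mul, fzmark_pow,
    fzmark_pow, fzmark_pow, fzmark_A K hl, fzmark_odd hl, padicNorm.neg, fzmark_144, one_pow,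
    mul_one, div_one, one_div_pow]
  exact mul_le_of_le_one_right (by positivity)
    (pow_le_one₀ (padicNorm.nonneg _) (padicNorm.of_nat _))

theorem ch_approx {a b : ℤ} {f : Nd → ℚ} (h : Ch a b f) (K : ℕ) (i : ℤ) :
    padicNorm 2 (f (true, i) - (a - b * TK K 3 + b * TK K (yy (true, i)))) ≤ 1 / 16 ^ K := by
  have step : ∀ i : ℤ, padicNorm 2
      ((f (true, i + 1) - (a - b * TK K 3 + b * TK K (yy (true, i + 1)))) -
        (f (true, i) - (a - b * TK K 3 + b * TK K (yy (true, i))))) ≤ 1 / 16 ^ K := by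
    intro i
    have h1 := TK_step K (l := 12 * i + 9) ⟨6 * i + 4, by ring⟩
    have e1 : ((yy (true, i + 1) : ℤ) : ℚ) = ((12 * i + 9 : ℤ) : ℚ) + 6 := by
      simp only [yy, if_true]
      push_cast
      ring
    have e2 : ((yy (true, i) : ℤ) : ℚ) = ((12 * i + 9 : ℤ) : ℚ) - 6 := by
      simp only [yy, if_true]
      push_cast
      ring
    rw [h.step, e1, e2, sub_add_cancel]
    generalize ((12 * i + 9 : ℤ) : ℚ) = L at *
    rw [show f (true, i) + b / L ^ 3 - (a - b * TK K 3 + b * TK K (L + 6)) -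
      (f (true, i) - (a - b * TK K 3 + b * TK K (L - 6))) =
      -(b * (TK K (L + 6) - TK K (L - 6) - 1 / L ^ 3)) by ring, padicNorm.neg, padicNorm.mul]
    exact (mul_le_of_le_one_left (padicNorm.nonneg _) (padicNorm.of_int _)).trans h1
  induction i using Int.induction_on with
  | zero =>
    have e : ((yy (true, 0) : ℤ) : ℚ) = 3 := by simp [yy]
    rw [h.zB, e, sub_add_cancel, sub_self, padicNorm.zero]
    positivity
  | succ i ih =>
    have := (padicNorm.nonarchimedean (p := 2)).trans (max_le (step i) ih)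
    rwa [sub_add_cancel] at this
  | pred i ih =>
    have h1 := step (-(i : ℤ) - 1)
    rw [sub_add_cancel] at h1
    have := (padicNorm.sub (p := 2)).trans (max_le ih h1)
    rwa [sub_sub_cancel] at this

end Pool.Agent.FMZ
end

-- part Pool.Agent.P.MP_cb43af_nt.FzTwoB
section

open Finset Filter Polynomial
namespace Pool.Agent.FMZ

def fztwobO : Subring ℚ where
  carrier := {q | padicNorm 2 q ≤ 1}
  mul_mem' := fun {a b} ha hb => by
    have ha' : padicNorm 2 a ≤ 1 := ha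
    have hb' : padicNorm 2 b ≤ 1 := hb
    change padicNorm 2 (a * b) ≤ 1
    rw [padicNorm.mul]
    exact mul_le_one₀ ha' (padicNorm.nonneg _) hb'
  one_mem' := by change padicNorm 2 1 ≤ 1; simp
  add_mem' := fun {a b} ha hb => padicNorm.nonarchimedean.trans (max_le ha hb)
  zero_mem' := by change padicNorm 2 0 ≤ 1; simp
  neg_mem' := fun {a} ha => by change padicNorm 2 (-a) ≤ 1; rw [padicNorm.neg]; exact ha

theorem fztwob_two (E : ℕ) : padicNorm 2 ((2 : ℚ) ^ E) = 1 / 2 ^ E := by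
  have h : padicNorm 2 (2 : ℚ) = 1 / 2 := by
    simpa using padicNorm.padicNorm_p_of_prime (p := 2)
  induction E with
  | zero => simp
  | succ E ih => rw [pow_succ, padicNorm.mul, ih, h]; field_simp

theorem fztwob_scale {q : ℚ} {E : ℕ} (h : padicNorm 2 q ≤ 2 ^ E) : 2 ^ E * q ∈ fztwobO := by
  change padicNorm 2 (2 ^ E * q) ≤ 1
  rw [padicNorm.mul, fztwob_two, one_div, inv_mul_le_iff₀ (by positivity), mul_one]
  exact h

theorem fztwob_val_odd {z : ℤ} (hz : Odd z) : padicValRat 2 (z : ℚ) = 0 := by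
  rw [padicValRat.of_int, padicValInt.eq_zero_of_not_dvd]; · rfl
  rcases hz with ⟨t, rfl⟩
  omega

theorem fztwob_val32 : padicValRat 2 (32 : ℚ) = 5 := by
  have h : padicValRat 2 ((2 : ℕ) : ℚ) = 1 := padicValRat.self (by norm_num)
  have e : (32 : ℚ) = ((2 : ℕ) : ℚ) ^ 5 := by norm_num
  rw [e, padicValRat.pow, h]; rfl

theorem fztwob_val2 (E : ℕ) : padicValRat 2 ((2 : ℚ) ^ E) = E := by
  have h : padicValRat 2 (2 : ℚ) = 1 := by simpa using padicValRat.self (p := 2) (by norm_num)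
  rw [padicValRat.pow, h, mul_one]

theorem fztwob_tau : ∃ T : ℕ → ℤ, ∀ i : ℕ, ((12 * i + 6) ^ 2 : ℚ) = 4 + 32 * T i := by
  have : ∀ i : ℕ, ∃ t : ℤ, ((12 * i + 6) ^ 2 : ℚ) = 4 + 32 * t := fun i => by
    obtain ⟨s, hs⟩ := Int.even_mul_succ_self (i : ℤ)
    refine ⟨9 * s + 1, ?_⟩
    have h : (i : ℚ) * (i + 1) = s + s := by exact_mod_cast hs
    push_cast
    linear_combination 144 * h
  choose T hT using this
  exact ⟨T, hT⟩

theorem fztwob_A {x : Nd} (h : x.1 = false) : ∃ w : ℤ, zz x = 32 * w := by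
  obtain ⟨s, hs⟩ := Int.even_mul_succ_self x.2
  refine ⟨3 * (s + x.2 * x.2), ?_⟩
  simp only [zz, yy, h, Bool.false_eq_true, if_false]
  linear_combination 48 * hs

theorem fztwob_B {x : Nd} (h : x.1 = true) : Odd (yy x) ∧ Odd (zz x) := by
  have h1 : Odd (yy x) := ⟨6 * x.2 + 1, by simp only [yy, h, if_true]; ring⟩
  refine ⟨h1, ?_⟩
  obtain ⟨t, ht⟩ := h1
  exact ⟨2 * t * t + 2 * t - 2, by rw [zz, ht]; ring⟩

theorem fztwob_NN {T : ℕ → ℤ} (hT : ∀ i : ℕ, ((12 * i + 6) ^ 2 : ℚ) = 4 + 32 * T i) {y z : ℚ}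
    (hz : z = y ^ 2 - 4) (h0 : z ≠ 0) (k : ℕ) :
    NN k (y ^ 2) = z ^ k * ∏ i ∈ range k, (1 - T i * (32 / z)) := by
  rw [NN, ← card_range k, ← prod_const, card_range, ← prod_mul_distrib]
  refine prod_congr rfl fun i _ => ?_
  rw [hT, show y ^ 2 = z + 4 by rw [hz]; ring]
  field_simp
  ring

theorem fztwob_TK {T : ℕ → ℤ} (hT : ∀ i : ℕ, ((12 * i + 6) ^ 2 : ℚ) = 4 + 32 * T i) {y z : ℚ}
    (hz : z = y ^ 2 - 4) (h0 : z ≠ 0) (hN : ∀ k, NN k (y ^ 2) ≠ 0) (K : ℕ) :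
    TK K y * ∏ i ∈ range K, (1 - T i * (32 / z)) = ∑ j ∈ range K, gam j / 32 ^ (j + 1)
      * (32 / z) ^ (j + 1) * ∏ i ∈ Ico (j + 1) K, (1 - T i * (32 / z)) := by
  rw [TK, sum_mul]
  refine sum_congr rfl fun j hj => ?_
  have h1 := hN (j + 1)
  rw [fztwob_NN hT hz h0] at h1 ⊢
  rw [← prod_range_mul_prod_Ico _ (show j + 1 ≤ K from mem_range.1 hj)]
  have h2 := right_ne_zero_of_mul h1
  generalize ∏ i ∈ range (j + 1), (1 - (T i : ℚ) * (32 / z)) = A at h2 ⊢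
  generalize ∏ i ∈ Ico (j + 1) K, (1 - (T i : ℚ) * (32 / z)) = B
  rw [div_pow]
  field_simp

theorem fztwob_pow {z : ℚ} (h0 : z ≠ 0) {m k : ℕ} (hk : k < m) :
    (32 / z) ^ (m - 1) * (z ^ k * (1 / 32) ^ k) = (32 / z) ^ (m - 1 - k) := by
  obtain ⟨d, rfl⟩ : ∃ d, m = k + d + 1 := ⟨m - 1 - k, by omega⟩
  rw [show k + d + 1 - 1 - k = d by omega, show k + d + 1 - 1 = d + k by omega, pow_add,
    mul_assoc, ← mul_pow, ← mul_pow, show 32 / z * (z * (1 / 32)) = 1 by field_simp, one_pow,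
    mul_one]

theorem fztwob_WW {ι : Type} [DecidableEq ι] {z : ι → ℤ} (hz : Function.Injective z)
    (B : Finset ι) (hB : ∀ r ∈ B, Odd (z r)) :
    WW (fun r => (32 / z r : ℚ)) B ≠ 0 ∧ padicValRat 2 (WW (fun r => (32 / z r : ℚ)) B)
      = 5 * (B.card : ℤ) * (B.card - 1) + padicValInt 2 (WW z B) := by
  have n0 : ∀ r ∈ B, (z r : ℚ) ≠ 0 := fun r hr => by
    obtain ⟨t, ht⟩ := hB r hr
    exact_mod_cast (show z r ≠ 0 by omega)
  have d0 : ∀ i, ∀ j ∈ B.erase i, z i - z j ≠ 0 := fun i j hj h =>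
    ne_of_mem_erase hj (hz (sub_eq_zero.1 h)).symm
  have key : ∀ i ∈ B, ∀ j ∈ B.erase i, (32 / z i - 32 / z j : ℚ) ≠ 0 ∧
      padicValRat 2 (32 / z i - 32 / z j : ℚ) = 5 + padicValInt 2 (z i - z j) := fun i hi j hj => by
    have hi0 := n0 i hi
    have hj0 := n0 j (mem_of_mem_erase hj)
    have hd : ((z i - z j : ℤ) : ℚ) ≠ 0 := by exact_mod_cast d0 i j hj
    have e : (32 / z i - 32 / z j : ℚ) = -(32 * ((z i - z j : ℤ) : ℚ) / (z i * z j)) := by
      push_cast; field_simp; ring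
    rw [e, neg_ne_zero, padicValRat.neg]
    refine ⟨div_ne_zero (mul_ne_zero (by norm_num) hd) (mul_ne_zero hi0 hj0), ?_⟩
    rw [padicValRat.div (mul_ne_zero (by norm_num) hd) (mul_ne_zero hi0 hj0),
      padicValRat.mul (by norm_num) hd, padicValRat.mul hi0 hj0, fztwob_val32,
      fztwob_val_odd (hB i hi), fztwob_val_odd (hB j (mem_of_mem_erase hj)), padicValRat.of_int]
    ring
  have p0 : ∀ i ∈ B, ∏ j ∈ B.erase i, (32 / z i - 32 / z j : ℚ) ≠ 0 := fun i hi =>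
    prod_ne_zero_iff.2 fun j hj => (key i hi j hj).1
  refine ⟨prod_ne_zero_iff.2 p0, ?_⟩
  rw [WW, WW, val_prod 2 _ _ p0, valInt_prod 2 _ _ fun i _ => prod_ne_zero_iff.2 (d0 i),
    sum_congr rfl fun i hi => val_prod 2 _ _ fun j hj => (key i hi j hj).1,
    sum_congr rfl fun i hi => sum_congr rfl fun j hj => (key i hi j hj).2,
    sum_congr rfl fun i _ => valInt_prod 2 _ _ (d0 i)]
  simp only [sum_add_distrib, sum_const]
  rw [sum_congr rfl fun i hi => show (B.erase i).card • (5 : ℤ) = 5 * ((B.card : ℤ) - 1) by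
    rw [card_erase_of_mem hi, nsmul_eq_mul, Nat.cast_pred (card_pos.2 ⟨i, hi⟩)]; ring, sum_const]
  push_cast
  simp only [nsmul_eq_mul]
  ring

/-- the two-adic bound when the values on the odd chain are given by the rational function -/
theorem two_exact {n m : ℕ} {x : Col m → Nd} (h : Sel n m x) (b : ℤ) (c : ℚ) (K E : ℕ)
    (hE : 13 ≤ E) (hc : padicNorm 2 c ≤ 2 ^ E) (g : Col m → ℚ)
    (hA : ∀ r, (x r).1 = false → padicNorm 2 (g r) ≤ 2 ^ E)
    (hB : ∀ r, (x r).1 = true → g r = c + b * TK K (yy (x r)))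
    (hD : DG m (fun r => (zz (x r) : ℚ)) g ≠ 0) {k : ℕ}
    (hk : (univ.filter fun r => (x r).1 = true).card = k) :
    10 * (m : ℤ) * (m - 1) - 10 * (m - 1) * k + 5 * k * (k - 1) - 4 * m * E
      + padicValInt 2 (WW (fun r => zz (x r)) (univ.filter fun r => (x r).1 = true))
      ≤ 2 * padicValRat 2 (DG m (fun r => (zz (x r) : ℚ)) g) := by
  classical
  obtain ⟨T, hT⟩ := fztwob_tau
  have hm : 1 ≤ m := by have := h.hm; omega
  set B := univ.filter fun r => (x r).1 = true with hBdef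
  set z : Col m → ℚ := fun r => (zz (x r) : ℚ) with hzdef
  have z0 : ∀ r, (x r).1 = true → z r ≠ 0 := fun r hr => by
    obtain ⟨t, ht⟩ := (fztwob_B hr).2
    simp only [hzdef]
    exact_mod_cast (show zz (x r) ≠ 0 by omega)
  have zy : ∀ r, z r = (yy (x r) : ℚ) ^ 2 - 4 := fun r => by simp [hzdef, zz]
  have N0 : ∀ r, (x r).1 = true → ∀ j, NN j ((yy (x r) : ℚ) ^ 2) ≠ 0 := fun r hr j h0 => by
    have := NN_norm j (fztwob_B hr).1
    rw [h0] at this; simp at this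
  have he : ∀ r, (if (x r).1 = true then 32 / z r else 0) ∈ fztwobO := fun r => by
    split_ifs with hr
    · change padicNorm 2 (32 / z r) ≤ 1
      have h1 : padicNorm 2 (z r) = 1 := by
        rw [padicNorm.eq_zpow_of_nonzero (z0 r hr), fztwob_val_odd (fztwob_B hr).2]; simp
      rw [padicNorm.div, h1, div_one]
      exact_mod_cast padicNorm.of_int (p := 2) 32
    · exact zero_mem _
  have ha : ∀ j, 2 ^ E * (b * (gam j / 32 ^ (j + 1))) ∈ fztwobO := fun j => by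
    refine fztwob_scale ?_
    rw [padicNorm.mul]
    exact (mul_le_of_le_one_left (padicNorm.nonneg _) (padicNorm.of_int b)).trans
      ((gam_norm j).trans (pow_le_pow_right₀ (by norm_num) hE))
  let t : Col m → ℚ := Sum.elim (fun j => (1 / 32) ^ (j : ℕ)) (fun j => (1 / 32) ^ (j : ℕ))
  have hw : ∀ r c', (if (x r).1 = true then 0 else 2 ^ E * (rowv m (z r) 1 (g r) c' * t c'))
      ∈ fztwobO := fun r c' => by
    split_ifs with hr
    · exact zero_mem _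
    have hr' : (x r).1 = false := by simpa using hr
    obtain ⟨w, hw⟩ := fztwob_A hr'
    have e : ∀ j : ℕ, z r ^ j * (1 / 32) ^ j = ((w ^ j : ℤ) : ℚ) := fun j => by
      rw [← mul_pow]; simp only [hzdef, hw]; push_cast; congr 1; ring
    rcases c' with j | j
    · have : (2 : ℚ) ^ E * (rowv m (z r) 1 (g r) (.inl j) * t (.inl j)) = ((2 ^ E * w ^ (j : ℕ) : ℤ) : ℚ) := by
        simp only [rowv, t, Sum.elim_inl, one_mul, e]; push_cast; ring
      rw [this]; exact intCast_mem _ _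
    · have : (2 : ℚ) ^ E * (rowv m (z r) 1 (g r) (.inr j) * t (.inr j))
          = (2 ^ E * g r) * ((w ^ (j : ℕ) : ℤ) : ℚ) := by
        simp only [rowv, t, Sum.elim_inr, mul_assoc, e]
      rw [this]; exact mul_mem (fztwob_scale (hA r hr')) (intCast_mem _ _)
  let η : Col m → fztwobO := fun r => ⟨_, he r⟩
  let lab : Col m → Option (Col m) := fun r => if (x r).1 = true then none else some r
  let PB : Col m → fztwobO[X] := Sum.elim
    (fun j => C (2 ^ E) * X ^ (m - 1 - j) * ∏ i ∈ range K, (1 - C (T i : fztwobO) * X))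
    (fun j => X ^ (m - 1 - j) * (C ⟨_, fztwob_scale hc⟩ * ∏ i ∈ range K, (1 - C (T i : fztwobO) * X)
      + ∑ l ∈ range K, C ⟨_, ha l⟩ * X ^ (l + 1) * ∏ i ∈ Ico (l + 1) K, (1 - C (T i : fztwobO) * X)))
  let P : Option (Col m) → Col m → fztwobO[X] := fun o c' => o.elim (PB c') fun r => C ⟨_, hw r c'⟩
  let s : Col m → ℚ := fun r => if (x r).1 = true then
    2 ^ E * (32 / z r) ^ (m - 1) * ∏ i ∈ range K, (1 - T i * (32 / z r)) else 2 ^ E
  have ent : ∀ r c', fztwobO.subtype ((P (lab r) c').eval (η r))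
      = s r * (t c' * rowv m (z r) 1 (g r) c') := fun r c' => by
    by_cases hr : (x r).1 = true
    · have e0 : fztwobO.subtype (η r) = 32 / z r := by simp [η, hr]
      have e2 : fztwobO.subtype 2 = 2 := map_ofNat _ 2
      rcases c' with j | j
      · simp only [P, lab, s, hr, if_true, Option.elim, PB, Sum.elim_inl, eval_mul, eval_C, eval_pow,
          eval_X, eval_prod, eval_sub, eval_one, map_mul, map_pow, map_prod, map_sub, map_one, e0,
          e2, map_intCast, eval_intCast, rowv, t, eval_ofNat, map_ofNat]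
        rw [← fztwob_pow (z0 r hr) j.2]; ring
      · simp only [P, lab, s, hr, if_true, Option.elim, PB, Sum.elim_inr, eval_mul, eval_C, eval_pow,
          eval_X, eval_prod, eval_sub, eval_one, eval_add, eval_finsetSum, map_mul, map_pow,
          map_prod, map_sub, map_one, map_add, map_sum, e0, map_intCast, eval_intCast, rowv, t,
          Subring.coe_subtype]
        have e3 := fztwob_TK hT (zy r) (z0 r hr) (N0 r hr) K
        have e4 : ∑ l ∈ range K, 2 ^ E * (b * (gam l / 32 ^ (l + 1))) * (32 / z r) ^ (l + 1)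
            * ∏ i ∈ Ico (l + 1) K, (1 - (T i : ℚ) * (32 / z r))
            = 2 ^ E * b * (TK K (yy (x r)) * ∏ i ∈ range K, (1 - (T i : ℚ) * (32 / z r))) := by
          rw [e3, mul_sum]; exact sum_congr rfl fun l _ => by ring
        rw [e4, hB r hr, ← fztwob_pow (z0 r hr) j.2]; ring
    · simp only [P, lab, s, hr, if_false, Option.elim, eval_C, Subring.coe_subtype, Bool.false_eq_true]
      ring
  obtain ⟨u, hu⟩ := newton_dvd lab P η
  have hu' := congrArg fztwobO.subtype hu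
  have e1 : fztwobO.subtype (Matrix.det (Matrix.of fun i c' => (P (lab i) c').eval (η i)))
      = (∏ r, s r) * ((∏ c', t c') * DG m z g) := by
    rw [RingHom.map_det, DG, ← Matrix.det_mul_row, ← Matrix.det_mul_column]
    congr 1
    ext r c'
    exact ent r c'
  have e2 : fztwobO.subtype (WG η lab) = WW (fun r => (32 / (zz (x r) : ℚ))) B := by
    rw [WG, WW, map_prod, hBdef, prod_filter]
    refine prod_congr rfl fun i _ => ?_
    by_cases hi : (x i).1 = true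
    · rw [if_pos hi, map_prod]
      refine prod_congr ?_ fun j hj => ?_
      · ext j
        by_cases hj : (x j).1 = true <;> simp [lab, hi, hj]
      · have hj' := (mem_filter.1 (mem_of_mem_erase hj)).2
        simp [η, hi, hj', hzdef]
    · rw [if_neg hi, filter_eq_empty_iff.2, prod_empty, map_one]
      intro j hj
      have := ne_of_mem_erase hj
      by_cases hj' : (x j).1 = true <;> simp [lab, hi, hj', this]
  obtain ⟨w0, wv⟩ := fztwob_WW h.zinj B fun r hr => (fztwob_B (mem_filter.1 hr).2).2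
  have sv : ∀ r, s r ≠ 0 ∧ padicValRat 2 (s r)
      = E + if (x r).1 = true then 5 * ((m : ℤ) - 1) else 0 := fun r => by
    by_cases hr : (x r).1 = true
    · have q0 : (32 / z r : ℚ) ≠ 0 := div_ne_zero (by norm_num) (z0 r hr)
      have zv : padicValRat 2 (z r) = 0 := fztwob_val_odd (fztwob_B hr).2
      have n1 := N0 r hr K
      have n2 : padicValRat 2 (NN K ((yy (x r) : ℚ) ^ 2)) = 0 := by
        have := NN_norm K (fztwob_B hr).1
        rw [padicNorm.eq_zpow_of_nonzero n1, zpow_eq_one_iff_right₀ (by norm_num) (by norm_num)]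
          at this
        omega
      rw [fztwob_NN hT (zy r) (z0 r hr)] at n1 n2
      have n3 := right_ne_zero_of_mul n1
      rw [padicValRat.mul (pow_ne_zero _ (z0 r hr)) n3, padicValRat.pow, zv] at n2
      have n4 : (2 : ℚ) ^ E * (32 / z r) ^ (m - 1) ≠ 0 :=
        mul_ne_zero (by positivity) (pow_ne_zero _ q0)
      simp only [s, hr, if_true]
      refine ⟨mul_ne_zero n4 n3, ?_⟩
      rw [padicValRat.mul n4 n3, padicValRat.mul (by positivity) (pow_ne_zero _ q0), fztwob_val2,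
        padicValRat.pow, padicValRat.div (by norm_num) (z0 r hr), fztwob_val32, zv,
        Nat.cast_pred hm]
      linarith
    · simp only [s, hr, if_false, Bool.false_eq_true]
      exact ⟨by positivity, by rw [fztwob_val2, add_zero]⟩
  have tv : ∀ c', t c' ≠ 0 := fun c' => by rcases c' with j | j <;> simp [t]
  have v1 : padicValRat 2 (∏ r, s r) = 2 * m * E + 5 * ((m : ℤ) - 1) * k := by
    rw [val_prod 2 _ _ fun r _ => (sv r).1, sum_congr rfl fun r _ => (sv r).2, sum_add_distrib,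
      ← sum_filter, sum_const, sum_const, hk]
    simp only [card_univ, Fintype.card_sum, Fintype.card_fin, nsmul_eq_mul]
    push_cast; ring
  have v2 : padicValRat 2 (∏ c', t c') = -(5 * (m : ℤ) * (m - 1)) := by
    have a1 : ∀ j : ℕ, padicValRat 2 ((1 / 32 : ℚ) ^ j) = -(5 * (j : ℤ)) := fun j => by
      rw [padicValRat.pow, one_div, padicValRat.inv, fztwob_val32]; ring
    have a2 : ∀ M : ℕ, 2 * ∑ j ∈ range M, -(5 * (j : ℤ)) = -(5 * (M : ℤ) * (M - 1)) := fun M => by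
      induction M with
      | zero => simp
      | succ M ih => rw [sum_range_succ, mul_add, ih]; push_cast; ring
    rw [val_prod 2 _ _ fun c' _ => tv c', Fintype.sum_sum_type]
    simp only [t, Sum.elim_inl, Sum.elim_inr, a1]
    rw [Fin.sum_univ_eq_sum_range (fun j => -(5 * (j : ℤ))) m, ← two_mul, a2]
  have s0 : ∏ r, s r ≠ 0 := prod_ne_zero_iff.2 fun r _ => (sv r).1
  have t0 : ∏ c', t c' ≠ 0 := prod_ne_zero_iff.2 fun c' _ => tv c'
  have d0 := mul_ne_zero s0 (mul_ne_zero t0 hD)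
  rw [map_pow, map_mul, e1, e2] at hu'
  have u0 : fztwobO.subtype u ≠ 0 := fun h0 => by
    rw [h0, mul_zero] at hu'
    exact pow_ne_zero _ d0 hu'
  have uv : 0 ≤ padicValRat 2 (fztwobO.subtype u) :=
    (val_of_norm 2 u0 0).1 (by simpa using (show padicNorm 2 (u : ℚ) ≤ 1 from u.2))
  have fin := congrArg (padicValRat 2) hu'
  rw [padicValRat.pow, padicValRat.mul s0 (mul_ne_zero t0 hD), padicValRat.mul t0 hD, v1, v2,
    padicValRat.mul w0 u0, wv, hk] at fin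
  push_cast at fin
  linarith

end Pool.Agent.FMZ
end

-- part Pool.Agent.P.MP_cb43af_nt.FzTwoC
section

open Finset Filter Polynomial
namespace Pool.Agent.FMZ

theorem fztwoc_prod {α : Type} (s : Finset α) (F : α → ℚ) {t : ℚ} (ht : 0 ≤ t)
    (h : ∀ i ∈ s, padicNorm 2 (F i) ≤ t) : padicNorm 2 (∏ i ∈ s, F i) ≤ t ^ s.card := by
  classical
  induction s using Finset.induction_on with
  | empty => simp
  | insert a s ha ih =>
    rw [prod_insert ha, padicNorm.mul, card_insert_of_notMem ha, pow_succ']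
    exact mul_le_mul (h a (mem_insert_self _ _)) (ih fun i hi => h i (mem_insert_of_mem hi))
      (padicNorm.nonneg _) ht

theorem fztwoc_det {ι : Type} [Fintype ι] [DecidableEq ι] (M : Matrix ι ι ℚ) {t : ℚ} (ht : 0 ≤ t)
    (h : ∀ i j, padicNorm 2 (M i j) ≤ t) : padicNorm 2 M.det ≤ t ^ Fintype.card ι := by
  rw [Matrix.det_apply']
  refine padicNorm.sum_le' (fun σ _ => ?_) (pow_nonneg ht _)
  rw [padicNorm.mul]
  exact (mul_le_of_le_one_left (padicNorm.nonneg _) (padicNorm.of_int _)).trans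
    (fztwoc_prod univ _ ht fun i _ => h _ _)

theorem fztwoc_rowv {m : ℕ} (z : ℤ) {s u t : ℚ} (hs : padicNorm 2 s ≤ t) (hu : padicNorm 2 u ≤ t)
    (c : Col m) : padicNorm 2 (rowv m (z : ℚ) s u c) ≤ t := by
  have e : ∀ (v : ℚ) (k : ℕ), padicNorm 2 v ≤ t → padicNorm 2 (v * (z : ℚ) ^ k) ≤ t := by
    intro v k hv
    rw [padicNorm.mul, ← Int.cast_pow]
    exact (mul_le_of_le_one_right (padicNorm.nonneg _) (padicNorm.of_int _)).trans hv
  rcases c with k | k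
  · exact e s k hs
  · exact e u k hu

theorem fztwoc_sq (L : ℕ) : L ^ 2 ≤ 2 * 2 ^ L := by
  induction L with
  | zero => simp
  | succ L ih =>
    have := Nat.lt_two_pow_self (n := L)
    rw [pow_succ 2 L]
    nlinarith

theorem two_lim {a b : ℤ} {f : Nd → ℚ} (h : Ch a b f) {n m : ℕ} {x : Col m → Nd} (hx : Sel n m x)
    (hD : DD m f x ≠ 0) {L : ℕ} (hL : 12 * n ≤ 2 ^ (L + 1)) {k : ℕ}
    (hk : (univ.filter fun r => (x r).1 = true).card = k) :
    10 * (m : ℤ) * (m - 1) - 10 * (m - 1) * k + 5 * k * (k - 1) - 4 * m * (13 + 3 * L)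
      + padicValInt 2 (WW (fun r => zz (x r)) (univ.filter fun r => (x r).1 = true))
      ≤ 2 * padicValRat 2 (DD m f x) := by
  have hpos : 0 < padicNorm 2 (DD m f x) :=
    lt_of_le_of_ne (padicNorm.nonneg _) (padicNorm.nonzero hD).symm
  set t : ℚ := 2 ^ (13 + 3 * L) with ht
  have t1 : (1 : ℚ) ≤ t := one_le_pow₀ (by norm_num)
  have t13 : (2 : ℚ) ^ 13 ≤ t := pow_le_pow_right₀ (by norm_num) (by omega)
  have t3 : (2 : ℚ) ^ (3 * L) ≤ t := pow_le_pow_right₀ (by norm_num) (by omega)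
  obtain ⟨K, hK⟩ := pow_unbounded_of_one_lt (t ^ Fintype.card (Col m) / padicNorm 2 (DD m f x))
    (show (1 : ℚ) < 16 by norm_num)
  have hb : ∀ {y : ℤ}, Odd y → padicNorm 2 ((b : ℚ) * TK K y) ≤ t := fun hy => by
    rw [padicNorm.mul]
    exact (mul_le_of_le_one_left (padicNorm.nonneg _) (padicNorm.of_int _)).trans
      ((TK_norm K hy).trans t13)
  have hc : padicNorm 2 ((a : ℚ) - b * TK K 3) ≤ t :=
    padicNorm.sub.trans (max_le ((padicNorm.of_int _).trans t1)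
      (by simpa using hb (y := 3) (by decide)))
  let g : Col m → ℚ := fun r =>
    if (x r).1 = true then (a - b * TK K 3) + b * TK K (yy (x r)) else f (x r)
  have hf : ∀ r, padicNorm 2 (f (x r)) ≤ t := fun r =>
    (ch_norm h 2 hL (hx.mem r)).trans (by simpa using t3)
  have hg : ∀ r, padicNorm 2 (g r) ≤ t := fun r => by
    simp only [g]
    split_ifs with e
    · exact padicNorm.nonarchimedean.trans (max_le hc (hb ⟨6 * (x r).2 + 1, by
        simp only [yy, e, if_true]; ring⟩))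
    · exact hf r
  have hd : ∀ r, padicNorm 2 (f (x r) - g r) ≤ 1 / 16 ^ K := fun r => by
    simp only [g]
    split_ifs with e
    · have e' : x r = (true, (x r).2) := Prod.ext e rfl
      rw [e']
      exact ch_approx h K _
    · simp
  have hE := det_expand (fun r => (zz (x r) : ℚ)) (fun r => f (x r)) g
  rw [← add_sum_erase _ _ (mem_univ ∅), prod_empty, one_mul, DS_empty] at hE
  have h16 : (0 : ℚ) < 16 ^ K := by positivity
  have hR : padicNorm 2 (∑ S ∈ univ.erase ∅, (∏ r ∈ S, (f (x r) - g r)) *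
      DS m (fun r => (zz (x r) : ℚ)) g S) < padicNorm 2 (DD m f x) := by
    refine lt_of_le_of_lt (padicNorm.sum_le' (t := 1 / 16 ^ K * t ^ Fintype.card (Col m))
      (fun S hS => ?_) (by positivity)) ?_
    · rw [padicNorm.mul]
      refine mul_le_mul ((fztwoc_prod S _ (by positivity) fun r _ => hd r).trans
        (pow_le_of_le_one (by positivity) ?_ (card_ne_zero.2
          (nonempty_iff_ne_empty.2 (ne_of_mem_erase hS))))) (fztwoc_det _ (by positivity)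
          fun r c => ?_) (padicNorm.nonneg _) (by positivity)
      · rw [div_le_one h16]; exact one_le_pow₀ (by norm_num)
      · simp only [Matrix.of_apply]
        split_ifs
        · exact fztwoc_rowv _ (by simpa using zero_le_one.trans t1) (by simpa using t1) c
        · exact fztwoc_rowv _ (by simpa using t1) (hg r) c
    · rw [div_lt_iff₀ hpos] at hK
      rw [div_mul_eq_mul_div, one_mul, div_lt_iff₀ h16]
      linarith
  have hle : padicNorm 2 (DD m f x) ≤ padicNorm 2 (DG m (fun r => (zz (x r) : ℚ)) g) := by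
    have := padicNorm.nonarchimedean (p := 2) (q := DG m (fun r => (zz (x r) : ℚ)) g)
      (r := ∑ S ∈ univ.erase ∅, (∏ r ∈ S, (f (x r) - g r)) * DS m (fun r => (zz (x r) : ℚ)) g S)
    rw [← hE] at this
    exact (le_max_iff.1 this).resolve_right (not_le.2 hR)
  have hne : DG m (fun r => (zz (x r) : ℚ)) g ≠ 0 := fun e => by
    rw [e, padicNorm.zero] at hle
    exact absurd hpos (not_lt.2 hle)
  have hv := (val_of_norm 2 hne (padicValRat 2 (DG m (fun r => (zz (x r) : ℚ)) g))).2 le_rfl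
  have hv2 := (val_of_norm 2 hD _).1 (hle.trans hv)
  have := two_exact hx b (a - b * TK K 3) K (13 + 3 * L) (by omega) hc g
    (fun r _ => hg r) (fun r e => by simp only [g, e, if_true]) hne hk
  push_cast at this
  linarith
theorem two_bound {a b : ℤ} {f : Nd → ℚ} (h : Ch a b f) {ε : ℝ} (hε : 0 < ε) :
    ∀ᶠ n : ℕ in atTop, ∀ m x, Sel n m x → DD m f x ≠ 0 →
      (28 - ε) * n ^ 2 ≤ (padicValRat 2 (qq m f x) : ℝ) := by
  have h1 : ∀ c : ℝ, ∀ᶠ n : ℕ in atTop, c ≤ n := fun c =>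
    tendsto_natCast_atTop_atTop.eventually_ge_atTop c
  filter_upwards [h1 (800 / ε), h1 (24 * 14400 / ε ^ 2), eventually_ge_atTop 2]
    with n n1 n2 n3 m x hx hD
  set L := Nat.log 2 (12 * n) with hL
  have l1 : 12 * n < 2 ^ (L + 1) := Nat.lt_pow_succ_log_self (by norm_num) _
  have l2 : 2 ^ L ≤ 12 * n := Nat.pow_log_le_self _ (by omega)
  have l3 : L ^ 2 ≤ 24 * n := by have := fztwoc_sq L; omega
  have a1 := two_lim h hx hD l1.le rfl
  have a2 := val_qq 2 hx hD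
  have a3 := two_split hx
  have a4 := two_A hx (L := L) (by omega)
  have a5 := two_B hx rfl
  have a6 := two_card hx
  have a7 := hx.hm
  generalize (univ.filter fun r => (x r).1 = true).card = k at a1 a5 a6
  rw [a3] at a2
  generalize padicValInt 2 (WW (fun r => zz (x r)) (univ.filter fun r => (x r).1 = true)) = B
    at a1 a2 a5
  generalize padicValInt 2 (WW (fun r => zz (x r)) (univ.filter fun r => (x r).1 = false)) = A
    at a2 a4
  have key : 28 * (n : ℤ) ^ 2 - 400 * n - 60 * n * L ≤ padicValRat 2 (qq m f x) := by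
    obtain ⟨j, rfl⟩ : ∃ j, k = j + 1 := ⟨k - 1, by omega⟩
    rw [Nat.add_sub_cancel] at a5
    have hm : (m : ℤ) = 2 * n - 1 := by omega
    have hL0 : (0 : ℤ) ≤ L := Nat.cast_nonneg L
    have hn0 : (0 : ℤ) ≤ n := Nat.cast_nonneg n
    have hnL := mul_nonneg hn0 hL0
    zify at a4 a5
    push_cast at a1 a2
    rw [hm] at a1
    rcases (by omega : (j : ℤ) = 2 * n - 1 ∨ (j : ℤ) = 2 * n - 2 ∨ (j : ℤ) = 2 * n - 3) with
      e | e | e <;> rw [e] at a1 a5 <;> nlinarith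
  have key' : 28 * (n : ℝ) ^ 2 - 400 * n - 60 * n * L ≤ (padicValRat 2 (qq m f x) : ℝ) := by
    exact_mod_cast key
  have n0 : (0 : ℝ) < n := by exact_mod_cast (show 0 < n by omega)
  have l3' : (L : ℝ) ^ 2 ≤ 24 * n := by exact_mod_cast l3
  rw [div_le_iff₀ hε] at n1
  rw [div_le_iff₀ (by positivity)] at n2
  have l4 : (L : ℝ) ≤ ε * n / 120 := by
    refine le_of_pow_le_pow_left₀ two_ne_zero (by positivity) (l3'.trans ?_)
    nlinarith
  nlinarith

end Pool.Agent.FMZ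
end

-- part Pool.Agent.P.MP_cb43af_nt.FzMain
section

open Finset Filter Polynomial Topology
namespace Pool.Agent.FMZ

open Classical in
theorem dens_core (a : ℤ) {b : ℤ} (hb : b ≠ 0) : ∀ᶠ ν : ℕ in atTop,
    (ν : ℝ) / 32 ≤ ∑ p ∈ (PR (48 * ν)).filter (fun p => ¬ Hp a b p), Real.log p := by
  obtain ⟨f, hf⟩ := exists_ch a b
  have t2 : Tendsto (fun ν : ℕ => 2 * ν) atTop atTop :=
    tendsto_atTop_mono (fun ν => by simp only [id]; omega) tendsto_id
  filter_upwards [sum_asym, t2.eventually (real_bound hf (ε := 1 / 10) (by norm_num)),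
    t2.eventually (two_bound hf (ε := 1 / 10) (by norm_num)), eventually_ge_atTop 30]
    with ν h1 h2 h3 h4
  obtain ⟨x, hx, hD⟩ := exists_sel hb hf (n := 2 * ν) (m := 4 * ν - 1) (by omega)
  have k1 := sum_point h4 rfl (fun p => (padicValRat p (qq _ f x) : ℝ)) (fun p => ¬ Hp a b p)
    (h3 _ x hx hD) (fun p hp => triv_b hf hx hD hp) (fun p hp h5 h6 => triv_c hf hx hD hp h5 h6)
    (fun p hp h5 h6 h7 h8 => good_bound hf hx hD hp h5 h6 h7 (not_not.1 h8))
  have k2 := log_abs_ge (qq_ne_zero hx hD) (PR (48 * ν)) (fun p hp => (mem_filter.1 hp).2)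
    (fun p hp hn => triv_a hf hx hD hp (by
      by_contra hlt
      exact hn (mem_filter.2 ⟨mem_range.2 (by omega), hp⟩)))
  have k3 := h2 _ x hx hD
  have k4 := h1 _ rfl
  have hpos : (0 : ℝ) < 33 * ((2 * ν : ℕ) : ℝ) := by
    have : 0 < 2 * ν := by omega
    positivity
  refine le_of_mul_le_mul_left ?_ hpos
  linarith

end Pool.Agent.FMZ
end

-- part Pool.Agent.P.MP_cb43af_nt.FzDens
section

open Finset Filter Polynomial Topology
namespace Pool.Agent.FMZ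

theorem fzdens_ev (P : ℕ) : ∀ᶠ x : ℝ in atTop, P * Real.log x + 1 ≤ x / 20000 := by
  have h1 := (Real.isLittleO_log_id_atTop.const_mul_left (P : ℝ)).bound
    (show (0 : ℝ) < 1 / 40000 by norm_num)
  filter_upwards [h1, eventually_ge_atTop (40000 : ℝ)] with x hx hx'
  rw [Real.norm_eq_abs, Real.norm_eq_abs, id, abs_of_nonneg (by linarith : (0 : ℝ) ≤ x)] at hx
  have := le_abs_self (P * Real.log x)
  linarith

theorem dens_of_theta (bad bad' : ℕ → Prop) [DecidablePred bad] [DecidablePred bad']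
    (h : ∀ᶠ ν : ℕ in atTop, (ν : ℝ) / 32 ≤ ∑ p ∈ (PR (48 * ν)).filter bad, Real.log p)
    (h' : ∀ᶠ p in atTop, Nat.Prime p → bad p → bad' p) :
    ∀ᶠ x : ℕ in atTop, (Nat.primeCounting x : ℝ) / 2500 ≤
      (((range (x + 1)).filter fun p => p.Prime ∧ bad' p).card : ℕ) := by
  obtain ⟨P, hP⟩ := eventually_atTop.1 h'
  obtain ⟨N, hN⟩ := eventually_atTop.1 h
  have h1 := tendsto_natCast_atTop_atTop (R := ℝ) |>.eventually
    (Chebyshev.eventually_primeCounting_le (show (0 : ℝ) < 1 / 10 by norm_num))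
  have h2 := tendsto_natCast_atTop_atTop (R := ℝ) |>.eventually (fzdens_ev P)
  filter_upwards [h1, h2, eventually_ge_atTop (48 * N), eventually_ge_atTop 2] with x hx1 hx2 hx3
    hx4
  rw [Nat.floor_natCast] at hx1
  set B := (range (x + 1)).filter fun p => p.Prime ∧ bad' p with hB
  have hν := hN (x / 48) (by omega)
  have hx0 : (2 : ℝ) ≤ x := by exact_mod_cast hx4
  have hL : 0 < Real.log x := Real.log_pos (by linarith)
  have hsub : (PR (48 * (x / 48))).filter bad ⊆ range P ∪ B := by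
    intro p hp
    simp only [PR, mem_filter, mem_range] at hp
    rw [mem_union, mem_range, hB, mem_filter, mem_range]
    by_cases hpP : p < P
    · exact Or.inl hpP
    · exact Or.inr ⟨by omega, hp.1.2, hP p (by omega) hp.1.2 hp.2⟩
  have hcard : (((PR (48 * (x / 48))).filter bad).card : ℝ) ≤ P + B.card := by
    have := (card_le_card hsub).trans (card_union_le _ _)
    rw [card_range] at this
    exact_mod_cast this
  have hsum : ∑ p ∈ (PR (48 * (x / 48))).filter bad, Real.log p ≤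
      ((PR (48 * (x / 48))).filter bad).card * Real.log x := by
    rw [← nsmul_eq_mul]
    refine sum_le_card_nsmul _ _ _ fun p hp => ?_
    simp only [PR, mem_filter, mem_range] at hp
    have hp0 : (0 : ℝ) < p := by exact_mod_cast hp.1.2.pos
    exact Real.log_le_log hp0 (by exact_mod_cast (by omega : p ≤ x))
  have hdiv : (x : ℝ) ≤ 48 * ((x / 48 : ℕ) : ℝ) + 47 := by
    exact_mod_cast (by omega : x ≤ 48 * (x / 48) + 47)
  have h4 : Real.log 4 < 1.3863 := by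
    have : Real.log 4 = 2 * Real.log 2 := by
      rw [show (4 : ℝ) = 2 ^ 2 by norm_num, Real.log_pow]; norm_num
    have := Real.log_two_lt_d9
    linarith
  have h5 := mul_le_mul_of_nonneg_right hcard hL.le
  have h6 : (Nat.primeCounting x : ℝ) * Real.log x ≤ 1.4863 * x := by
    rw [le_div_iff₀ hL] at hx1
    have : (Real.log 4 + 1 / 10) * x ≤ 1.4863 * x :=
      mul_le_mul_of_nonneg_right (by linarith) (by linarith)
    linarith
  refine le_of_mul_le_mul_right ?_ hL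
  have h7 : (Nat.primeCounting x : ℝ) / 2500 * Real.log x =
      (Nat.primeCounting x : ℝ) * Real.log x / 2500 := by ring
  rw [h7]
  rw [add_mul] at h5
  linarith

end Pool.Agent.FMZ
end

-- part Pool.Agent.P.MP_cb43af_nt.FzEnd
section

open Finset Filter Polynomial Topology
namespace Pool.Agent.FMZ

theorem density (r : ℚ) : ∀ᶠ x : ℕ in atTop, (Nat.primeCounting x : ℝ) / 2500 ≤
    (((range (x + 1)).filter fun p =>
      p.Prime ∧ ¬ padicNorm p (zeta [2, 1] p - r) ≤ 1 / p).card : ℕ) := by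
  classical
  have hb : (1728 * r.den : ℤ) ≠ 0 := by
    have := r.den_pos
    positivity
  exact dens_of_theta (fun p => ¬ Hp (-5 * r.num) (1728 * r.den) p)
    (fun p => ¬ padicNorm p (zeta [2, 1] p - r) ≤ 1 / p) (dens_core _ hb)
    ((link r).mono fun p h hp hn hc => hn (h hp hc))

theorem irrat (r : ℚ) : ¬ Cong 1 (zeta [2, 1]) fun _ => r := by
  intro h
  obtain ⟨P, hP⟩ := eventually_atTop.1 h
  have t : Tendsto (fun x : ℕ => (Nat.primeCounting x : ℝ) / 2500) atTop atTop :=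
    (tendsto_natCast_atTop_atTop.comp Nat.tendsto_primeCounting).atTop_div_const (by norm_num)
  obtain ⟨x, h1, h2⟩ := ((density r).and (t.eventually_gt_atTop P)).exists
  have h3 : ((range (x + 1)).filter fun p =>
      p.Prime ∧ ¬ padicNorm p (zeta [2, 1] p - r) ≤ 1 / p).card ≤ (range P).card := by
    refine card_le_card fun p hp => mem_range.2 ?_
    by_contra hn
    have := hP p (not_lt.1 hn) (mem_filter.1 hp).2.1
    rw [pow_one] at this
    exact (mem_filter.1 hp).2.2 this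
  rw [card_range] at h3
  have h4 : (((range (x + 1)).filter fun p =>
      p.Prime ∧ ¬ padicNorm p (zeta [2, 1] p - r) ≤ 1 / p).card : ℝ) ≤ P := by exact_mod_cast h3
  linarith

theorem indep {α β : ℚ} (h : Cong 1 (fun p => α + β * zeta [2, 1] p) 0) : α = 0 ∧ β = 0 := by
  have hβ : β = 0 := by
    by_contra hβ
    refine irrat (-α / β) ?_
    have h1 := (h.smul β⁻¹).add (Cong.of_eq (N := 1) (x := fun _ => -α / β) (y := fun _ => -α / β)
      (Eventually.of_forall fun _ _ => rfl))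
    refine ((Cong.of_eq ?_).trans h1).trans (Cong.of_eq ?_)
    · exact Eventually.of_forall fun p _ => by field_simp; ring
    · exact Eventually.of_forall fun p _ => by simp
  refine ⟨?_, hβ⟩
  by_contra hα
  obtain ⟨P, hP⟩ := eventually_atTop.1 (h.and (rat_unit hα))
  obtain ⟨p, hp, hpp⟩ := Nat.exists_infinite_primes P
  have h1 := (hP p hp).1 hpp
  have h2 := (hP p hp).2 hpp
  simp only [hβ, zero_mul, add_zero, Pi.zero_apply, sub_zero, pow_one, h2] at h1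
  have h3 : (1 : ℚ) < p := by exact_mod_cast hpp.one_lt
  rw [le_div_iff₀ (by linarith)] at h1
  linarith

theorem low_weight (c : ℕ → List ℕ+ →₀ ℚ) (hw : ∀ k ∈ (c 0).support, wt k ≤ 4)
    (h : Cong 1 (trunc c 1) 0) : ∃ d, ∀ N, Cong N (trunc c N) fun p => p * trunc d N p := by
  classical
  have key : ∀ k : List ℕ+, ∃ α β : ℚ, wt k ≤ 4 →
      Lf fun p => zeta k p - (α + β * zeta [2, 1] p) := fun k => by
    by_cases hk : wt k ≤ 4
    · obtain ⟨α, β, hl⟩ := low_main k hk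
      exact ⟨α, β, fun _ => hl⟩
    · exact ⟨0, 0, fun h => absurd h hk⟩
  choose α β hl using key
  have h1 := Lf.sum (c 0).support fun k hk => (hl k (hw k hk)).smul (c 0 k)
  have e : ∀ p : ℕ, ∑ k ∈ (c 0).support, c 0 k * (zeta k p - (α k + β k * zeta [2, 1] p))
      = ((c 0).sum fun k a => a * zeta k p) - ((∑ k ∈ (c 0).support, c 0 k * α k)
        + (∑ k ∈ (c 0).support, c 0 k * β k) * zeta [2, 1] p) := fun p => by
    rw [Finsupp.sum, sum_mul, ← sum_add_distrib, ← sum_sub_distrib]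
    exact sum_congr rfl fun k _ => by ring
  have e1 : ∀ p : ℕ, trunc c 1 p = (c 0).sum fun k a => a * zeta k p := fun p => by
    simp [trunc]
  have h2 : Cong 1 (fun p => (∑ k ∈ (c 0).support, c 0 k * α k)
      + (∑ k ∈ (c 0).support, c 0 k * β k) * zeta [2, 1] p) 0 := by
    have h3 := h.add (h1.cong.smul (-1))
    refine ((Cong.of_eq ?_).trans h3).trans (Cong.of_eq ?_)
    · exact Eventually.of_forall fun p _ => by simp only [e, e1]; ring
    · exact Eventually.of_forall fun p _ => by simp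
  obtain ⟨hA, hB⟩ := indep h2
  refine lf_final c (h1.congr (Eventually.of_forall fun p _ => ?_))
  simp only [e, hA, hB]
  ring

end Pool.Agent.FMZ
end

-- part Pool.Agent.P.MP_cb43af_nt.FvEnd
section

open Finset Filter Polynomial Topology
namespace Pool.Agent.FMZ

theorem density5 (β γ r : ℚ) (h : β ≠ 0 ∨ γ ≠ 0) :
    ∀ᶠ x : ℕ in atTop, (Nat.primeCounting x : ℝ) / 2500 ≤
      (((range (x + 1)).filter fun p => p.Prime ∧
        ¬ padicNorm p (β * zeta [2, 1] p + γ * zeta [4, 1] p - r) ≤ 1 / p).card : ℕ) := by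
  classical
  have h1 := β.den_pos
  have h2 := γ.den_pos
  have h3 := r.den_pos
  have hb : (15 * 1728 * (β.num * γ.den * r.den) : ℤ) ≠ 0 ∨
      (12 ^ 5 * (γ.num * β.den * r.den) : ℤ) ≠ 0 := by
    rcases h with h | h
    · have := Rat.num_ne_zero.2 h
      exact Or.inl (by positivity)
    · have := Rat.num_ne_zero.2 h
      exact Or.inr (by positivity)
  refine dens_of_theta _ _ (dens_core5 (-75 * (r.num * β.den * γ.den)) hb)
    ((link5 (r.num * β.den * γ.den) (β.num * γ.den * r.den) (γ.num * β.den * r.den)).mono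
      fun p h hp hn hc => hn (h hp ?_))
  have := Fact.mk hp
  have e : ((β.num * γ.den * r.den : ℤ) : ℚ) * zeta [2, 1] p
      + ((γ.num * β.den * r.den : ℤ) : ℚ) * zeta [4, 1] p - ((r.num * β.den * γ.den : ℤ) : ℚ)
      = ((β.den * γ.den * r.den : ℕ) : ℚ) * (β * zeta [2, 1] p + γ * zeta [4, 1] p - r) := by
    push_cast
    rw [← Rat.mul_den_eq_num β, ← Rat.mul_den_eq_num γ, ← Rat.mul_den_eq_num r]
    ring
  rw [e, padicNorm.mul]
  exact (mul_le_of_le_one_left (padicNorm.nonneg _) (padicNorm.of_nat _)).trans hc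

theorem indep5 {α β γ : ℚ}
    (h : Cong 1 (fun p => α + β * zeta [2, 1] p + γ * zeta [4, 1] p) 0) :
    α = 0 ∧ β = 0 ∧ γ = 0 := by
  have hγ : γ = 0 := by
    by_contra hγ
    obtain ⟨P, hP⟩ := eventually_atTop.1 h
    have t : Tendsto (fun x : ℕ => (Nat.primeCounting x : ℝ) / 2500) atTop atTop :=
      (tendsto_natCast_atTop_atTop.comp Nat.tendsto_primeCounting).atTop_div_const (by norm_num)
    obtain ⟨x, h1, h2⟩ := ((density5 β γ (-α) (Or.inr hγ)).and (t.eventually_gt_atTop P)).exists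
    have h3 : ((range (x + 1)).filter fun p => p.Prime ∧
        ¬ padicNorm p (β * zeta [2, 1] p + γ * zeta [4, 1] p - -α) ≤ 1 / p).card
        ≤ (range P).card := by
      refine card_le_card fun p hp => mem_range.2 ?_
      by_contra hn
      have := hP p (not_lt.1 hn) (mem_filter.1 hp).2.1
      rw [pow_one] at this
      refine (mem_filter.1 hp).2.2 (le_of_eq_of_le ?_ this)
      simp only [Pi.zero_apply]
      congr 1
      ring
    rw [card_range] at h3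
    have h4 := (Nat.cast_le (α := ℝ)).2 h3
    linarith
  subst hγ
  obtain ⟨h1, h2⟩ := indep (α := α) (β := β)
    ((Cong.of_eq (Eventually.of_forall fun p _ => by ring)).trans h)
  exact ⟨h1, h2, rfl⟩

theorem indep6 {q : ℚ} (h : Cong 1 (fun p => q * (zeta [2, 1] p * zeta [2, 1] p)) 0) : q = 0 := by
  by_contra hq
  refine irrat 0 ?_
  filter_upwards [h, rat_unit hq] with p h1 h2 hp
  have := Fact.mk hp
  have h3 := h1 hp
  have hz : padicNorm p (zeta [2, 1] p) ≤ 1 := zeta_norm hp _ le_rfl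
  have hz2 : padicNorm p (zeta [2, 1] p * zeta [2, 1] p) ≤ 1 := by
    rw [padicNorm.mul]
    exact mul_le_one₀ hz (padicNorm.nonneg _) hz
  simp only [Pi.zero_apply, sub_zero, pow_one] at h3 ⊢
  rw [padicNorm.mul, h2 hp, one_mul, ← red_zero hz2, red_mul hz hz, mul_self_eq_zero] at h3
  exact (red_zero hz).1 h3

/-- reduction of the leading coefficient to three independent elements -/
theorem lf_basis (c : ℕ → List ℕ+ →₀ ℚ) (u v w : ℕ → ℚ)
    (hi : ∀ α β γ : ℚ, Cong 1 (fun p => α * u p + β * v p + γ * w p) 0 →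
      ∀ p, α * u p + β * v p + γ * w p = 0)
    (hk : ∀ k ∈ (c 0).support, ∃ α β γ : ℚ,
      Lf fun p => zeta k p - (α * u p + β * v p + γ * w p))
    (h : Cong 1 (trunc c 1) 0) : ∃ d, ∀ N, Cong N (trunc c N) fun p => p * trunc d N p := by
  classical
  choose! α β γ hl using hk
  have h1 := Lf.sum (c 0).support fun k hk => (hl k hk).smul (c 0 k)
  have e : ∀ p : ℕ, ∑ k ∈ (c 0).support, c 0 k * (zeta k p - (α k * u p + β k * v p + γ k * w p))
      = ((c 0).sum fun k a => a * zeta k p) - ((∑ k ∈ (c 0).support, c 0 k * α k) * u p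
        + (∑ k ∈ (c 0).support, c 0 k * β k) * v p
        + (∑ k ∈ (c 0).support, c 0 k * γ k) * w p) := fun p => by
    rw [Finsupp.sum, sum_mul, sum_mul, sum_mul, ← sum_add_distrib, ← sum_add_distrib,
      ← sum_sub_distrib]
    exact sum_congr rfl fun k _ => by ring
  have e1 : ∀ p : ℕ, trunc c 1 p = (c 0).sum fun k a => a * zeta k p := fun p => by
    simp [trunc]
  have h2 := hi _ _ _ (((Cong.of_eq (Eventually.of_forall fun p _ => by
    simp only [e, e1]; ring)).trans (h.add (h1.cong.smul (-1)))).trans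
      (Cong.of_eq (Eventually.of_forall fun p _ => by simp)) :
    Cong 1 (fun p => (∑ k ∈ (c 0).support, c 0 k * α k) * u p
      + (∑ k ∈ (c 0).support, c 0 k * β k) * v p + (∑ k ∈ (c 0).support, c 0 k * γ k) * w p) 0)
  refine lf_final c (h1.congr (Eventually.of_forall fun p _ => ?_))
  simp only [e, h2 p, sub_zero]

theorem low_weight5 (c : ℕ → List ℕ+ →₀ ℚ)
    (hw : (∀ k ∈ (c 0).support, wt k ≤ 5) ∨ ∀ k ∈ (c 0).support, wt k = 6)
    (h : Cong 1 (trunc c 1) 0) : ∃ d, ∀ N, Cong N (trunc c N) fun p => p * trunc d N p := by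
  rcases hw with hw | hw
  · refine lf_basis c (fun _ => 1) (zeta [2, 1]) (zeta [4, 1]) (fun α β γ hc p => ?_)
      (fun k hk => ?_) h
    · simp only [mul_one] at hc
      obtain ⟨rfl, rfl, rfl⟩ := indep5 hc
      simp
    · rcases (hw k hk).eq_or_lt with e | e
      · obtain ⟨q, hq⟩ := low5 k e
        exact ⟨0, 0, q, hq.congr (Eventually.of_forall fun p _ => by ring)⟩
      · obtain ⟨α, β, hq⟩ := low_main k (by omega)
        exact ⟨α, β, 0, hq.congr (Eventually.of_forall fun p _ => by ring)⟩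
  · refine lf_basis c (fun _ => 0) (fun _ => 0) (fun p => zeta [2, 1] p * zeta [2, 1] p)
      (fun α β γ hc p => ?_) (fun k hk => ?_) h
    · simp only [mul_zero, zero_add] at hc
      obtain rfl := indep6 hc
      simp
    · obtain ⟨q, hq⟩ := low6 k (hw k hk)
      exact ⟨0, 0, q, hq.congr (Eventually.of_forall fun p _ => by ring)⟩

end Pool.Agent.FMZ
end
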